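import Pool.Agent.Lib.MP_8528c3_al.AN.L0
import Pool.Agent.Lib.MP_8528c3_al.AN.F0

/-!
# Burnside project, linear control, F0A: all the constants exist
-/

namespace BAN

open BSD

namespace F0A

theorem sq_le_two_pow (k : ℕ) (hk : 4 ≤ k) : k ^ 2 ≤ 2 ^ k := by
  induction k, hk using Nat.le_induction with
  | base => norm_num
  | succ k hk ih =>
    rw [pow_succ 2 k]
    nlinarith

theorem kc_pos (k : KC) : 0 < k.κ ∧ 0 < k.A0 ∧ 0 < k.A3 ∧ 0 < k.A4 := by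
  have hδ := k.hδ
  have hT := k.hT
  have eL := k.eL
  have eL1 := k.eL1
  have eLi := k.eLi
  have eL' := k.eL'
  have eM' := k.eM'
  have hTt0 := k.hTt0
  have eκ := k.eκ
  have er1 := k.er1
  have eA0 := k.eA0
  have eA1 := k.eA1
  have eA3 := k.eA3
  have eA4 := k.eA4
  have hρ := k.ρ0
  have hM' : 0 < k.M' := by rw [eM']; positivity
  have h10 : 0 < k.κ := by
    rw [eκ]; exact div_pos (by linarith) (by linarith)
  have hdL : 0 ≤ (k.δ + 1) * k.L' := by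
    apply mul_nonneg <;> linarith
  have hA0 : 0 < k.A0 := by linarith
  exact ⟨h10, hA0, by linarith, by linarith⟩

end F0A

/-- F0A: all the constants exist. -/
theorem burn_F0A : stF0A := by
  intro δB δ T T7 hδB hδδ hT hb hT7 h7
  obtain ⟨ρ1, hρ1⟩ := burn_F0 δB δ T hδB hδδ hT hb
  refine ⟨ρ1, fun ρ hρ => ?_⟩
  obtain ⟨k, e1, e2, e3, e4, hk⟩ := hρ1 ρ hρ
  refine ⟨k, e1, e2, e3, e4, fun ε hε => ?_⟩
  obtain ⟨hκ, hA0, hA3, hA4⟩ := F0A.kc_pos k
  have hδ := k.hδ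
  obtain ⟨t, et⟩ : ∃ t : ℝ, t = tt1 k.δ k.ρ := ⟨_, rfl⟩
  have ht : 0 < t := by rw [et]; exact F0.tt1_pos _ _
  obtain ⟨B, eB⟩ : ∃ B : ℝ, B = 8 * k.δ + 8 := ⟨_, rfl⟩
  have hB : 16 ≤ B := by linarith
  obtain ⟨D, eD⟩ : ∃ D : ℝ, D = 8 * (B + 1) + 6 := ⟨_, rfl⟩
  have hD : 0 < D := by linarith
  -- the scaling factor
  obtain ⟨lam, hlam, l1, l2, l3, l4, l5⟩ : ∃ lam : ℝ, 0 < lam ∧ lam ≤ ε ∧
      lam * (100 * (k.A4 + k.A0 + k.δ + 10)) ≤ 1 / 100 ∧ lam ≤ 202 * t ∧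
      lam * (64 * B ^ 2 * (404 * t * D)) ≤ 1 ∧ lam * (52 * B + 4 + 2002 * k.A3) ≤ 1 := by
    have p1 : 0 < 100 * (k.A4 + k.A0 + k.δ + 10) := by linarith
    have p2 : 0 < 64 * B ^ 2 * (404 * t * D) := by positivity
    have p3 : 0 < 52 * B + 4 + 2002 * k.A3 := by linarith
    refine ⟨min ε (min (1 / 100 / (100 * (k.A4 + k.A0 + k.δ + 10))) (min (202 * t)
      (min (1 / (64 * B ^ 2 * (404 * t * D))) (1 / (52 * B + 4 + 2002 * k.A3))))), ?_, ?_, ?_,
      ?_, ?_, ?_⟩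
    · refine lt_min hε (lt_min (by positivity) (lt_min (by linarith) (lt_min ?_ ?_)))
      · exact one_div_pos.2 p2
      · exact one_div_pos.2 p3
    · exact min_le_left _ _
    · rw [← le_div_iff₀ p1]
      exact (min_le_right _ _).trans (min_le_left _ _)
    · exact (min_le_right _ _).trans ((min_le_right _ _).trans (min_le_left _ _))
    · rw [← le_div_iff₀ p2]
      exact (min_le_right _ _).trans ((min_le_right _ _).trans ((min_le_right _ _).trans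
        (min_le_left _ _)))
    · rw [← le_div_iff₀ p3]
      exact (min_le_right _ _).trans ((min_le_right _ _).trans ((min_le_right _ _).trans
        (min_le_right _ _)))
  obtain ⟨C1, eC1⟩ : ∃ C1 : ℝ, C1 = 404 * t / lam := ⟨_, rfl⟩
  have hClam : C1 * lam = 404 * t := by rw [eC1]; exact div_mul_cancel₀ _ hlam.ne'
  have hC1 : 2 ≤ C1 := by
    rw [eC1, le_div_iff₀ hlam]
    linarith
  have hCD : 0 ≤ C1 * D := by positivity
  -- the parameter `kk`
  obtain ⟨s, es⟩ : ∃ s : ℝ, s = Real.sqrt (C1 * D) := ⟨_, rfl⟩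
  have hs0 : 0 ≤ s := by rw [es]; exact Real.sqrt_nonneg _
  have hss : s * s = C1 * D := by rw [es]; exact Real.mul_self_sqrt hCD
  obtain ⟨kk, ekk⟩ : ∃ kk : ℕ, kk = ⌈s⌉₊ + 4 := ⟨_, rfl⟩
  have hkk1 : s ≤ (kk : ℝ) := by
    rw [ekk]
    push_cast
    have := Nat.le_ceil s
    linarith
  have hkk2 : (kk : ℝ) ≤ s + 5 := by
    rw [ekk]
    push_cast
    have := Nat.ceil_lt_add_one hs0
    linarith
  have hkk3 : (kk : ℝ) ^ 2 ≤ 2 ^ kk := by
    have := F0A.sq_le_two_pow kk (by omega)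
    exact_mod_cast this
  have hkkF : 2 * (2 * (2 * C1 * (8 * k.δ + 8)) + 2 + 2 * (2 * C1)) + 2 ≤ 2 ^ kk * 2 := by
    have h1 : C1 * D ≤ (kk : ℝ) ^ 2 := by
      rw [← hss]
      nlinarith
    rw [← eB]
    have h2 : 2 * (2 * (2 * C1 * B) + 2 + 2 * (2 * C1)) + 2 ≤ C1 * D := by
      rw [eD]
      nlinarith
    have h3 : (0 : ℝ) ≤ 2 ^ kk := by positivity
    linarith
  obtain ⟨t0, ht0⟩ := (burn_L0 C1 hC1).2.1
  have hθ : 0 < k.κ * lam * (lam / 2) ^ t0 / 2 := by positivity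
  obtain ⟨N0, hN0⟩ := hk lam (k.κ * lam * (lam / 2) ^ t0 / 2) hlam l2 hθ
  refine ⟨N0, fun n hn hodd => ?_⟩
  obtain ⟨c, c1, c2, c3, c4⟩ := hN0 n hn hodd
  subst c1
  have hkl : c.lam * (c.kl * c.n) = 101 * t := by rw [et]; exact c.elam
  have hτ : c.lam * c.τ = 2 * c.kl := by rw [c.eτ, c.eko]
  -- the main inequality
  have hn4 : c.lam * (c.n * (4 * c.τ)) = 2 * C1 := by
    have h1 : c.lam * (c.lam * (c.n * (4 * c.τ))) = c.lam * (2 * C1) := by
      calc c.lam * (c.lam * (c.n * (4 * c.τ)))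
          = c.lam * (4 * c.n * (c.lam * c.τ)) := by ring
        _ = 8 * (c.lam * (c.kl * c.n)) := by rw [hτ]; ring
        _ = 2 * (404 * t) := by rw [hkl]; ring
        _ = c.lam * (2 * C1) := by rw [← hClam, ← c3]; ring
    exact mul_left_cancel₀ c.hlam.ne' h1
  have hsl : lam * s * (8 * B) ≤ 1 := by
    have h1 : (lam * s * (8 * B)) ^ 2 ≤ 1 ^ 2 := by
      have : (lam * s * (8 * B)) ^ 2 = lam * (64 * B ^ 2 * ((C1 * lam) * D)) := by
        calc (lam * s * (8 * B)) ^ 2 = lam ^ 2 * (s * s) * (64 * B ^ 2) := by ring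
          _ = lam * (64 * B ^ 2 * ((C1 * lam) * D)) := by rw [hss]; ring
      rw [this, hClam]
      linarith
    exact le_of_sq_le_sq h1 (by norm_num)
  have hCfin : lam * (2 * (2 * C1 * ((2 * (kk : ℝ) + 3) * B) + 2) +
      1001 * (2 * C1) * c.A3) ≤ 2 * C1 := by
    have h1 : lam * (4 * (2 * (kk : ℝ) + 3) * B + 4 + 2002 * c.A3) ≤ 2 := by
      have h2 : lam * (8 * B) * (kk : ℝ) ≤ lam * (8 * B) * (s + 5) :=
        mul_le_mul_of_nonneg_left hkk2 (by positivity)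
      nlinarith
    have h2 : lam * (2 * (2 * C1 * ((2 * (kk : ℝ) + 3) * B) + 2) + 1001 * (2 * C1) * c.A3) ≤
        C1 * (lam * (4 * (2 * (kk : ℝ) + 3) * B + 4 + 2002 * c.A3)) := by
      have h3 : lam * 4 ≤ lam * (4 * C1) := mul_le_mul_of_nonneg_left (by linarith) hlam.le
      nlinarith
    have h4 := mul_le_mul_of_nonneg_left h1 (show (0 : ℝ) ≤ C1 by linarith)
    linarith
  refine ⟨{ toCC := c, T7 := T7, C1 := C1, kk := kk, t0 := t0, hT7 := hT7,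
            b7 := by rw [e1, e2]; exact h7, hC1 := hC1, hkk := hkkF, hY := ht0,
            hτ := by rw [c3]; linarith, hC := ?_ }, rfl, c2, ?_, rfl⟩
  · rw [← eB, mul_add, mul_add, hn4]
    rw [c3]
    rw [mul_add] at hCfin
    linarith
  · show c.lam ≤ ε
    rw [c3]
    exact l1

end BAN
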