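import Pool.Agent.Lib.MP_8528c3_al.AN.StF
import Pool.Agent.Lib.MP_8528c3_al.StG

/-!
# Burnside project, linear control, part G (with the new constants).  Statements only.
-/

namespace BAN

open BSD

/-- G5a: the orbits of the generator of `E i` are quasi-lines. -/
def stG5a : Prop := ∀ (G X I : Type) [Group G] [MulAction G X] [MulAction G I] (c : CC)
  (M : PM X) (E R : I → Subgroup G) (Y : I → Set X), FS c M E R Y →
  ∀ (i : I) (y0 : X) (e : G), y0 ∈ Y i → Lox M e → (∀ f : G, f ∈ E i ↔ ∃ k : ℤ, f = e ^ k) →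
  ∃ τ : ℝ, 0 < τ ∧ τ ≤ 30 * c.A3 ∧ ∀ a : ℤ, 9 / 10 * τ * |(a : ℝ)| - 30 * c.A3 ≤
    M.d y0 (e ^ a • y0) ∧ M.d y0 (e ^ a • y0) ≤ τ * |(a : ℝ)| + 30 * c.A3

/-- G5: colourings of `Y i` and of its quotient by `R i`. -/
def stG5 : Prop := ∀ (G X I : Type) [Group G] [MulAction G X] [MulAction G I] (c : CC)
  (M : PM X) (E R : I → Subgroup G) (Y : I → Set X), FS c M E R Y →
  ∀ iso : (∀ (g : G) (x y : X), M.d (g • x) (g • y) = M.d x y), ∀ (i : I) (l : ℝ), 0 ≤ l →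
  Col M (Y i) 2 l (4 * l + 1000 * c.A3) ∧
  Col (dqPM M (R i) iso) (Y i) 2 l (4 * l + 1000 * c.A3)

/-- G6: colouring of the high part of the quotient of the cone-off. -/
def stG6 : Prop := ∀ (G X I : Type) [Group G] [MulAction G X] [MulAction G I] (c : CC)
  (M : PM X) (E R : I → Subgroup G) (Y : I → Set X), FS c M E R Y →
  ∀ (hY : ∀ i, (Y i).Nonempty) (hg : ∀ (g : G) (i : I), ∀ y ∈ Y i, g • y ∈ Y (g • i)),
  letI := coAct c.ρ hg
  ∀ iso : ∀ (g : G) (x y : Co Y c.ρ), (c.Z M hY).d (g • x) (g • y) = (c.Z M hY).d x y,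
  c.lam * (1000 * c.A3) ≤ 1 → ∀ r H : ℝ, 0 ≤ r → r + 1 ≤ H →
  Col (dqPM (c.Z M hY) (KK R) iso) {z | H < ht z} 4 r (8 * Real.exp ((r + 1) / 2) + 4 * r + 20)

end BAN
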