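import Pool.Agent.Lib.MP_8528c3_al.AN.StF
import Pool.Agent.Lib.MP_8528c3_al.AN.StG

set_option autoImplicit false

/-!
# Burnside project, linear control, F14s: points with bounded displacement by a short loxodromic
element
-/

namespace BAN

open BSD

namespace F14sAux

variable {G X : Type} [Group G] [MulAction G X] {M : PM X}

theorem dsp_npow (iso : Iso G M) (f : G) (y : X) (q : ℕ) :
    M.d y (f ^ q • y) ≤ q * M.d y (f • y) := by
  induction q with
  | zero =>
    rw [pow_zero, one_smul, M.self]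
    simp
  | succ q ih =>
    have h1 := M.tri y (f ^ q • y) (f ^ (q + 1) • y)
    have h2 : M.d (f ^ q • y) (f ^ (q + 1) • y) = M.d y (f • y) := by
      rw [pow_succ, mul_smul, iso]
    push_cast
    linarith

end F14sAux

open F14sAux in
/-- F14s. -/
theorem burn_F14s (hF15b : stF15b) (hF6 : stF6) (hF7 : stF7) (hG5a : stG5a) (hF0b : stF0b)
    (hF0c : stF0c) : stF14s := by
  intro G X _ _ c M hst g hg hgL x y B hB
  obtain ⟨z, hz⟩ := hgL
  obtain ⟨hFS, hcov, -⟩ := hF15b G X c M hst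
  obtain ⟨i, hi⟩ := hcov g z hg hz
  obtain ⟨⟨hgen, -⟩, -⟩ := hF6 G X _ c M _ _ _ hFS
  obtain ⟨e, he1, hlox, hE, hYe⟩ := hgen i
  obtain ⟨k, hk⟩ := (hE g).1 hi
  obtain ⟨⟨-, hL', hLM, -⟩, ⟨hA0, -, -, hA3, -⟩, -⟩ := hF0b c
  obtain ⟨-, -, -, -, -, hL1, -⟩ := hF0c c
  have iso := hst.iso
  have hδ := c.hδ
  have eA1 := c.eA1
  have eA3 := c.eA3
  have hLA : c.L ≤ c.A3 := by
    have eA0 := c.eA0
    have er1 := c.er1
    have eL' := c.eL'
    have eLi := c.eLi
    have eL1 := c.eL1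
    have hρ := c.ρ0
    have h1 : 0 ≤ 1000 * (c.δ + 1) * c.L' := by nlinarith
    linarith
  have hg1 : g ≠ 1 := by
    rintro rfl
    obtain ⟨a, ha, h⟩ := hg
    have := h z 1
    rw [one_pow, one_smul, M.self] at this
    push_cast at this
    linarith
  obtain ⟨x', hx', hdx⟩ := hF7 G X _ c M _ _ _ hFS i g hi hg1 x B hB.1
  obtain ⟨y', hy', hdy⟩ := hF7 G X _ c M _ _ _ hFS i g hi hg1 y B hB.2
  obtain ⟨m, hm⟩ := hst.h5 e x' y' he1 ⟨((hYe x').1 hx').trans hL1, ((hYe y').1 hy').trans hL1⟩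
  obtain ⟨τ, hτ, -, hτa⟩ := hG5a G X _ c M _ _ _ hFS i x' e hx' hlox hE
  -- the translation length of `g`
  have hkey : 9 / 10 * τ * |(k : ℝ)| ≤ c.L := by
    by_contra hcon
    rw [not_le] at hcon
    obtain ⟨j, hj⟩ := exists_nat_gt ((2 * M.d z x' + 30 * c.A3) / (9 / 10 * τ * |(k : ℝ)| - c.L))
    rw [div_lt_iff₀ (by linarith)] at hj
    have h1 := (hτa (k * j)).1
    have h2 : M.d x' (g ^ j • x') ≤ 2 * M.d x' z + M.d z (g ^ j • z) := by
      have t1 := M.tri x' z (g ^ j • x')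
      have t2 := M.tri z (g ^ j • z) (g ^ j • x')
      have t3 := iso (g ^ j) z x'
      have t4 := M.symm z x'
      linarith
    have h3 := dsp_npow iso g z j
    have h4 : g ^ j = e ^ (k * (j : ℤ)) := by
      rw [hk, zpow_mul, zpow_natCast]
    rw [h4] at h2
    rw [h4] at h3
    have h5 : (j : ℝ) * M.d z (g • z) ≤ j * c.L := mul_le_mul_of_nonneg_left hz (Nat.cast_nonneg j)
    have h6 : |((k * (j : ℤ) : ℤ) : ℝ)| = |(k : ℝ)| * j := by
      push_cast
      rw [abs_mul, Nat.abs_cast]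
    rw [h6] at h1
    have h7 := M.symm x' z
    nlinarith
  -- division with remainder
  have hk0 : (k : ℝ) ≠ 0 := by
    intro h
    have h1 : k = 0 := by exact_mod_cast h
    rw [h1, zpow_zero] at hk
    exact hg1 hk
  set q : ℤ := round ((m : ℝ) / k) with hq
  have hr : |((k * q - m : ℤ) : ℝ)| ≤ |(k : ℝ)| / 2 := by
    have h1 := abs_sub_round ((m : ℝ) / k)
    rw [← hq] at h1
    have h2 : ((k * q - m : ℤ) : ℝ) = -((m : ℝ) / k - q) * k := by
      push_cast
      field_simp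
      ring
    rw [h2, abs_mul, abs_neg]
    have h3 := mul_le_mul_of_nonneg_right h1 (abs_nonneg (k : ℝ))
    linarith
  refine ⟨q, ?_⟩
  have e1 : g ^ q = e ^ (k * q) := by rw [hk, zpow_mul]
  rw [e1]
  have t1 := M.tri y y' (e ^ (k * q) • x)
  have t2 := M.tri y' (e ^ m • x') (e ^ (k * q) • x)
  have t3 := M.tri (e ^ m • x') (e ^ (k * q) • x') (e ^ (k * q) • x)
  have t4 := iso (e ^ (k * q)) x' x
  have t5 := M.symm x' x
  have t6 : M.d (e ^ m • x') (e ^ (k * q) • x') = M.d x' (e ^ (k * q - m) • x') := by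
    have h1 := iso (e ^ m) x' (e ^ (k * q - m) • x')
    rw [smul_smul, ← zpow_add] at h1
    rw [← h1]
    congr 3
    ring
  have t7 := (hτa (k * q - m)).2
  have t8 : τ * |((k * q - m : ℤ) : ℝ)| ≤ τ * (|(k : ℝ)| / 2) := mul_le_mul_of_nonneg_left hr hτ.le
  linarith

end BAN
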