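import Pool.Agent.Lib.MP_8528c3_al.AN.StL

/-!
# Burnside project, linear control, L0: the sequence `Yt`
-/

namespace BAN

open BSD

namespace L0

theorem den_ge (C y : ℝ) (hC : 2 ≤ C) (hy : 1 ≤ y) : 1 ≤ 1 + (y - 1) / (C - 1) := by
  have : 0 ≤ (y - 1) / (C - 1) := div_nonneg (by linarith) (by linarith)
  linarith

theorem bounds (C : ℝ) (hC : 2 ≤ C) (t : ℕ) : 1 ≤ Yt C t ∧ Yt C t ≤ C := by
  induction t with
  | zero =>
    show 1 ≤ C ∧ C ≤ C
    exact ⟨by linarith, le_rfl⟩
  | succ t ih =>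
    have hD := den_ge C (Yt C t) hC ih.1
    have hD0 : 0 < 1 + (Yt C t - 1) / (C - 1) := by linarith
    show 1 ≤ Yt C t / (1 + (Yt C t - 1) / (C - 1)) ∧
      Yt C t / (1 + (Yt C t - 1) / (C - 1)) ≤ C
    constructor
    · rw [le_div_iff₀ hD0]
      have h1 : (Yt C t - 1) / (C - 1) ≤ Yt C t - 1 :=
        div_le_self (by linarith [ih.1]) (by linarith)
      linarith
    · exact (div_le_self (by linarith [ih.1]) hD).trans ih.2

theorem anti (C : ℝ) (hC : 2 ≤ C) (t : ℕ) : Yt C (t + 1) ≤ Yt C t := by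
  have hD := den_ge C (Yt C t) hC (bounds C hC t).1
  exact div_le_self (by linarith [(bounds C hC t).1]) hD

theorem exists_le (C : ℝ) (hC : 2 ≤ C) : ∃ t, Yt C (t + 1) ≤ 2 := by
  by_contra hcon
  have hcon' : ∀ t, 2 < Yt C (t + 1) := fun t => by
    by_contra h
    exact hcon ⟨t, not_lt.1 h⟩
  have hC1 : 0 < C - 1 := by linarith
  have h0 : ∀ t, 2 < Yt C t := fun t => lt_of_lt_of_le (hcon' t) (anti C hC t)
  have hstep : ∀ t, Yt C (t + 1) ≤ (C - 1) / C * Yt C t := by
    intro t
    have hD : C / (C - 1) ≤ 1 + (Yt C t - 1) / (C - 1) := by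
      have h1 : 1 / (C - 1) ≤ (Yt C t - 1) / (C - 1) :=
        div_le_div_of_nonneg_right (by linarith [h0 t]) hC1.le
      have h2 : C / (C - 1) = 1 + 1 / (C - 1) := by
        field_simp
        ring
      linarith
    have hCC : 0 < C / (C - 1) := div_pos (by linarith) hC1
    show Yt C t / (1 + (Yt C t - 1) / (C - 1)) ≤ _
    have h3 : Yt C t / (1 + (Yt C t - 1) / (C - 1)) ≤ Yt C t / (C / (C - 1)) :=
      div_le_div_of_nonneg_left (by linarith [h0 t]) hCC hD
    have h4 : Yt C t / (C / (C - 1)) = (C - 1) / C * Yt C t := by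
      field_simp
    linarith
  have hθ0 : 0 ≤ (C - 1) / C := div_nonneg hC1.le (by linarith)
  have hθ1 : (C - 1) / C < 1 := by
    rw [div_lt_one (by linarith)]
    linarith
  have hpow : ∀ t, Yt C t ≤ ((C - 1) / C) ^ t * C := by
    intro t
    induction t with
    | zero => show C ≤ _; simp
    | succ t ih =>
      refine (hstep t).trans ?_
      have := mul_le_mul_of_nonneg_left ih hθ0
      rw [pow_succ]
      linarith
  obtain ⟨m, hm⟩ := exists_pow_lt_of_lt_one (show (0 : ℝ) < 1 / C by positivity) hθ1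
  have h5 := hpow m
  have h6 : ((C - 1) / C) ^ m * C ≤ 1 / C * C :=
    mul_le_mul_of_nonneg_right hm.le (by linarith)
  have h7 : 1 / C * C = 1 := by
    field_simp
  linarith [h0 m]

end L0

/-- L0: the sequence `Yt`. -/
theorem burn_L0 : stL0 := by
  intro C hC
  refine ⟨fun t => ⟨(L0.bounds C hC t).1, (L0.bounds C hC t).2, L0.anti C hC t⟩,
    L0.exists_le C hC, ?_⟩
  intro t e w f v he hew hwe hf hv
  have hY := (L0.bounds C hC t).1
  have hY1 := (L0.bounds C hC (t + 1)).1
  have hD := L0.den_ge C (Yt C t) hC hY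
  have hD0 : 0 < 1 + (Yt C t - 1) / (C - 1) := by linarith
  have hC1 : 0 < C - 1 := by linarith
  have key : w ≤ Yt C (t + 1) * (e + (w - e) / (C - 1)) := by
    have h1 : Yt C (t + 1) * (1 + (Yt C t - 1) / (C - 1)) = Yt C t := by
      show Yt C t / (1 + (Yt C t - 1) / (C - 1)) * (1 + (Yt C t - 1) / (C - 1)) = Yt C t
      exact div_mul_cancel₀ _ hD0.ne'
    -- `e ≥ w / Y`
    have hYpos : 0 < Yt C t := by linarith
    have h2 : w / Yt C t ≤ e := by
      rw [div_le_iff₀ hYpos]
      linarith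
    have h3 : w / Yt C t + (w - w / Yt C t) / (C - 1) ≤ e + (w - e) / (C - 1) := by
      have h4 : (e - w / Yt C t) / (C - 1) ≤ e - w / Yt C t :=
        div_le_self (by linarith) (by linarith)
      have h5 : (w - w / Yt C t) / (C - 1) = (w - e) / (C - 1) + (e - w / Yt C t) / (C - 1) := by
        rw [← add_div]
        congr 1
        ring
      linarith
    have h6 : w / Yt C t + (w - w / Yt C t) / (C - 1) =
        w / Yt C t * (1 + (Yt C t - 1) / (C - 1)) := by
      field_simp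
    have h7 := mul_le_mul_of_nonneg_left h3 (show (0 : ℝ) ≤ Yt C (t + 1) by linarith)
    rw [h6] at h7
    have h8 : Yt C (t + 1) * (w / Yt C t * (1 + (Yt C t - 1) / (C - 1))) = w := by
      rw [show Yt C (t + 1) * (w / Yt C t * (1 + (Yt C t - 1) / (C - 1))) =
        w / Yt C t * (Yt C (t + 1) * (1 + (Yt C t - 1) / (C - 1))) by ring, h1]
      exact div_mul_cancel₀ _ hYpos.ne'
    linarith
  have h9 := mul_le_mul_of_nonneg_left hf (show (0 : ℝ) ≤ Yt C (t + 1) by linarith)
  linarith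

end BAN
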