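import Pool.Agent.Lib.MP_8528c3_al.AN.KDefs

/-!
# Burnside project, linear control, part K (generic): statements only
-/

namespace BAN

open BSD

/-- K1: upper bounds for the mixed metric; it is invariant. -/
def stK1 : Prop := ∀ (G X : Type) [Group G] [MulAction G X] (E : PM X) (W : G → ℝ) (hW : WNm W)
  (x0 : X) (p q : ℝ) (hp : 0 ≤ p) (hq : 0 ≤ q),
  (∀ x y, (mx E W hW x0 p q hp hq).d x y ≤ p * E.d x y) ∧
  (∀ g h : G, (mx E W hW x0 p q hp hq).d (g • x0) (h • x0) ≤ q * W (g⁻¹ * h)) ∧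
  (Iso G E → Iso G (mx E W hW x0 p q hp hq))

/-- K2: maximality of the mixed metric. -/
def stK2 : Prop := ∀ (G X : Type) [Group G] [MulAction G X] (E : PM X) (W : G → ℝ) (hW : WNm W)
  (x0 : X) (p q : ℝ) (hp : 0 ≤ p) (hq : 0 ≤ q) (N : PM X), (∀ x y, N.d x y ≤ p * E.d x y) →
  (∀ g h : G, N.d (g • x0) (h • x0) ≤ q * W (g⁻¹ * h)) →
  ∀ x y, N.d x y ≤ (mx E W hW x0 p q hp hq).d x y

/-- K3: on the orbit, chains are not shorter than `W`. -/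
def stK3 : Prop := ∀ (G X : Type) [Group G] [MulAction G X] (E : PM X) (W : G → ℝ), WNm W →
  ∀ (x0 : X) (C : ℝ), Iso G E → 0 ≤ C → (∀ g : G, W g ≤ C * E.d x0 (g • x0)) →
  ∀ (g h : G) (a b : ℝ), CP E W x0 (g • x0) (h • x0) a b → W (g⁻¹ * h) ≤ C * a + b

/-- K3b: comparison of `E`, of the un-coned metric and of the word metric. -/
def stK3b : Prop := ∀ (G X : Type) [Group G] [MulAction G X] (E : PM X) (W : G → ℝ) (hW : WNm W)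
  (x0 : X) (C : ℝ) (hC : 0 ≤ C), Iso G E → 1 ≤ C → (∀ g : G, E.d x0 (g • x0) ≤ W g) →
  (∀ x y, (fl E W hW x0).d x y ≤ E.d x y) ∧
  (∀ x y, E.d x y ≤ 2 * (fl E W hW x0).d x y) ∧
  (∀ x y, E.d x y ≤ (wm E W hW x0 C hC).d x y) ∧
  (∀ x y, (wm E W hW x0 C hC).d x y ≤ C * E.d x y) ∧
  (∀ x y, (wm E W hW x0 C hC).d x y ≤ 2 * C * (fl E W hW x0).d x y) ∧
  (∀ g h : G, (wm E W hW x0 C hC).d (g • x0) (h • x0) ≤ W (g⁻¹ * h))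

/-- K4: almost geodesics. -/
def stK4 : Prop := ∀ (G X : Type) [Group G] [MulAction G X] (E : PM X) (W : G → ℝ) (hW : WNm W)
  (x0 : X) (C : ℝ) (hC : 0 ≤ C), E.SG 2 → WSt W →
  (fl E W hW x0).SG 2 ∧ SGS (fl E W hW x0) (wm E W hW x0 C hC)

/-- K5: guessing geodesics for a metric `M` between `N` and `C N`. -/
def stK5 : Prop := ∀ (X : Type) (N M : PM X) (L : X → X → Set X) (h C : ℝ) (k : ℕ), 1 ≤ h →
  1 ≤ C → (∀ x y, N.d x y ≤ M.d x y) → (∀ x y, M.d x y ≤ C * N.d x y) → SGS N M →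
  GGH N L h 2 → 2 * (2 * (C * h) + 2 + 2 * C) + 2 ≤ 2 ^ k * 2 →
  ∀ x y, ∀ w ∈ L x y, M.gp x y w ≤ C * ((2 * k + 3) * h) + 2

/-- K6: the almost geodesics of a hyperbolic space satisfy the hypotheses of the guessing
geodesics lemma. -/
def stK6 : Prop := ∀ (X : Type) (N : PM X) (δ h0 : ℝ), N.Hyp δ → N.SG 2 → 0 ≤ δ → δ + 5 ≤ h0 →
  GGH N (fun x y => {w | N.gp x y w ≤ h0}) (h0 + 3 * δ + 3) 2

/-- K7: a metric `M` with `M ≤ N ≤ 2 M` is hyperbolic, with almost the same geodesics. -/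
def stK7 : Prop := ∀ δ : ℝ, 0 ≤ δ → ∃ δ' T : ℝ, δ ≤ δ' ∧ 1 ≤ δ' ∧ 0 ≤ T ∧ ∀ (X : Type)
  (N M : PM X), N.Hyp δ → N.SG 2 → M.SG 2 → (∀ x y, M.d x y ≤ N.d x y) →
  (∀ x y, N.d x y ≤ 2 * M.d x y) →
  M.Hyp δ' ∧ ∀ x y w, N.gp x y w ≤ δ + 5 → M.gp x y w ≤ T

/-- K8: transfer of the properties of a stage to the un-coned metric. -/
def stK8 : Prop := ∀ (G X : Type) [Group G] [MulAction G X] (E M : PM X) (n : ℕ)
  (δ δ' Li A0 kl : ℝ), STAGE G E n δ (2 * Li) A0 (2 * kl) → (∀ x y, M.d x y ≤ E.d x y) →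
  (∀ x y, E.d x y ≤ 2 * M.d x y) → Iso G M → M.Hyp δ' → M.SG 2 → 0 ≤ kl →
  STAGE G M n δ' Li A0 kl

/-- K9: transfer of the colourings of the annuli. -/
def stK9 : Prop := ∀ (X : Type) (E M : PM X) (δ T D0 : ℝ) (q : ℕ), E.Hyp δ → 1 ≤ δ → E.SG 2 →
  (∀ x y, M.d x y ≤ E.d x y) → (∀ x y, E.d x y ≤ 2 * M.d x y) → 0 ≤ T →
  (∀ x y w, E.gp x y w ≤ δ + 5 → M.gp x y w ≤ T) → 0 < q → 0 ≤ D0 →
  Sph E q (12 * δ + 27) 3 D0 → ∀ r : ℝ, 0 ≤ r →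
  Sph M q r 3 (12 * r + 10 * (δ + 40 + T) + 24 * (D0 + 18 * δ + 46))

/-- K10: stable lengths. -/
def stK10 : Prop := ∀ (G X : Type) [Group G] [MulAction G X] (M : PM X), Iso G M → ∀ g : G,
  0 ≤ sl M g ∧
  (∀ (x : X) (m : ℕ), sl M g * m ≤ M.d x (g ^ m • x)) ∧
  (Nonempty X → ∀ c : ℝ, (∀ (x : X) (m : ℕ), c * m ≤ M.d x (g ^ m • x)) → c ≤ sl M g) ∧
  (∀ (x : X) (ε : ℝ), 0 < ε → ∀ m0 : ℕ, ∃ m : ℕ, m0 ≤ m ∧ 1 ≤ m ∧
    M.d x (g ^ m • x) ≤ (sl M g + ε) * m) ∧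
  (∀ p : ℕ, Nonempty X → sl M (g ^ p) = p * sl M g) ∧
  (Nonempty X → (Lox M g ↔ 0 < sl M g))

/-- K10w: stable lengths for norms. -/
def stK10w : Prop := ∀ (G : Type) [Group G] (W : G → ℝ), WNm W → ∀ g : G,
  0 ≤ slW W g ∧ (∀ m : ℕ, slW W g * m ≤ W (g ^ m)) ∧
  (∀ c : ℝ, (∀ m : ℕ, c * m ≤ W (g ^ m)) → c ≤ slW W g) ∧
  (∀ ε : ℝ, 0 < ε → ∀ m0 : ℕ, ∃ m : ℕ, m0 ≤ m ∧ 1 ≤ m ∧ W (g ^ m) ≤ (slW W g + ε) * m)

/-- K11: growth of the stable lengths of the un-coned metric. -/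
def stK11 : Prop := ∀ (G X : Type) [Group G] [MulAction G X] (E : PM X) (W : G → ℝ) (hW : WNm W)
  (x0 : X) (C : ℝ), Iso G E → 2 ≤ C → (∀ g : G, E.d x0 (g • x0) ≤ W g) →
  (∀ g : G, W g ≤ C * E.d x0 (g • x0)) →
  ∀ g : G, sl E g + (slW W g - sl E g) / (C - 1) ≤ 2 * sl (fl E W hW x0) g

/-- K12: the ratio of the stable lengths of a metric `V` and of `W` (only an inequality). -/
def stK12 : Prop := ∀ (G X : Type) [Group G] [MulAction G X] (V : PM X) (W : G → ℝ) (x0 : X),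
  Iso G V → WNm W → (∀ g h : G, V.d (g • x0) (h • x0) ≤ W (g⁻¹ * h)) →
  ∀ g : G, sl V g ≤ slW W g

end BAN
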