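import Pool.Agent.Lib.MP_8528c3_al.AN.StL
import Pool.Agent.Lib.MP_8528c3_al.AN.StK

/-!
# Burnside project, linear control, L1: displacement of the powers of the generators
-/

namespace BAN

open BSD

namespace L1Aux

variable {G X : Type} [Group G] [MulAction G X] {M V : PM X}

theorem growth (hK10 : stK10) (isoV : Iso G V) {g : G} {z : X} {T : ℝ} (hT : 0 ≤ T)
    (hv : ∀ a b : ℕ, 1 ≤ a → 1 ≤ b → V.d z (g ^ a • z) + V.d z (g ^ b • z) ≤
      V.d z (g ^ (a + b) • z) + 2 * T) (b : ℕ) : V.d z (g ^ b • z) ≤ b * sl V g + 2 * T := by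
  have hne : Nonempty X := ⟨z⟩
  rcases Nat.eq_zero_or_pos b with hb | hb
  · subst hb
    rw [pow_zero, one_smul, V.self]
    push_cast
    linarith
  have h1 : ∀ m : ℕ, ((m : ℝ) + 1) * V.d z (g ^ b • z) ≤
      V.d z (g ^ (b * (m + 1)) • z) + 2 * T * m := by
    intro m
    induction m with
    | zero => simp
    | succ m ih =>
      have h2 := hv (b * (m + 1)) b (Nat.mul_pos hb (Nat.succ_pos m)) hb
      have h3 : b * (m + 1) + b = b * (m + 1 + 1) := by ring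
      rw [h3] at h2
      push_cast at ih ⊢
      linarith
  refine le_of_forall_pos_le_add fun ε hε => ?_
  obtain ⟨m, -, hm1, hm⟩ := (hK10 G X V isoV (g ^ b)).2.2.2.1 z ε hε 1
  have h7 := (hK10 G X V isoV g).2.2.2.2.1 b hne
  obtain ⟨m', rfl⟩ : ∃ m', m = m' + 1 := ⟨m - 1, by omega⟩
  have h8 := h1 m'
  rw [pow_mul] at h8
  rw [h7] at hm
  push_cast at hm
  have h9 : (0 : ℝ) < m' + 1 := by positivity
  have h10 : ((m' : ℝ) + 1) * V.d z (g ^ b • z) ≤ (m' + 1) * (b * sl V g + ε + 2 * T) := by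
    nlinarith
  have h11 := le_of_mul_le_mul_left h10 h9
  linarith

theorem exists_min (g : G) (hne : Nonempty X) {s : ℝ}
    (hs : ∀ x : X, s ≤ M.d x (g • x)) : ∃ (l : ℝ) (z : X), s ≤ l ∧
      (∀ x : X, l ≤ M.d x (g • x)) ∧ M.d z (g • z) ≤ l + 1 := by
  obtain ⟨x0⟩ := hne
  have hbd : BddBelow (Set.range fun x : X => M.d x (g • x)) := ⟨s, by
    rintro _ ⟨x, rfl⟩
    exact hs x⟩
  have hn : (Set.range fun x : X => M.d x (g • x)).Nonempty := ⟨_, x0, rfl⟩
  obtain ⟨_, ⟨z, rfl⟩, hz⟩ := exists_lt_of_csInf_lt hn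
    (lt_add_one (sInf (Set.range fun x : X => M.d x (g • x))))
  exact ⟨sInf (Set.range fun x : X => M.d x (g • x)), z,
    le_csInf hn (by rintro _ ⟨x, rfl⟩; exact hs x),
    fun x => csInf_le hbd ⟨x, rfl⟩, hz.le⟩

theorem disp (isoM : Iso G M) (f : G) (u v : X) :
    M.d u (f • u) ≤ 2 * M.d u v + M.d v (f • v) := by
  have h1 := M.tri u v (f • u)
  have h2 := M.tri v (f • v) (f • u)
  have h3 := isoM f v u
  have h4 := M.symm u v
  linarith

end L1Aux

open L1Aux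

theorem burn_L1 (hE8 : stE8) (hF0b : stF0b) (hF0c : stF0c) (hF6 : stF6) (hF7 : stF7)
    (hG5a : stG5a) (hK5 : stK5) (hK6 : stK6) (hK10 : stK10) : stL1 := by
  intro G X I _ _ _ c M E R Y hfs V C k isoV hC hMV hVM hSG hk i e y r he hy
  have isoM := hfs.st.iso
  obtain ⟨⟨hE, hlox, -⟩, -⟩ := hF6 G X I c M E R Y hfs
  obtain ⟨⟨hL, hL'1, -⟩, ⟨hA0, hA1, -, hA3, -⟩, -⟩ := hF0b c
  obtain ⟨-, -, -, -, -, hL1i, -⟩ := hF0c c
  have hδ := c.hδ
  obtain ⟨e0, he01, hle0, he0, -⟩ := hE i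
  have hmem : ∀ f : G, f ∈ E i ↔ ∃ k : ℤ, f = e ^ k := by
    intro f
    rw [← he, Subgroup.mem_zpowers_iff]
    exact ⟨fun ⟨k, hk⟩ => ⟨k, hk.symm⟩, fun ⟨k, hk⟩ => ⟨k, hk.symm⟩⟩
  have heE : e ∈ E i := (hmem e).2 ⟨1, by rw [zpow_one]⟩
  have he1 : e ≠ 1 := by
    rintro rfl
    obtain ⟨k, hk⟩ := (hmem e0).1 ((he0 e0).2 ⟨1, by rw [zpow_one]⟩)
    rw [one_zpow] at hk
    exact he01 hk
  have hle : Lox M e := (hlox i e heE he1).1
  obtain ⟨τ, hτ, hτ3, hD⟩ := hG5a G X I c M E R Y hfs i y e hy hle hmem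
  -- all the points of `Y i` have small displacement by the generator
  have hYd : ∀ u v : X, u ∈ Y i → v ∈ Y i → ∃ m : ℤ, M.d v (e ^ m • u) ≤ c.A0 := by
    intro u v hu hv
    have h1 : ∀ w ∈ Y i, M.d w (e • w) ≤ c.Li := by
      intro w hw
      obtain ⟨e', he', hw'⟩ := (hfs.Yd i w).1 hw
      have h2 : e ∈ Subgroup.zpowers e' := by rw [he']; exact heE
      have h3 : e' ∈ Subgroup.zpowers e := by rw [he, ← he']; exact Subgroup.mem_zpowers e'
      obtain ⟨a, ha⟩ := Subgroup.mem_zpowers_iff.1 h2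
      obtain ⟨b, hb⟩ := Subgroup.mem_zpowers_iff.1 h3
      have h4 : e ^ (b * a - 1) = 1 := by
        rw [zpow_sub, zpow_mul, hb, ha, zpow_one, mul_inv_cancel]
      have hab : b * a = 1 := by
        by_contra hne
        obtain ⟨t, ht, hm⟩ := hle
        have h5 : e ^ ((b * a - 1).natAbs) = 1 := by
          rcases Int.natAbs_eq (b * a - 1) with h6 | h6
          · rw [h6, zpow_natCast] at h4
            exact h4
          · rw [h6, zpow_neg, zpow_natCast, inv_eq_one] at h4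
            exact h4
        have h7 := hm y ((b * a - 1).natAbs)
        rw [h5, one_smul, M.self] at h7
        have h8 : (0 : ℝ) < (b * a - 1).natAbs := by
          have : (b * a - 1).natAbs ≠ 0 := by omega
          exact_mod_cast Nat.pos_of_ne_zero this
        have := mul_pos ht h8
        linarith
      have h9 : M.d w (e • w) = M.d w (e' • w) := by
        rcases Int.eq_one_or_neg_one_of_mul_eq_one hab with hb1 | hb1
        · rw [hb1, zpow_one] at hb
          rw [hb]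
        · rw [hb1, zpow_neg_one] at hb
          rw [← hb]
          have := isoM e w (e⁻¹ • w)
          rw [smul_inv_smul] at this
          rw [← this, M.symm]
      rw [h9]
      exact hw'.trans hL1i
    exact hfs.st.h5 e u v he1 ⟨h1 u hu, h1 v hv⟩
  -- the constants
  have hA0δ : 300 * c.δ + 300 ≤ c.A0 := by
    have h1 := c.eA0
    have h2 := c.er1
    have h3 := c.eM'
    have h4 := c.ρ0
    have h5 := Real.exp_pos ((3 * c.L' + 5) / 2)
    nlinarith
  have hA3' : 3 * c.A0 + 60 * c.δ + 130 = c.A3 := by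
    rw [c.eA3, c.eA1]
    ring
  set p : ℕ := ⌈40 * c.A3 / τ⌉₊ with hp
  have hp2 : 40 * c.A3 ≤ τ * p := by
    have h1 := Nat.le_ceil (40 * c.A3 / τ)
    rw [div_le_iff₀ hτ] at h1
    rw [← hp] at h1
    linarith
  have hp3 : τ * p < 40 * c.A3 + τ := by
    have h1 := Nat.ceil_lt_add_one (div_nonneg (by linarith : (0 : ℝ) ≤ 40 * c.A3) hτ.le)
    rw [← hp] at h1
    have h2 := mul_lt_mul_of_pos_left h1 hτ
    rw [mul_add, mul_div_cancel₀ _ hτ.ne', mul_one] at h2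
    exact h2
  have hp0 : 0 < p := by
    rw [Nat.pos_iff_ne_zero]
    intro h1
    rw [h1] at hp2
    push_cast at hp2
    linarith
  have hDn : ∀ a : ℕ, 9 / 10 * τ * a - 30 * c.A3 ≤ M.d y (e ^ a • y) ∧
      M.d y (e ^ a • y) ≤ τ * a + 30 * c.A3 := by
    intro a
    have h1 := hD a
    rw [zpow_natCast] at h1
    simpa using h1
  have hlow : 6 * c.A3 ≤ M.d y (e ^ p • y) := by
    have h1 := (hDn p).1
    nlinarith
  have hup : M.d y (e ^ p • y) ≤ 100 * c.A3 := by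
    have h1 := (hDn p).2
    linarith
  have hpE : e ^ p ∈ E i := (hmem _).2 ⟨p, by rw [zpow_natCast]⟩
  have hp1 : e ^ p ≠ 1 := by
    intro h1
    rw [h1, one_smul, M.self] at hlow
    linarith
  have hcomm : ∀ (m : ℤ) (x : X), e ^ p • e ^ m • x = e ^ m • e ^ p • x := by
    intro m x
    rw [← mul_smul, ← mul_smul]
    congr 1
    rw [← zpow_natCast e p, ← zpow_add, ← zpow_add, add_comm]
  have hs : ∀ x : X, 100 * c.δ + 100 ≤ M.d x (e ^ p • x) := by
    intro x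
    by_contra h1
    push Not at h1
    obtain ⟨y1, hy1, h2⟩ := hF7 G X I c M E R Y hfs i (e ^ p) hpE hp1 x _ h1.le
    obtain ⟨m, hm⟩ := hYd y1 y hy1 hy
    have h3 := disp isoM (e ^ p) y (e ^ m • x)
    have h4 : M.d (e ^ m • x) (e ^ p • e ^ m • x) = M.d x (e ^ p • x) := by
      rw [hcomm, isoM]
    have h5 := M.tri y (e ^ m • y1) (e ^ m • x)
    have h6 := isoM (e ^ m) y1 x
    have h7 := M.symm y1 x
    linarith
  obtain ⟨l, z0, hl, hmin, hz0⟩ := exists_min (e ^ p) hfs.st.ne hs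
  have hl2 : l ≤ 100 * c.A3 := (hmin y).trans hup
  obtain ⟨y1, hy1, hzy⟩ := hF7 G X I c M E R Y hfs i (e ^ p) hpE hp1 z0 (100 * c.A3 + 1)
    (by linarith)
  obtain ⟨m, hm⟩ := hYd y1 y hy1 hy
  set z := e ^ m • z0 with hzdef
  have hyz : M.d y z ≤ 104 * c.A3 := by
    have h5 := M.tri y (e ^ m • y1) z
    have h6 := isoM (e ^ m) y1 z0
    have h7 := M.symm y1 z0
    linarith
  have hz : M.d z (e ^ p • z) ≤ l + 1 := by
    rw [hzdef, hcomm, isoM]
    exact hz0
  obtain ⟨hgp, -⟩ := hE8 G X M c.δ l isoM hfs.st.hyp hfs.st.sg hδ hl (e ^ p) z hmin hz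
  have hGG := hK6 X M c.δ (5 * c.δ + 5) hfs.st.hyp hfs.st.sg (by linarith) (by linarith)
  rw [show 5 * c.δ + 5 + 3 * c.δ + 3 = 8 * c.δ + 8 by ring] at hGG
  have hT := hK5 X M V _ (8 * c.δ + 8) C k (by linarith) hC hMV hVM hSG hGG hk
  set T1 := C * ((2 * k + 3) * (8 * c.δ + 8)) + 2 with hT1
  have hT10 : 0 ≤ T1 := by positivity
  have hv : ∀ a b : ℕ, 1 ≤ a → 1 ≤ b → V.d z ((e ^ p) ^ a • z) + V.d z ((e ^ p) ^ b • z) ≤
      V.d z ((e ^ p) ^ (a + b) • z) + 2 * T1 := by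
    intro a b ha hb
    have h1 := hgp 0 a ((a + b : ℕ) : ℤ) (by exact_mod_cast ha) (by push_cast; omega)
    rw [zpow_zero, one_smul, zpow_natCast, zpow_natCast] at h1
    have h2 := hT z ((e ^ p) ^ (a + b) • z) ((e ^ p) ^ a • z)
      (show M.gp z ((e ^ p) ^ (a + b) • z) ((e ^ p) ^ a • z) ≤ 5 * c.δ + 5 by linarith)
    have h3 : V.d ((e ^ p) ^ (a + b) • z) ((e ^ p) ^ a • z) = V.d z ((e ^ p) ^ b • z) := by
      rw [pow_add, mul_smul, isoV, V.symm]
    rw [PM.gp, h3] at h2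
    linarith
  have hgr := growth hK10 isoV hT10 hv (r / p)
  have hsl := (hK10 G X V isoV e).2.2.2.2.1 p hfs.st.ne
  have hsl0 := (hK10 G X V isoV e).1
  rw [hsl] at hgr
  -- conclusion
  have hr : p * (r / p) + r % p = r := Nat.div_add_mod r p
  have h1 : V.d y (e ^ r • y) ≤ V.d y z + V.d z ((e ^ p) ^ (r / p) • z) + V.d y z +
      V.d y (e ^ (r % p) • y) := by
    have h2 := V.tri y z (e ^ r • y)
    have h3 := V.tri z ((e ^ p) ^ (r / p) • z) (e ^ r • y)
    have h4 := V.tri ((e ^ p) ^ (r / p) • z) ((e ^ p) ^ (r / p) • y) (e ^ r • y)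
    have h5 : e ^ r • y = (e ^ p) ^ (r / p) • e ^ (r % p) • y := by
      rw [← mul_smul, ← pow_mul, ← pow_add, hr]
    have h6 := isoV ((e ^ p) ^ (r / p)) z y
    have h7 := V.symm z y
    have h8 := isoV ((e ^ p) ^ (r / p)) y (e ^ (r % p) • y)
    rw [← h5] at h8
    linarith
  have h2 : V.d y z ≤ C * (104 * c.A3) :=
    (hVM y z).trans (mul_le_mul_of_nonneg_left hyz (by linarith))
  have h3 : V.d y (e ^ (r % p) • y) ≤ C * (70 * c.A3) := by
    refine (hVM _ _).trans (mul_le_mul_of_nonneg_left ?_ (by linarith))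
    have h4 := (hDn (r % p)).2
    have h5 : ((r % p : ℕ) : ℝ) + 1 ≤ p := by exact_mod_cast Nat.mod_lt r hp0
    have h6 : τ * ((r % p : ℕ) : ℝ) + τ ≤ τ * p := by nlinarith
    linarith
  have h4 : ((r / p : ℕ) : ℝ) * (p * sl V e) ≤ r * sl V e := by
    have h5 : (p : ℝ) * ((r / p : ℕ) : ℝ) ≤ r := by
      exact_mod_cast Nat.mul_div_le r p
    nlinarith
  have h5 : 0 ≤ C * c.A3 := mul_nonneg (by linarith) hA3.le
  nlinarith

end BAN
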