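import Pool.Agent.Lib.MP_8528c3_al.AN.StL
import Pool.Agent.Lib.MP_8528c3_al.AN.StK

/-!
# Burnside project, linear control, L2: diameter of the quotient of `Y i` by `R i`
-/

namespace BAN

open BSD

theorem burn_L2 (hF0b : stF0b) (hF0c : stF0c) (hF6 : stF6) (hK10 : stK10) (hL1 : stL1) :
    stL2 := by
  intro G X I _ _ _ c M E R Y hfs V C k isoV hC hMV hVM hSG hk i e he y hy y' hy'
  have isoM := hfs.st.iso
  obtain ⟨⟨hE, hlox, -⟩, -⟩ := hF6 G X I c M E R Y hfs
  obtain ⟨⟨hL, hL'1, -⟩, ⟨hA0, hA1, -, hA3, -⟩, -⟩ := hF0b c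
  obtain ⟨-, -, -, -, -, hL1i, -, hn⟩ := hF0c c
  have hδ := c.hδ
  obtain ⟨e0, he01, hle0, he0, -⟩ := hE i
  have heE : e ∈ E i := by rw [← he]; exact Subgroup.mem_zpowers e
  have he1 : e ≠ 1 := by
    rintro rfl
    have h1 : e0 ∈ E i := (he0 e0).2 ⟨1, by rw [zpow_one]⟩
    rw [← he, Subgroup.mem_zpowers_iff] at h1
    obtain ⟨k, hk⟩ := h1
    rw [one_zpow] at hk
    exact he01 hk.symm
  have hle : Lox M e := (hlox i e heE he1).1
  have hDY : ∀ w ∈ Y i, M.d w (e • w) ≤ c.Li := by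
    intro w hw
    obtain ⟨e', he', hw'⟩ := (hfs.Yd i w).1 hw
    have h2 : e ∈ Subgroup.zpowers e' := by rw [he']; exact heE
    have h3 : e' ∈ Subgroup.zpowers e := by rw [he, ← he']; exact Subgroup.mem_zpowers e'
    obtain ⟨a, ha⟩ := Subgroup.mem_zpowers_iff.1 h2
    obtain ⟨b, hb⟩ := Subgroup.mem_zpowers_iff.1 h3
    have h4 : e ^ (b * a - 1) = 1 := by
      rw [zpow_sub, zpow_mul, hb, ha, zpow_one, mul_inv_cancel]
    have hab : b * a = 1 := by
      by_contra hne
      obtain ⟨t, ht, hm⟩ := hle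
      have h5 : e ^ ((b * a - 1).natAbs) = 1 := by
        rcases Int.natAbs_eq (b * a - 1) with h6 | h6
        · rw [h6, zpow_natCast] at h4
          exact h4
        · rw [h6, zpow_neg, zpow_natCast, inv_eq_one] at h4
          exact h4
      have h7 := hm y ((b * a - 1).natAbs)
      rw [h5, one_smul, M.self] at h7
      have h8 : (0 : ℝ) < (b * a - 1).natAbs := by
        have : (b * a - 1).natAbs ≠ 0 := by omega
        exact_mod_cast Nat.pos_of_ne_zero this
      have := mul_pos ht h8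
      linarith
    have h9 : M.d w (e • w) = M.d w (e' • w) := by
      rcases Int.eq_one_or_neg_one_of_mul_eq_one hab with hb1 | hb1
      · rw [hb1, zpow_one] at hb
        rw [hb]
      · rw [hb1, zpow_neg_one] at hb
        rw [← hb]
        have := isoM e w (e⁻¹ • w)
        rw [smul_inv_smul] at this
        rw [← this, M.symm]
    rw [h9]
    exact hw'.trans hL1i
  obtain ⟨m, hm⟩ := hfs.st.h5 e y' y he1 ⟨hDY y' hy', hDY y hy⟩
  have hn' : (0 : ℤ) < c.n := by exact_mod_cast hn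
  -- `m = n q + s`
  set q : ℤ := m / c.n with hq
  set s : ℤ := m % c.n with hs
  have hs0 : 0 ≤ s := Int.emod_nonneg m hn'.ne'
  have hsn : s < c.n := Int.emod_lt_of_pos m hn'
  obtain ⟨s', hs'⟩ := Int.eq_ofNat_of_zero_le hs0
  have hm' : m = s + q * c.n := by
    have := Int.emod_add_mul_ediv m c.n
    rw [← this]
    ring
  refine ⟨(e ^ q) ^ c.n, (hfs.Rd i _).2 ⟨e ^ q, ?_, rfl⟩, ?_⟩
  · exact (E i).zpow_mem heE q
  have h1 : e ^ m • y' = (e ^ q) ^ c.n • e ^ s' • y' := by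
    rw [← mul_smul]
    congr 1
    rw [hm', hs', add_comm, zpow_add, zpow_mul, zpow_natCast, zpow_natCast]
  have h2 := V.tri y (e ^ m • y') ((e ^ q) ^ c.n • y')
  have h3 : V.d y (e ^ m • y') ≤ C * c.A0 :=
    (hVM _ _).trans (mul_le_mul_of_nonneg_left hm (by linarith))
  have h4 : V.d (e ^ m • y') ((e ^ q) ^ c.n • y') = V.d y' (e ^ s' • y') := by
    rw [h1, isoV, V.symm]
  have h5 := hL1 G X I c M E R Y hfs V C k isoV hC hMV hVM hSG hk i e y' s' he hy'
  have h6 := (hK10 G X V isoV e).1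
  have h7 : (s' : ℝ) * sl V e ≤ c.n * sl V e := by
    refine mul_le_mul_of_nonneg_right ?_ h6
    have : s' < c.n := by omega
    exact_mod_cast this.le
  have h8 : c.A0 ≤ c.A3 := by
    rw [c.eA3, c.eA1]
    linarith
  have h9 : C * c.A0 ≤ C * c.A3 := mul_le_mul_of_nonneg_left h8 (by linarith)
  linarith

end BAN
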