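import Pool.Agent.Lib.MP_8528c3_al.AN.StF
import Pool.Agent.Lib.MP_8528c3_al.AN.StK

/-!
# Burnside project, linear control, F9S: exactness

The stable length of a short loxodromic element which does not belong to any `E i` is multiplied
by `lam`.
-/

namespace BAN

open BSD

/-- The potential: `h` on the base, linear interpolation between `h` and the constant `cc i` at the
heights between `0` and `1` of the cone `i`, constant above. -/
noncomputable def pot88 {X I : Type} {Y : I → Set X} {ρ : ℝ} (h : X → ℝ) (cc : I → ℝ) :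
    Co Y ρ → ℝ
  | Co.base x => h x
  | Co.cone i y _ s _ _ => h y + min 1 s * (cc i - h y)
  | Co.apex i => cc i

theorem pot_mv88 {X I : Type} {M : PM X} {Y : I → Set X} {ρ : ℝ} (h : X → ℝ) (cc : I → ℝ)
    (hρ : 1 ≤ ρ) (hL : ∀ x x', |h x - h x'| ≤ M.d x x') (hc : ∀ i, ∀ y ∈ Y i, |h y - cc i| ≤ 1) :
    ∀ (p q : Co Y ρ) (c : ℝ), Mv M Y ρ p q c → pot88 h cc q - pot88 h cc p ≤ c := by
  intro p q c hm
  cases hm with
  | base x x' =>
    have h1 := abs_le.1 (hL x x')
    change h x' - h x ≤ _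
    linarith [h1.1]
  | up i y hy h0 =>
    change h y + min 1 0 * (cc i - h y) - h y ≤ 0
    rw [min_eq_right zero_le_one]
    linarith
  | dn i y hy h0 =>
    change h y - (h y + min 1 0 * (cc i - h y)) ≤ 0
    rw [min_eq_right zero_le_one]
    linarith
  | vert i y hy s s' h0 h1 h0' h1' =>
    change h y + min 1 s' * (cc i - h y) - (h y + min 1 s * (cc i - h y)) ≤ _
    have e1 : h y + min 1 s' * (cc i - h y) - (h y + min 1 s * (cc i - h y)) =
      (min 1 s' - min 1 s) * (cc i - h y) := by ring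
    rw [e1]
    have h2 : |min 1 s' - min 1 s| ≤ |s - s'| := by
      refine (abs_min_sub_min_le_max 1 s' 1 s).trans ?_
      rw [sub_self, abs_zero, abs_sub_comm]
      exact max_le (abs_nonneg _) le_rfl
    have h3 : |cc i - h y| ≤ 1 := by
      rw [abs_sub_comm]
      exact hc i y hy
    calc (min 1 s' - min 1 s) * (cc i - h y) ≤ |(min 1 s' - min 1 s) * (cc i - h y)| :=
          le_abs_self _
      _ = |min 1 s' - min 1 s| * |cc i - h y| := abs_mul _ _
      _ ≤ |s - s'| * 1 := mul_le_mul h2 h3 (abs_nonneg _) (abs_nonneg _)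
      _ = |s - s'| := mul_one _
  | hor i y y' hy hy' s h0 h1 =>
    change h y' + min 1 s * (cc i - h y') - (h y + min 1 s * (cc i - h y)) ≤ _
    have e1 : h y' + min 1 s * (cc i - h y') - (h y + min 1 s * (cc i - h y)) =
      (h y' - h y) * (1 - min 1 s) := by ring
    rw [e1]
    have h2 : h y' - h y ≤ M.d y y' := by
      have h1 := abs_le.1 (hL y y')
      linarith [h1.1]
    have h3 : 0 ≤ 1 - min 1 s := sub_nonneg.2 (min_le_left _ _)
    have h4 : 1 - min 1 s ≤ Real.exp (-s) := by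
      rcases le_total 1 s with hs | hs
      · rw [min_eq_left hs, sub_self]
        exact (Real.exp_pos _).le
      · rw [min_eq_right hs]
        have := Real.add_one_le_exp (-s)
        linarith
    calc (h y' - h y) * (1 - min 1 s) ≤ M.d y y' * (1 - min 1 s) :=
          mul_le_mul_of_nonneg_right h2 h3
      _ ≤ M.d y y' * Real.exp (-s) := mul_le_mul_of_nonneg_left h4 (M.nonneg _ _)
  | top i y hy h0 =>
    change cc i - (h y + min 1 ρ * (cc i - h y)) ≤ 0
    rw [min_eq_left hρ]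
    linarith
  | topr i y hy h0 =>
    change h y + min 1 ρ * (cc i - h y) - cc i ≤ 0
    rw [min_eq_left hρ]
    linarith

/-- Displacements in the cone-off, for two points of a quasi-convex set which is not in the
family. -/
theorem osc88 {X J : Type} {M : PM X} {Y' : J → Set X} (hB2 : stB2) (hB4 : stB4)
    (hTH : TH M Y') {π : J → X → X} {y0 : J → X} (hPr : Pr M Y' π y0) {j0 : J} {a b : X}
    (ha : a ∈ Y' j0) (hb : b ∈ Y' j0) {j : J} (hj : j ≠ j0) {y y' : X} (hy : y ∈ Y' j)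
    (hy' : y' ∈ Y' j) : |(M.d y a - M.d y b) / 2 - (M.d y' a - M.d y' b) / 2| ≤ 1 := by
  have h1 := hB4 X J M Y' π y0 hTH hPr j0 j (Ne.symm hj) y hy y' hy'
  have h2 := hB2 X J M Y' π y0 hTH hPr j0 y a ha
  have h3 := hB2 X J M Y' π y0 hTH hPr j0 y b hb
  have h4 := hB2 X J M Y' π y0 hTH hPr j0 y' a ha
  have h5 := hB2 X J M Y' π y0 hTH hPr j0 y' b hb
  unfold PM.gp at h2 h3 h4 h5
  have s1 := M.symm (π j0 y) (π j0 y')
  have t1 := M.tri y (π j0 y) a
  have t2 := M.tri y (π j0 y) b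
  have t3 := M.tri y' (π j0 y') a
  have t4 := M.tri y' (π j0 y') b
  have t5 := M.tri (π j0 y) (π j0 y') a
  have t6 := M.tri (π j0 y) (π j0 y') b
  have t7 := M.tri (π j0 y') (π j0 y) a
  have t8 := M.tri (π j0 y') (π j0 y) b
  have s2 := M.symm a (π j0 y)
  have s3 := M.symm b (π j0 y)
  have s4 := M.symm a (π j0 y')
  have s5 := M.symm b (π j0 y')
  rw [abs_le]
  constructor <;> linarith

theorem burn_F9S (hB1 : stB1) (hB2 : stB2) (hB4 : stB4) (hC7 : stC7) (hD8 : stD8)
    (hD11 : stD11) (hE5b : stE5b) (hK10 : stK10) (hF0b : stF0b) (hF4 : stF4) (hF5w : stF5w)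
    (hF6 : stF6) (hF15b : stF15b) : stF9S := by
  intro G X I _ _ _ c M E R Y fs hY hg
  let _ := coAct c.ρ hg
  intro g hgl hgE hgx
  obtain ⟨hfull, hcov, hio⟩ := hF15b G X c M fs.st
  obtain ⟨x1, hx1⟩ := hgx
  obtain ⟨j0, hj0⟩ := hcov g x1 hgl hx1
  obtain ⟨ι, hι⟩ := hio I E R Y fs
  obtain ⟨⟨f1, f2, f3, f4, f5, f6, f7, f8, f9, f10, f11⟩, ⟨_, _, _, _, _, _, _, _, hM2⟩,
    ⟨hlam, _⟩⟩ := hF0b c
  have hδ := c.hδ
  have hT := c.hT
  have eM2 := c.eM2
  have eC3 := c.eC3
  have hρ1 := c.hρ1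
  have hl0 := c.hlam
  have h20 : 20 ≤ c.ρ := by linarith
  have hTρ : c.T + 1 + c.δ < c.ρ := by linarith
  have hTH := (hF4 G X I c M E R Y fs).1
  have hTH' := (hF4 G X (FI G M c.L) c M _ _ _ hfull).1
  have hCO := c.b20 X I (c.N M) Y c.ρ hY c.ρ0 h20 hTH
  have hws := hF5w G X I c M E R Y fs hY hg
  obtain ⟨π, y0, hPr'⟩ := hB1 X (FI G M c.L) (c.N M) (fun i => YY M c.L1 i.1) hTH'.ne
  have hne : ∀ i, ι i ≠ j0 := by
    intro i hi
    refine hgE i ?_
    rw [← (hι i).1, hi]
    exact hj0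
  have hPr : Pr (c.N M) Y (fun i => π (ι i)) (fun i => y0 (ι i)) := by
    refine ⟨fun i x => ?_, fun i x y hy => ?_, fun i y hy => ?_, fun i => ?_⟩
    · rw [← (hι i).2]
      exact hPr'.mem (ι i) x
    · rw [← (hι i).2] at hy
      exact hPr'.le (ι i) x y hy
    · rw [← (hι i).2] at hy
      exact hPr'.fix (ι i) y hy
    · rw [← (hι i).2]
      exact hPr'.y0 (ι i)
  -- the set of `g` is invariant
  obtain ⟨⟨_, _, hfx, _, _⟩, ⟨hgY, _, _, _⟩⟩ := hF6 G X (FI G M c.L) c M _ _ _ hfull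
  obtain ⟨z, hz⟩ := hTH'.ne j0
  have hpow : ∀ k : ℤ, g ^ k • z ∈ YY M c.L1 j0.1 := by
    intro k
    have h1 := hgY (g ^ k) j0 z hz
    have h2 : g ^ k • j0 = j0 := (hfx (g ^ k) j0).2 (j0.1.zpow_mem hj0 k)
    rw [h2] at h1
    exact h1
  -- the growth in the cone-off
  have key : ∀ m : ℕ, c.lam * sl M g * m ≤ (c.Z M hY).d (Co.base z) (Co.base (g ^ m • z)) := by
    intro m
    set a : X := g ^ (-(m : ℤ)) • z with ha
    set b : X := g ^ (m : ℤ) • z with hb
    have haY : a ∈ YY M c.L1 j0.1 := hpow _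
    have hbY : b ∈ YY M c.L1 j0.1 := hpow _
    set h : X → ℝ := fun x => ((c.N M).d x a - (c.N M).d x b) / 2 with hh
    have hL : ∀ x x', |h x - h x'| ≤ (c.N M).d x x' := by
      intro x x'
      have t1 := (c.N M).tri x x' a
      have t2 := (c.N M).tri x x' b
      have t3 := (c.N M).tri x' x a
      have t4 := (c.N M).tri x' x b
      have s1 := (c.N M).symm x' x
      rw [abs_le]
      simp only [hh]
      constructor <;> linarith
    have hc : ∀ i, ∀ y ∈ Y i, |h y - h (y0 (ι i))| ≤ 1 := by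
      intro i y hy
      rw [← (hι i).2] at hy
      exact osc88 hB2 hB4 hTH' hPr' haY hbY (hne i) hy (hPr'.y0 (ι i))
    have h1 := coD_potential (M := c.N M) hY c.ρ0 (pot88 h fun i => h (y0 (ι i)))
      (pot_mv88 h _ (by linarith) hL hc) (Co.base z) (Co.base (g ^ m • z))
    change h (g ^ m • z) - h z ≤ _ at h1
    refine le_trans ?_ h1
    have e1 : g ^ m • z = b := by rw [hb, zpow_natCast]
    have iso : ∀ (f : G) (x y : X), (c.N M).d (f • x) (f • y) = (c.N M).d x y := by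
      intro f x y
      show c.lam * M.d (f • x) (f • y) = c.lam * M.d x y
      rw [fs.st.iso f x y]
    have e2 : (c.N M).d z a = (c.N M).d z b := by
      have h2 := iso (g ^ (m : ℤ)) z a
      rw [ha, smul_smul, ← zpow_add, add_neg_cancel, zpow_zero, one_smul] at h2
      rw [ha, ← h2, (c.N M).symm]
    have e3 : (c.N M).d b a = c.lam * M.d z (g ^ (2 * m) • z) := by
      have h2 := iso (g ^ (m : ℤ)) b a
      have h3 : g ^ (m : ℤ) • a = z := by
        rw [ha, smul_smul, ← zpow_add, add_neg_cancel, zpow_zero, one_smul]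
      have h4 : g ^ (m : ℤ) • b = g ^ (2 * m) • z := by
        rw [hb, smul_smul, ← zpow_add, ← zpow_natCast g (2 * m)]
        congr 2
        push_cast
        ring
      rw [h3, h4, (c.N M).symm] at h2
      exact h2.symm
    have h2 := (hK10 G X M fs.st.iso g).2.1 z (2 * m)
    have h3 := mul_le_mul_of_nonneg_left h2 hl0.le
    simp only [hh]
    rw [e1, e2, e3, (c.N M).self]
    push_cast at h3
    linarith
  -- the growth in the quotient
  have hq : ∀ m : ℕ, c.lam * sl M g * m - 0 ≤ (dqPM (c.Z M hY) (KK R) hws.rf.iso).d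
      (Co.base z : Co Y c.ρ) (g ^ m • (Co.base z : Co Y c.ρ)) := by
    intro m
    change _ ≤ dqf (c.Z M hY) (KK R) (Co.base z) (Co.base (g ^ m • z))
    rw [sub_zero, hD11 G (Co Y c.ρ) I (c.Z M hY) (fun i => Co.apex i) R
      (thC (c.N M) hY c.ρ0 c.δ) c.ρ (2 * c.δ + 1) c.δ hws (Co.base z) (Co.base (g ^ m • z))
      fun i => ?_]
    · exact key m
    have h1 := (hC7 X I (c.N M) Y c.ρ c.δ c.T hY c.ρ0 _ _ h20 hTH hPr hCO.1 hδ hT
      (fun a b c' p' h => hCO.2 _ _ hPr a b c' p' h) hTρ i z).2 (g ^ m • z)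
    have h2 := hB4 X (FI G M c.L) (c.N M) (fun i => YY M c.L1 i.1) π y0 hTH' hPr' (ι i) j0
      (hne i) z hz (g ^ m • z) (by have := hpow m; rwa [zpow_natCast] at this)
    have h3 : 0 < tt1 c.δ c.ρ := by
      unfold tt1
      have := Real.exp_pos c.ρ
      have := Real.exp_pos (5 * c.δ + 14)
      linarith
    refine h1.trans ?_
    rw [div_le_iff₀ h3]
    linarith
  have hiso := (hD8 G (Co Y c.ρ) I (c.Z M hY) (fun i => Co.apex i) R
      (thC (c.N M) hY c.ρ0 c.δ) c.ρ (2 * c.δ + 1) c.δ hws).2 hws.rf.iso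
  intro x m
  exact hE5b G (Co Y c.ρ) (dqPM (c.Z M hY) (KK R) hws.rf.iso) (c.lam * sl M g) 0 hiso.1 g
    (Co.base z) hq x m

end BAN
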