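import Pool.Agent.Lib.MP_8528c3_al.AN.StL
import Pool.Agent.Lib.MP_8528c3_al.AN.F9S

/-!
# Burnside project, linear control, L3: control of a metric by the quotient of the cone-off
-/

namespace BAN

open BSD

/-- A nonempty set of diameter at most `2` is in an interval of radius `1`. -/
theorem centre88 {X : Type} {Y : Set X} (hY : Y.Nonempty) (F : X → ℝ)
    (h : ∀ y ∈ Y, ∀ y' ∈ Y, F y ≤ F y' + 2) : ∃ c : ℝ, ∀ y ∈ Y, |F y - c| ≤ 1 := by
  obtain ⟨y0, hy0⟩ := hY
  have hb : BddBelow (F '' Y) := ⟨F y0 - 2, by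
    rintro t ⟨y, hy, rfl⟩
    have := h y0 hy0 y hy
    linarith⟩
  refine ⟨sInf (F '' Y) + 1, fun y hy => ?_⟩
  have h1 : sInf (F '' Y) ≤ F y := csInf_le hb ⟨y, hy, rfl⟩
  have h2 : F y - 2 ≤ sInf (F '' Y) := by
    refine le_csInf ⟨_, y0, hy0, rfl⟩ ?_
    rintro t ⟨y', hy', rfl⟩
    have := h y hy y' hy'
    linarith
  rw [abs_le]
  constructor <;> linarith

theorem burn_L3 (hF0b : stF0b) : stL3 := by
  intro G X I _ _ _ c M E R Y fs hY hg
  let _ := coAct c.ρ hg
  intro V C1 hC1 hV hVM hYV x y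
  obtain ⟨⟨f1, f2, f3, f4, f5, f6, f7, f8, f9, f10, f11⟩, _, _⟩ := hF0b c
  have hδ := c.hδ
  have hρ1 := c.hρ1
  have hl0 := c.hlam
  have hρ : 1 ≤ c.ρ := by linarith
  set F : X → ℝ := fun z => c.lam / (2 * C1) * dqf V (KK R) x z with hF
  have ha0 : 0 < c.lam / (2 * C1) := by positivity
  have hlip : ∀ z z' : X, |F z - F z'| ≤ c.lam / (2 * C1) * dqf V (KK R) z z' := by
    intro z z'
    have t1 := (dqPM V (KK R) hV).tri x z z'
    have t2 := (dqPM V (KK R) hV).tri x z' z
    have s1 := (dqPM V (KK R) hV).symm z' z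
    change dqf V (KK R) x z' ≤ dqf V (KK R) x z + dqf V (KK R) z z' at t1
    change dqf V (KK R) x z ≤ dqf V (KK R) x z' + dqf V (KK R) z' z at t2
    change dqf V (KK R) z' z = dqf V (KK R) z z' at s1
    rw [s1] at t2
    have t1' := mul_le_mul_of_nonneg_left t1 ha0.le
    have t2' := mul_le_mul_of_nonneg_left t2 ha0.le
    rw [abs_le]
    simp only [hF]
    constructor <;> linarith
  have hle : ∀ z z' : X, ∀ k ∈ KK R, |F z - F z'| ≤ c.lam / (2 * C1) * V.d z (k • z') := by
    intro z z' k hk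
    exact (hlip z z').trans (mul_le_mul_of_nonneg_left (dqf_le V (KK R) z z' hk) ha0.le)
  have hL : ∀ z z', |F z - F z'| ≤ (c.N M).d z z' := by
    intro z z'
    refine (hle z z' 1 (KK R).one_mem).trans ?_
    rw [one_smul]
    change _ ≤ c.lam * M.d z z'
    have h1 := mul_le_mul_of_nonneg_left (hVM z z') ha0.le
    have e : c.lam / (2 * C1) * (2 * C1 * M.d z z') = c.lam * M.d z z' := by
      field_simp
    linarith
  have hosc : ∀ i, ∀ z ∈ Y i, ∀ z' ∈ Y i, F z ≤ F z' + 2 := by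
    intro i z hz z' hz'
    obtain ⟨r, hr, h1⟩ := hYV i z hz z' hz'
    have hrK : r ∈ KK R := Subgroup.subset_closure ⟨i, hr⟩
    have h2 := (abs_le.1 (hle z z' r hrK)).2
    have h3 : c.lam / (2 * C1) * V.d z (r • z') ≤ 2 := by
      rw [div_mul_eq_mul_div, div_le_iff₀ (by positivity)]
      linarith
    linarith
  choose cc hcc using fun i => centre88 (hY i) F (hosc i)
  have hx : F x = 0 := by
    have h1 := (dqPM V (KK R) hV).self x
    change dqf V (KK R) x x = 0 at h1
    simp only [hF]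
    rw [h1, mul_zero]
  have hy : ∀ k ∈ KK R, F (k • y) = F y := by
    intro k hk
    simp only [hF]
    rw [dqf_smul_right V (KK R) x y hk]
  have key : F y ≤ dqf (c.Z M hY) (KK R) (Co.base x) (Co.base y) := by
    refine le_dqf _ _ _ _ fun k hk => ?_
    have h1 := coD_potential (M := c.N M) hY c.ρ0 (pot88 F cc)
      (pot_mv88 F cc hρ hL hcc) (Co.base x) (Co.base (k • y))
    change F (k • y) - F x ≤ _ at h1
    rw [hx, sub_zero, hy k hk] at h1
    exact h1
  have h2 := mul_le_mul_of_nonneg_left key hC1.le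
  have e : C1 * F y = c.lam / 2 * dqf V (KK R) x y := by
    simp only [hF]
    field_simp
  linarith

end BAN
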