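import Pool.Agent.Lib.MP_8528c3_al.AN.StL

/-!
# Burnside project, linear control, L5: the normalised word norm
-/

namespace BAN

open BSD

section

variable {α : Type} [DecidableEq α] {G : Type} [Group G] {φ : FreeGroup α →* G} {q : ℝ} {j : ℕ}

theorem nw_le (hq : 0 ≤ q) {g : G} {u : FreeGroup α} (h : φ u = g) :
    nw q φ j g ≤ q ^ j * (u.norm : ℝ) := by
  unfold nw
  refine mul_le_mul_of_nonneg_left ?_ (pow_nonneg hq j)
  exact_mod_cast Nat.sInf_le (s := {k : ℕ | ∃ u : FreeGroup α, φ u = g ∧ u.norm = k}) ⟨u, h, rfl⟩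

theorem nw_ex (hs : Function.Surjective φ) (g : G) :
    ∃ u : FreeGroup α, φ u = g ∧ nw q φ j g = q ^ j * (u.norm : ℝ) := by
  obtain ⟨u0, hu0⟩ := hs g
  obtain ⟨u, hu, hn⟩ := Nat.sInf_mem
    (s := {k : ℕ | ∃ u : FreeGroup α, φ u = g ∧ u.norm = k}) ⟨_, u0, hu0, rfl⟩
  refine ⟨u, hu, ?_⟩
  unfold nw
  rw [hn]

theorem nw_nonneg (hq : 0 ≤ q) (g : G) : 0 ≤ nw q φ j g := by
  unfold nw
  positivity

theorem nw_wnm (hs : Function.Surjective φ) (hq : 0 ≤ q) : WNm (nw q φ j) := by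
  refine ⟨nw_nonneg hq, ?_, ?_, ?_⟩
  · refine le_antisymm ?_ (nw_nonneg hq 1)
    have h := nw_le (φ := φ) (j := j) hq (map_one φ)
    rw [FreeGroup.norm_one] at h
    simpa using h
  · have key : ∀ g : G, nw q φ j g⁻¹ ≤ nw q φ j g := by
      intro g
      obtain ⟨u, hu, hn⟩ := nw_ex (q := q) (j := j) hs g
      rw [hn, ← FreeGroup.norm_inv_eq (x := u)]
      exact nw_le hq (by rw [map_inv, hu])
    intro g
    refine le_antisymm (key g) ?_
    have h := key g⁻¹
    rwa [inv_inv] at h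
  · intro g h
    obtain ⟨u, hu, hn⟩ := nw_ex (q := q) (j := j) hs g
    obtain ⟨v, hv, hm⟩ := nw_ex (q := q) (j := j) hs h
    rw [hn, hm, ← mul_add]
    refine (nw_le (u := u * v) hq (by rw [map_mul, hu, hv])).trans ?_
    refine mul_le_mul_of_nonneg_left ?_ (pow_nonneg hq j)
    exact_mod_cast FreeGroup.norm_mul_le u v

/-- The step from a prefix of a word to the next one. -/
theorem take_step (w : List (α × Bool)) (i : ℕ) :
    ((FreeGroup.mk (w.take i))⁻¹ * FreeGroup.mk (w.take (i + 1)) : FreeGroup α).norm ≤ 1 := by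
  rw [List.take_add_one, ← FreeGroup.mul_mk, inv_mul_cancel_left]
  refine FreeGroup.norm_mk_le.trans ?_
  cases w[i]? <;> simp

theorem nw_wst (hs : Function.Surjective φ) (hq : 0 < q) (hq1 : q ≤ 1) : WSt (nw q φ j) := by
  intro g
  obtain ⟨u, hu, hn⟩ := nw_ex (q := q) (j := j) hs g
  have hp : q ^ j ≤ 1 := pow_le_one₀ hq.le hq1
  have hstep : ∀ i : ℕ, nw q φ j ((φ (FreeGroup.mk (u.toWord.take i)))⁻¹ *
      φ (FreeGroup.mk (u.toWord.take (i + 1)))) ≤ q ^ j * 1 := by
    intro i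
    rw [← map_inv, ← map_mul]
    refine (nw_le hq.le rfl).trans ?_
    refine mul_le_mul_of_nonneg_left ?_ (pow_nonneg hq.le j)
    exact_mod_cast take_step u.toWord i
  refine ⟨u.norm, fun i => φ (FreeGroup.mk (u.toWord.take i)), ?_, ?_, ?_, ?_⟩
  · have h1 : (FreeGroup.mk (u.toWord.take 0) : FreeGroup α) = 1 := by
      rw [List.take_zero]
      rfl
    change φ (FreeGroup.mk (u.toWord.take 0)) = 1
    rw [h1, map_one]
  · change φ (FreeGroup.mk (u.toWord.take u.norm)) = g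
    have h1 : u.toWord.take u.norm = u.toWord := by
      unfold FreeGroup.norm
      exact List.take_length
    rw [h1, FreeGroup.mk_toWord, hu]
  · intro i _
    refine (hstep i).trans ?_
    linarith
  · refine (Finset.sum_le_sum fun i _ => hstep i).trans ?_
    rw [Finset.sum_const, Finset.card_range, hn, nsmul_eq_mul]
    exact le_of_eq (by ring)

end

/-- L5: the normalised word norm. -/
theorem burn_L5 : stL5 := by
  intro α _ G _ q φ j hs hq hq1
  refine ⟨nw_wnm hs hq.le, nw_wst hs hq hq1, fun u => nw_le hq.le rfl, fun g => nw_ex hs g, ?_⟩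
  intro K _
  constructor
  · intro g k hk
    obtain ⟨u, hu, hn⟩ := nw_ex (q := q) (j := j) hs (k * g)
    have h1 : ((QuotientGroup.mk' K).comp φ) u = (g : G ⧸ K) := by
      rw [MonoidHom.comp_apply, hu, QuotientGroup.mk'_apply, QuotientGroup.mk_mul,
        (QuotientGroup.eq_one_iff k).2 hk, one_mul]
    refine (nw_le hq.le h1).trans (le_of_eq ?_)
    rw [hn, pow_succ]
    ring
  · intro g
    have hs' : Function.Surjective ((QuotientGroup.mk' K).comp φ) :=
      (QuotientGroup.mk'_surjective K).comp hs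
    obtain ⟨u, hu, hn⟩ := nw_ex (q := q) (j := j + 1) hs' (g : G ⧸ K)
    refine ⟨φ u * g⁻¹, ?_, ?_⟩
    · rw [← QuotientGroup.eq_one_iff, QuotientGroup.mk_mul, QuotientGroup.mk_inv]
      have h2 : ((φ u : G) : G ⧸ K) = (g : G ⧸ K) := hu
      rw [h2, mul_inv_cancel]
    · rw [inv_mul_cancel_right, hn]
      have h3 : nw q φ j (φ u) ≤ q ^ j * (u.norm : ℝ) := nw_le hq.le rfl
      calc q * nw q φ j (φ u) ≤ q * (q ^ j * (u.norm : ℝ)) := mul_le_mul_of_nonneg_left h3 hq.le
        _ = q ^ (j + 1) * (u.norm : ℝ) := by ring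

end BAN
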