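import Pool.Agent.Lib.MP_8528c3_al.AN.StG
import Pool.Agent.Lib.MP_8528c3_al.F15a
import Pool.Agent.Lib.MP_8528c3_al.StI

/-!
# Burnside project, linear control, part L: the word metric of the stages.
Definitions and statements.
-/

namespace BAN

open BSD

/-- The sequence which bounds the ratio of the stable lengths. -/
noncomputable def Yt (C : ℝ) : ℕ → ℝ
  | 0 => C
  | t + 1 => Yt C t / (1 + (Yt C t - 1) / (C - 1))

/-- `δ` is a hyperbolicity constant for the un-coned metrics. -/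
def UN (δB δ T7 : ℝ) : Prop := ∀ (X : Type) (N M : PM X), N.Hyp δB → N.SG 2 → M.SG 2 →
  (∀ x y, M.d x y ≤ N.d x y) → (∀ x y, N.d x y ≤ 2 * M.d x y) →
  M.Hyp δ ∧ ∀ x y w, N.gp x y w ≤ δB + 5 → M.gp x y w ≤ T7

/-- All the constants of the linear control: `C1` bounds the ratio of the word metric and of the
metric of the stages, `kk` is the parameter of the guessing geodesics lemma, `t0` is the number of
steps after which the ratio of the stable lengths is at most `2`. -/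
structure AC extends CC where
  (T7 C1 : ℝ)
  (kk t0 : ℕ)
  hT7 : 0 ≤ T7
  b7 : UN δB δ T7
  hC1 : 2 ≤ C1
  hkk : 2 * (2 * (2 * C1 * (8 * δ + 8)) + 2 + 2 * (2 * C1)) + 2 ≤ 2 ^ kk * 2
  hY : Yt C1 (t0 + 1) ≤ 2
  hτ : 2 * τ ≤ κ * lam * (lam / 2) ^ t0
  hC : lam * (n * (4 * τ) + 2 * (2 * C1 * ((2 * kk + 3) * (8 * δ + 8)) + 2) +
    1001 * (2 * C1) * A3) ≤ 4 * C1

/-- F0A: all the constants exist. -/
def stF0A : Prop := ∀ δB δ T T7 : ℝ, 1 ≤ δB → δB ≤ δ → 1 ≤ T → CO20 δB T → 0 ≤ T7 →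
  UN δB δ T7 → ∃ ρ1 : ℝ, ∀ ρ : ℝ, ρ1 ≤ ρ → ∃ k : KC, k.δB = δB ∧ k.δ = δ ∧ k.T = T ∧ k.ρ = ρ ∧
  ∀ ε : ℝ, 0 < ε → ∃ N0 : ℕ, ∀ n : ℕ, N0 ≤ n → Odd n →
  ∃ a : AC, a.toKC = k ∧ a.n = n ∧ a.lam ≤ ε ∧ a.T7 = T7

/-- L0: the sequence `Yt`. -/
def stL0 : Prop := ∀ C : ℝ, 2 ≤ C → (∀ t, 1 ≤ Yt C t ∧ Yt C t ≤ C ∧ Yt C (t + 1) ≤ Yt C t) ∧
  (∃ t, Yt C (t + 1) ≤ 2) ∧
  ∀ (t : ℕ) (e w f v : ℝ), 0 ≤ e → e ≤ w → w ≤ Yt C t * e → e + (w - e) / (C - 1) ≤ 2 * f →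
    2 * v ≤ w → v ≤ Yt C (t + 1) * f

/-- L1: displacement of the powers of the generator of `E i` for a metric `V ≤ C M` along the
set `Y i`: at most the stable length, up to an additive constant. -/
def stL1 : Prop := ∀ (G X I : Type) [Group G] [MulAction G X] [MulAction G I] (c : CC)
  (M : PM X) (E R : I → Subgroup G) (Y : I → Set X), FS c M E R Y →
  ∀ (V : PM X) (C : ℝ) (k : ℕ), Iso G V → 1 ≤ C → (∀ x y, M.d x y ≤ V.d x y) →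
  (∀ x y, V.d x y ≤ C * M.d x y) → SGS M V →
  2 * (2 * (C * (8 * c.δ + 8)) + 2 + 2 * C) + 2 ≤ 2 ^ k * 2 →
  ∀ (i : I) (e : G) (y : X) (r : ℕ), Subgroup.zpowers e = E i → y ∈ Y i →
  V.d y (e ^ r • y) ≤
    r * sl V e + 2 * (C * ((2 * k + 3) * (8 * c.δ + 8)) + 2) + 1000 * C * c.A3

/-- L2: diameter of the quotient of `Y i` by `R i` for the metric `V`. -/
def stL2 : Prop := ∀ (G X I : Type) [Group G] [MulAction G X] [MulAction G I] (c : CC)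
  (M : PM X) (E R : I → Subgroup G) (Y : I → Set X), FS c M E R Y →
  ∀ (V : PM X) (C : ℝ) (k : ℕ), Iso G V → 1 ≤ C → (∀ x y, M.d x y ≤ V.d x y) →
  (∀ x y, V.d x y ≤ C * M.d x y) → SGS M V →
  2 * (2 * (C * (8 * c.δ + 8)) + 2 + 2 * C) + 2 ≤ 2 ^ k * 2 →
  ∀ (i : I) (e : G), Subgroup.zpowers e = E i → ∀ y ∈ Y i, ∀ y' ∈ Y i, ∃ r ∈ R i,
  V.d y (r • y') ≤
    c.n * sl V e + 2 * (C * ((2 * k + 3) * (8 * c.δ + 8)) + 2) + 1001 * C * c.A3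

/-- L3: a metric `V` on `X` for which the quotients of the sets `Y i` by the `R i` are not larger
than `4 C1 / lam` is controlled by the metric of the quotient of the cone-off. -/
def stL3 : Prop := ∀ (G X I : Type) [Group G] [MulAction G X] [MulAction G I] (c : CC)
  (M : PM X) (E R : I → Subgroup G) (Y : I → Set X), FS c M E R Y →
  ∀ (hY : ∀ i, (Y i).Nonempty) (hg : ∀ (g : G) (i : I), ∀ y ∈ Y i, g • y ∈ Y (g • i)),
  letI := coAct c.ρ hg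
  ∀ (V : PM X) (C1 : ℝ), 0 < C1 → Iso G V → (∀ x y, V.d x y ≤ 2 * C1 * M.d x y) →
  (∀ i, ∀ y ∈ Y i, ∀ y' ∈ Y i, ∃ r ∈ R i, c.lam * V.d y (r • y') ≤ 4 * C1) →
  ∀ x y : X, c.lam / 2 * dqf V (KK R) x y ≤
    C1 * dqf (c.Z M hY) (KK R) (Co.base x) (Co.base y)

/-- The normalised word norm of a quotient of the free group. -/
noncomputable def nw {α : Type} [DecidableEq α] {G : Type} [Group G] (q : ℝ)
    (φ : FreeGroup α →* G) (j : ℕ) (g : G) : ℝ :=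
  q ^ j * ((sInf {k : ℕ | ∃ u : FreeGroup α, φ u = g ∧ u.norm = k} : ℕ) : ℝ)

/-- L5: the normalised word norm. -/
def stL5 : Prop := ∀ (α : Type) [DecidableEq α] (G : Type) [Group G] (q : ℝ)
  (φ : FreeGroup α →* G) (j : ℕ), Function.Surjective φ → 0 < q → q ≤ 1 →
  WNm (nw q φ j) ∧ WSt (nw q φ j) ∧ (∀ u : FreeGroup α, nw q φ j (φ u) ≤ q ^ j * u.norm) ∧
  (∀ g : G, ∃ u : FreeGroup α, φ u = g ∧ nw q φ j g = q ^ j * u.norm) ∧
  ∀ (K : Subgroup G) [K.Normal],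
    (∀ (g : G), ∀ k ∈ K, nw q ((QuotientGroup.mk' K).comp φ) (j + 1) (g : G ⧸ K) ≤
      q * nw q φ j (k * g)) ∧
    (∀ g : G, ∃ k ∈ K, q * nw q φ j (k * g) ≤
      nw q ((QuotientGroup.mk' K).comp φ) (j + 1) (g : G ⧸ K))

/-- The properties of the stages. -/
structure StOK (a : AC) {G X : Type} [Group G] [MulAction G X] (E : PM X) (W : G → ℝ)
    (x0 : X) : Prop where
  st : STAGE G E a.n a.δ a.L' a.A0 a.ko
  hB : E.Hyp a.δB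
  wn : WNm W
  ws : WSt W
  ew : ∀ g, E.d x0 (g • x0) ≤ W g
  we : ∀ g, W g ≤ a.C1 * E.d x0 (g • x0)
  rt : ∀ (t : ℕ) (g : G), Lox E g → sl E g < a.κ * a.lam * (a.lam / 2) ^ t →
    slW W g ≤ Yt a.C1 (t + 1) * sl E g

/-- L6: the un-coned stage. -/
def stL6 : Prop := ∀ (a : AC) (G X : Type) [Group G] [MulAction G X] (E : PM X) (W : G → ℝ)
  (x0 : X) (ok : StOK a E W x0),
  STAGE G (fl E W ok.wn x0) a.n a.δ a.Li a.A0 a.kl ∧
  (∀ x y, (fl E W ok.wn x0).d x y ≤ E.d x y) ∧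
  (∀ x y, E.d x y ≤ 2 * (fl E W ok.wn x0).d x y) ∧
  ∀ x y w, E.gp x y w ≤ a.δB + 5 → (fl E W ok.wn x0).gp x y w ≤ a.T7

/-- L7: control of the word metric in the quotient. -/
def stL7 : Prop := ∀ (a : AC) (G X I : Type) [Group G] [MulAction G X] [MulAction G I]
  (E : PM X) (W : G → ℝ) (x0 : X) (ok : StOK a E W x0) (Ei R : I → Subgroup G)
  (Y : I → Set X), FS a.toCC (fl E W ok.wn x0) Ei R Y →
  (∀ (i : I) (e : G), Subgroup.zpowers e = Ei i → sl (fl E W ok.wn x0) e < a.τ) →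
  ∀ (hY : ∀ i, (Y i).Nonempty) (hg : ∀ (g : G) (i : I), ∀ y ∈ Y i, g • y ∈ Y (g • i)),
  letI := coAct a.ρ hg
  ∀ Wq : G → ℝ, (∀ g : G, ∀ k ∈ KK R, Wq g ≤ a.lam / 2 * W (k * g)) →
  (∀ g : G, ∃ k ∈ KK R, a.lam / 2 * W (k * g) ≤ Wq g) →
  (∀ g, dqf (a.Z (fl E W ok.wn x0) hY) (KK R) (Co.base x0) (g • Co.base x0) ≤ Wq g) ∧
  (∀ g, Wq g ≤
    a.C1 * dqf (a.Z (fl E W ok.wn x0) hY) (KK R) (Co.base x0) (g • Co.base x0))

/-- L8: ratio of the stable lengths in the quotient. -/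
def stL8 : Prop := ∀ (a : AC) (G X I : Type) [Group G] [MulAction G X] [MulAction G I]
  (E : PM X) (W : G → ℝ) (x0 : X) (ok : StOK a E W x0) (Ei R : I → Subgroup G)
  (Y : I → Set X), FS a.toCC (fl E W ok.wn x0) Ei R Y →
  ∀ (hY : ∀ i, (Y i).Nonempty) (hg : ∀ (g : G) (i : I), ∀ y ∈ Y i, g • y ∈ Y (g • i)),
  letI := coAct a.ρ hg
  ∀ iso : ∀ (g : G) (x y : Co Y a.ρ), (a.Z (fl E W ok.wn x0) hY).d (g • x) (g • y) =
    (a.Z (fl E W ok.wn x0) hY).d x y,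
  ∀ Wq : G → ℝ, (∀ g : G, ∀ k ∈ KK R, Wq g ≤ a.lam / 2 * W (k * g)) → (∀ g, 0 ≤ Wq g) →
  ∀ (t : ℕ) (g : G), g ^ a.n ∉ KK R →
    sl (dqPM (a.Z (fl E W ok.wn x0) hY) (KK R) iso) g < a.κ * a.lam * (a.lam / 2) ^ t →
    slW Wq g ≤ Yt a.C1 (t + 1) * sl (dqPM (a.Z (fl E W ok.wn x0) hY) (KK R) iso) g

/-- L9: transfer of the ratio to the quotient group. -/
def stL9 : Prop := ∀ (G Z : Type) [Group G] [MulAction G Z] (K : Subgroup G) [K.Normal]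
  (M : PM Z) (iso : ∀ (g : G) (x y : Z), M.d (g • x) (g • y) = M.d x y) (g : G),
  letI := qAct Z K
  sl (qM M K iso) (g : G ⧸ K) = sl (dqPM M K iso) g ∧
  (Lox (qM M K iso) (g : G ⧸ K) ↔ Lox (dqPM M K iso) g) ∧
  (∀ δ : ℝ, (dqPM M K iso).Hyp δ → (qM M K iso).Hyp δ) ∧
  (∀ W : G ⧸ K → ℝ, slW W (g : G ⧸ K) = slW (fun g : G => W (g : G ⧸ K)) g)

end BAN
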