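import Pool.Agent.Lib.MP_8528c3_al.AN.StK
import Pool.Agent.Lib.MP_8528c3_al.AN.StL

/-!
# Burnside project, linear control, L6: the un-coned stage
-/

set_option autoImplicit false

namespace BAN

open BSD

theorem burn_L6 (hK1 : stK1) (hK3b : stK3b) (hK4 : stK4) (hK8 : stK8) (hF0b : stF0b) : stL6 := by
  intro a G X _ _ E W x0 ok
  obtain ⟨h1, h2, -, -, -, -⟩ := hK3b G X E W ok.wn x0 1 zero_le_one ok.st.iso le_rfl ok.ew
  obtain ⟨hsg, -⟩ := hK4 G X E W ok.wn x0 1 zero_le_one ok.st.sg ok.ws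
  obtain ⟨-, -, hiso⟩ := hK1 G X E W ok.wn x0 1 (1 / 2) zero_le_one (by norm_num)
  obtain ⟨hhyp, hgp⟩ := a.b7 X E (fl E W ok.wn x0) ok.hB ok.st.sg hsg h1 h2
  have hkl : 0 < a.kl := (hF0b a.toCC).2.2.2.2.2.2.2.2.2.1
  have hst := ok.st
  rw [a.eL', a.eko] at hst
  exact ⟨hK8 G X E (fl E W ok.wn x0) a.n a.δ a.δ a.Li a.A0 a.kl hst h1 h2 (hiso ok.st.iso) hhyp
    hsg hkl.le, h1, h2, hgp⟩

end BAN
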