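import Pool.Agent.Lib.MP_8528c3_al.AN.StF

/-!
# Burnside project, F10: the alternative for the elements of the quotient
-/

namespace BAN

open BSD

namespace F10

/-- Powers of an element in the same class modulo a normal subgroup. -/
theorem pow_class {G : Type} [Group G] (K : Subgroup G) (hK : K.Normal) {k g : G} (hk : k ∈ K)
    (m : ℕ) : ∃ k' ∈ K, (k * g) ^ m = k' * g ^ m := by
  induction m with
  | zero => exact ⟨1, K.one_mem, by simp⟩
  | succ m ih =>
    obtain ⟨k', hk', h⟩ := ih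
    refine ⟨k' * (g ^ m * k * (g ^ m)⁻¹), K.mul_mem hk' (hK.conj_mem k hk _), ?_⟩
    rw [pow_succ, h, pow_succ]
    group

end F10

open F10 in
/-- F10: the alternative for the elements of the quotient. -/
theorem burn_F10 (hD8 : stD8) (hD10 : stD10) (hE8 : stE8) (hF5w : stF5w) (hF6 : stF6)
    (hF8h : stF8h) (hF9 : stF9) (hF0c : stF0c) : stF10 := by
  intro G X I _ _ _ c M E R Y F hcov hY hg
  let _ := coAct c.ρ hg
  intro g
  have hW := hF5w G X I c M E R Y F hY hg
  have iso : ∀ (g : G) (x y : Co Y c.ρ), (c.Z M hY).d (g • x) (g • y) = (c.Z M hY).d x y :=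
    hW.rf.iso
  obtain ⟨hN, hq⟩ := hD8 G (Co Y c.ρ) I (c.Z M hY) _ R _ c.ρ _ c.δ hW
  obtain ⟨q1, q2, -, q4, -⟩ := hq iso
  have hyp := hD10 G (Co Y c.ρ) I (c.Z M hY) _ R _ c.ρ _ c.δ hW iso
  have hδ := c.hδ
  obtain ⟨hk0, hk1, -, -, hLi1, hLi2, hLi3, -⟩ := hF0c c
  obtain ⟨x00⟩ := F.st.ne
  by_cases hcase : ∀ x : Co Y c.ρ, 100 * c.δ + 100 ≤ dqf (c.Z M hY) (KK R) x (g • x)
  · -- large displacement
    right
    have hne : (Set.range fun x : Co Y c.ρ => dqf (c.Z M hY) (KK R) x (g • x)).Nonempty :=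
      ⟨_, Co.base x00, rfl⟩
    have hbd : BddBelow (Set.range fun x : Co Y c.ρ => dqf (c.Z M hY) (KK R) x (g • x)) :=
      ⟨100 * c.δ + 100, by rintro _ ⟨x, rfl⟩; exact hcase x⟩
    have hl : 100 * c.δ + 100 ≤
        sInf (Set.range fun x : Co Y c.ρ => dqf (c.Z M hY) (KK R) x (g • x)) :=
      le_csInf hne (by rintro _ ⟨x, rfl⟩; exact hcase x)
    obtain ⟨_, ⟨z, rfl⟩, hz⟩ := exists_lt_of_csInf_lt hne (lt_add_one
      (sInf (Set.range fun x : Co Y c.ρ => dqf (c.Z M hY) (KK R) x (g • x))))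
    have h8 := (hE8 G (Co Y c.ρ) (dqPM (c.Z M hY) (KK R) iso) c.δ _ q1 hyp q4 hδ hl g z
      (fun x => csInf_le hbd ⟨x, rfl⟩) hz.le).2
    intro x m
    refine le_trans ?_ (h8 x m)
    refine mul_le_mul_of_nonneg_right ?_ (Nat.cast_nonneg m)
    linarith
  · push Not at hcase
    obtain ⟨x, hx⟩ := hcase
    obtain ⟨k, hk, hkx⟩ := dqf_approx (c.Z M hY) (KK R) x (g • x) (sub_pos.2 hx)
    rw [add_sub_cancel, ← mul_smul] at hkx
    have eL' := c.eL'
    have eL1 := c.eL1
    have eL := c.eL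
    -- the claim for `k g`
    have claim : (k * g) ^ c.n ∈ KK R ∨ ∀ (x : Co Y c.ρ) (m : ℕ),
        c.ko * m ≤ dqf (c.Z M hY) (KK R) x ((k * g) ^ m • x) := by
      by_cases hL : Lox M (k * g)
      · by_cases hE : ∃ i, k * g ∈ E i
        · obtain ⟨i, hi⟩ := hE
          left
          exact Subgroup.subset_closure ⟨i, (hF6 G X I c M E R Y F).2.2.2.2 i _ hi⟩
        · push Not at hE
          right
          rcases hF8h G X I c M E R Y F hY hg x with ⟨j, -, hj⟩ | ⟨x0, -, h0⟩
          · exact absurd (hj _ (by linarith)) (hE j)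
          · exact hF9 G X I c M E R Y F hcov hY hg (k * g) x0 hL hE (h0 _ (by linarith))
      · left
        rcases F.st.h2 (k * g) with h | h
        · exact absurd h hL
        · rw [h]
          exact (KK R).one_mem
    rcases claim with h | h
    · left
      obtain ⟨k', hk', h'⟩ := pow_class (KK R) hN (g := g) hk c.n
      rw [h'] at h
      have h2 := (KK R).mul_mem ((KK R).inv_mem hk') h
      rwa [inv_mul_cancel_left] at h2
    · right
      intro y m
      obtain ⟨k', hk', h'⟩ := pow_class (KK R) hN (g := g) hk m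
      have h2 := h y m
      rw [h', mul_smul] at h2
      have h3 : dqf (c.Z M hY) (KK R) y (k' • g ^ m • y) =
          dqf (c.Z M hY) (KK R) y (g ^ m • y) := q2 k' hk' y (g ^ m • y)
      rwa [h3] at h2

end BAN
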