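import Pool.Agent.Lib.MP_8528c3_al.AN.StL
import Pool.Agent.Lib.MP_8528c3_al.AN.F10
import Pool.Agent.Lib.MP_8528c3_al.AN.StK

/-!
# Burnside project, linear control: L8 (ratio of the stable lengths in the quotient)
-/

namespace BAN

open BSD

/-- Lower bound for the stable length. -/
theorem L8_le_sl {G X : Type} [Group G] [MulAction G X] (M : PM X) (g : G) (x0 : X) {c : ℝ}
    (h : ∀ (x : X) (m : ℕ), c * m ≤ M.d x (g ^ m • x)) : c ≤ sl M g := by
  refine le_csInf ⟨_, x0, 1, le_rfl, rfl⟩ ?_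
  rintro t ⟨x, m, hm, rfl⟩
  have hm0 : (0 : ℝ) < m := by exact_mod_cast hm
  rw [le_div_iff₀ hm0]
  exact h x m

/-- Upper bound for the stable length of a norm. -/
theorem L8_slW_le {G : Type} [Group G] {W : G → ℝ} (hW : ∀ g, 0 ≤ W g) (g : G) {m : ℕ}
    (hm : 1 ≤ m) : slW W g ≤ W (g ^ m) / m := by
  refine csInf_le ⟨0, ?_⟩ ⟨m, hm, rfl⟩
  rintro t ⟨k, _, rfl⟩
  exact div_nonneg (hW _) (Nat.cast_nonneg k)

theorem burn_L8 (hD8 : stD8) (hF5w : stF5w) (hF18 : stF18) (hK3b : stK3b) (hK10 : stK10)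
    (hK11 : stK11) (hK12 : stK12) (hL0 : stL0) (hF0b : stF0b) : stL8 := by
  intro a G X I _ _ _ E W x0 ok Ei R Y fs hY hg
  let _ := coAct a.ρ hg
  intro iso Wq hWq hWq0 t g hgn hsl
  have hlam := a.hlam
  obtain ⟨⟨-, -, -, -, -, -, -, -, bκ, -, -⟩, -, ⟨bl, -⟩⟩ := hF0b a.toCC
  have hC1 := a.hC1
  have hW := hF5w G X I a.toCC _ Ei R Y fs hY hg
  obtain ⟨hN, hq⟩ := hD8 G (Co Y a.ρ) I (a.Z (fl E W ok.wn x0) hY) _ R _ a.ρ _ a.δ hW
  obtain ⟨q1, -, -, -, -⟩ := hq iso
  have q1' : Iso G (dqPM (a.Z (fl E W ok.wn x0) hY) (KK R) iso) := q1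
  have isoE : Iso G E := ok.st.iso
  obtain ⟨k1, k2, -, -, -, -⟩ := hK3b G X E W ok.wn x0 a.C1 (by linarith) isoE (by linarith) ok.ew
  rcases hF18 G X I a.toCC (fl E W ok.wn x0) Ei R Y fs hY hg g with h | h | h
  · exact absurd h hgn
  · exfalso
    have h1 : a.lam * a.κ ≤ sl (dqPM (a.Z (fl E W ok.wn x0) hY) (KK R) iso) g :=
      L8_le_sl _ g (Co.base x0) h
    have h2 : a.κ * a.lam * (a.lam / 2) ^ t ≤ a.κ * a.lam * 1 :=
      mul_le_mul_of_nonneg_left (pow_le_one₀ (by linarith) (by linarith)) (mul_pos bκ hlam).le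
    linarith
  · obtain ⟨k, hk, hL, -, -, hgr⟩ := h
    -- the stable lengths of `h = k g`
    have h1 : a.lam * sl (fl E W ok.wn x0) (k * g) ≤
        sl (dqPM (a.Z (fl E W ok.wn x0) hY) (KK R) iso) g := L8_le_sl _ g (Co.base x0) hgr
    have hf0 : 0 ≤ sl (fl E W ok.wn x0) (k * g) := by
      refine L8_le_sl _ _ x0 fun x m => ?_
      rw [zero_mul]
      exact PM.nonneg _ _ _
    have he0 : 0 ≤ sl E (k * g) := (hK10 G X E isoE (k * g)).1
    have hLE : Lox E (k * g) := by
      obtain ⟨c, hc, h2⟩ := hL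
      exact ⟨c, hc, fun x m => (h2 x m).trans (k1 _ _)⟩
    have he2 : sl E (k * g) ≤ 2 * sl (fl E W ok.wn x0) (k * g) := by
      have : sl E (k * g) / 2 ≤ sl (fl E W ok.wn x0) (k * g) := by
        refine L8_le_sl _ _ x0 fun x m => ?_
        have h3 := (hK10 G X E isoE (k * g)).2.1 x m
        have h4 := k2 x ((k * g) ^ m • x)
        linarith
      linarith
    have hew : sl E (k * g) ≤ slW W (k * g) :=
      hK12 G X E W x0 isoE ok.wn (fun g h => by
        have h3 := isoE g x0 ((g⁻¹ * h) • x0)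
        rw [smul_smul, mul_inv_cancel_left] at h3
        rw [h3]
        exact ok.ew _) (k * g)
    have hK := hK11 G X E W ok.wn x0 a.C1 isoE hC1 ok.ew ok.we (k * g)
    -- the ratio for `h`
    have hwY : slW W (k * g) ≤ Yt a.C1 t * sl E (k * g) := by
      rcases t with _ | s
      · change slW W (k * g) ≤ a.C1 * sl E (k * g)
        have h3 : slW W (k * g) / a.C1 ≤ sl E (k * g) := by
          refine le_of_forall_pos_le_add fun ε hε => ?_
          obtain ⟨m, -, hm, h4⟩ := (hK10 G X E isoE (k * g)).2.2.2.1 x0 ε hε 1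
          have hm0 : (0 : ℝ) < m := by exact_mod_cast hm
          have h5 := L8_slW_le ok.wn.nn (k * g) hm
          have h6 := ok.we ((k * g) ^ m)
          rw [div_le_iff₀ (by linarith)]
          rw [le_div_iff₀ hm0] at h5
          have h7 : a.C1 * E.d x0 ((k * g) ^ m • x0) ≤ a.C1 * ((sl E (k * g) + ε) * m) :=
            mul_le_mul_of_nonneg_left h4 (by linarith)
          have h8 : slW W (k * g) * m ≤ (sl E (k * g) + ε) * a.C1 * m := by
            calc slW W (k * g) * m ≤ a.C1 * ((sl E (k * g) + ε) * m) := by linarith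
              _ = (sl E (k * g) + ε) * a.C1 * m := by ring
          exact le_of_mul_le_mul_right h8 hm0
        rw [div_le_iff₀ (by linarith)] at h3
        linarith
      · refine ok.rt s (k * g) hLE ?_
        have h3 : a.lam * sl E (k * g) ≤
            2 * sl (dqPM (a.Z (fl E W ok.wn x0) hY) (KK R) iso) g := by
          have := mul_le_mul_of_nonneg_left he2 hlam.le
          linarith
        have h4 : a.lam * sl E (k * g) < a.lam * (a.κ * a.lam * (a.lam / 2) ^ s) := by
          have h5 : a.lam * (a.κ * a.lam * (a.lam / 2) ^ s) =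
              2 * (a.κ * a.lam * (a.lam / 2) ^ (s + 1)) := by
            rw [pow_succ]
            ring
          rw [h5]
          linarith
        exact lt_of_mul_lt_mul_left h4 hlam.le
    -- the norm in the quotient
    have hv : 2 * (slW Wq g / a.lam) ≤ slW W (k * g) := by
      refine le_csInf ⟨_, 1, le_rfl, rfl⟩ ?_
      rintro r ⟨m, hm, rfl⟩
      have hm0 : (0 : ℝ) < m := by exact_mod_cast hm
      obtain ⟨k', hk', h'⟩ := F10.pow_class (KK R) hN (g := g) hk m
      have h3 := hWq (g ^ m) k' hk'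
      rw [← h'] at h3
      have h4 := L8_slW_le hWq0 g hm
      rw [le_div_iff₀ hm0] at h4 ⊢
      have h5 : slW Wq g * m ≤ a.lam / 2 * W ((k * g) ^ m) := h4.trans h3
      have h6 : 2 * (slW Wq g / a.lam) * m = (slW Wq g * m) * (2 / a.lam) := by
        ring
      rw [h6]
      have h7 := mul_le_mul_of_nonneg_right h5 (by positivity : 0 ≤ 2 / a.lam)
      have h8 : a.lam / 2 * W ((k * g) ^ m) * (2 / a.lam) = W ((k * g) ^ m) := by
        field_simp
      rwa [h8] at h7
    obtain ⟨hY1, -, hY3⟩ := hL0 a.C1 hC1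
    have h9 := hY3 t (sl E (k * g)) (slW W (k * g)) (sl (fl E W ok.wn x0) (k * g))
      (slW Wq g / a.lam) he0 hew hwY hK hv
    rw [div_le_iff₀ hlam] at h9
    refine h9.trans ?_
    rw [mul_assoc, mul_comm (sl (fl E W ok.wn x0) (k * g))]
    exact mul_le_mul_of_nonneg_left h1 (by linarith [(hY1 (t + 1)).1])

end BAN
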