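import Pool.Agent.Lib.MP_8528c3_al.AN.StL

/-!
# Burnside project, linear control: L9 (transfer to the quotient group)
-/

namespace BAN

open BSD

theorem burn_L9 : stL9 := by
  intro G Z _ _ K _ M iso g
  let _ := qAct Z K
  have hp : ∀ (m : ℕ) (x : Z), ((g : G ⧸ K) ^ m • qz K x : QZ Z K) = qz K (g ^ m • x) := by
    intro m x
    rw [← QuotientGroup.mk_pow]
    exact qAct_mk K (g ^ m) x
  have hd : ∀ (m : ℕ) (x : Z), (qM M K iso).d (qz K x) ((g : G ⧸ K) ^ m • qz K x) =
      (dqPM M K iso).d x (g ^ m • x) := by
    intro m x
    rw [hp, qM_d]
    rfl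
  refine ⟨?_, ?_, ?_, ?_⟩
  · unfold sl
    congr 1
    ext t
    constructor
    · rintro ⟨x, m, hm, rfl⟩
      induction x using Quotient.inductionOn with
      | h x =>
        refine ⟨x, m, hm, ?_⟩
        rw [← hd]
        rfl
    · rintro ⟨x, m, hm, rfl⟩
      exact ⟨qz K x, m, hm, by rw [hd]⟩
  · constructor
    · rintro ⟨c, hc, h⟩
      refine ⟨c, hc, fun x m => ?_⟩
      rw [← hd]
      exact h _ m
    · rintro ⟨c, hc, h⟩
      refine ⟨c, hc, fun x m => ?_⟩
      induction x using Quotient.inductionOn with
      | h x =>
        have := h x m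
        rw [← hd] at this
        exact this
  · intro δ h x y z w
    induction x using Quotient.inductionOn with
    | h x =>
      induction y using Quotient.inductionOn with
      | h y =>
        induction z using Quotient.inductionOn with
        | h z =>
          induction w using Quotient.inductionOn with
          | h w => exact h x y z w
  · intro W
    unfold slW
    congr 1

end BAN
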