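import Pool.Agent.Lib.MP_8528c3_al.AN.StG
import Pool.Agent.Lib.MP_8528c3_al.StH

/-!
# Burnside project, linear control, part H (with the new constants).  Statements only.
-/

namespace BAN

open BSD

/-- H14: colouring of the sets of base points in an annulus of the cone-off. -/
def stH14 : Prop := ∀ (G X I : Type) [Group G] [MulAction G X] [MulAction G I] (c : CC)
  (M : PM X) (E R : I → Subgroup G) (Y : I → Set X), FS c M E R Y →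
  ∀ (hY : ∀ i, (Y i).Nonempty) (π : I → X → X) (y0 : I → X) (o : Co Y c.ρ) (S : Set X)
  (t w rh h0 D0 DT : ℝ) (q : ℕ), LS (c.N M) Y c.ρ hY c.ρ0 π y0 c.T o S t w rh h0 →
  2 ≤ q → 0 ≤ D0 → 1 ≤ DT → Sph M q (12 * c.δ + 27) 3 D0 →
  (∀ x ∈ S, ∀ y ∈ S, (c.N M).d x y ≤ DT) → c.lam * (1000 * c.A3) ≤ 1 →
  c.lam * (8 * (DT + 1) * (D0 + 18 * c.δ + 46)) ≤ 1 / 100 → C8 c.T w rh h0 < 2 * c.ρ →
  Col (c.N M) S q rh (18 * rh + 4 * (2 * Real.exp (C8 c.T w rh h0 / 2) + 1) + 46)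

/-- H15: colouring of the low points of an annulus of the cone-off. -/
def stH15 : Prop := ∀ (G X I : Type) [Group G] [MulAction G X] [MulAction G I] (c : CC)
  (M : PM X) (E R : I → Subgroup G) (Y : I → Set X), FS c M E R Y →
  ∀ (hY : ∀ i, (Y i).Nonempty) (o : Co Y c.ρ) (P : Set (Co Y c.ρ))
  (t w Dz H r rh h0 D0 : ℝ) (q : ℕ), 2 ≤ q → 0 ≤ D0 → 0 ≤ H → 0 ≤ w → 0 ≤ r → 0 ≤ Dz →
  Sph M q (12 * c.δ + 27) 3 D0 → (∀ z ∈ P, ht z ≤ H) →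
  (∀ z ∈ P, |(c.Z M hY).d o z - t| ≤ w) → (∀ z ∈ P, (c.Z M hY).d o z ≤ Dz) →
  Dz + H < c.ρ → (r + 2 * H) / 2 < c.ρ → rh = 2 * Real.exp ((r + 2 * H) / 2) →
  h0 = (w + H) + 2 * (2 * rh + 20) + 2 * c.T + 2 * rh + 10 → h0 + 1 < c.ρ →
  C8 c.T (w + H) rh h0 < 2 * c.ρ → c.lam * (1000 * c.A3) ≤ 1 →
  c.lam * (8 * (2 * Real.exp (Dz + H) + 1) * (D0 + 18 * c.δ + 46)) ≤ 1 / 100 →
  Col (c.Z M hY) P q r
    (18 * rh + 4 * (2 * Real.exp (C8 c.T (w + H) rh h0 / 2) + 1) + 46 + 2 * H)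

/-- H16: colouring of the local pieces of the annuli of the quotient. -/
def stH16 : Prop := ∀ (G X I : Type) [Group G] [MulAction G X] [MulAction G I] (c : CC)
  (M : PM X) (E R : I → Subgroup G) (Y : I → Set X), FS c M E R Y →
  ∀ (hY : ∀ i, (Y i).Nonempty) (hg : ∀ (g : G) (i : I), ∀ y ∈ Y i, g • y ∈ Y (g • i)),
  letI := coAct c.ρ hg
  ∀ iso : ∀ (g : G) (x y : Co Y c.ρ), (c.Z M hY).d (g • x) (g • y) = (c.Z M hY).d x y,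
  ∀ r Dp D0 : ℝ, 0 ≤ r → 0 ≤ Dp → 0 ≤ D0 → Sph M 4 (12 * c.δ + 27) 3 D0 →
  3 * Dp + 2 * c.δ + 20 + (r + 1) ≤ c.ρ → (nrB r + 2 * (r + 1)) / 2 < c.ρ →
  nh0 c.δ c.T r + 1 < c.ρ → nC8 c.δ c.T r < 2 * c.ρ → c.lam * (1000 * c.A3) ≤ 1 →
  c.lam * (8 * (2 * Real.exp (2 * Dp + c.δ + 10 + (r + 1)) + 1) * (D0 + 18 * c.δ + 46)) ≤
    1 / 100 →
  ∀ (o : Co Y c.ρ) (t : ℝ) (P : Set (Co Y c.ρ)),
  P ⊆ Ann (dqPM (c.Z M hY) (KK R) iso) o t 3 →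
  (∀ x ∈ P, ∀ y ∈ P, (dqPM (c.Z M hY) (KK R) iso).d x y ≤ Dp) →
  Col (dqPM (c.Z M hY) (KK R) iso) P 4 r (nDl c.δ c.T r)

/-- H19: THE STEP for the colourings of the annuli. -/
def stH19 : Prop := ∀ δ T : ℝ, 1 ≤ δ → 1 ≤ T → ∃ Dst ρ2 : ℝ, 4 * δ + 21 ≤ Dst ∧
  ∀ k : KC, k.δ = δ → k.T = T → ρ2 ≤ k.ρ → ∀ D0 : ℝ, 0 ≤ D0 → ∃ ε : ℝ, 0 < ε ∧ ∀ c : CC,
  c.toKC = k → c.lam ≤ ε → ∀ (G X I : Type) [Group G] [MulAction G X] [MulAction G I]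
  (M : PM X) (E R : I → Subgroup G) (Y : I → Set X), FS c M E R Y →
  ∀ (hY : ∀ i, (Y i).Nonempty) (hg : ∀ (g : G) (i : I), ∀ y ∈ Y i, g • y ∈ Y (g • i)),
  letI := coAct c.ρ hg
  ∀ iso : ∀ (g : G) (x y : Co Y c.ρ), (c.Z M hY).d (g • x) (g • y) = (c.Z M hY).d x y,
  Sph M 4 (12 * δ + 27) 3 D0 → Sph (dqPM (c.Z M hY) (KK R) iso) 4 (4 * δ + 9) 3 Dst

end BAN
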