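import Pool.Agent.Lib.MP_8528c3_al.AN.MAsm
import Pool.Agent.Lib.MP_8528c3_al.AN.StH
import Pool.Agent.Lib.MP_8528c3_al.StJ

/-!
# Burnside project, linear control, part M: from the stages to the theorem.  Statements only.
-/

namespace BAN

open BSD

/-- M3: the free Burnside group is the limit of the stages. -/
def stM3 : Prop := ∀ (h : HC) (a : AC) (α : Type) [DecidableEq α] (g : FreeGroup α),
  (∃ i, (stgA h a α i).φ g = 1) ↔
    g ∈ Subgroup.normalClosure {h : FreeGroup α | ∃ f, h = f ^ a.n}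

/-- M4: elementary facts: indices, metrics, word norms of the stages. -/
def stM4 : Prop := (∀ (h : HB) (a : AC) (α : Type) [DecidableEq α] (s : MA a α),
    (∀ x y, s.M.d x y ≤ s.E.d x y) ∧ (∀ x y, s.E.d x y ≤ 2 * s.M.d x y) ∧
    (∀ (K : Subgroup (FreeGroup α)) x y, (s.qm h K).d x y ≤ (s.qk K).d x y) ∧
    (∀ (K : Subgroup (FreeGroup α)) x y, (s.qk K).d x y ≤ 2 * (s.qm h K).d x y) ∧
    (∀ (g : FreeGroup α) (x : s.X), (s.next h).φ g • s.nx h x = s.nx h (s.φ g • x)) ∧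
    (∀ x y : s.X, (s.next h).E.d (s.nx h x) (s.nx h y) =
      (letI := s.act h.toHA; dqf (s.MC h.toHA) s.K (s.cb x) (s.cb y))) ∧
    (∀ x y : s.X, (s.next h).E.d (s.nx h x) (s.nx h y) ≤ a.lam * s.M.d x y) ∧
    s.nx h s.x0 = (s.next h).x0 ∧
    (∀ g : FreeGroup α, s.E.d s.x0 (s.φ g • s.x0) ≤ (a.lam / 2) ^ s.j * g.norm) ∧
    (∀ g : FreeGroup α, ∃ g' : FreeGroup α, s.φ g' = s.φ g ∧
      (a.lam / 2) ^ s.j * g'.norm ≤ a.C1 * s.E.d s.x0 (s.φ g • s.x0))) ∧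
  (∀ (h : HC) (a : AC) (α : Type) [DecidableEq α] (i : ℕ), (stgA h a α i).j = i)

/-- M5: the elements of `K` move the points of the stage by at least `2 ρ / lam`. -/
def stM5 : Prop := ∀ (h : HB) (a : AC) (α : Type) [DecidableEq α] (s : MA a α),
  ∀ k ∈ s.K, k ≠ 1 → ∀ x : s.X, 2 * a.ρ ≤ a.lam * s.M.d x (k • x)

/-- M6: the same for the elements which become trivial later. -/
def stM6 : Prop := ∀ (h : HB) (a : AC) (α : Type) [DecidableEq α] (s : MA a α) (j i : ℕ),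
  j ≤ i → ∀ g : FreeGroup α, (s.sq h i).φ g = 1 → (s.sq h j).φ g ≠ 1 → ∀ x : (s.sq h j).X,
  2 * a.ρ ≤ a.lam * (s.sq h j).M.d x ((s.sq h j).φ g • x)

/-- M7: local control of the distances in a stage by the distances in the next one. -/
def stM7 : Prop := ∀ (h : HB) (a : AC) (α : Type) [DecidableEq α] (s : MA a α) (B : ℝ),
  B ≤ 2 * a.ρ → ∀ x y : s.X, (s.next h).E.d (s.nx h x) (s.nx h y) < B →
  ∃ k ∈ s.K, a.lam * s.M.d x (k • y) ≤ 2 * Real.exp (B / 2)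

/-- M8: pulling back a colouring. -/
def stM8 : Prop := ∀ (h : HB) (a : AC) (α : Type) [DecidableEq α] (s : MA a α)
  (K : Subgroup (FreeGroup α)),
  (∀ g : FreeGroup α, s.φ g ∈ s.K → g ∈ K) → ∀ (B : ℝ) (q : ℕ) (f : (s.next h).X → Fin q),
  0 ≤ B → B + 1 ≤ 2 * a.ρ →
  (∀ x y : (s.next h).X, Relation.ReflTransGen (Stp ((s.next h).qk K) Set.univ f 1) x y →
    ((s.next h).qk K).d x y ≤ B) →
  ∀ x y : s.X, Relation.ReflTransGen
    (Stp (s.qm h K) Set.univ (fun x => f (s.nx h x)) (1 / a.lam)) x y →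
    a.lam * (s.qm h K).d x y ≤ 2 * Real.exp ((B + 1) / 2)

/-- M9: one step of the downward induction. -/
def stM9 : Prop := ∀ (h : HB) (a : AC) (α : Type) [DecidableEq α] (s : MA a α)
  (K : Subgroup (FreeGroup α)) (D0 : ℝ), (∀ g : FreeGroup α, s.φ g ∈ s.K → g ∈ K) → 0 ≤ D0 →
  (∀ r : ℝ, 0 ≤ r → Col s.M Set.univ 8 r (D0 + 3 * r + 7)) →
  4 * Real.exp ((2 * sE D0 7 + 1) / 2) + 1 ≤ a.ρ → a.lam * (sE D0 6 + 2) ≤ 1 →
  (∀ g ∈ K, s.φ g ≠ 1 → ∀ x : s.X, 2 * a.ρ ≤ a.lam * s.M.d x (s.φ g • x)) →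
  Col ((s.next h).qk K) Set.univ 8 1 (2 * sE D0 7) → Col (s.qk K) Set.univ 8 1 (2 * sE D0 7)

/-- M10: the stages modulo the elements which are trivial at a later stage. -/
def stM10 : Prop := ∀ (h : HB) (a : AC) (α : Type) [DecidableEq α] (s : MA a α) (D0 : ℝ),
  0 ≤ D0 → (∀ (i : ℕ) (r : ℝ), 0 ≤ r → Col (s.sq h i).M Set.univ 8 r (D0 + 3 * r + 7)) →
  4 * Real.exp ((2 * sE D0 7 + 1) / 2) + 1 ≤ a.ρ → a.lam * (sE D0 6 + 2) ≤ 1 →
  ∀ j i : ℕ, j ≤ i →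
    Col ((s.sq h j).qk (MonoidHom.ker (s.sq h i).φ)) Set.univ 8 1 (2 * sE D0 7)

/-- The size of the colourings of the annuli of the un-coned metrics. -/
noncomputable def dF (δB δ T7 Dst : ℝ) : ℝ :=
  12 * (12 * δ + 27) + 10 * (δB + 40 + T7) + 24 * (Dst + 12 * δB + 44 + 18 * δB + 46)

/-- M11: from the annuli of the stage to the annuli of the un-coned metric, and to colourings of
the whole space. -/
def stM11 : Prop := ∀ (h : HB) (a : AC) (α : Type) [DecidableEq α] (s : MA a α) (Dst : ℝ),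
  0 ≤ Dst → Sph s.E 4 (4 * a.δ + 9) 3 Dst →
  Sph s.M 4 (12 * a.δ + 27) 3 (dF a.δB a.δ a.T7 Dst) ∧
  ∀ r : ℝ, 0 ≤ r → Col s.M Set.univ 8 r (dF a.δB a.δ a.T7 Dst + 3 * r + 7)

/-- M12: the annuli of all the stages have colourings with `4` colours at the scale `4 δ + 9`,
with the same size. -/
def stM12 : Prop := ∀ h : HC, ∀ δB δ T T7 : ℝ, 1 ≤ δ → 1 ≤ T → ∃ Dst ρ2 : ℝ, 0 ≤ Dst ∧
  ∀ k : KC, k.δB = δB → k.δ = δ → k.T = T → ρ2 ≤ k.ρ → ∃ ε : ℝ, 0 < ε ∧ ∀ a : AC,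
  a.toKC = k → a.T7 = T7 → a.lam ≤ ε → ∀ (α : Type) [DecidableEq α] (i : ℕ),
  Sph (stgA h a α i).E 4 (4 * δ + 9) 3 Dst

/-- M13: compactness with linear control. -/
def stM13 : Prop := ∀ (h : HC) (a : AC) (α : Type) [DecidableEq α] (B : ℝ), 0 ≤ B →
  (∀ j i : ℕ, j ≤ i →
    Col ((stgA h a α j).qk (MonoidHom.ker (stgA h a α i).φ)) Set.univ 8 1 B) →
  FColP α a.n 7 1

/-- M14: all free Burnside groups of large odd exponent have colourings with eight colours and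
linear control. -/
def stM14 : Prop := HC → ∃ N0 : ℕ, ∀ n : ℕ, N0 ≤ n → Odd n → ∀ (α : Type) [DecidableEq α],
  FColP α n 7 1

/-- Linear control: for some `A`, for every `r ≥ 1`, there is a cover of `X` by sets of diameter at
most `A r` such that every ball of radius `r` meets at most `k + 1` of these sets. -/
def ANdimLE {X : Type} (d : X → X → ℝ) (k : ℕ) : Prop :=
  ∃ A : ℝ, ∀ r : ℝ, 1 ≤ r → ∃ U : Set (Set X), (∀ x, ∃ V ∈ U, x ∈ V) ∧
    (∀ V ∈ U, ∀ x ∈ V, ∀ y ∈ V, d x y ≤ A * r) ∧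
    ∀ x, {V | V ∈ U ∧ ∃ y ∈ V, d x y ≤ r}.encard ≤ k + 1

/-- M15: THE THEOREM. -/
def stM15 : Prop := HC → ∃ N0 : ℕ, ∀ m n : ℕ, N0 ≤ n → Odd n → ∀ S : Set (FB (Fin m) n),
  S.Finite → Subgroup.closure S = ⊤ → ANdimLE (wordDist S) 7

end BAN
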