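import Pool.Agent.Lib.MP_8528c3_al.AN.StK
import Pool.Agent.Lib.MP_8528c3_al.AN.StM

/-!
# Burnside project, linear control, M11: from the annuli of the stage to the annuli of the un-coned
metric, and to colourings of the whole space
-/

set_option autoImplicit false

namespace BAN

open BSD

theorem burn_M11 (hG0 : stG0) (hG2 : stG2) (hG2w : stG2w) (hK9 : stK9) : stM11 := by
  intro h a α _ s Dst hD hSph
  obtain ⟨hst, hme, hem, hgp⟩ := h.l6 a s.G s.X s.E _ s.x0 s.ok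
  have hδB := a.hδB
  have hδδ := a.hδδ
  have hT7 := a.hT7
  have hE := s.ok.hB
  have hsg := s.ok.st.sg
  -- the annuli of `E` at the scale `12 δB + 27`
  have h1 : Sph s.E 4 (12 * a.δB + 27) 3 (Dst + 12 * a.δB + 44) := by
    intro o t
    have h2 := hG2 s.X s.E a.δB Dst 4 hE (by linarith) hsg (by norm_num) hD o t 3
      (12 * a.δB + 27) (by norm_num) (by linarith)
      (hG0 _ _ _ _ 4 4 _ _ _ _ (hSph o (t - 3 - (12 * a.δB + 27) / 2)) (Set.Subset.refl _)
        le_rfl (by linarith) le_rfl)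
    exact hG0 _ _ _ _ 4 4 _ _ _ _ h2 (Set.Subset.refl _) le_rfl le_rfl (by linarith)
  have h2 : Sph s.M 4 (12 * a.δ + 27) 3 (dF a.δB a.δ a.T7 Dst) := by
    have h3 := hK9 s.X s.E s.M a.δB a.T7 (Dst + 12 * a.δB + 44) 4 hE hδB hsg hme hem hT7 hgp
      (by norm_num) (by linarith) h1 (12 * a.δ + 27) (by linarith)
    intro o t
    refine hG0 _ _ _ _ 4 4 _ _ _ _ (h3 o t) (Set.Subset.refl _) le_rfl le_rfl ?_
    unfold dF
    linarith
  have hdF : 0 ≤ dF a.δB a.δ a.T7 Dst := by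
    unfold dF
    linarith
  refine ⟨h2, fun r hr => ?_⟩
  have h3 : Sph s.M 4 (4 * a.δ + 9) 3 (dF a.δB a.δ a.T7 Dst) := fun o t =>
    hG0 _ _ _ _ 4 4 _ _ _ _ (h2 o t) (Set.Subset.refl _) le_rfl (by linarith) le_rfl
  exact hG2w s.X s.M a.δ (dF a.δB a.δ a.T7 Dst) 4 hst.hyp (by linarith) hst.sg (by norm_num)
    hdF h3 hst.ne r hr

end BAN
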