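import Pool.Agent.Lib.MP_8528c3_al.AN.StM

/-!
# Burnside project, linear control, M12: the annuli of all the stages have colourings
-/

set_option autoImplicit false

namespace BAN

open BSD

theorem burn_M12 (hF16a : stF16a) (hG0 : stG0) (h17 : stH17) (h18 : stH18) (h19 : stH19)
    (h11 : stM11) : stM12 := by
  intro hc δB δ T T7 hδ hT
  obtain ⟨Dst, ρ2, hD, h⟩ := h19 δ T hδ hT
  refine ⟨Dst, ρ2, by linarith, fun k hk0 hk1 hk2 hk3 => ?_⟩
  obtain ⟨ε, hε, h'⟩ := h k hk1 hk2 hk3 (max 0 (dF δB δ T7 Dst)) (le_max_left _ _)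
  refine ⟨ε, hε, fun a ha hT7 hl α _ i => ?_⟩
  have ea : a.δ = δ := by rw [ha]; exact hk1
  have eb : a.δB = δB := by rw [ha]; exact hk0
  induction i with
  | zero =>
    have h0 : Sph (fgPM α) 1 (4 * δ + 9) 3 (4 * δ + 9 + 4 * 3) :=
      h18 (FreeGroup α) (fgPM α) (hF16a α).1 (4 * δ + 9) 3 (by linarith) (by norm_num)
    intro o t
    exact hG0 _ _ _ _ 1 4 _ _ _ _ (h0 o t) (Set.Subset.refl _) (by norm_num) le_rfl
      (by linarith)
  | succ i ih =>
    set s := stgA hc a α i with hs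
    have h3 : Sph s.M 4 (12 * δ + 27) 3 (max 0 (dF δB δ T7 Dst)) := by
      have h4 := (h11 hc.toHB a α s Dst (by linarith) (by rw [ea]; exact ih)).1
      intro o t
      have h5 := h4 o t
      rw [ea, eb, hT7] at h5
      exact hG0 _ _ _ _ 4 4 _ _ _ _ h5 (Set.Subset.refl _) le_rfl le_rfl (le_max_right _ _)
    have h1 := h' a.toCC ha hl s.G s.X s.J s.M s.Ei s.R s.Y (s.fs hc.toHA) (s.hY hc.toHA)
      (s.hg hc.toHA) (s.iso hc.toHA) h3
    let _ := s.act hc.toHA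
    have h2 := h17 s.G s.C s.K (s.MC hc.toHA) (s.iso hc.toHA) 4 (4 * δ + 9) 3 Dst h1
    exact h2

end BAN
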