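import Pool.Agent.Lib.MP_8528c3_al.AN.StM

/-!
# Burnside project, linear control, M13: compactness with linear control
-/

set_option autoImplicit false

namespace BAN

open BSD

theorem M13_mono (h : HC) (a : AC) (α : Type) [DecidableEq α] (g : FreeGroup α) (i : ℕ)
    (hi : (stgA h a α i).φ g = 1) : ∀ k, i ≤ k → (stgA h a α k).φ g = 1 := by
  intro k hk
  induction k, hk using Nat.le_induction with
  | base => exact hi
  | succ k _ ih =>
    have h1 := (stgA h a α k).next_ker h.toHB g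
    refine h1.2 ?_
    rw [ih]
    exact Subgroup.one_mem _

theorem M13_core (hM3 : stM3) (hM4 : stM4) (h : HC) (c : AC) (α : Type) [DecidableEq α]
    (B P : ℝ) (j R : ℕ)
    (hj : (c.lam / 2) ^ j * (R : ℝ) ≤ 1)
    (hP : ∀ g : FreeGroup α,
      (stgA h c α j).E.d (stgA h c α j).x0 ((stgA h c α j).φ g • (stgA h c α j).x0) ≤ B + 1 →
      ∃ g' : FreeGroup α, (stgA h c α j).φ g' = (stgA h c α j).φ g ∧ (g'.norm : ℝ) ≤ P)
    (hcol : ∀ i : ℕ, j ≤ i →
      Col ((stgA h c α j).qk (MonoidHom.ker (stgA h c α i).φ)) Set.univ 8 1 B) :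
    ∃ f : FB α c.n → Fin 8, ∀ a b : FB α c.n,
      Relation.ReflTransGen (fun a b : FB α c.n => f a = f b ∧ ∃ u : FreeGroup α, u.norm ≤ R ∧
        b = a * (u : FB α c.n)) a b →
      ∃ u : FreeGroup α, (u.norm : ℝ) ≤ P ∧ b = a * (u : FB α c.n) := by
  have hjj : (stgA h c α j).j = j := hM4.2 h c α j
  have hf : ∀ i, ∃ f : (stgA h c α j).X → Fin 8, j ≤ i → ∀ x y : (stgA h c α j).X,
      Relation.ReflTransGen (Stp ((stgA h c α j).qk (MonoidHom.ker (stgA h c α i).φ))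
        Set.univ f 1) x y →
      ((stgA h c α j).qk (MonoidHom.ker (stgA h c α i).φ)).d x y ≤ B := by
    intro i
    by_cases hij : j ≤ i
    · obtain ⟨f, hf⟩ := hcol i hij
      exact ⟨f, fun _ x y h => hf x y (Set.mem_univ _) h⟩
    · exact ⟨fun _ => 0, fun h => absurd h hij⟩
  choose f hf using hf
  let U : Ultrafilter ℕ := Filter.hyperfilter ℕ
  have hU : ∀ i0 : ℕ, ∀ᶠ i in (U : Filter ℕ), i0 ≤ i := by
    intro i0
    have h1 : (U : Filter ℕ) ≤ Filter.atTop := by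
      rw [← Nat.cofinite_eq_atTop]
      exact Filter.hyperfilter_le_cofinite
    exact h1 (Filter.eventually_ge_atTop i0)
  obtain ⟨rep, hrep⟩ : ∃ rep : FB α c.n → FreeGroup α, ∀ b, (rep b : FB α c.n) = b :=
    ⟨Quotient.out, fun b => QuotientGroup.out_eq' b⟩
  obtain ⟨p, hp⟩ : ∃ p : FB α c.n → (stgA h c α j).X,
      ∀ b, p b = (stgA h c α j).φ (rep b) • (stgA h c α j).x0 := ⟨_, fun _ => rfl⟩
  have hcl : ∀ b, ∃ a : Fin 8, ∀ᶠ i in (U : Filter ℕ), f i (p b) = a := by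
    intro b
    obtain ⟨a, ha⟩ := (U.map fun i => f i (p b)).eq_pure_of_finite
    refine ⟨a, ?_⟩
    have h1 : ({a} : Set (Fin 8)) ∈ (U.map fun i => f i (p b)) := by
      rw [ha]
      exact Set.mem_singleton a
    exact h1
  choose col hcol' using hcl
  refine ⟨col, fun a b hab => ?_⟩
  have key : ∀ᶠ i in (U : Filter ℕ), Relation.ReflTransGen
      (Stp ((stgA h c α j).qk (MonoidHom.ker (stgA h c α i).φ)) Set.univ (f i) 1) (p a)
        (p b) := by
    induction hab with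
    | refl => exact Filter.Eventually.of_forall fun _ => Relation.ReflTransGen.refl
    | @tail b b' _ hbc ih =>
      obtain ⟨hc, u, hu, hbu⟩ := hbc
      have h1 : (rep b * u)⁻¹ * rep b' ∈
          Subgroup.normalClosure {h : FreeGroup α | ∃ f, h = f ^ c.n} := by
        rw [← QuotientGroup.eq, QuotientGroup.mk_mul, hrep, hrep, hbu]
      obtain ⟨i0, hi0⟩ := (hM3 h c α _).2 h1
      filter_upwards [ih, hcol' b, hcol' b', hU i0] with i g1 g2 g3 g4
      have h2 := M13_mono h c α _ i0 hi0 i g4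
      refine g1.tail ⟨Set.mem_univ _, Set.mem_univ _, ?_, ?_⟩
      · have h3 : rep b * u * (rep b')⁻¹ ∈ MonoidHom.ker (stgA h c α i).φ := by
          rw [MonoidHom.mem_ker]
          have h4 : (stgA h c α i).φ (rep b') = (stgA h c α i).φ (rep b * u) := by
            rw [map_mul, map_inv, inv_mul_eq_one] at h2
            exact h2.symm
          rw [map_mul, map_inv, h4, mul_inv_cancel]
        have h5 : ((stgA h c α j).qk (MonoidHom.ker (stgA h c α i).φ)).d (p b) (p b') ≤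
            (stgA h c α j).E.d (p b)
              ((stgA h c α j).φ (rep b * u * (rep b')⁻¹) • p b') :=
          dqf_le (stgA h c α j).E _ (p b) (p b') (Subgroup.mem_map_of_mem _ h3)
        refine h5.trans ?_
        have h6 : (stgA h c α j).φ (rep b * u * (rep b')⁻¹) • p b' =
            (stgA h c α j).φ (rep b) • (stgA h c α j).φ u • (stgA h c α j).x0 := by
          rw [hp, smul_smul, smul_smul, ← map_mul, ← map_mul, inv_mul_cancel_right]
        rw [h6, hp, (stgA h c α j).ok.st.iso]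
        have h9 := (hM4.1 h.toHB c α (stgA h c α j)).2.2.2.2.2.2.2.2.1 u
        rw [hjj] at h9
        refine h9.trans ?_
        have h7 : (u.norm : ℝ) ≤ R := by exact_mod_cast hu
        have h8 : 0 ≤ (c.lam / 2) ^ j := pow_nonneg (by have := c.hlam; linarith) j
        nlinarith
      · rw [g2, g3, hc]
  obtain ⟨i, hi1, hi2⟩ := (key.and (hU j)).exists
  have h1 := hf i hi2 (p a) (p b) hi1
  obtain ⟨k, ⟨g, hg, rfl⟩, hk⟩ := dqf_approx (stgA h c α j).E
    ((MonoidHom.ker (stgA h c α i).φ).map (stgA h c α j).φ) (p a) (p b) one_pos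
  have h2 : (stgA h c α j).E.d (p a) ((stgA h c α j).φ g • p b) < B + 1 := by
    have h3 : dqf (stgA h c α j).E ((MonoidHom.ker (stgA h c α i).φ).map (stgA h c α j).φ)
      (p a) (p b) ≤ B := h1
    linarith
  have h3 : (stgA h c α j).E.d (stgA h c α j).x0
      ((stgA h c α j).φ ((rep a)⁻¹ * g * rep b) • (stgA h c α j).x0) ≤ B + 1 := by
    have h4 := (stgA h c α j).ok.st.iso ((stgA h c α j).φ (rep a)) (stgA h c α j).x0
      ((stgA h c α j).φ ((rep a)⁻¹ * g * rep b) • (stgA h c α j).x0)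
    rw [← h4, smul_smul, ← map_mul, ← hp]
    have h5 : rep a * ((rep a)⁻¹ * g * rep b) = g * rep b := by group
    rw [h5, map_mul, ← smul_smul, ← hp]
    exact h2.le
  obtain ⟨u, hu, hn⟩ := hP _ h3
  refine ⟨u, hn, ?_⟩
  have h4 : (g : FB α c.n) = 1 := by
    rw [QuotientGroup.eq_one_iff]
    exact (hM3 h c α g).1 ⟨i, hg⟩
  have h5 : (u : FB α c.n) = (((rep a)⁻¹ * g * rep b : FreeGroup α) : FB α c.n) := by
    rw [QuotientGroup.eq]
    refine (hM3 h c α _).1 ⟨j, ?_⟩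
    rw [map_mul, map_inv, hu, inv_mul_cancel]
  rw [h5, QuotientGroup.mk_mul, QuotientGroup.mk_mul, QuotientGroup.mk_inv, h4, hrep, hrep]
  group

theorem burn_M13 (hM3 : stM3) (hM4 : stM4) (hF0b : stF0b) : stM13 := by
  intro h c α _ B hB hcol
  have hlam1 : c.lam ≤ 1 / 100 := (hF0b c.toCC).2.2.1
  have hlam := c.hlam
  have hC1 := c.hC1
  have hq : 0 < c.lam / 2 := by linarith
  have hq2 : (1 : ℝ) ≤ (c.lam / 2)⁻¹ := by
    rw [one_le_inv₀ hq]
    linarith
  have hCB : 0 ≤ c.C1 * (B + 1) := by positivity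
  refine ⟨c.C1 * (B + 1) * (c.lam / 2)⁻¹, by positivity, fun R hR => ?_⟩
  have hR1 : (1 : ℝ) ≤ R := by exact_mod_cast hR
  have hex : ∃ j : ℕ, (c.lam / 2) ^ j * (R : ℝ) ≤ 1 := by
    have h1 : Filter.Tendsto (fun j : ℕ => (c.lam / 2) ^ j * (R : ℝ)) Filter.atTop
        (nhds (0 * (R : ℝ))) :=
      (tendsto_pow_atTop_nhds_zero_of_lt_one hq.le (by linarith)).mul_const _
    rw [zero_mul] at h1
    obtain ⟨j, hj⟩ := (h1.eventually (gt_mem_nhds one_pos)).exists
    exact ⟨j, hj.le⟩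
  classical
  obtain ⟨j, hj, hmin⟩ : ∃ j : ℕ, (c.lam / 2) ^ j * (R : ℝ) ≤ 1 ∧
      ∀ i < j, 1 < (c.lam / 2) ^ i * (R : ℝ) :=
    ⟨Nat.find hex, Nat.find_spec hex, fun i hi => not_le.1 (Nat.find_min hex hi)⟩
  have hpow : ((c.lam / 2)⁻¹) ^ j ≤ (c.lam / 2)⁻¹ * R := by
    cases j with
    | zero =>
      rw [pow_zero]
      nlinarith
    | succ i =>
      have h1 := hmin i (Nat.lt_succ_self i)
      have h2 : ((c.lam / 2)⁻¹) ^ i ≤ R := by
        rw [inv_pow, inv_le_iff_one_le_mul₀' (by positivity)]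
        exact h1.le
      rw [pow_succ, mul_comm]
      exact mul_le_mul_of_nonneg_left h2 (by linarith)
  obtain ⟨f, hf⟩ := M13_core hM3 hM4 h c α B (c.C1 * (B + 1) * ((c.lam / 2)⁻¹) ^ j) j R hj
    (fun g hg => by
      obtain ⟨g', hg', hn⟩ := (hM4.1 h.toHB c α (stgA h c α j)).2.2.2.2.2.2.2.2.2 g
      rw [hM4.2 h c α j] at hn
      refine ⟨g', hg', ?_⟩
      have h1 : (c.lam / 2) ^ j * (g'.norm : ℝ) ≤ c.C1 * (B + 1) :=
        hn.trans (mul_le_mul_of_nonneg_left hg (by linarith))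
      rw [inv_pow, ← div_eq_mul_inv, le_div_iff₀' (by positivity)]
      exact h1)
    (fun i hi => hcol j i hi)
  refine ⟨f, fun a b hab => ?_⟩
  obtain ⟨u, hu, hb⟩ := hf a b hab
  refine ⟨u, hu.trans ?_, hb⟩
  rw [Real.rpow_one]
  calc c.C1 * (B + 1) * ((c.lam / 2)⁻¹) ^ j ≤ c.C1 * (B + 1) * ((c.lam / 2)⁻¹ * R) :=
        mul_le_mul_of_nonneg_left hpow hCB
    _ = c.C1 * (B + 1) * (c.lam / 2)⁻¹ * R := by ring

end BAN
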