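import Pool.Agent.Lib.MP_8528c3_al.AN.StM
import Pool.Agent.Lib.MP_8528c3_al.AN.StK

/-!
# Burnside project, linear control, M14: all free Burnside groups of large odd exponent
-/

namespace BAN

open BSD

namespace M14

theorem sE_nonneg (D0 : ℝ) (hD : 0 ≤ D0) (a : ℕ) : 0 ≤ sE D0 a := by
  induction a with
  | zero =>
    simp only [sE]
    linarith
  | succ a ih =>
    simp only [sE]
    linarith

theorem dF_nonneg (δB δ T7 Dst : ℝ) (h1 : 0 ≤ δB) (h2 : 0 ≤ δ) (h3 : 0 ≤ T7) (h4 : 0 ≤ Dst) :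
    0 ≤ dF δB δ T7 Dst := by
  unfold dF
  positivity

end M14

/-- M14: all free Burnside groups of large odd exponent have colourings with eight colours and
linear control. -/
theorem burn_M14 (hB20 : stB20) (hK7 : stK7) (hF0A : stF0A) (hM10 : stM10) (hM11 : stM11)
    (hM12 : stM12) (hM13 : stM13) : stM14 := by
  intro h
  obtain ⟨δB, T, hδB, hT, hCO⟩ := hB20
  obtain ⟨δ, T7, hδδ, hδ, hT7, hUN⟩ := hK7 δB (by linarith)
  obtain ⟨ρ1, hρ1⟩ := hF0A δB δ T T7 hδB hδδ hT hCO hT7 hUN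
  obtain ⟨Dst, ρ2, hDst, hS⟩ := hM12 h δB δ T T7 hδ hT
  obtain ⟨D0, eD0⟩ : ∃ D0 : ℝ, D0 = dF δB δ T7 Dst := ⟨_, rfl⟩
  have hD0 : 0 ≤ D0 := by
    rw [eD0]
    exact M14.dF_nonneg _ _ _ _ (by linarith) (by linarith) hT7 hDst
  obtain ⟨k, hkB, hkδ, hkT, hkρ, hk⟩ := hρ1
    (max (max ρ1 ρ2) (4 * Real.exp ((2 * sE D0 7 + 1) / 2) + 1))
    ((le_max_left _ _).trans (le_max_left _ _))
  obtain ⟨ε, hε, hε'⟩ := hS k hkB hkδ hkT (by
    rw [hkρ]
    exact (le_max_right _ _).trans (le_max_left _ _))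
  have hpos : 0 < sE D0 6 + 2 := by
    have := M14.sE_nonneg D0 hD0 6
    linarith
  have hsE7 := M14.sE_nonneg D0 hD0 7
  obtain ⟨N0, hN0⟩ := hk (min ε (1 / (sE D0 6 + 2))) (lt_min hε (by positivity))
  refine ⟨N0, fun n hn hodd α _ => ?_⟩
  obtain ⟨a, ha, han, hal, haT⟩ := hN0 n hn hodd
  subst han
  have hal1 : a.lam ≤ ε := hal.trans (min_le_left _ _)
  have hal2 : a.lam ≤ 1 / (sE D0 6 + 2) := hal.trans (min_le_right _ _)
  have eB : a.δB = δB := by rw [← hkB, ← ha]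
  have eδ : a.δ = δ := by rw [← hkδ, ← ha]
  refine hM13 h a α (2 * sE D0 7) (by linarith) fun j i hji => ?_
  refine hM10 h.toHB a α (MA.base h a α) D0 hD0 (fun i r hr => ?_) ?_ ?_ j i hji
  · have h1 := (hM11 h.toHB a α (stgA h a α i) Dst hDst
      (by rw [eδ]; exact hε' a ha haT hal1 α i)).2 r hr
    rw [eB, eδ, haT, ← eD0] at h1
    exact h1
  · have h1 : a.ρ = max (max ρ1 ρ2) (4 * Real.exp ((2 * sE D0 7 + 1) / 2) + 1) := by
      rw [← hkρ, ← ha]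
    rw [h1]
    exact le_max_right _ _
  · exact (le_div_iff₀ hpos).1 hal2

end BAN
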