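import Pool.Agent.Lib.MP_8528c3_al.AN.StM

/-!
# Burnside project, linear control, M15: the theorem
-/

set_option autoImplicit false

namespace BAN

open BSD

theorem burn_M15 (hJ7 : stJ7) (hM14 : stM14) : stM15 := by
  intro hc
  obtain ⟨N0, hN⟩ := hM14 hc
  refine ⟨N0, fun m n hn ho S hS hS' => ?_⟩
  obtain ⟨A, hA⟩ := hJ7 (Fin m) n 7 1 zero_le_one (hN n hn ho (Fin m)) S hS hS'
  refine ⟨A, fun r hr => ?_⟩
  obtain ⟨U, h1, h2, h3⟩ := hA r hr
  refine ⟨U, h1, fun V hV x hx y hy => ?_, h3⟩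
  have := h2 V hV x hx y hy
  rwa [Real.rpow_one] at this

end BAN
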