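import Pool.Agent.Lib.MP_8528c3_al.AN.MAsm

/-!
# Burnside project, linear control: M1 (the quotient of a stage is a stage)
-/

namespace BAN

open BSD

theorem burn_M1 (hF0b : stF0b) (hF15a : stF15a) (hL5 : stL5) (hL7 : stL7) (hL8 : stL8)
    (hL9 : stL9) : stM1 := by
  intro h a α _ s
  let act := s.act h
  have nor := s.nor h
  let qact := qAct s.C s.K
  obtain ⟨-, -, ⟨bl, -⟩⟩ := hF0b a.toCC
  have hlam := a.hlam
  have hq0 : 0 < a.lam / 2 := by linarith
  have hq1 : a.lam / 2 ≤ 1 := by linarith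
  have hsur : Function.Surjective ((QuotientGroup.mk' s.K).comp s.φ) :=
    (QuotientGroup.mk'_surjective s.K).comp s.sur
  obtain ⟨w1, w2, -, -, -⟩ := hL5 α (s.G ⧸ s.K) (a.lam / 2)
    ((QuotientGroup.mk' s.K).comp s.φ) (s.j + 1) hsur hq0 hq1
  obtain ⟨-, -, -, -, w3⟩ := hL5 α s.G (a.lam / 2) s.φ s.j s.sur hq0 hq1
  obtain ⟨w4, w5⟩ := w3 s.K
  obtain ⟨e1, e2⟩ := h.f15 s.G s.X s.J a.toCC s.M s.Ei s.R s.Y (s.fs h) (s.cov h) (s.hY h)
    (s.hg h) (s.iso h)
  -- the word norm in the quotient, seen in the group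
  have h7 := hL7 a s.G s.X s.J s.E _ s.x0 s.ok s.Ei s.R s.Y (s.fs h) (s.slt h) (s.hY h) (s.hg h)
    (fun g : s.G => nw (a.lam / 2) ((QuotientGroup.mk' s.K).comp s.φ) (s.j + 1) (g : s.G ⧸ s.K))
    w4 w5
  have hst : STAGE (s.G ⧸ s.K) (qM (s.MC h) s.K (s.iso h)) a.n a.δ a.L' a.A0 a.ko :=
    hF15a s.G s.C s.K (s.MC h) (s.iso h) a.n a.δ a.L' a.A0 a.ko e1
  refine ⟨hst, ?_, w1, w2, ?_, ?_, ?_⟩
  · exact (hL9 s.G s.C s.K (s.MC h) (s.iso h) 1).2.2.1 a.δB e2
  · intro g
    induction g using QuotientGroup.induction_on with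
    | H g => exact h7.1 g
  · intro g
    induction g using QuotientGroup.induction_on with
    | H g => exact h7.2 g
  · intro t g hL hsl
    induction g using QuotientGroup.induction_on with
    | H g =>
      obtain ⟨l1, l2, -, l4⟩ := hL9 s.G s.C s.K (s.MC h) (s.iso h) g
      have hgn : g ^ a.n ∉ KK s.R := by
        intro hn
        obtain ⟨c, hc, h1⟩ := hL
        have h2 := h1 (qz s.K (s.cb s.x0)) a.n
        have h3 : ((g : s.G ⧸ s.K)) ^ a.n = 1 := by
          rw [← QuotientGroup.mk_pow]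
          exact (QuotientGroup.eq_one_iff (g ^ a.n)).2 hn
        rw [h3, one_smul, PM.self] at h2
        have h4 : (0 : ℝ) < a.n := by
          have := a.hn.pos
          exact_mod_cast this
        nlinarith
      have h8 := hL8 a s.G s.X s.J s.E _ s.x0 s.ok s.Ei s.R s.Y (s.fs h) (s.hY h) (s.hg h)
        (s.iso h)
        (fun g : s.G => nw (a.lam / 2) ((QuotientGroup.mk' s.K).comp s.φ) (s.j + 1)
          (g : s.G ⧸ s.K)) w4 (fun g => w1.nn _) t g hgn (by
            rw [l1] at hsl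
            exact hsl)
      rw [l1, l4]
      exact h8

end BAN
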