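import Pool.Agent.Lib.MP_8528c3_al.AN.StK

/-!
# Burnside project, linear control, K10, K10w: stable lengths
-/

namespace BAN

open BSD

section

variable {G X : Type} [Group G] [MulAction G X] {M : PM X}

theorem sl_nonneg (M : PM X) (g : G) : 0 ≤ sl M g :=
  Real.sInf_nonneg (by
    rintro t ⟨x, m, hm, rfl⟩
    exact div_nonneg (M.nonneg _ _) (Nat.cast_nonneg m))

theorem sl_mul_le (M : PM X) (g : G) (x : X) (m : ℕ) : sl M g * m ≤ M.d x (g ^ m • x) := by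
  rcases Nat.eq_zero_or_pos m with rfl | hm
  · simp [M.self]
  · have hm' : (0:ℝ) < m := by exact_mod_cast hm
    rw [← le_div_iff₀ hm']
    refine csInf_le ⟨0, ?_⟩ ⟨x, m, hm, rfl⟩
    rintro t ⟨x, m, hm, rfl⟩
    exact div_nonneg (M.nonneg _ _) (Nat.cast_nonneg m)

theorem le_sl (M : PM X) (g : G) (h : Nonempty X) (c : ℝ)
    (hc : ∀ (x : X) (m : ℕ), c * m ≤ M.d x (g ^ m • x)) : c ≤ sl M g := by
  obtain ⟨x0⟩ := h
  refine le_csInf ⟨_, x0, 1, le_rfl, rfl⟩ ?_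
  rintro t ⟨x, m, hm, rfl⟩
  have hm' : (0:ℝ) < m := by exact_mod_cast hm
  rw [le_div_iff₀ hm']
  exact hc x m

/-- Displacement of powers. -/
theorem disp_pow (hI : Iso G M) (g : G) (y : X) (j : ℕ) :
    M.d y (g ^ j • y) ≤ j * M.d y (g • y) := by
  induction j with
  | zero => simp [M.self]
  | succ j ih =>
    have h1 := M.tri y (g ^ j • y) (g ^ (j + 1) • y)
    have h2 : M.d (g ^ j • y) (g ^ (j + 1) • y) = M.d y (g • y) := by
      rw [pow_succ, mul_smul]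
      exact hI _ _ _
    push_cast
    linarith

/-- Displacement at another point. -/
theorem disp_base (hI : Iso G M) (g : G) (x y : X) :
    M.d x (g • x) ≤ 2 * M.d x y + M.d y (g • y) := by
  have h1 := M.tri x y (g • x)
  have h2 := M.tri y (g • y) (g • x)
  have h3 := hI g y x
  have h4 := M.symm x y
  linarith

theorem sl_approx (hI : Iso G M) (g : G) (x : X) {ε : ℝ} (hε : 0 < ε) (m0 : ℕ) :
    ∃ m : ℕ, m0 ≤ m ∧ 1 ≤ m ∧ M.d x (g ^ m • x) ≤ (sl M g + ε) * m := by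
  have hne : {t | ∃ (x : X) (m : ℕ), 1 ≤ m ∧ t = M.d x (g ^ m • x) / m}.Nonempty :=
    ⟨_, x, 1, le_rfl, rfl⟩
  obtain ⟨t, ⟨y, k, hk, rfl⟩, h1⟩ := exists_lt_of_csInf_lt hne
    (lt_add_of_pos_right (sl M g) (half_pos hε))
  have hk' : (0:ℝ) < k := by exact_mod_cast hk
  have hk1 : (1:ℝ) ≤ k := by exact_mod_cast hk
  rw [div_lt_iff₀ hk'] at h1
  obtain ⟨j0, hj0⟩ := exists_nat_gt (2 * M.d x y / (ε / 2))
  rw [div_lt_iff₀ (half_pos hε)] at hj0
  have hj1 : (j0:ℝ) ≤ ((j0 + m0 + 1 : ℕ) : ℝ) := by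
    exact_mod_cast (by omega : j0 ≤ j0 + m0 + 1)
  set j : ℕ := j0 + m0 + 1 with hj
  have hj' : (0:ℝ) ≤ j := Nat.cast_nonneg j
  refine ⟨k * j, ?_, ?_, ?_⟩
  · calc m0 ≤ 1 * j := by omega
      _ ≤ k * j := Nat.mul_le_mul_right j hk
  · calc 1 ≤ 1 * j := by omega
      _ ≤ k * j := Nat.mul_le_mul_right j hk
  · have h2 := disp_base hI (g ^ (k * j)) x y
    have h3 := disp_pow hI (g ^ k) y j
    rw [← pow_mul] at h3
    have h4 : (j:ℝ) * M.d y (g ^ k • y) ≤ j * ((sl M g + ε / 2) * k) :=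
      mul_le_mul_of_nonneg_left h1.le hj'
    have h5 : 2 * M.d x y ≤ j * (ε / 2) := by nlinarith
    have h6 : (j:ℝ) * (ε / 2) ≤ j * (ε / 2) * k := by
      have : 0 ≤ (j:ℝ) * (ε / 2) := mul_nonneg hj' (half_pos hε).le
      nlinarith
    push_cast
    nlinarith

theorem sl_pow (hI : Iso G M) (g : G) (p : ℕ) (h : Nonempty X) : sl M (g ^ p) = p * sl M g := by
  obtain ⟨x⟩ := h
  refine le_antisymm ?_ ?_
  · refine le_of_forall_pos_le_add fun η hη => ?_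
    have hp : (0:ℝ) < (p:ℝ) + 1 := by positivity
    have hε : 0 < η / ((p:ℝ) + 1) := div_pos hη hp
    obtain ⟨m, -, hm, h1⟩ := sl_approx hI g x hε 0
    have hm' : (0:ℝ) < m := by exact_mod_cast hm
    have h2 := disp_pow hI (g ^ m) x p
    have h3 := sl_mul_le M (g ^ p) x m
    have h4 : (g ^ p) ^ m = (g ^ m) ^ p := by rw [← pow_mul, ← pow_mul, mul_comm]
    rw [h4] at h3
    have hp0 : (0:ℝ) ≤ p := Nat.cast_nonneg p
    have h5 : (p:ℝ) * M.d x (g ^ m • x) ≤ p * ((sl M g + η / ((p:ℝ) + 1)) * m) :=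
      mul_le_mul_of_nonneg_left h1 hp0
    have h6 : sl M (g ^ p) * m ≤ (p * (sl M g + η / ((p:ℝ) + 1))) * m := by
      linarith
    have h7 := le_of_mul_le_mul_right h6 hm'
    have h8 : (p:ℝ) * (η / ((p:ℝ) + 1)) ≤ η := by
      rw [mul_div_assoc', div_le_iff₀ hp]
      nlinarith
    linarith
  · refine le_sl M (g ^ p) ⟨x⟩ _ fun y m => ?_
    have h1 := sl_mul_le M g y (p * m)
    rw [pow_mul] at h1
    push_cast at h1
    linarith

end

theorem burn_K10 : stK10 := by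
  intro G X _ _ M hI g
  refine ⟨sl_nonneg M g, sl_mul_le M g, fun h c hc => le_sl M g h c hc,
    fun x ε hε m0 => sl_approx hI g x hε m0, fun p h => sl_pow hI g p h, fun h => ⟨?_, ?_⟩⟩
  · rintro ⟨c, hc, h1⟩
    exact lt_of_lt_of_le hc (le_sl M g h c h1)
  · intro h1
    exact ⟨sl M g, h1, sl_mul_le M g⟩

section

variable {G : Type} [Group G] {W : G → ℝ}

theorem WNm.pow_le (hW : WNm W) (g : G) (j : ℕ) : W (g ^ j) ≤ j * W g := by
  induction j with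
  | zero => simp [hW.one]
  | succ j ih =>
    have h1 := hW.mul (g ^ j) g
    rw [← pow_succ] at h1
    push_cast
    linarith

theorem slW_nonneg (hW : WNm W) (g : G) : 0 ≤ slW W g :=
  Real.sInf_nonneg (by
    rintro t ⟨m, hm, rfl⟩
    exact div_nonneg (hW.nn _) (Nat.cast_nonneg m))

theorem slW_mul_le (hW : WNm W) (g : G) (m : ℕ) : slW W g * m ≤ W (g ^ m) := by
  rcases Nat.eq_zero_or_pos m with rfl | hm
  · simp [hW.one]
  · have hm' : (0:ℝ) < m := by exact_mod_cast hm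
    rw [← le_div_iff₀ hm']
    refine csInf_le ⟨0, ?_⟩ ⟨m, hm, rfl⟩
    rintro t ⟨m, hm, rfl⟩
    exact div_nonneg (hW.nn _) (Nat.cast_nonneg m)

theorem le_slW (W : G → ℝ) (g : G) (c : ℝ) (hc : ∀ m : ℕ, c * m ≤ W (g ^ m)) : c ≤ slW W g := by
  refine le_csInf ⟨_, 1, le_rfl, rfl⟩ ?_
  rintro t ⟨m, hm, rfl⟩
  have hm' : (0:ℝ) < m := by exact_mod_cast hm
  rw [le_div_iff₀ hm']
  exact hc m

theorem slW_approx (hW : WNm W) (g : G) {ε : ℝ} (hε : 0 < ε) (m0 : ℕ) :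
    ∃ m : ℕ, m0 ≤ m ∧ 1 ≤ m ∧ W (g ^ m) ≤ (slW W g + ε) * m := by
  have hne : {t | ∃ m : ℕ, 1 ≤ m ∧ t = W (g ^ m) / m}.Nonempty := ⟨_, 1, le_rfl, rfl⟩
  obtain ⟨t, ⟨k, hk, rfl⟩, h1⟩ := exists_lt_of_csInf_lt hne (lt_add_of_pos_right (slW W g) hε)
  have hk' : (0:ℝ) < k := by exact_mod_cast hk
  rw [div_lt_iff₀ hk'] at h1
  refine ⟨k * (m0 + 1), ?_, ?_, ?_⟩
  · calc m0 ≤ 1 * (m0 + 1) := by omega
      _ ≤ k * (m0 + 1) := Nat.mul_le_mul_right _ hk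
  · calc 1 ≤ 1 * (m0 + 1) := by omega
      _ ≤ k * (m0 + 1) := Nat.mul_le_mul_right _ hk
  · have h2 := hW.pow_le (g ^ k) (m0 + 1)
    rw [← pow_mul] at h2
    have h3 : (0:ℝ) ≤ ((m0 + 1 : ℕ) : ℝ) := Nat.cast_nonneg _
    have h4 := mul_le_mul_of_nonneg_left h1.le h3
    rw [Nat.cast_mul]
    linarith

end

theorem burn_K10w : stK10w := by
  intro G _ W hW g
  exact ⟨slW_nonneg hW g, slW_mul_le hW g, fun c hc => le_slW W g c hc,
    fun ε hε m0 => slW_approx hW g hε m0⟩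

end BAN
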