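import Pool.Agent.Lib.MP_8528c3_al.AN.MAsm
import Pool.Agent.Lib.MP_8528c3_al.AN.K10

/-!
# Burnside project, linear control, M2: the free group is a stage
-/

namespace BAN

open BSD

theorem M2.hyp_mono {X : Type} {M : PM X} {δ δ' : ℝ} (h : M.Hyp δ) (hd : δ ≤ δ') : M.Hyp δ' := by
  intro x y z w
  have := h x y z w
  linarith

theorem M2.nw_id (α : Type) [DecidableEq α] (q : ℝ) (g : FreeGroup α) :
    nw q (MonoidHom.id (FreeGroup α)) 0 g = (g.norm : ℝ) := by
  have h : {k : ℕ | ∃ u : FreeGroup α, MonoidHom.id (FreeGroup α) u = g ∧ u.norm = k} =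
      {g.norm} := by
    ext k
    simp only [MonoidHom.id_apply, Set.mem_setOf_eq, Set.mem_singleton_iff]
    constructor
    · rintro ⟨u, rfl, rfl⟩
      rfl
    · rintro rfl
      exact ⟨g, rfl, rfl⟩
  unfold nw
  rw [h, csInf_singleton, pow_zero, one_mul]

theorem M2.d_one (α : Type) [DecidableEq α] (g : FreeGroup α) :
    (fgPM α).d 1 (g • (1 : FreeGroup α)) = (g.norm : ℝ) := by
  show (((1 : FreeGroup α)⁻¹ * (g • (1 : FreeGroup α))).norm : ℝ) = _
  rw [smul_eq_mul, inv_one, one_mul, mul_one]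

theorem burn_M2 (hF16 : stF16) (hF16a : stF16a) (hF0b : stF0b) (hF0c : stF0c) (hL5 : stL5) :
    stM2 := by
  intro a α _
  obtain ⟨⟨-, hL', -, -, -, -, -, -, hκ0, hκ, -⟩, -, hlam, -⟩ := hF0b a.toCC
  obtain ⟨hko0, hko1, -⟩ := hF0c a.toCC
  obtain ⟨hh, hs, hg⟩ := hF16a α
  have hl := a.hlam
  have hlam2 : 0 < a.lam / 2 := half_pos hl
  have hlam3 : a.lam / 2 ≤ 1 := by linarith
  obtain ⟨hw, hws, -⟩ := hL5 α (FreeGroup α) (a.lam / 2) (MonoidHom.id (FreeGroup α)) 0
    Function.surjective_id hlam2 hlam3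
  have hδ := a.hδ
  have hδB := a.hδB
  have hL1 : 1 ≤ a.L' := by linarith
  have hM' : 0 < a.M' := by
    rw [a.eM']
    positivity
  have hA : 1000 * (a.δ + 1) * a.L' ≤ a.A0 := by
    have h1 := a.eA0
    have h2 : 0 ≤ a.r1 := by
      rw [a.er1]
      linarith [a.ρ0]
    linarith
  refine
    { st := hF16 α a.n a.δ a.L' a.A0 a.ko hδ hL1 hA hko0 hko1
      hB := M2.hyp_mono hh (by linarith)
      wn := hw
      ws := hws
      ew := fun g => ?_
      we := fun g => ?_
      rt := ?_ }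
  · rw [M2.d_one, M2.nw_id]
  · rw [M2.d_one, M2.nw_id]
    have h1 : (0 : ℝ) ≤ (g.norm : ℝ) := Nat.cast_nonneg _
    have h2 := a.hC1
    nlinarith
  · intro t g hlox hsl
    exfalso
    have hg1 : g ≠ 1 := by
      rintro rfl
      obtain ⟨c, hc, h1⟩ := hlox
      have h2 := h1 1 1
      rw [one_pow, one_smul, (fgPM α).self] at h2
      simp only [Nat.cast_one, mul_one] at h2
      linarith
    have h1 : (1 : ℝ) ≤ sl (fgPM α) g := by
      refine le_sl (fgPM α) g ⟨1⟩ 1 fun x m => ?_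
      have := hg g hg1 x m
      rw [one_mul, smul_eq_mul]
      exact this
    have h2 : (a.lam / 2) ^ t ≤ 1 := pow_le_one₀ hlam2.le hlam3
    have h3 : a.κ * a.lam ≤ 1 := by nlinarith
    have h4 : 0 ≤ a.κ * a.lam := by positivity
    have h5 : a.κ * a.lam * (a.lam / 2) ^ t ≤ 1 := by
      have := mul_le_mul h3 h2 (by positivity) zero_le_one
      linarith
    linarith

end BAN
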