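import Pool.Agent.Lib.MP_8528c3_al.AN.StM

/-!
# Burnside project, linear control, M3: the free Burnside group is the limit of the stages
-/

namespace BAN

open BSD

/-- M3. -/
theorem burn_M3 (hM4 : stM4) (h0b : stF0b) (h0c : stF0c) (h17 : stF17) : stM3 := by
  intro h a α _ g
  refine h17 (FreeGroup α) (fun i => (stgA h a α i).G) (fun i => (stgA h a α i).X)
    (fun i => (stgA h a α i).E) a.n a.δ a.L' a.A0 a.ko a.lam (h0c a.toCC).1 a.hlam.le ?_
    (fun i => (stgA h a α i).ok.st) (fun i => (stgA h a α i).φ) (fun i => (stgA h a α i).sur)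
    Function.injective_id (fun i => (stgA h a α i).x0) ?_ ?_ ?_ g
  · have := (h0b a.toCC).2.2.1
    linarith
  · intro i g
    obtain ⟨h1, -, -, -, h4, -, h5, h6, -⟩ := hM4.1 h.toHB a α (stgA h a α i)
    have h7 := h5 (stgA h a α i).x0 ((stgA h a α i).φ g • (stgA h a α i).x0)
    rw [← h4 g, h6] at h7
    exact h7.trans (mul_le_mul_of_nonneg_left (h1 _ _) a.hlam.le)
  · intro i g hg
    have := ((stgA h a α i).next_ker h.toHB g).2 (by rw [hg]; exact Subgroup.one_mem _)
    exact this
  · intro i g hg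
    exact (stgA h a α i).K_le (((stgA h a α i).next_ker h.toHB g).1 hg)

end BAN
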