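import Pool.Agent.Lib.MP_8528c3_al.AN.StM

/-!
# Burnside project, linear control, M4: elementary facts on the stages
-/

namespace BAN

open BSD

/-- M4. -/
theorem burn_M4 (hL5 : stL5) (h0b : stF0b) : stM4 := by
  constructor
  · intro h a α _ s
    have hl := (h0b a.toCC).2.2.1
    have hl0 : 0 < a.lam := a.hlam
    obtain ⟨-, h1, h2, -⟩ := h.toHA.l6 a s.G s.X s.E _ s.x0 s.ok
    obtain ⟨-, -, h3, h4, -⟩ := hL5 α s.G (a.lam / 2) s.φ s.j s.sur (by linarith) (by linarith)
    refine ⟨h1, h2, ?_, ?_, ?_, ?_, ?_, rfl, ?_, ?_⟩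
    · intro K x y
      exact le_dqf _ _ _ _ fun k hk => (dqf_le _ _ _ _ hk).trans (h1 _ _)
    · intro K x y
      have h5 : dqf s.E (K.map s.φ) x y / 2 ≤ dqf s.M (K.map s.φ) x y := by
        refine le_dqf _ _ _ _ fun k hk => ?_
        have h6 := (dqf_le s.E (K.map s.φ) x y hk).trans (h2 _ _)
        change _ ≤ 2 * s.M.d x (k • y) at h6
        linarith
      change dqf s.E (K.map s.φ) x y ≤ 2 * dqf s.M (K.map s.φ) x y
      linarith
    · intro g x
      rfl
    · intro x y
      rfl
    · intro x y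
      let _ := s.act h.toHA
      have h5 := dqf_le (s.MC h.toHA) s.K (s.cb x) (s.cb y) s.K.one_mem
      rw [one_smul] at h5
      exact h5.trans (s.cb_d h x y)
    · intro g
      exact (s.ok.ew (s.φ g)).trans (h3 g)
    · intro g
      obtain ⟨u, hu, hn⟩ := h4 (s.φ g)
      refine ⟨u, hu, ?_⟩
      rw [← hn]
      exact s.ok.we (s.φ g)
  · intro h a α _ i
    induction i with
    | zero => rfl
    | succ i ih =>
      change (stgA h a α i).j + 1 = i + 1
      rw [ih]

end BAN
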