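import Pool.Agent.Lib.MP_8528c3_al.AN.StM

/-!
# Burnside project, linear control, M5, M6: the elements which become trivial move the points of the
stage far away
-/

namespace BAN

open BSD

/-- M5. -/
theorem burn_M5 (hD7 : stD7) (hB9 : stB9) : stM5 := by
  intro h a α _ s k hk hk1 x
  let _ := s.act h.toHA
  obtain ⟨i, _, _, h90, _⟩ := (hD7 s.G s.C s.J (s.MC h.toHA) _ s.R _ _ _ _ (s.ws h.toHA) k hk hk1
    (s.cb x)).2
  have h1 := (s.ws h.toHA).rf.r2 i (s.cb x) (k • s.cb x) (by linarith)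
  have hc : ∀ y : s.X, a.ρ ≤ (s.MC h.toHA).d (s.cb y) (Co.apex i : s.C) := by
    intro y
    have h2 := (hB9 s.X s.J (a.N s.M) s.Y a.ρ (s.hY h.toHA) a.ρ0 i (s.cb y) (s.cb y)).2.2.1 rfl
    have h3 : ht (s.cb y : Co s.Y a.ρ) = 0 := rfl
    rw [h3, add_zero] at h2
    exact h2
  have hsm : ∀ (g : s.G) (y : s.X), g • s.cb y = s.cb (g • y) := fun g y => rfl
  have h4 := hc x
  have h5 := hc (k • x)
  rw [← hsm k x] at h5
  have h6 := s.cb_d h x (k • x)
  rw [← hsm k x, h1, (s.MC h.toHA).symm _ (k • s.cb x)] at h6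
  linarith

/-- M6. -/
theorem burn_M6 (hM4 : stM4) (hM5 : stM5) (h0b : stF0b) : stM6 := by
  intro h a α _ s j i hji
  obtain ⟨d, rfl⟩ := Nat.exists_eq_add_of_le hji
  clear hji
  have hl1 : a.lam ≤ 1 := by
    have := (h0b a.toCC).2.2.1
    linarith
  have hl0 : 0 < a.lam := a.hlam
  induction d generalizing j with
  | zero =>
    intro g hi hj
    exact absurd hi hj
  | succ d ih =>
    intro g hi hj x
    by_cases h1 : (s.sq h (j + 1)).φ g = 1
    · have h2 : (s.sq h j).φ g ∈ (s.sq h j).K := ((s.sq h j).next_ker h g).1 h1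
      exact hM5 h a α (s.sq h j) _ h2 hj x
    · have e : j + (d + 1) = (j + 1) + d := by omega
      rw [e] at hi
      have h3 : 2 * a.ρ ≤ a.lam * ((s.sq h j).next h).M.d ((s.sq h j).nx h x)
          (((s.sq h j).next h).φ g • (s.sq h j).nx h x) :=
        ih (j + 1) g hi h1 ((s.sq h j).nx h x)
      obtain ⟨-, -, -, -, h4, -, h5, -⟩ := hM4.1 h a α (s.sq h j)
      have h6 := (hM4.1 h a α ((s.sq h j).next h)).1 ((s.sq h j).nx h x)
        (((s.sq h j).next h).φ g • (s.sq h j).nx h x)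
      have h7 := h5 x ((s.sq h j).φ g • x)
      rw [← h4 g x] at h7
      have h8 := mul_le_mul_of_nonneg_left (h6.trans h7) hl0.le
      have h9 : 0 ≤ a.lam * (s.sq h j).M.d x ((s.sq h j).φ g • x) :=
        mul_nonneg hl0.le ((s.sq h j).M.nonneg _ _)
      have h10 : a.lam * (a.lam * (s.sq h j).M.d x ((s.sq h j).φ g • x)) ≤
          1 * (a.lam * (s.sq h j).M.d x ((s.sq h j).φ g • x)) :=
        mul_le_mul_of_nonneg_right hl1 h9
      linarith

end BAN
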