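import Pool.Agent.Lib.MP_8528c3_al.AN.StM

/-!
# Burnside project, linear control: M7 (local control of the distances in a stage)
-/

namespace BAN

open BSD

theorem burn_M7 (h4 : stM4) (h7 : stB7) : stM7 := by
  intro h a α _ s B hB x y hd
  let _ := s.act h.toHA
  obtain ⟨_, _, _, _, _, e2, _, _, _, _⟩ := h4.1 h a α s
  rw [e2 x y] at hd
  obtain ⟨k, hk, h1⟩ := dqf_approx (s.MC h.toHA) s.K (s.cb x) (s.cb y) (sub_pos.2 hd)
  refine ⟨k, hk, ?_⟩
  have h2 : (s.MC h.toHA).d (s.cb x) (s.cb (k • y)) < B := by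
    have h3 : (s.MC h.toHA).d (s.cb x) (k • s.cb y) < B := by
      have e1 : dqf (s.MC h.toHA) s.K (s.cb x) (s.cb y) +
        (B - dqf (s.MC h.toHA) s.K (s.cb x) (s.cb y)) = B := by ring
      linarith
    exact h3
  have h3 := h7 s.X s.J (a.N s.M) s.Y a.ρ (fun i => (s.hY h.toHA i).some) (s.hY h.toHA) a.ρ0
    (Co.base x) (Co.base (k • y))
  have h4 : 2 * min a.ρ (max (max 0 0) (Real.log (a.lam * s.M.d x (k • y) / 2))) - 0 - 0 < B :=
    lt_of_le_of_lt h3 h2
  by_contra hcon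
  rw [not_le] at hcon
  have h5 : B / 2 < Real.log (a.lam * s.M.d x (k • y) / 2) := by
    rw [Real.lt_log_iff_exp_lt (by have := Real.exp_pos (B / 2); linarith)]
    linarith
  have h6 : B / 2 ≤ min a.ρ (max (max 0 0) (Real.log (a.lam * s.M.d x (k • y) / 2))) :=
    le_min (by linarith) (le_max_of_le_right h5.le)
  linarith

end BAN
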