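import Pool.Agent.Lib.MP_8528c3_al.AN.AllF
import Pool.Agent.Lib.MP_8528c3_al.AllI
import Pool.Agent.Lib.MP_8528c3_al.AN.F14s
import Pool.Agent.Lib.MP_8528c3_al.AN.F0A
import Pool.Agent.Lib.MP_8528c3_al.AN.L0
import Pool.Agent.Lib.MP_8528c3_al.AN.L1
import Pool.Agent.Lib.MP_8528c3_al.AN.L2
import Pool.Agent.Lib.MP_8528c3_al.AN.L3
import Pool.Agent.Lib.MP_8528c3_al.AN.L5
import Pool.Agent.Lib.MP_8528c3_al.AN.L6
import Pool.Agent.Lib.MP_8528c3_al.AN.L7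
import Pool.Agent.Lib.MP_8528c3_al.AN.L8_12
import Pool.Agent.Lib.MP_8528c3_al.AN.L9_12
import Pool.Agent.Lib.MP_8528c3_al.AN.M1_12
import Pool.Agent.Lib.MP_8528c3_al.AN.M2
import Pool.Agent.Lib.MP_8528c3_al.AN.M3
import Pool.Agent.Lib.MP_8528c3_al.AN.M4
import Pool.Agent.Lib.MP_8528c3_al.AN.M5
import Pool.Agent.Lib.MP_8528c3_al.AN.M7
import Pool.Agent.Lib.MP_8528c3_al.AN.M8
import Pool.Agent.Lib.MP_8528c3_al.AN.M9
import Pool.Agent.Lib.MP_8528c3_al.AN.M10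
import Pool.Agent.Lib.MP_8528c3_al.AN.M11
import Pool.Agent.Lib.MP_8528c3_al.AN.M12
import Pool.Agent.Lib.MP_8528c3_al.AN.M13
import Pool.Agent.Lib.MP_8528c3_al.AN.M14
import Pool.Agent.Lib.MP_8528c3_al.AN.M15

/-!
# Burnside project, linear control: assembly
-/

namespace BAN

open BSD

theorem okF14s : stF14s := burn_F14s okF15b okF6 okF7 okG5a okF0b okF0c
theorem okF14 : stF14 := burn_F14 okC0 okD8 okE9 okF5w okF11 okF12 okF13 okF14s okF0b
theorem okF15 : stF15 :=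
  burn_F15 okC6 okB10 okD8 okD10 okF4 okF5 okF6 okF5w okF10 okF11 okF12 okF13 okF14 okF0b okF0c
theorem okF0A : stF0A := burn_F0A
theorem okL0 : stL0 := burn_L0
theorem okL1 : stL1 := burn_L1 okE8 okF0b okF0c okF6 okF7 okG5a okK5 okK6 okK10
theorem okL2 : stL2 := burn_L2 okF0b okF0c okF6 okK10 okL1
theorem okL3 : stL3 := burn_L3 okF0b
theorem okL5 : stL5 := burn_L5
theorem okL6 : stL6 := burn_L6 okK1 okK3b okK4 okK8 okF0b
theorem okL7 : stL7 := burn_L7 okK1 okK3 okK3b okK4 okK10 okK12 okF6 okL2 okL3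
theorem okL8 : stL8 := burn_L8 okD8 okF5w okF18 okK3b okK10 okK11 okK12 okL0 okF0b
theorem okL9 : stL9 := burn_L9
theorem okM1 : stM1 := burn_M1 okF0b okF15a okL5 okL7 okL8 okL9
theorem okM2 : stM2 := burn_M2 okF16 okF16a okF0b okF0c okL5

theorem okHC : HC where
  d8 := okD8
  f1 := okF1
  f5w := okF5w
  f6 := okF6
  f15 := okF15
  f15k := okF15k
  l6 := okL6
  m1 := okM1
  m2 := okM2

theorem okM4 : stM4 := burn_M4 okL5 okF0b
theorem okM3 : stM3 := burn_M3 okM4 okF0b okF0c okF17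
theorem okM5 : stM5 := burn_M5 okD7 okB9
theorem okM6 : stM6 := burn_M6 okM4 okM5 okF0b
theorem okM7 : stM7 := burn_M7 okM4 okB7
theorem okM8 : stM8 := burn_M8 okM4 okM7
theorem okM9 : stM9 := burn_M9 okI3c okI3d okF0b okM4 okM8
theorem okM10 : stM10 := burn_M10 okM4 okM6 okM9
theorem okM11 : stM11 := burn_M11 okG0 okG2 okG2w okK9
theorem okM12 : stM12 := burn_M12 okF16a okG0 okH17 okH18 okH19 okM11
theorem okM13 : stM13 := burn_M13 okM3 okM4 okF0b
theorem okM14 : stM14 := burn_M14 okB20 okK7 okF0A okM10 okM11 okM12 okM13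

/-- THE THEOREM: free Burnside groups of large odd exponent have Assouad-Nagata dimension at
most `7`. -/
theorem okM15 : ∃ N0 : ℕ, ∀ m n : ℕ, N0 ≤ n → Odd n →
    ∀ S : Set (FB (Fin m) n), S.Finite → Subgroup.closure S = ⊤ → ANdimLE (wordDist S) 7 :=
  burn_M15 okJ7 okM14 okHC

end BAN
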