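import Pool.Agent.Lib.MP_8528c3_al.AN.StF

/-!
# Burnside project, linear control, F0b and F0c: elementary inequalities between the constants
-/

namespace BAN

open BSD

theorem F0b.kl_pos (c : CC) : 0 < c.kl ∧ 0 < c.n := by
  have ht : 0 < tt1 c.δ c.ρ := by
    unfold tt1
    have h1 := Real.exp_pos c.ρ
    have h2 := Real.exp_pos (5 * c.δ + 14)
    linarith
  have hn : 0 < c.n := by
    rcases Nat.eq_zero_or_pos c.n with h | h
    · exfalso
      have := c.hn
      rw [h] at this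
      simp at this
    · exact h
  have hn' : (0 : ℝ) < c.n := by exact_mod_cast hn
  have h3 : 0 < c.lam * (c.kl * c.n) := by rw [c.elam]; linarith
  have h4 : 0 < c.kl * c.n := (pos_iff_pos_of_mul_pos h3).1 c.hlam
  exact ⟨(pos_iff_pos_of_mul_pos h4).2 hn', hn⟩

theorem burn_F0b : stF0b := by
  intro c
  have hδ := c.hδ
  have hT := c.hT
  have eL := c.eL
  have eL1 := c.eL1
  have eLi := c.eLi
  have eL' := c.eL'
  have eM' := c.eM'
  have eM2 := c.eM2
  have eC3 := c.eC3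
  have hTt0 := c.hTt0
  have hTt := c.hTt
  have eκ := c.eκ
  have hρ1 := c.hρ1
  have hρ2 := c.hρ2
  have er1 := c.er1
  have eA0 := c.eA0
  have eA1 := c.eA1
  have eA2 := c.eA2
  have eA3 := c.eA3
  have eA4 := c.eA4
  have hlam := c.hlam
  have elam := c.elam
  have eko := c.eko
  have hκ := c.hκ
  have hl := c.hl
  have h1 : 2000 ≤ c.L := by linarith
  have h2 : 4000 ≤ c.L' := by linarith
  have h3 : c.L' ≤ c.M' := by
    have := Real.add_one_le_exp ((3 * c.L' + 5) / 2)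
    rw [eM']; linarith
  have h4 : 1 ≤ Real.log c.M2 := by
    rw [Real.le_log_iff_exp_le (by linarith)]
    have := Real.exp_one_lt_d9
    linarith
  have h5 : 10 ≤ c.C3 := by linarith
  have h6 : c.C3 ≤ c.ρ := by linarith
  have hTtpos : 0 < c.Tt / 4 := by linarith
  have h7 : 2 * c.M2 ≤ c.Tt / 4 := by
    have := Real.log_le_sub_one_of_pos hTtpos
    linarith
  have h8 : c.M' ≤ c.Tt := by linarith
  have h9 : c.L ≤ c.Tt := by linarith
  have hTt2 : 0 < 2 * c.Tt := by linarith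
  have h10 : 0 < c.κ := by
    rw [eκ]; exact div_pos (by linarith) hTt2
  have h11 : c.κ * (2 * c.Tt) = c.L := by
    rw [eκ]; exact div_mul_cancel₀ _ hTt2.ne'
  have h12 : c.κ ≤ 1 / 2 := by
    rw [eκ, div_le_iff₀ hTt2]; linarith
  have hdL : 0 ≤ (c.δ + 1) * c.L' := by
    apply mul_nonneg <;> linarith
  have hr1 : c.ρ < c.r1 := by linarith
  have hr1' : 0 < c.r1 := by linarith [c.ρ0]
  have hA0' : 2 * c.r1 < c.A0 := by
    rw [eA0]; linarith
  have hA0 : 0 < c.A0 := by linarith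
  have hA1 : 0 < c.A1 := by linarith
  have hA2 : 0 < c.A2 := by linarith
  have hA3 : 0 < c.A3 := by linarith
  have hA4 : 0 < c.A4 := by linarith
  have hA34 : c.A3 ≤ c.A4 := by linarith
  have htt : c.M2 + 4 * Real.exp (c.T + 1 + c.δ) ≤ tt1 c.δ c.ρ := by
    unfold tt1
    have g1 := Real.exp_pos c.ρ
    have g2 := Real.exp_pos (5 * c.δ + 14)
    linarith
  have hs : c.lam * (c.A4 + c.A0 + c.δ + 10) ≤ 1 / 10000 := by linarith
  have key : ∀ x : ℝ, x ≤ c.A4 + c.A0 + c.δ + 10 → c.lam * x ≤ 1 / 10000 := fun x hx =>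
    le_trans (mul_le_mul_of_nonneg_left hx hlam.le) hs
  have hlam1 : c.lam ≤ 1 / 100 := by
    have := key 1 (by linarith)
    linarith
  have hkl : 0 < c.kl := (F0b.kl_pos c).1
  refine ⟨⟨h1, h2, h3, h4, h5, h6, h8, h9, h10, h12, h11⟩,
    ⟨hA0, hA1, hA2, hA3, hA4, hA0', by linarith, hA34, htt⟩,
    ⟨hlam1, key _ (by linarith), key _ (by linarith), key _ (by linarith), key _ (by linarith),
      key _ (by linarith), key _ (by linarith), hkl, ?_, ?_, elam⟩⟩
  · have g1 := mul_le_mul h12 hlam1 hlam.le (by norm_num : (0:ℝ) ≤ 1 / 2)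
    linarith
  · calc c.ko * (2 * c.Tt) ≤ c.κ * c.lam * (2 * c.Tt) := mul_le_mul_of_nonneg_right hκ hTt2.le
      _ = c.lam * (c.κ * (2 * c.Tt)) := by ring
      _ = c.lam * c.L := by rw [h11]

theorem burn_F0c : stF0c := by
  intro c
  obtain ⟨⟨h1, h2, h3, h4, h5, h6, h8, h9, h10, h12, h11⟩, _, hlam1, _, _, _, _, _, _, hkl, _⟩ :=
    burn_F0b c
  have hδ := c.hδ
  have eL := c.eL
  have eL1 := c.eL1
  have eLi := c.eLi
  have eL' := c.eL'
  have hlam := c.hlam
  have eko := c.eko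
  have eτ := c.eτ
  have hκ := c.hκ
  have hko : 0 < c.ko := by linarith
  refine ⟨hko, ?_, by linarith, ?_, by linarith, by linarith, by linarith, (F0b.kl_pos c).2⟩
  · have g1 := mul_le_mul h12 hlam1 hlam.le (by norm_num : (0:ℝ) ≤ 1 / 2)
    linarith
  · rw [← eτ] at hko
    exact (pos_iff_pos_of_mul_pos hko).1 hlam

end BAN
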