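import Pool.Agent.Lib.MP_8528c3_al.AN.StF

/-!
# Burnside project, F11a: points with small displacement in the quotient
-/

namespace BAN

open BSD

namespace F11a

/-- The abstract form, in the windmill setting. -/
theorem core (hD8 : stD8) (hD10 : stD10) (hD12b : stD12b) (hD13 : stD13) (hE1 : stE1)
    {G Z I : Type} [Group G] [MulAction G Z] [MulAction G I] {M : PM Z}
    {v : I → Z} {R : I → Subgroup G} {θ : I → Z → Z → ℝ} {ρ C δ : ℝ} (w : WS M v R θ ρ C δ)
    (E : I → Subgroup G) (L' r1 : ℝ) (hL : 0 ≤ L') (hρ : 20 * L' + 1000 * δ + 1000 ≤ ρ)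
    (hE : ∀ (g : G) (i : I), g • i = i ↔ g ∈ E i)
    (hRE : ∀ i, ∀ h ∈ R i, h ∈ E i)
    (hEE : ∀ i j : I, i ≠ j → ∀ f : G, f ∈ E i → f ∈ E j → f = 1)
    (hF : ∀ i, ∀ f ∈ E i, f ≠ 1 → ∀ x : Z, M.d x (f • x) ≤ L' + 1 → M.d x (v i) ≤ r1)
    (i : I) (g : G) (hg : g ∈ E i) (hgK : g ∉ KK R) (x : Z)
    (hx : dqf M (KK R) x (g • x) ≤ L')
    (hxi : M.d x (v i) ≤ dqf M (KK R) x (v i) + 1 + 2 * (2 * L' + 2 + δ)) :
    M.d x (v i) ≤ r1 := by
  have hδ := w.hδ
  have iso := w.rf.iso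
  obtain ⟨hN, h8⟩ := hD8 G Z I M v R θ ρ C δ w
  obtain ⟨h8iso, h8inv, h8le, h8sg, h8far⟩ := h8 iso
  have hgi : g • i = i := (hE g i).2 hg
  have hgw : g • v i = v i := by rw [← w.rf.vg, hgi]
  -- the distance `dq`
  have hsy : ∀ a b : Z, dqf M (KK R) a b = dqf M (KK R) b a := (dqPM M (KK R) iso).symm
  have hle : ∀ a b : Z, dqf M (KK R) a b ≤ M.d a b := h8le
  have hiq : ∀ (g : G) (a b : Z), dqf M (KK R) (g • a) (g • b) = dqf M (KK R) a b := h8iso
  have hwb : dqf M (KK R) (v i) (g • x) = dqf M (KK R) (v i) x := by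
    have h := hiq g (v i) x
    rwa [hgw] at h
  -- the second case leads to a contradiction
  have second : ∀ j : I, j ≠ i → M.gp (v i) (g • x) (v j) ≤
      (2 * (2 * L' + 2 + δ) + L' + 2) / 2 + δ → False := by
    intro j hj hgp
    have hji : g⁻¹ • j ≠ i := by
      intro h
      apply hj
      rw [inv_smul_eq_iff] at h
      rw [h, hgi]
    have hvj : g • v (g⁻¹ • j) = v j := by rw [← w.rf.vg, smul_inv_smul]
    have hgp' : M.gp (v i) x (v (g⁻¹ • j)) ≤
        (2 * (2 * L' + 2 + δ) + L' + 2) / 2 + δ := by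
      have : M.gp (v i) x (v (g⁻¹ • j)) = M.gp (v i) (g • x) (v j) := by
        unfold PM.gp
        rw [← iso g (v i) (v (g⁻¹ • j)), ← iso g x (v (g⁻¹ • j)), ← iso g (v i) x, hgw, hvj]
      rw [this]
      exact hgp
    have hxi' : M.d (v i) x ≤ dqf M (KK R) (v i) x + 1 + 2 * (2 * L' + 2 + δ) := by
      rw [M.symm, hsy]
      exact hxi
    have hw0 : dqf M (KK R) (v i) (g • v i) = 0 := by
      rw [hgw]
      exact (dqPM M (KK R) iso).self (v i)
    have hfar0 : 2 * ρ ≤ M.d (v i) (v (g⁻¹ • j)) := w.rf.r0 i (g⁻¹ • j) (fun h => hji h.symm)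
    apply hgK
    refine hD13 G Z I M v R θ ρ C δ w (fun f a b hab ha hb => hEE a b hab f ((hE f a).1 ha)
      ((hE f b).1 hb)) g i (g⁻¹ • j) ?_ ⟨1, (KK R).one_mem, by rw [one_smul, hgi]⟩ ?_
    · intro k hk hki
      have h1 : dqf M (KK R) x (v i) ≤ M.d x (v (g⁻¹ • j)) := by
        have h2 := dqf_le M (KK R) x (v i) hk
        rw [← w.rf.vg, hki] at h2
        exact h2
      rw [hsy] at h1
      unfold PM.gp at hgp'
      linarith
    · by_contra hcon
      have h2 : 2 * ρ ≤ dqf M (KK R) (v (g⁻¹ • j)) (v (g • g⁻¹ • j)) := by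
        refine h8far (g⁻¹ • j) (g • g⁻¹ • j) fun k hk hkj => hcon ⟨k, hk, hkj.symm⟩
      have h2' : v (g • g⁻¹ • j) = g • v (g⁻¹ • j) := w.rf.vg g (g⁻¹ • j)
      rw [h2'] at h2
      have h3 : dqf M (KK R) (v (g⁻¹ • j)) (g • v (g⁻¹ • j)) ≤
          max (dqf M (KK R) (v i) (g • v i)) (dqf M (KK R) x (g • x)) +
          2 * (dqPM M (KK R) iso).gp (v i) x (v (g⁻¹ • j)) + 4 * δ :=
        hE1 G Z (dqPM M (KK R) iso) δ h8iso (hD10 G Z I M v R θ ρ C δ w iso) g (v i) x
          (v (g⁻¹ • j))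
      have h4 : max (dqf M (KK R) (v i) (g • v i)) (dqf M (KK R) x (g • x)) ≤ L' := by
        rw [hw0]
        exact max_le hL hx
      have h5 : (dqPM M (KK R) iso).gp (v i) x (v (g⁻¹ • j)) =
          (dqf M (KK R) (v i) (v (g⁻¹ • j)) + dqf M (KK R) x (v (g⁻¹ • j)) -
            dqf M (KK R) (v i) x) / 2 := rfl
      have h6 := hle (v i) (v (g⁻¹ • j))
      have h7 := hle x (v (g⁻¹ • j))
      rw [h5] at h3
      unfold PM.gp at hgp'
      linarith
  -- the lift
  obtain ⟨k, hk, hkx⟩ := dqf_approx M (KK R) x (g • x) one_pos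
  have hkx' : M.d x (k • g • x) ≤ L' + 1 := by linarith
  have hwk : M.d (v i) (k • g • x) ≤
      dqf M (KK R) (v i) (g • x) + (2 * (2 * L' + 2 + δ) + L' + 2) := by
    have h1 := M.tri (v i) x (k • g • x)
    rw [hwb, hsy (v i) x]
    rw [M.symm (v i) x] at h1
    linarith
  by_cases hkE : k ∈ E i
  · refine hF i (k * g) ((E i).mul_mem hkE hg) ?_ x ?_
    · intro h
      apply hgK
      have : g = k⁻¹ := by
        rw [eq_comm, inv_eq_iff_mul_eq_one]
        exact h
      rw [this]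
      exact (KK R).inv_mem hk
    · rw [mul_smul]
      exact hkx'
  · exfalso
    have hk1 : k ≠ 1 := by
      rintro rfl
      exact hkE (E i).one_mem
    have hC' : 0 ≤ 2 * (2 * L' + 2 + δ) + L' + 2 := by linarith
    have hsm : (2 * (2 * L' + 2 + δ) + L' + 2) / 2 + δ < ρ - (7 * δ + 5) := by linarith
    rcases hD12b G Z I M v R θ ρ C δ w (v i) (g • x) _ k hk hk1 hC' hwk hsm with
      ⟨i1, hi1, _, h1, _⟩ | ⟨i1, h, hh, _, hθ, hgpb, h1, _⟩
    · refine second i1 ?_ (by linarith)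
      rintro rfl
      exact hkE (hRE _ _ hi1)
    · by_cases hi : i1 = i
      · subst hi
        have hhk : h * k ∉ E i1 := by
          intro hc
          apply hkE
          have : k = h⁻¹ * (h * k) := by group
          rw [this]
          exact (E i1).mul_mem ((E i1).inv_mem (hRE _ _ hh)) hc
        have hhk1 : h * k ≠ 1 := by
          intro hc
          rw [hc] at hhk
          exact hhk (E i1).one_mem
        have hhK : h ∈ KK R := Subgroup.subset_closure ⟨i1, hh⟩
        have hhw : h • v i1 = v i1 := by rw [← w.rf.vg, w.rf.fix i1 h hh]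
        have hwk' : M.d (v i1) ((h * k) • g • x) ≤
            dqf M (KK R) (v i1) (g • x) + (2 * (2 * L' + 2 + δ) + L' + 2) := by
          have h2 := iso h (v i1) (k • g • x)
          rw [hhw] at h2
          rw [mul_smul, h2]
          exact hwk
        rcases hD12b G Z I M v R θ ρ C δ w (v i1) (g • x) _ (h * k) ((KK R).mul_mem hhK hk) hhk1
          hC' hwk' hsm with ⟨i2, hi2, _, h2, _⟩ | ⟨i2, h', hh', _, hθ', hgpb', h2, _⟩
        · refine second i2 ?_ (by linarith)
          rintro rfl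
          exact hhk (hRE _ _ hi2)
        · by_cases hi : i2 = i1
          · subst hi
            have h3 := w.rf.r2 i2 (g • x) ((h * k) • g • x) (by linarith)
            unfold PM.gp at hgpb
            rw [M.symm ((h * k) • g • x) (v i2)] at hgpb
            linarith
          · exact second i2 hi h2
      · exact second i1 hi h1

end F11a

/-- F11a. -/
theorem burn_F11a (hD8 : stD8) (hD10 : stD10) (hD12b : stD12b) (hD13 : stD13) (hE1 : stE1)
    (hF5w : stF5w) (hF6 : stF6) (hF11b : stF11b) (hF0b : stF0b) : stF11a := by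
  intro G X I _ _ _ c M E R Y fs hY hg i g hgi hgK x hx hxi
  let _ := coAct c.ρ hg
  obtain ⟨⟨_, _, h63, h64, _⟩, _, _, h6R, _⟩ := hF6 G X I c M E R Y fs
  obtain ⟨⟨hL1, hL2, _⟩, _⟩ := hF0b c
  have w := hF5w G X I c M E R Y fs hY hg
  refine F11a.core hD8 hD10 hD12b hD13 hE1 w E c.L' c.r1 (by linarith) ?_ h63
    (fun i h hh => (h6R i h hh).1) h64 (fun i f hf hf1 x hx => ?_) i g hgi hgK x hx hxi
  · have h1 := c.hρ1
    have h2 := c.hδ
    have h3 := (hF0b c).1.2.2.2.2.1
    linarith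
  · exact hF11b G X I c M E R Y fs hY hg i f hf hf1 x hx

end BAN
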