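import Pool.Agent.Lib.MP_8528c3_al.AN.StF

/-!
# Burnside project, F14: (h5) for the quotient
-/

namespace BAN

open BSD

theorem f14_zpow {G : Type} [Group G] (K : Subgroup G) (hK : K.Normal) (k g : G) (hk : k ∈ K)
    (m : ℤ) : ∃ k' ∈ K, (k * g) ^ m = k' * g ^ m := by
  refine ⟨(k * g) ^ m * (g ^ m)⁻¹, ?_, by group⟩
  have h1 : ((k * g : G) : G ⧸ K) = (g : G ⧸ K) := by
    rw [QuotientGroup.mk_mul, (QuotientGroup.eq_one_iff k).2 hk, one_mul]
  have h2 : (((k * g) ^ m * (g ^ m)⁻¹ : G) : G ⧸ K) = 1 := by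
    rw [QuotientGroup.mk_mul, QuotientGroup.mk_zpow, h1, QuotientGroup.mk_inv,
      QuotientGroup.mk_zpow, mul_inv_cancel]
  exact (QuotientGroup.eq_one_iff _).1 h2

theorem burn_F14 (hC0 : stC0) (hD8 : stD8) (hE9 : stE9) (hF5w : stF5w)
    (hF11 : stF11) (hF12 : stF12) (hF13 : stF13) (hF14s : stF14s)
    (hF0b : stF0b) : stF14 := by
  intro G X I _ _ _ c M E R Y hfs hcov hY hg
  let act : MulAction G (Co Y c.ρ) := coAct c.ρ hg
  intro g x y hgK hx hy
  have hiso : ∀ (g : G) (x y : X), (c.N M).d (g • x) (g • y) = (c.N M).d x y := by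
    intro g x y
    show c.lam * M.d (g • x) (g • y) = c.lam * M.d x y
    rw [hfs.st.iso g x y]
  obtain ⟨izo, hbase, _⟩ := hC0 G X I (c.N M) Y c.ρ hY c.ρ0 hg hiso
  have hws := hF5w G X I c M E R Y hfs hY hg
  have hN : (KK R).Normal := (hD8 G (Co Y c.ρ) I (c.Z M hY) _ R _ _ _ _ hws).1
  obtain ⟨⟨_, hL', _, _, hC3, _⟩, ⟨hA0, _⟩, hlam1, hlam2, _, _, _, hlam3, _⟩ := hF0b c
  have hM' : 0 < c.M' := by
    rw [c.eM']
    positivity
  have hr1 : 0 ≤ c.r1 := by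
    have h1 := c.er1
    have h2 := c.ρ0
    linarith
  have hA0' : 2 * c.r1 + 200 * c.M' + 10 * c.L' ≤ c.A0 := by
    have h1 := c.eA0
    have h2 : 0 ≤ 1000 * (c.δ + 1) * c.L' := by
      have h3 := c.hδ
      positivity
    linarith
  -- the distance of the quotient
  have dsymm : ∀ a b : Co Y c.ρ, dqf (c.Z M hY) (KK R) a b = dqf (c.Z M hY) (KK R) b a :=
    fun a b => (dqPM (c.Z M hY) (KK R) izo).symm a b
  obtain ⟨k, hk, hky⟩ := dqf_approx (c.Z M hY) (KK R) x y (η := 1) one_pos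
  have hxy' : dqf (c.Z M hY) (KK R) x (k • y) = dqf (c.Z M hY) (KK R) x y :=
    dqf_smul_right _ _ _ _ hk
  have hy' : dqf (c.Z M hY) (KK R) (k • y) (g • (k • y)) ≤ c.L' := by
    rw [dqf_smul_left _ _ izo _ _ hk]
    have h1 : g • (k • y) = (g * k * g⁻¹) • (g • y) := by
      rw [smul_smul, smul_smul]
      congr 1
      group
    rw [h1, dqf_smul_right _ _ _ _ (hN.conj_mem k hk g)]
    exact hy
  have hd : (c.Z M hY).d x (k • y) ≤ dqf (c.Z M hY) (KK R) x (k • y) + 1 := by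
    rw [hxy']
    exact hky.le
  by_cases hA : dqf (c.Z M hY) (KK R) x y ≤ c.A0
  · refine ⟨0, ?_⟩
    rw [zpow_zero, one_smul, dsymm]
    exact hA
  rw [not_le] at hA
  by_cases hap : ∃ i, (c.Z M hY).gp x (k • y) (Co.apex i) ≤ 2 * c.L' + 2 + c.δ
  · have h1 := hF11 G X I c M E R Y hfs hY hg x (k • y) hd hap g hgK hx hy'
    rw [hxy'] at h1
    linarith
  have hap' : ∀ i, 2 * c.L' + 2 + c.δ < (c.Z M hY).gp x (k • y) (Co.apex i) := by
    intro i
    by_contra h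
    exact hap ⟨i, not_lt.1 h⟩
  obtain ⟨k', hk', hgx, hgy⟩ := hF12 G X I c M E R Y hfs hY hg x (k • y) hd hap' g hx hy'
  have hdA : c.A0 ≤ (c.Z M hY).d x (k • y) := by
    have h1 := dqf_le (c.Z M hY) (KK R) x y hk
    linarith
  obtain ⟨e, _, he⟩ := hF13 G X I c M E R Y hfs hcov hY hg x (k • y) hdA
  have hne : k' * g ≠ 1 := by
    intro h1
    apply hgK
    rw [eq_inv_of_mul_eq_one_right h1]
    exact (KK R).inv_mem hk'
  obtain ⟨hlox, hnE, x0, y0, hx0, hy0, hdx, hdy⟩ := (he (k' * g) hgx hgy).2 hne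
  -- the displacement of `k' g` in `X`
  have hB : ∀ u : X, c.lam * M.d u ((k' * g) • u) ≤ c.M' → M.d u ((k' * g) • u) ≤
      c.M' / c.lam := by
    intro u hu
    rw [le_div_iff₀ c.hlam, mul_comm]
    exact hu
  obtain ⟨m, hm⟩ : ∃ m : ℤ, c.lam * M.d y0 ((k' * g) ^ m • x0) ≤ 2 * c.M' + 1 := by
    by_cases hdisp : ∃ u : X, M.d u ((k' * g) • u) ≤ c.L
    · obtain ⟨m, hm⟩ := hF14s G X c M hfs.st (k' * g) hlox hdisp x0 y0 (c.M' / c.lam)
        ⟨hB x0 hdx, hB y0 hdy⟩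
      refine ⟨m, ?_⟩
      have h1 := mul_le_mul_of_nonneg_left hm c.hlam.le
      have h2 : c.lam * (2 * (c.M' / c.lam) + 100 * c.A3) =
          2 * c.M' + 100 * (c.lam * c.A3) := by
        have h3 := c.hlam.ne'
        field_simp
      rw [h2] at h1
      linarith
    · push Not at hdisp
      obtain ⟨m, hm⟩ := hE9 G X M c.δ hfs.st.iso hfs.st.hyp hfs.st.sg c.hδ (k' * g)
        (fun u => by
          have h1 := hdisp u
          have h2 := c.eL
          have h3 := c.hδ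
          linarith) x0 y0 (c.M' / c.lam) ⟨hB x0 hdx, hB y0 hdy⟩
      refine ⟨m, ?_⟩
      have h1 := mul_le_mul_of_nonneg_left hm c.hlam.le
      have h2 : c.lam * (2 * (c.M' / c.lam) + 36 * c.δ + 20) =
          2 * c.M' + 36 * (c.lam * c.δ) + 20 * c.lam := by
        have h3 := c.hlam.ne'
        field_simp
      rw [h2] at h1
      linarith
  refine ⟨m, ?_⟩
  obtain ⟨k'', hk'', hkm⟩ := f14_zpow (KK R) hN k' g hk' m
  have e1 : dqf (c.Z M hY) (KK R) y (g ^ m • x) =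
      dqf (c.Z M hY) (KK R) (k • y) ((k' * g) ^ m • x) := by
    rw [hkm, mul_smul, dqf_smul_right _ _ _ _ hk'', dqf_smul_left _ _ izo _ _ hk]
  rw [e1]
  have e2 := dqf_le (c.Z M hY) (KK R) (k • y) ((k' * g) ^ m • x) (KK R).one_mem
  rw [one_smul] at e2
  have e3 := (c.Z M hY).tri (k • y) (Co.base y0) ((k' * g) ^ m • x)
  have e4 := (c.Z M hY).tri (Co.base y0) (Co.base ((k' * g) ^ m • x0)) ((k' * g) ^ m • x)
  have e5 : (c.Z M hY).d (Co.base ((k' * g) ^ m • x0)) ((k' * g) ^ m • x) ≤ c.L' + 2 := by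
    rw [← hbase, izo, (c.Z M hY).symm]
    exact hx0
  have e6 : (c.Z M hY).d (Co.base y0) (Co.base ((k' * g) ^ m • x0)) ≤
      c.lam * M.d y0 ((k' * g) ^ m • x0) :=
    coD_le (Co.pth_one (Mv.base (M := c.N M) _ _))
  linarith

end BAN
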