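import Pool.Agent.Lib.MP_8528c3_al.AN.StF

set_option autoImplicit false

/-!
# Burnside project, linear control, F15: the cone-off is a stage modulo `K`, hyperbolic with
the constant `δB`
-/

namespace BAN

open BSD

namespace F15

variable {G Z : Type} [Group G] [MulAction G Z]

/-- The displacement in the quotient pseudo-metric is invariant under `K`. -/
theorem disp (M : PM Z) (K : Subgroup G) (hK : K.Normal)
    (iso : ∀ (g : G) (x y : Z), M.d (g • x) (g • y) = M.d x y) (y : Z) (g k : G) (hk : k ∈ K) :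
    dqf M K (k • y) (g • (k • y)) = dqf M K y (g • y) := by
  have h1 : g • (k • y) = (g * k * g⁻¹) • (g • y) := by
    rw [smul_smul, smul_smul]
    congr 1
    group
  rw [h1, dqf_smul_right M K _ _ (hK.conj_mem k hk g), dqf_smul_left M K iso _ _ hk]

end F15

/-- Windmill setting for the cone-off, with the constant `δB`. -/
theorem F15.wsB (hC6 : stC6) (hB10 : stB10) (hF4 : stF4) (hF5 : stF5) (hF6 : stF6)
    (hF0b : stF0b) (G X I : Type) [Group G] [MulAction G X] [MulAction G I] (c : CC)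
    (M : PM X) (E R : I → Subgroup G) (Y : I → Set X) (hfs : FS c M E R Y)
    (hY : ∀ i, (Y i).Nonempty) (hg : ∀ (g : G) (i : I), ∀ y ∈ Y i, g • y ∈ Y (g • i)) :
    letI := coAct c.ρ hg
    WS (c.Z M hY) (fun i => (Co.apex i : Co Y c.ρ)) R (thC (c.N M) hY c.ρ0 c.δB) c.ρ
      (2 * c.δB + 1) c.δB := by
  let := coAct c.ρ hg
  have hc := hF0b c
  obtain ⟨⟨_, hL', _, _, hC3, _⟩, _⟩ := hc
  have hρ1 := c.hρ1
  have hδ := c.hδB
  have hδδ := c.hδδ
  obtain ⟨hth, hsg⟩ := hF4 G X I c M E R Y hfs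
  have h20 : (20 : ℝ) ≤ c.ρ := by linarith
  have hhyp : (c.Z M hY).Hyp c.δB := (c.b20B X I (c.N M) Y c.ρ hY c.ρ0 h20 hth).1
  have hsg2 : (c.Z M hY).SG 2 := hB10 X I (c.N M) Y c.ρ hY c.ρ0 hsg
  obtain ⟨_, hfam⟩ := hF6 G X I c M E R Y hfs
  have hiso : ∀ (g : G) (x y : X), (c.N M).d (g • x) (g • y) = (c.N M).d x y := by
    intro g x y
    show c.lam * M.d (g • x) (g • y) = c.lam * M.d x y
    rw [hfs.st.iso g x y]
  have htt : tt1 c.δB c.ρ ≤ tt1 c.δ c.ρ := by
    have h1 : Real.exp (5 * c.δB + 14) ≤ Real.exp (5 * c.δ + 14) :=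
      Real.exp_le_exp.2 (by linarith)
    unfold tt1
    linarith
  have hrf := hC6 G X I (c.N M) Y c.ρ c.δB hY c.ρ0 hg R hiso hhyp hsg2 hδ (by linarith)
    hfam.2.1 (fun i h hh => (hfam.2.2.1 i h hh).2)
    (fun i h hh h1 y _ => le_trans (by linarith) (hF5 G X I c M E R Y hfs i h hh h1 y))
  exact ⟨hrf, hhyp, hsg2, hδ, by linarith, by linarith⟩

theorem burn_F15 (hC6 : stC6) (hB10 : stB10) (hD8 : stD8) (hD10 : stD10) (hF4 : stF4)
    (hF5 : stF5) (hF6 : stF6) (hF5w : stF5w) (hF10 : stF10) (hF11 : stF11)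
    (hF12 : stF12) (hF13 : stF13) (hF14 : stF14) (hF0b : stF0b) (hF0c : stF0c) : stF15 := by
  intro G X I _ _ _ c M E R Y hF hcov hY hg
  let _ := coAct c.ρ hg
  intro iso
  have hws := hF5w G X I c M E R Y hF hY hg
  obtain ⟨hN, hD⟩ := hD8 _ _ _ _ _ _ _ _ _ _ hws
  obtain ⟨hd1, hd2, -, hd4, -⟩ := hD iso
  obtain ⟨-, ⟨-, -, -, -, -, hA0, -⟩, -⟩ := hF0b c
  have hko : 0 < c.ko := (hF0c c).1
  have h10 := hF10 G X I c M E R Y hF hcov hY hg
  have h11 := hF11 G X I c M E R Y hF hY hg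
  have h12 := hF12 G X I c M E R Y hF hY hg
  have h13 := hF13 G X I c M E R Y hF hcov hY hg
  have h14 := hF14 G X I c M E R Y hF hcov hY hg
  refine ⟨?_, hD10 _ _ _ _ _ _ _ _ _ _
    (F15.wsB hC6 hB10 hF4 hF5 hF6 hF0b G X I c M E R Y hF hY hg) iso⟩
  refine
    { ne := ?_
      iso := hd1
      inv := hd2
      hyp := hD10 _ _ _ _ _ _ _ _ _ _ hws iso
      sg := hd4
      star := ?_
      h2 := ?_
      h3 := ?_
      h5 := ?_ }
  · obtain ⟨x⟩ := hF.st.ne
    exact ⟨Co.base x⟩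
  · intro x y hxy
    obtain ⟨k, hk, hk1⟩ := dqf_approx (c.Z M hY) (KK R) x y one_pos
    have hdq : dqf (c.Z M hY) (KK R) x (k • y) = dqf (c.Z M hY) (KK R) x y :=
      dqf_smul_right _ _ _ _ hk
    have hxy' : c.A0 ≤ dqf (c.Z M hY) (KK R) x y := hxy
    have hlt : (c.Z M hY).d x (k • y) ≤ dqf (c.Z M hY) (KK R) x (k • y) + 1 := by
      rw [hdq]
      exact hk1.le
    by_cases hcase : ∃ i, (c.Z M hY).gp x (k • y) (Co.apex i) ≤ 2 * c.L' + 2 + c.δ
    · refine ⟨1, Or.inl rfl, fun g hgD => ⟨g, 0, ?_, by simp⟩⟩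
      by_contra hgK
      have h1 : dqf (c.Z M hY) (KK R) x (g • x) ≤ c.L' := hgD.1
      have h2 : dqf (c.Z M hY) (KK R) y (g • y) ≤ c.L' := hgD.2
      have h3 : dqf (c.Z M hY) (KK R) (k • y) (g • (k • y)) ≤ c.L' := by
        rw [F15.disp (c.Z M hY) (KK R) hN iso y g k hk]
        exact h2
      have h4 := h11 x (k • y) hlt hcase g hgK h1 h3
      rw [hdq] at h4
      linarith
    · have hcase' : ∀ i, 2 * c.L' + 2 + c.δ < (c.Z M hY).gp x (k • y) (Co.apex i) := by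
        intro i
        by_contra hi
        exact hcase ⟨i, not_lt.1 hi⟩
      have hA : c.A0 ≤ (c.Z M hY).d x (k • y) := by
        have h5 := dqf_le (c.Z M hY) (KK R) x y hk
        linarith
      obtain ⟨e, he, hge⟩ := h13 x (k • y) hA
      refine ⟨e, he, fun g hgD => ?_⟩
      have h1 : dqf (c.Z M hY) (KK R) x (g • x) ≤ c.L' := hgD.1
      have h2 : dqf (c.Z M hY) (KK R) y (g • y) ≤ c.L' := hgD.2
      have h3 : dqf (c.Z M hY) (KK R) (k • y) (g • (k • y)) ≤ c.L' := by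
        rw [F15.disp (c.Z M hY) (KK R) hN iso y g k hk]
        exact h2
      obtain ⟨k', hk', h4, h5⟩ := h12 x (k • y) hlt hcase' g h1 h3
      obtain ⟨⟨a, ha⟩, -⟩ := hge (k' * g) h4 h5
      refine ⟨k'⁻¹, a, (KK R).inv_mem hk', ?_⟩
      rw [← ha]
      group
  · intro g
    rcases h10 g with h | h
    · exact Or.inr h
    · exact Or.inl ⟨c.ko, hko, h⟩
  · intro g hlox x m
    rcases h10 g with h | h
    · exfalso
      obtain ⟨a, ha, hal⟩ := hlox
      have h1 := hal x c.n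
      have h2 : (dqPM (c.Z M hY) (KK R) iso).d x (g ^ c.n • x) = 0 := by
        rw [hd2 _ h]
        exact (dqPM (c.Z M hY) (KK R) iso).self x
      rw [h2] at h1
      have h3 : 0 < c.n := c.hn.pos
      have h4 : (0 : ℝ) < c.n := by exact_mod_cast h3
      have h5 := mul_pos ha h4
      linarith
    · exact h x m
  · intro g x y hgK hgD
    exact h14 g x y hgK hgD.1 hgD.2

end BAN
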