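import Pool.Agent.Lib.MP_8528c3_al.AN.StF
import Pool.Agent.Lib.MP_8528c3_al.F15b

/-!
# Burnside project, linear control, F15b: the family of all short loxodromic elements
-/

namespace BAN

open BSD

open BSD.F15bX in
theorem burn_F15b (h10 : stE10c) (h0 : stF0b) (h0c : stF0c) : stF15b := by
  intro G X _ _ c M hst
  obtain ⟨-, ⟨hA0, -⟩, -, -, -, -, -, -, -, hkl, -⟩ := h0 c
  obtain ⟨-, -, -, -, hLi, -⟩ := h0c c
  have hδ := c.hδ
  have hcen : ∀ h : G, Lox M h → ∃ e : G, Lox M e ∧ ∀ f : G, f ∈ Cen h ↔ ∃ k : ℤ, f = e ^ k :=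
    h10 G X M c.n c.δ c.Li c.A0 c.kl hst hδ hLi hA0.le hkl
  refine ⟨⟨hst, fun i j h => Subtype.ext h, fun g i f => Iff.rfl, ?_, fun i x => Iff.rfl, ?_⟩,
    ?_, ?_⟩
  · intro i
    obtain ⟨a, g, hg, ⟨x, hx⟩, hE⟩ := i.2
    refine ⟨a⁻¹ * g * a, lox_conj hst.iso hg a, ⟨a⁻¹ • x, ?_⟩, fun f => ?_⟩
    · have h1 : (a⁻¹ * g * a) • a⁻¹ • x = a⁻¹ • g • x := by
        rw [smul_smul, smul_smul]
        congr 1
        group
      rw [h1, hst.iso]
      exact hx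
    · rw [mem_cen_conj]
      exact hE f
  · intro i h
    obtain ⟨a, g, hg, -, hE⟩ := i.2
    obtain ⟨e, -, he⟩ := hcen g hg
    refine mem_rn c.n ?_ h
    intro f hf f' hf'
    obtain ⟨k, hk⟩ := (he _).1 ((hE f).1 hf)
    obtain ⟨k', hk'⟩ := (he _).1 ((hE f').1 hf')
    have hcomm : Commute (a * f * a⁻¹) (a * f' * a⁻¹) := by
      rw [hk, hk']
      exact Commute.zpow_zpow_self e k k'
    change f * f' = f' * f
    have h1 : f * f' = a⁻¹ * ((a * f * a⁻¹) * (a * f' * a⁻¹)) * a := by group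
    have h2 : f' * f = a⁻¹ * ((a * f' * a⁻¹) * (a * f * a⁻¹)) * a := by group
    rw [h1, h2, hcomm.eq]
  · intro g x hg hx
    obtain ⟨e, -, he⟩ := hcen g hg
    have hF : IsFI M c.L (Subgroup.zpowers e) := by
      refine ⟨1, g, hg, ⟨x, hx⟩, fun f => ?_⟩
      rw [one_mul, inv_one, mul_one, he, Subgroup.mem_zpowers_iff]
      constructor
      · rintro ⟨k, rfl⟩
        exact ⟨k, rfl⟩
      · rintro ⟨k, rfl⟩
        exact ⟨k, rfl⟩
    refine ⟨⟨Subgroup.zpowers e, hF⟩, ?_⟩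
    change g ∈ Subgroup.zpowers e
    obtain ⟨k, hk⟩ := (he g).1 (self_mem_cen g)
    exact Subgroup.mem_zpowers_iff.2 ⟨k, hk.symm⟩
  · intro I _ E R Y hFS
    have hE : ∀ i, IsFI M c.L (E i) := fun i => by
      obtain ⟨g, hg, hx, hf⟩ := hFS.cen i
      refine ⟨1, g, hg, hx, fun f => ?_⟩
      rw [one_mul, inv_one, mul_one]
      exact hf f
    refine ⟨fun i => ⟨E i, hE i⟩, fun i => ⟨rfl, ?_⟩⟩
    ext x
    exact (hFS.Yd i x).symm

end BAN
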