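import Pool.Agent.Lib.MP_8528c3_al.AN.StF
import Pool.Agent.Lib.MP_8528c3_al.F15b

/-!
# Burnside project, linear control, F15k: the killed family
-/

namespace BAN

open BSD

namespace F15kX

variable {G X : Type} [Group G] [MulAction G X] {M : PM X}

theorem sl_le (g : G) (x : X) {m : ℕ} (hm : 1 ≤ m) : sl M g ≤ M.d x (g ^ m • x) / m := by
  refine csInf_le ⟨0, ?_⟩ ⟨x, m, hm, rfl⟩
  rintro t ⟨x, m, -, rfl⟩
  exact div_nonneg (M.nonneg _ _) (Nat.cast_nonneg _)

theorem d_inv (hI : Iso G M) (g : G) (x : X) : M.d x (g⁻¹ • x) = M.d x (g • x) := by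
  rw [M.symm x (g • x), ← hI g⁻¹ (g • x) x, inv_smul_smul]

/-- the displacement of a power with a nonzero integer exponent -/
theorem d_zpow (hI : Iso G M) (e : G) (k : ℤ) (x : X) :
    M.d x (e ^ k • x) = M.d x (e ^ k.natAbs • x) := by
  rcases Int.natAbs_eq k with h | h
  · conv_lhs => rw [h, zpow_natCast]
  · conv_lhs => rw [h, zpow_neg, zpow_natCast, d_inv hI]

/-- loxodromic elements have infinite order -/
theorem lox_pow_ne (hN : Nonempty X) {g : G} (hg : Lox M g) {k : ℤ} (hk : g ^ k = 1) : k = 0 := by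
  obtain ⟨x⟩ := hN
  obtain ⟨c, hc, h⟩ := hg
  by_contra hne
  have h1 : g ^ k.natAbs = 1 := by
    rcases Int.natAbs_eq k with h2 | h2
    · rw [h2, zpow_natCast] at hk
      exact hk
    · rw [h2, zpow_neg, zpow_natCast, inv_eq_one] at hk
      exact hk
  have h2 := h x k.natAbs
  rw [h1, one_smul, M.self] at h2
  have h3 : (0 : ℝ) < (k.natAbs : ℝ) := by
    exact_mod_cast Int.natAbs_pos.2 hne
  have := mul_pos hc h3
  linarith

end F15kX

open BSD.F15bX F15kX in
theorem burn_F15k (h10 : stE10c) (h0 : stF0b) (h0c : stF0c) : stF15k := by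
  intro G X _ _ c M hst
  obtain ⟨-, ⟨hA0, -⟩, -, -, -, -, -, -, -, hkl, -⟩ := h0 c
  obtain ⟨-, -, -, hτ, hLi, -⟩ := h0c c
  have hδ := c.hδ
  have hcen : ∀ h : G, Lox M h → ∃ e : G, Lox M e ∧ ∀ f : G, f ∈ Cen h ↔ ∃ k : ℤ, f = e ^ k :=
    h10 G X M c.n c.δ c.Li c.A0 c.kl hst hδ hLi hA0.le hkl
  refine ⟨⟨hst, fun i j h => Subtype.ext h, fun g i f => Iff.rfl, ?_, fun i x => Iff.rfl, ?_⟩,
    ?_, ?_⟩
  · intro i
    obtain ⟨a, g, hg, ⟨x, hx⟩, hE⟩ := i.2.1
    refine ⟨a⁻¹ * g * a, lox_conj hst.iso hg a, ⟨a⁻¹ • x, ?_⟩, fun f => ?_⟩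
    · have h1 : (a⁻¹ * g * a) • a⁻¹ • x = a⁻¹ • g • x := by
        rw [smul_smul, smul_smul]
        congr 1
        group
      rw [h1, hst.iso]
      exact hx
    · rw [mem_cen_conj]
      exact hE f
  · intro i h
    obtain ⟨a, g, hg, -, hE⟩ := i.2.1
    obtain ⟨e, -, he⟩ := hcen g hg
    refine mem_rn c.n ?_ h
    intro f hf f' hf'
    obtain ⟨k, hk⟩ := (he _).1 ((hE f).1 hf)
    obtain ⟨k', hk'⟩ := (he _).1 ((hE f').1 hf')
    have hcomm : Commute (a * f * a⁻¹) (a * f' * a⁻¹) := by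
      rw [hk, hk']
      exact Commute.zpow_zpow_self e k k'
    change f * f' = f' * f
    have h1 : f * f' = a⁻¹ * ((a * f * a⁻¹) * (a * f' * a⁻¹)) * a := by group
    have h2 : f' * f = a⁻¹ * ((a * f' * a⁻¹) * (a * f * a⁻¹)) * a := by group
    rw [h1, h2, hcomm.eq]
  · intro g hg hx hnot y m
    by_contra hcon
    push Not at hcon
    obtain ⟨e, -, he⟩ := hcen g hg
    obtain ⟨k, hk⟩ := (he g).1 (self_mem_cen g)
    have hk0 : k ≠ 0 := by
      rintro rfl
      rw [zpow_zero] at hk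
      have := lox_pow_ne hst.ne hg (k := 1) (by rw [zpow_one]; exact hk)
      omega
    have hz : ∀ f : G, f ∈ Subgroup.zpowers e ↔ ∃ k : ℤ, f = e ^ k := fun f => by
      rw [Subgroup.mem_zpowers_iff]
      exact ⟨fun ⟨k, hk⟩ => ⟨k, hk.symm⟩, fun ⟨k, hk⟩ => ⟨k, hk.symm⟩⟩
    have hF : IsKI M c.L c.τ (Subgroup.zpowers e) := by
      refine ⟨⟨1, g, hg, hx, fun f => ?_⟩, 1, e, y, k.natAbs * m, fun f => ?_, ?_⟩
      · rw [one_mul, inv_one, mul_one, he, hz]
      · rw [one_mul, inv_one, mul_one]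
      · have h1 : M.d y (e ^ (k.natAbs * m) • y) = M.d y (g ^ m • y) := by
          have h2 : (k * m).natAbs = k.natAbs * m := by
            rw [Int.natAbs_mul, Int.natAbs_natCast]
          rw [← h2, ← d_zpow hst.iso e (k * m) y, zpow_mul, zpow_natCast, ← hk]
        rw [h1]
        refine hcon.trans_le ?_
        have h3 : (1 : ℝ) ≤ k.natAbs := by exact_mod_cast Int.natAbs_pos.2 hk0
        push_cast
        have h4 : (0 : ℝ) ≤ c.τ * m := mul_nonneg hτ.le (Nat.cast_nonneg m)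
        have h5 := mul_le_mul_of_nonneg_right h3 h4
        linarith
    refine hnot ⟨Subgroup.zpowers e, hF⟩ ?_
    change g ∈ Subgroup.zpowers e
    exact (hz g).2 ⟨k, hk⟩
  · intro i e he
    obtain ⟨⟨a', g, hg, -, hE'⟩, a, e₀, x, m, hE, hd⟩ := i.2
    -- a loxodromic element in `i`
    obtain ⟨e₁, he₁, hc₁⟩ := hcen g hg
    have hloxi : a'⁻¹ * e₁ * a' ∈ i.1 := by
      rw [hE', hc₁]
      exact ⟨1, by group⟩
    have hlox1 : Lox M (a'⁻¹ * e₁ * a') := lox_conj hst.iso he₁ a'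
    -- the generators
    have hea : e ∈ i.1 := by rw [← he]; exact Subgroup.mem_zpowers e
    obtain ⟨k, hk⟩ := Subgroup.mem_zpowers_iff.1 ((hE e).1 hea)
    have h1 : a⁻¹ * e₀ * a ∈ i.1 := by
      rw [hE]
      have : a * (a⁻¹ * e₀ * a) * a⁻¹ = e₀ := by group
      rw [this]
      exact Subgroup.mem_zpowers e₀
    rw [← he] at h1 hloxi
    obtain ⟨l, hl⟩ := Subgroup.mem_zpowers_iff.1 h1
    obtain ⟨r, hr⟩ := Subgroup.mem_zpowers_iff.1 hloxi
    have h2 : e ^ (l * k) = e := by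
      have h3 : e = a⁻¹ * e₀ ^ k * a := by
        rw [hk]
        group
      have h4 : (a⁻¹ * e₀ * a) ^ k = a⁻¹ * e₀ ^ k * a := by
        have h := conj_zpow (i := k) (a := a⁻¹) (b := e₀)
        rwa [inv_inv] at h
      rw [zpow_mul, hl, h4, ← h3]
    have h5 : l * k = 1 := by
      have h6 : e ^ (l * k - 1) = 1 := by
        rw [zpow_sub, h2, zpow_one, mul_inv_cancel]
      have h7 : (a'⁻¹ * e₁ * a') ^ (l * k - 1) = 1 := by
        rw [← hr, ← zpow_mul, mul_comm, zpow_mul, h6, one_zpow]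
      have := lox_pow_ne hst.ne hlox1 h7
      omega
    have hkabs : k.natAbs = 1 := by
      have := Int.isUnit_iff_natAbs_eq.1 (IsUnit.of_mul_eq_one_right l h5)
      exact this
    -- the displacement
    have hm : 1 ≤ m := by
      rcases Nat.eq_zero_or_pos m with h | h
      · subst h
        rw [pow_zero, one_smul, M.self] at hd
        simp at hd
      · exact h
    have hm' : (0 : ℝ) < m := by exact_mod_cast hm
    have h8 : M.d (a⁻¹ • x) (e ^ m • a⁻¹ • x) = M.d x (e₀ ^ m • x) := by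
      have h9 : a * e ^ m * a⁻¹ = e₀ ^ (k * m) := by
        have h := conj_pow (i := m) (a := a) (b := e)
        rw [← h, ← hk, zpow_mul, zpow_natCast]
      have h10 : M.d (a⁻¹ • x) (e ^ m • a⁻¹ • x) = M.d x ((a * e ^ m * a⁻¹) • x) := by
        rw [← hst.iso a (a⁻¹ • x), smul_inv_smul, smul_smul, smul_smul]
      rw [h10, h9, d_zpow hst.iso]
      congr 3
      rw [Int.natAbs_mul, hkabs, one_mul, Int.natAbs_natCast]
    refine (sl_le e (a⁻¹ • x) hm).trans_lt ?_
    rw [h8, div_lt_iff₀ hm']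
    exact hd

end BAN
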