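import Pool.Agent.Lib.MP_8528c3_al.AN.StF

/-!
# Burnside project, F2: the sets `Y i` are quasi-convex
-/

namespace BAN

open BSD

theorem burn_F2 (hA4 : stA4) (hA5 : stA5) (hA10 : stA10) (hE1 : stE1) (hF6 : stF6) : stF2 := by
  intro G X I _ _ _ c M E R Y hFS i y hy y' hy' x
  obtain ⟨⟨h6, -⟩, -⟩ := hF6 G X I c M E R Y hFS
  obtain ⟨e, he1, -, -, hYe⟩ := h6 i
  have hst := hFS.st
  have hiso := hst.iso
  have hδ := c.hδ
  have hy0 := (hYe y).1 hy
  have hy1 := (hYe y').1 hy'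
  have a1 := hA5 X M x y' y x y
  have t0 : 0 ≤ M.gp x y' y := a1.2.1
  have t1 : M.gp x y' y ≤ M.d y y' := by
    have := a1.2.2.2.1
    rwa [M.symm] at this
  obtain ⟨z, hz1, hz2⟩ := hA4 X M 2 (by norm_num) hst.sg y y' (M.gp x y' y) (1 / 10) t0 t1
    (by norm_num)
  have a2 := (hA10 X M c.δ hst.hyp y y' x z).2
  have a3 : M.gp z y' y + M.gp y y' z = M.d z y := (hA5 X M z y z x y').2.2.2.2.2.2.2.2.1
  have a4 : 0 ≤ M.gp y y' z := (hA5 X M y y' y x z).2.1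
  rw [M.symm z y] at a3
  have a5 : M.d x z ≤ M.gp y y' x + 2 * c.δ + 4 := by
    have h1 : |M.gp x y' y - M.gp z y' y| ≤ 23 / 10 := by
      rw [abs_le] at hz2 ⊢
      constructor <;> linarith [hz2.1, hz2.2]
    linarith
  have hL' := c.eLi
  have a6 : M.d z (e • z) ≤ c.Li := by
    have h1 := hE1 G X M c.δ hiso hst.hyp e y y' z
    have h2 : max (M.d y (e • y)) (M.d y' (e • y')) ≤ c.L1 := max_le hy0 hy1
    linarith
  obtain ⟨m, hm⟩ := hst.h5 e y z he1 ⟨by linarith, a6⟩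
  refine ⟨e ^ m • y, ?_, ?_⟩
  · rw [hYe]
    have h1 : e • e ^ m • y = e ^ m • e • y := by
      rw [smul_smul, smul_smul, ← zpow_one_add, ← zpow_add_one, add_comm]
    rw [h1, hiso]
    exact hy0
  · have h1 := M.tri x z (e ^ m • y)
    have hA1 := c.eA1
    linarith

end BAN
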