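import Pool.Agent.Lib.MP_8528c3_al.AN.StF

/-!
# Burnside project, F4: the rescaled space is tiny hyperbolic
-/

set_option autoImplicit false

namespace BAN

open BSD

namespace F4

variable {X : Type} (M : PM X) {l : ℝ} (hl : 0 < l)

theorem hyp {δ : ℝ} (h : M.Hyp δ) : (M.sc l hl.le).Hyp (l * δ) := by
  intro x y z w
  rw [PM.sc_gp, PM.sc_gp, PM.sc_gp, ← mul_min_of_nonneg _ _ hl.le, ← mul_sub]
  exact mul_le_mul_of_nonneg_left (h x y z w) hl.le

theorem hyp_mono {δ δ' : ℝ} (h : M.Hyp δ) (hd : δ ≤ δ') : M.Hyp δ' := by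
  intro x y z w
  have := h x y z w
  linarith

theorem sg {σ : ℝ} (h : M.SG σ) : (M.sc l hl.le).SG (l * σ) := by
  intro x y η hη
  obtain ⟨n, z, h0, hn, h1, h2⟩ := h x y (η / l) (div_pos hη hl)
  refine ⟨n, z, h0, hn, fun i hi => mul_le_mul_of_nonneg_left (h1 i hi) hl.le, ?_⟩
  have e : ∑ i ∈ Finset.range n, (M.sc l hl.le).d (z i) (z (i + 1)) =
      l * ∑ i ∈ Finset.range n, M.d (z i) (z (i + 1)) := by
    rw [Finset.mul_sum]
    rfl
  rw [e]
  have h3 := mul_le_mul_of_nonneg_left h2 hl.le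
  rw [mul_add, mul_div_cancel₀ _ hl.ne'] at h3
  exact h3

theorem sg_mono {σ σ' : ℝ} (h : M.SG σ) (hs : σ ≤ σ') : M.SG σ' := by
  intro x y η hη
  obtain ⟨n, z, h0, hn, h1, h2⟩ := h x y η hη
  exact ⟨n, z, h0, hn, fun i hi => (h1 i hi).trans hs, h2⟩

theorem qc {Y : Set X} {ε : ℝ} (h : M.QC Y ε) : (M.sc l hl.le).QC Y (l * ε) := by
  intro y hy y' hy' x
  obtain ⟨z, hz, h1⟩ := h y hy y' hy' x
  refine ⟨z, hz, ?_⟩
  rw [PM.sc_gp, ← mul_add]
  exact mul_le_mul_of_nonneg_left h1 hl.le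

theorem qc_mono {Y : Set X} {ε ε' : ℝ} (h : M.QC Y ε) (he : ε ≤ ε') : M.QC Y ε' := by
  intro y hy y' hy' x
  obtain ⟨z, hz, h1⟩ := h y hy y' hy' x
  exact ⟨z, hz, by linarith⟩

theorem near {Y : Set X} {r : ℝ} {x : X} (h : (M.sc l hl.le).Near Y r x) :
    M.Near Y (r / l) x := by
  obtain ⟨y, hy, h1⟩ := h
  refine ⟨y, hy, ?_⟩
  rw [le_div_iff₀ hl, mul_comm]
  exact h1

end F4

/-- F4: the rescaled space is tiny hyperbolic. -/
theorem burn_F4 (h0 : stF0b) (h1 : stF1) (h2 : stF2) (h3 : stF3) : stF4 := by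
  intro G X I _ _ _ c M E R Y hF
  obtain ⟨-, -, -, k1, -, k2, k3, -⟩ := h0 c
  have hl : c.lam ≤ 1 / 10000 := by
    have h4 := mul_le_mul_of_nonneg_left c.hδ c.hlam.le
    rw [mul_one] at h4
    exact h4.trans k1
  have hsg : (c.N M).SG (1 / 100) :=
    F4.sg_mono _ (F4.sg M c.hlam hF.st.sg) (by linarith)
  refine ⟨⟨?_, hsg, h1 G X I c M E R Y hF, fun i => ?_, ?_⟩, F4.sg_mono _ hsg (by norm_num)⟩
  · exact F4.hyp_mono _ (F4.hyp M c.hlam hF.st.hyp) (by linarith)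
  · exact F4.qc_mono _ (F4.qc M c.hlam (h2 G X I c M E R Y hF i)) (by linarith)
  · intro i j hij r x x' hr hi hj hi' hj'
    have h5 := h3 G X I c M E R Y hF i j hij (r / c.lam) x x' (div_nonneg hr c.hlam.le)
      (F4.near M c.hlam hi) (F4.near M c.hlam hj) (F4.near M c.hlam hi') (F4.near M c.hlam hj')
    have h6 := mul_le_mul_of_nonneg_left h5 c.hlam.le
    have h7 : c.lam * (2 * (r / c.lam) + c.A2) = 2 * r + c.lam * c.A2 := by
      have := c.hlam.ne'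
      field_simp
    rw [h7] at h6
    have h8 : (c.N M).d x x' = c.lam * M.d x x' := rfl
    rw [h8]
    linarith

end BAN
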