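import Pool.Agent.Lib.MP_8528c3_al.AN.StF

/-!
# Burnside project, F5: the groups `R i` move the points of the rescaled space a lot
-/

namespace BAN

open BSD

/-- F5. -/
theorem burn_F5 (h6 : stF6) (h0 : stF0b) : stF5 := by
  intro G X I _ _ _ c M E R Y hS i h hh hne y
  obtain ⟨f, hf, rfl⟩ := (hS.Rd i h).1 hh
  have hf1 : f ≠ 1 := by
    rintro rfl
    exact hne (one_pow _)
  have hlox : Lox M f := ((h6 G X I c M E R Y hS).1.2.1 i f hf hf1).1
  have h3 := hS.st.h3 f hlox y c.n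
  have h4 : c.lam * (c.kl * c.n) = 101 * tt1 c.δ c.ρ := (h0 c).2.2.2.2.2.2.2.2.2.2.2.2
  rw [← h4]
  exact mul_le_mul_of_nonneg_left h3 c.hlam.le

end BAN
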