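import Pool.Agent.Lib.MP_8528c3_al.AN.StF

/-!
# Burnside project, F5w: windmill setting for the cone-off
-/

namespace BAN

open BSD

theorem burn_F5w (hC6 : stC6) (hB10 : stB10) (hF4 : stF4) (hF5 : stF5) (hF6 : stF6)
    (hF0b : stF0b) : stF5w := by
  intro G X I _ _ _ c M E R Y hfs hY hg
  let := coAct c.ρ hg
  have hc := hF0b c
  obtain ⟨⟨_, hL', _, _, hC3, _⟩, _⟩ := hc
  have hρ1 := c.hρ1
  have hδ := c.hδ
  obtain ⟨hth, hsg⟩ := hF4 G X I c M E R Y hfs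
  have h20 : (20 : ℝ) ≤ c.ρ := by linarith
  have hhyp : (c.Z M hY).Hyp c.δ := (c.b20 X I (c.N M) Y c.ρ hY c.ρ0 h20 hth).1
  have hsg2 : (c.Z M hY).SG 2 := hB10 X I (c.N M) Y c.ρ hY c.ρ0 hsg
  obtain ⟨_, hfam⟩ := hF6 G X I c M E R Y hfs
  have hiso : ∀ (g : G) (x y : X), (c.N M).d (g • x) (g • y) = (c.N M).d x y := by
    intro g x y
    show c.lam * M.d (g • x) (g • y) = c.lam * M.d x y
    rw [hfs.st.iso g x y]
  have hrf := hC6 G X I (c.N M) Y c.ρ c.δ hY c.ρ0 hg R hiso hhyp hsg2 hδ (by linarith)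
    hfam.2.1 (fun i h hh => (hfam.2.2.1 i h hh).2)
    (fun i h hh h1 y _ => hF5 G X I c M E R Y hfs i h hh h1 y)
  exact ⟨hrf, hhyp, hsg2, hδ, by linarith, by linarith⟩

end BAN
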