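import Pool.Agent.Lib.MP_8528c3_al.AN.StF

/-!
# Burnside project, F7: elements of `E i` move points far from `Y i` a lot
-/

namespace BAN

open BSD

namespace F7Aux

variable {X : Type} (M : PM X)

theorem exists_proj {Y : Set X} (hY : Y.Nonempty) (x : X) :
    ∃ q ∈ Y, ∀ y ∈ Y, M.d x q ≤ M.d x y + 1 := by
  have hne : (M.d x '' Y).Nonempty := hY.image _
  have hbd : BddBelow (M.d x '' Y) := ⟨0, by
    rintro _ ⟨y, -, rfl⟩
    exact M.nonneg x y⟩
  obtain ⟨_, ⟨q, hq, rfl⟩, hlt⟩ := exists_lt_of_csInf_lt hne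
    (lt_add_one (sInf (M.d x '' Y)))
  exact ⟨q, hq, fun y hy => by
    have := csInf_le hbd (Set.mem_image_of_mem _ hy)
    linarith⟩

theorem gp_nonneg (x y w : X) : 0 ≤ M.gp x y w := by
  unfold PM.gp
  have h1 := M.tri x w y
  have h2 := M.symm w y
  linarith

end F7Aux

open F7Aux

/-- F7. -/
theorem burn_F7 (h4 : stA4) (h10 : stA10) (h2 : stE2) (h1 : stF1) (hF2 : stF2) (h6 : stF6)
    (h7a : stF7a) (h7b : stF7b) (h0b : stF0b) : stF7 := by
  intro G X I _ _ _ c M E R Y fs i g hg hg1 x B hB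
  obtain ⟨⟨-, -, hstab, -, -⟩, hYm, -, -, -⟩ := h6 G X I c M E R Y fs
  have hiso := fs.st.iso
  have hhyp := fs.st.hyp
  have hsg := fs.st.sg
  have hδ := c.hδ
  obtain ⟨-, hA, -⟩ := h0b c
  have hA0 : 0 < c.A0 := hA.1
  have eA1 := c.eA1
  have eA3 := c.eA3
  have eL := c.eL
  have eL1 := c.eL1
  have eL' := c.eLi
  have hB0 : 0 ≤ B := (M.nonneg _ _).trans hB
  obtain ⟨q, hq, hqm⟩ := exists_proj M (h1 G X I c M E R Y fs i) x
  -- the elements of `E i` preserve `Y i`
  have hpres : ∀ f ∈ E i, ∀ y ∈ Y i, f • y ∈ Y i := by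
    intro f hf y hy
    have h3 := hYm f i y hy
    rwa [(hstab f i).2 hf] at h3
  have hgq : g • q ∈ Y i := hpres g hg q hq
  have hgq' : g⁻¹ • q ∈ Y i := hpres _ ((E i).inv_mem hg) q hq
  have hproj := h7a X M c.δ c.A1 (Y i) hhyp (by linarith) hsg (hF2 G X I c M E R Y fs i) x q hq hqm
  have ha := hproj _ hgq
  have hb : M.gp (g • x) q (g • q) ≤ c.A1 + 2 * c.δ + 8 := by
    have h3 := hproj _ hgq'
    unfold PM.gp at h3 ⊢
    have e1 := hiso g x q
    have e2 := hiso g (g⁻¹ • q) q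
    have e3 := hiso g x (g⁻¹ • q)
    rw [smul_inv_smul] at e2 e3
    rw [e1, e2, e3]
    exact h3
  by_contra hcon
  push Not at hcon
  have hr : B + c.A3 < M.d x q := hcon q hq
  rcases lt_or_ge (2 * (c.A1 + 2 * c.δ + 8) + c.δ) (M.d q (g • q)) with hc | hc
  · obtain ⟨-, -, h3⟩ := h7b X M c.δ (c.A1 + 2 * c.δ + 8) hhyp x q (g • q) (g • x) ha hb hc
    have h4' : M.d (g • q) (g • x) = M.d x q := by rw [hiso, M.symm]
    rw [h4'] at h3
    linarith
  · -- small displacement of the points of the segment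
    have hfar : ∀ z : X, M.gp q x z ≤ 1 / 10 → ∀ y ∈ Y i, M.d q z - 1 - 2 * (1 / 10) ≤ M.d z y := by
      intro z hz y hy
      have h3 := hqm y hy
      have h5 := M.tri x z y
      unfold PM.gp at hz
      have h8 := M.symm q x
      linarith
    have key : ∀ z : X, M.gp q x z ≤ 1 / 10 →
        2 * (c.A1 + 2 * c.δ + 8) + c.δ + 10 * c.δ + 20 ≤ M.d q z → B + 10 * c.δ + 20 ≤ M.d x z →
        M.d z (g • z) ≤ c.Li := by
      intro z hz hz1 hz2
      have h3 := h2 G X M c.δ hiso hhyp g q x z (2 * (c.A1 + 2 * c.δ + 8) + c.δ) B (1 / 10) hc hB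
        hz (by linarith) (by linarith)
      have h5 := hfar z hz _ hgq'
      have e1 := hiso g z (g⁻¹ • q)
      rw [smul_inv_smul] at e1
      -- the other inequality
      have h8 := hqm _ hgq
      have h9 := M.tri x (g • z) (g • q)
      have e2 := hiso g z q
      have h11 := (h10 X M c.δ hhyp q x z (g • z)).2
      have h12 := gp_nonneg M q x z
      have h13 := gp_nonneg M q x (g • z)
      have s1 := M.symm q x
      have s2 := M.symm z q
      have s3 := M.symm (g • z) q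
      have s4 := M.symm z x
      have s5 := M.symm (g • z) x
      have habs : |M.gp z x q - M.gp (g • z) x q| ≤ 1 + 3 * (1 / 10) + 6 * c.δ := by
        unfold PM.gp at hz h3 h12 h13 ⊢
        rw [abs_le]
        constructor <;> linarith
      linarith
    -- two points
    obtain ⟨z1, hz1, hz1'⟩ := h4 X M 2 zero_le_two hsg q x
      (2 * (c.A1 + 2 * c.δ + 8) + c.δ + 10 * c.δ + 23) (1 / 10) (by linarith)
      (by have := M.symm q x; linarith) (by norm_num)
    obtain ⟨z2, hz2, hz2'⟩ := h4 X M 2 zero_le_two hsg x q (B + 10 * c.δ + 23) (1 / 10)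
      (by linarith) (by linarith) (by norm_num)
    rw [abs_le] at hz1' hz2'
    have hz2s : M.gp q x z2 ≤ 1 / 10 := by
      unfold PM.gp at hz2 ⊢
      have := M.symm q x
      linarith
    have s1 := M.symm q x
    have n1 := gp_nonneg M q x z1
    have n2 := gp_nonneg M q x z2
    have dx1 : B + 10 * c.δ + 20 ≤ M.d x z1 := by
      unfold PM.gp at n1
      linarith [hz1'.2]
    have dq2 : M.d x q - (B + 10 * c.δ + 23 + 2 + 1 / 10) ≤ M.d q z2 := by
      unfold PM.gp at n2
      linarith [hz2'.2]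
    have d1 := key z1 hz1 (by linarith [hz1'.1]) dx1
    have d2 := key z2 hz2s (by linarith) (by linarith [hz2'.1])
    obtain ⟨m, hm⟩ := fs.st.h5 g z1 z2 hg1 ⟨d1, d2⟩
    have hgm : g ^ m • q ∈ Y i := hpres _ ((E i).zpow_mem hg m) q hq
    have h3 := hfar z2 hz2s _ hgm
    have h5 := M.tri z2 (g ^ m • z1) (g ^ m • q)
    have h8 := hiso (g ^ m) z1 q
    have h9 := M.symm z1 q
    linarith [hz1'.2]

end BAN
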