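import Pool.Agent.Lib.MP_8528c3_al.AN.StF

/-!
# Burnside project, F9a: the points of an axis in the cone-off.
-/

namespace BAN

open BSD

namespace F9aAux

theorem pr_N {X I : Type} {M : PM X} {Y : I → Set X} {π : I → X → X} {y0 : I → X} (c : CC)
    (hlam : c.lam ≤ 1 / 100) (h : Pr M Y π y0) : Pr (c.N M) Y π y0 where
  mem := h.mem
  le i x y hy := by
    have h1 := mul_le_mul_of_nonneg_left (h.le i x y hy) c.hlam.le
    have h2 := c.hlam
    change c.lam * M.d x (π i x) ≤ c.lam * M.d x y + 1 / 100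
    nlinarith
  fix := h.fix
  y0 := h.y0

theorem log_half_le {x M2 : ℝ} (h0 : 0 ≤ x) (h1 : x ≤ M2) (h2 : 0 ≤ Real.log M2) :
    Real.log (x / 2) ≤ Real.log M2 := by
  rcases h0.eq_or_lt with h | h
  · rw [← h, zero_div, Real.log_zero]
    exact h2
  · exact Real.log_le_log (by linarith) (by linarith)

theorem gp_self_right {X : Type} (M : PM X) (x w : X) : M.gp x w w = 0 := by
  unfold PM.gp
  rw [M.self]
  ring

theorem gp_self_left {X : Type} (M : PM X) (x w : X) : M.gp w x w = 0 := by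
  unfold PM.gp
  rw [M.self, M.symm w x]
  ring

end F9aAux

open F9aAux in
/-- F9a: the points of an axis in the cone-off. -/
theorem burn_F9a (hA5 : stA5) (hB12 : stB12) (hB14 : stB14) (hE8 : stE8) (hF4 : stF4)
    (hF8 : stF8) (hF0b : stF0b) : stF9a := by
  intro G X I _ _ _ c M E R Y hFS hY g l z hLox hgE hl hz hLl hlM π y0 hPr
  obtain ⟨⟨k1, k2, k3, k4, k5, k6, k7, k8, k9, k10, k11⟩, ⟨a0, -⟩,
    ⟨l1, l2, l3, l4, l5, l6, l7, -⟩⟩ := hF0b c
  have hiso := hFS.st.iso
  have hδ := c.hδ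
  have hT := c.hT
  have heC3 := c.eC3
  have heM2 := c.eM2
  have heL := c.eL
  have hlam0 := c.hlam
  have hM2 : 0 < c.M2 := by
    by_contra hc
    have : Real.log c.M2 ≤ 0 ∨ c.M2 < 0 := by
      rcases (not_lt.1 hc).eq_or_lt with h | h
      · left
        rw [h, Real.log_zero]
      · right
        exact h
    rcases this with h | h
    · linarith
    · have h3 : 0 < c.M' := by linarith
      linarith
  have hzk : ∀ k : ℕ, M.d (g ^ k • z) (g • g ^ k • z) ≤ l + 1 := by
    intro k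
    have h1 : g • g ^ k • z = g ^ k • g • z := by
      rw [smul_smul, smul_smul, ← pow_succ', pow_succ]
    rw [h1, hiso]
    exact hz
  have hfirst : ∀ (i : I) (k m : ℕ), k ≤ m →
      (c.N M).d (π i (g ^ k • z)) (π i (g ^ m • z)) ≤ c.M2 := by
    intro i k m hkm
    have h1 : g ^ m • z = g ^ (m - k) • g ^ k • z := by
      rw [smul_smul, ← pow_add, Nat.sub_add_cancel hkm]
    have h2 := hF8 G X I c M E R Y hFS g l (g ^ k • z) hLox hgE hl (hzk k) hLl i (m - k)
      (π i (g ^ k • z)) (π i (g ^ m • z)) (hPr.mem _ _) (hPr.mem _ _)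
      (fun y hy => by
        have := hPr.le i (g ^ k • z) y hy
        linarith)
      (fun y hy => by
        rw [← h1]
        have := hPr.le i (g ^ m • z) y hy
        linarith)
    have h3 := mul_le_mul_of_nonneg_left h2 c.hlam.le
    change c.lam * M.d (π i (g ^ k • z)) (π i (g ^ m • z)) ≤ c.M2
    rw [mul_add] at h3
    linarith
  refine ⟨hfirst, fun p a hp => ?_⟩
  obtain ⟨u, hu⟩ : ∃ u, u = g ^ a • z := ⟨_, rfl⟩
  obtain ⟨w, hw⟩ : ∃ w, w = g ^ (a + p) • z := ⟨_, rfl⟩
  obtain ⟨v, hv⟩ : ∃ v, v = g ^ (a + 2 * p) • z := ⟨_, rfl⟩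
  rw [← hu, ← hw, ← hv]
  have hPN := pr_N c l1 hPr
  obtain ⟨hTH, -⟩ := hF4 G X I c M E R Y hFS
  have hρ20 : 20 ≤ c.ρ := by
    have := c.hρ1
    linarith
  have hHρ : Real.log c.M2 < c.ρ := by linarith
  have huv : ∀ i, hh (c.N M) π y0 i (Co.base u : Co Y c.ρ) (Co.base v) (Co.base w) ≤
      Real.log c.M2 := by
    intro i
    refine (min_le_left _ _).trans ?_
    refine (min_le_right _ _).trans ?_
    refine max_le (max_le ?_ ?_) ?_
    · change (0 : ℝ) ≤ _
      linarith
    · change (0 : ℝ) ≤ _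
      linarith
    · change Real.log ((c.N M).d (π i u) (π i v) / 2) ≤ _
      refine log_half_le ((c.N M).nonneg _ _) ?_ (by linarith)
      rw [hu, hv]
      exact hfirst i a (a + 2 * p) (by omega)
  have hgp : (c.N M).gp u v w ≤ 1 / 20 := by
    have h1 := (hE8 G X M c.δ l hiso hFS.st.hyp hFS.st.sg hδ (by linarith) g z hl hz).1
      (a : ℤ) ((a + p : ℕ) : ℤ) ((a + 2 * p : ℕ) : ℤ) (by push_cast; omega) (by push_cast; omega)
    rw [zpow_natCast, zpow_natCast, zpow_natCast, ← hu, ← hv, ← hw] at h1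
    rw [PM.sc_gp]
    have h2 := mul_le_mul_of_nonneg_left h1 c.hlam.le
    have h3 : c.lam * (4 * c.δ + 3) = 4 * (c.lam * c.δ) + 3 * c.lam := by ring
    rw [h3] at h2
    linarith
  have hg2 : (c.N M).gp v w w = 0 := gp_self_right _ _ _
  have hg3 : (c.N M).gp u w w = 0 := gp_self_right _ _ _
  have hb20 := (c.b20 X I (c.N M) Y c.ρ hY c.ρ0 hρ20 hTH).2 π y0 hPN
  by_cases hall : ∀ i, hh (c.N M) π y0 i (Co.base u : Co Y c.ρ) (Co.base v) (Co.base w) < 1
  · have hmed : Med (c.N M) π y0 (Co.base u : Co Y c.ρ) (Co.base v) (Co.base w) (Co.base w) := by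
      refine Or.inr ⟨hall, w, rfl, ?_, ?_, ?_⟩
      · exact hgp
      · change (c.N M).gp v w w ≤ 1 / 20
        rw [hg2]
        norm_num
      · change (c.N M).gp u w w ≤ 1 / 20
        rw [hg3]
        norm_num
    have h1 := hb20 _ _ _ _ hmed
    refine h1.trans ?_
    linarith
  · rw [not_forall] at hall
    obtain ⟨j, hj⟩ := hall
    obtain ⟨q, hq⟩ := (hB12 X I (c.N M) Y c.ρ π y0 hρ20 hTH hPN).1 (Co.base u : Co Y c.ρ)
      (Co.base v) (Co.base w)
    have h1 := hb20 _ _ _ _ hq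
    rcases hq with ⟨i, hi1, hi2⟩ | ⟨h2, -⟩
    · have h3 := hB14 X I (c.N M) Y c.ρ π y0 hY c.ρ0 hρ20 hTH hPN i (Co.base u : Co Y c.ρ)
        (Co.base v) (Co.base w) q (Real.log c.M2) w hHρ hi1 (huv i) hi2
        (by
          change (c.N M).gp u v w ≤ 1
          linarith)
        (by
          change (c.N M).gp v w w ≤ 1
          rw [hg2]
          norm_num)
        (by
          change (c.N M).gp u w w ≤ 1
          rw [hg3]
          norm_num)
      rw [Real.exp_log hM2] at h3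
      have h4 := (hA5 (Co Y c.ρ) (c.Z M hY) (Co.base u) (Co.base v) (Co.base v) (Co.base w)
        q).2.2.2.2.2.1
      have h5 := (c.Z M hY).symm q (Co.base w)
      change (c.Z M hY).d q (Co.base w) ≤ _ at h3
      change (c.Z M hY).gp (Co.base u) (Co.base v) q ≤ c.T at h1
      rw [h5] at h3
      linarith
    · exact absurd (h2 j) hj

end BAN
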