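import Pool.Agent.Lib.MP_8528c3_al.AN.StG

/-!
# Burnside project, part G: the orbits of the generator of `E i` are quasi-lines
-/

set_option autoImplicit false

namespace BAN

open BSD

namespace G5aAux

variable {G X : Type} [Group G] [MulAction G X] {M : PM X}

theorem dsp (iso : Iso G M) (f : G) (u v : X) :
    M.d u (f • u) ≤ 2 * M.d u v + M.d v (f • v) := by
  have h1 := M.tri u v (f • u)
  have h2 := M.tri v (f • v) (f • u)
  have h3 := iso f v u
  have h4 := M.symm u v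
  linarith

theorem dsp_comm (iso : Iso G M) {f h : G} (hc : Commute f h) (y : X) :
    M.d (h • y) (f • h • y) = M.d y (f • y) := by
  have h1 : f • h • y = h • f • y := by rw [← mul_smul, hc.eq, mul_smul]
  rw [h1, iso]

theorem dsp_inv (iso : Iso G M) (f : G) (y : X) : M.d y (f⁻¹ • y) = M.d y (f • y) := by
  have h1 := iso f y (f⁻¹ • y)
  rw [smul_inv_smul] at h1
  rw [← h1, M.symm]

theorem dsp_pow (iso : Iso G M) (f : G) (y : X) (q : ℕ) :
    M.d y (f ^ q • y) ≤ q * M.d y (f • y) := by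
  induction q with
  | zero =>
    rw [pow_zero, one_smul, M.self]
    simp
  | succ q ih =>
    have h1 := M.tri y (f ^ q • y) (f ^ (q + 1) • y)
    have h2 : M.d (f ^ q • y) (f ^ (q + 1) • y) = M.d y (f • y) := by
      rw [pow_succ, mul_smul, iso]
    push_cast
    linarith

theorem lox_pow {e : G} (hl : Lox M e) (x : X) {k : ℕ} (h : e ^ k = 1) : k = 0 := by
  obtain ⟨c, hc, hx⟩ := hl
  by_contra hk
  have h1 := hx x k
  rw [h, one_smul, M.self] at h1
  have h2 : (0 : ℝ) < k := by exact_mod_cast Nat.pos_of_ne_zero hk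
  have h3 := mul_pos hc h2
  linarith

theorem lox_zpow {e : G} (hl : Lox M e) (x : X) {k : ℤ} (h : e ^ k = 1) : k = 0 := by
  have h1 : e ^ k.natAbs = 1 := by
    rcases Int.natAbs_eq k with h2 | h2
    · rw [h2, zpow_natCast] at h
      exact h
    · rw [h2, zpow_neg, zpow_natCast, inv_eq_one] at h
      exact h
  exact Int.natAbs_eq_zero.1 (lox_pow hl x h1)

end G5aAux

open G5aAux in
theorem burn_G5a (hE8 : stE8) (hE9 : stE9) (hF7 : stF7) (hF0b : stF0b) : stG5a := by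
  intro G X I _ _ _ c M E R Y hfs i y0 e hy0 hlox hE
  have st := hfs.st
  have iso := st.iso
  obtain ⟨⟨-, -, -, -, -, -, -, -, -, -, -⟩, ⟨hA0, -, -, hA3, -⟩, -⟩ := hF0b c
  have hδ := c.hδ
  have eL := c.eL
  have eL1 := c.eL1
  have eL' := c.eLi
  have eA1 := c.eA1
  have eA3 := c.eA3
  have hL'1 : 2000 * c.δ + 2000 ≤ c.Li := by linarith
  have hA0' : 2000 * c.Li ≤ c.A0 := by
    have eL2 := c.eL'
    have h1 : 0 ≤ c.M' := by
      rw [c.eM']
      positivity
    have h2 : 0 ≤ c.r1 := by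
      rw [c.er1]
      have := c.ρ0
      linarith
    rw [c.eA0]
    have h3 : 0 ≤ (c.δ - 1) * c.Li := mul_nonneg (by linarith) (by linarith)
    rw [eL2]
    nlinarith
  -- displacement of the points of `Y i`
  have hYi : ∀ y ∈ Y i, M.d y (e • y) ≤ c.L1 := by
    intro y hy
    obtain ⟨e', he', hd⟩ := (hfs.Yd i y).1 hy
    have h1 : e' ∈ E i := by
      rw [← he']
      exact Subgroup.mem_zpowers e'
    obtain ⟨k, hk⟩ := (hE e').1 h1
    have h2 : e ∈ E i := (hE e).2 ⟨1, (zpow_one e).symm⟩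
    rw [← he'] at h2
    obtain ⟨l, hl⟩ := Subgroup.mem_zpowers_iff.1 h2
    have h3 : e ^ (k * l - 1) = 1 := by
      rw [zpow_sub, zpow_mul, ← hk, hl, zpow_one, mul_inv_cancel]
    have h4 := lox_zpow hlox y h3
    have h5 : k * l = 1 := by linarith
    rcases Int.eq_one_or_neg_one_of_mul_eq_one h5 with h6 | h6
    · rw [h6, zpow_one] at hk
      rw [← hk]
      exact hd
    · rw [h6, zpow_neg, zpow_one] at hk
      rw [hk, dsp_inv iso] at hd
      exact hd
  have hL1L : c.L1 ≤ c.Li := by linarith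
  have he1 : e ≠ 1 := by
    intro h
    have := lox_pow hlox y0 (k := 1) (by rw [pow_one, h])
    omega
  -- the exponent `p`
  have hex : ∃ p : ℕ, 1 ≤ p ∧ ∀ x : X, 100 * c.δ + 100 ≤ M.d x (e ^ p • x) := by
    obtain ⟨c0, hc0, hx⟩ := hlox
    obtain ⟨m, hm⟩ := exists_nat_ge ((100 * c.δ + 100) / c0)
    refine ⟨m + 1, by omega, fun x => ?_⟩
    have h1 := hx x (m + 1)
    rw [div_le_iff₀ hc0] at hm
    push_cast at h1
    nlinarith
  classical
  obtain ⟨hp1, hpx⟩ := Nat.find_spec hex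
  have hmin : ∀ b : ℕ, 1 ≤ b → b < Nat.find hex → ∃ x : X, M.d x (e ^ b • x) <
      100 * c.δ + 100 := by
    intro b hb hb'
    have := Nat.find_min hex hb'
    push Not at this
    exact this hb
  set p : ℕ := Nat.find hex with hp
  set C5 : ℝ := 300 * c.δ + 300 + 2 * c.A3 + 2 * c.A0 with hC5
  have hb : ∀ b : ℕ, b < p → M.d y0 (e ^ b • y0) ≤ C5 := by
    intro b hbp
    rcases Nat.eq_zero_or_pos b with rfl | hb0
    · rw [pow_zero, one_smul, M.self]
      rw [hC5]
      linarith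
    · obtain ⟨x, hx⟩ := hmin b hb0 hbp
      have h1 : e ^ b ∈ E i := (hE _).2 ⟨b, (zpow_natCast e b).symm⟩
      have h2 : e ^ b ≠ 1 := by
        intro h
        have := lox_pow hlox y0 h
        omega
      obtain ⟨y, hy, hxy⟩ := hF7 G X I c M E R Y hfs i (e ^ b) h1 h2 x _ hx.le
      have h3 := dsp iso (e ^ b) y x
      rw [M.symm y x] at h3
      obtain ⟨m, hm⟩ := st.h5 e y y0 he1 ⟨(hYi y hy).trans hL1L, (hYi y0 hy0).trans hL1L⟩
      have h4 := dsp iso (e ^ b) y0 (e ^ m • y)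
      have hcm : Commute (e ^ b) (e ^ m) := by
        rw [← zpow_natCast]
        exact (Commute.refl e).zpow_zpow _ _
      rw [dsp_comm iso hcm] at h4
      rw [hC5]
      linarith
  set C9 : ℝ := C5 + c.L1 with hC9
  have hp9 : M.d y0 (e ^ p • y0) ≤ C9 := by
    have h1 := hb (p - 1) (by omega)
    have h2 := M.tri y0 (e ^ (p - 1) • y0) (e ^ p • y0)
    have h3 : M.d (e ^ (p - 1) • y0) (e ^ p • y0) = M.d y0 (e • y0) := by
      have h4 : e ^ p = e ^ (p - 1) * e := by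
        rw [← pow_succ]
        congr 1
        omega
      rw [h4, mul_smul, iso]
    have h5 := hYi y0 hy0
    linarith
  -- the infimum of the displacement of `g`
  set g : G := e ^ p with hg
  obtain ⟨l1, hl1, z, hz⟩ : ∃ l1 : ℝ, (∀ x : X, l1 ≤ M.d x (g • x)) ∧
      ∃ z : X, M.d z (g • z) ≤ l1 + 1 ∧ 100 * c.δ + 100 ≤ l1 := by
    have hne : Nonempty X := st.ne
    have hbd : BddBelow (Set.range fun x : X => M.d x (g • x)) :=
      ⟨0, by
        rintro _ ⟨x, rfl⟩
        exact M.nonneg _ _⟩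
    refine ⟨⨅ x : X, M.d x (g • x), fun x => ciInf_le hbd x, ?_⟩
    obtain ⟨z, hz⟩ := exists_lt_of_ciInf_lt
      (show (⨅ x : X, M.d x (g • x)) < (⨅ x : X, M.d x (g • x)) + 1 by linarith)
    exact ⟨z, hz.le, le_ciInf hpx⟩
  obtain ⟨hz1, hl100⟩ := hz
  have hl9 : l1 ≤ C9 := (hl1 y0).trans hp9
  set C10 : ℝ := 2 * (C9 + 1) + 36 * c.δ + 20 with hC10
  obtain ⟨m, hm⟩ : ∃ m : ℤ, M.d y0 (g ^ m • z) ≤ C10 :=
    hE9 G X M c.δ iso st.hyp st.sg hδ g hpx z y0 (C9 + 1) ⟨by linarith, by linarith⟩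
  set z0 : X := g ^ m • z with hz0
  have hgz0 : M.d z0 (g • z0) ≤ l1 + 1 := by
    have h1 : M.d z0 (g • z0) = M.d z (g • z) :=
      dsp_comm iso ((Commute.refl g).zpow_right m) z
    rw [h1]
    exact hz1
  obtain ⟨-, hE8'⟩ := hE8 G X M c.δ l1 iso st.hyp st.sg hδ hl100 g z0 hl1 hgz0
  -- natural exponents
  have hp0 : (0 : ℝ) < p := by exact_mod_cast hp1
  set τ : ℝ := (l1 + 1) / p with hτ
  have hl0 : 0 < l1 + 1 := by linarith
  have hτ0 : 0 < τ := div_pos hl0 hp0
  have hτp : τ * p = l1 + 1 := div_mul_cancel₀ _ hp0.ne'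
  have hτ1 : τ ≤ l1 + 1 := by
    rw [hτ]
    exact div_le_self hl0.le (by exact_mod_cast hp1)
  have hconst : 9 / 10 * (l1 + 1) + 2 * C10 + C5 ≤ 30 * c.A3 := by
    rw [hC10, hC5]
    rw [hC9, hC5] at hl9 ⊢
    linarith
  have hnat : ∀ a : ℕ, 9 / 10 * τ * a - 30 * c.A3 ≤ M.d y0 (e ^ a • y0) ∧
      M.d y0 (e ^ a • y0) ≤ τ * a + 30 * c.A3 := by
    intro a
    set q : ℕ := a / p with hq
    set b : ℕ := a % p with hb'
    have hab : p * q + b = a := Nat.div_add_mod a p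
    have hbp : b < p := Nat.mod_lt a hp1
    have h1 : e ^ a = g ^ q * e ^ b := by
      rw [← hab, pow_add, pow_mul]
    have h2 : M.d (g ^ q • y0) (e ^ a • y0) = M.d y0 (e ^ b • y0) := by
      rw [h1, mul_smul, iso]
    have h3 := hb b hbp
    have h4 := M.tri y0 (g ^ q • y0) (e ^ a • y0)
    have h5 := M.tri y0 (e ^ a • y0) (g ^ q • y0)
    rw [M.symm (e ^ a • y0)] at h5
    have h6 := dsp iso (g ^ q) y0 z0
    have h7 := dsp iso (g ^ q) z0 y0
    rw [M.symm z0 y0] at h7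
    have h8 := dsp_pow iso g z0 q
    have h9 := hE8' z0 q
    have hq0 : (0 : ℝ) ≤ q := Nat.cast_nonneg q
    have hb0 : (0 : ℝ) ≤ b := Nat.cast_nonneg b
    have hbp' : (b : ℝ) ≤ p := by exact_mod_cast hbp.le
    have habR : (a : ℝ) = p * q + b := by exact_mod_cast hab.symm
    have e1 : τ * a = (l1 + 1) * q + τ * b := by
      rw [habR, mul_add, ← mul_assoc, hτp]
    have e2 : 0 ≤ τ * b := mul_nonneg hτ0.le hb0
    have e3 : τ * b ≤ l1 + 1 := by
      rw [← hτp]
      exact mul_le_mul_of_nonneg_left hbp' hτ0.le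
    have e4 : (q : ℝ) * M.d z0 (g • z0) ≤ q * (l1 + 1) := mul_le_mul_of_nonneg_left hgz0 hq0
    have e5 : 9 / 10 * ((l1 + 1) * q) ≤ (l1 - 8 * c.δ - 6) * q := by
      have : 9 / 10 * (l1 + 1) ≤ l1 - 8 * c.δ - 6 := by linarith
      nlinarith
    constructor
    · have e6 : 9 / 10 * τ * a = 9 / 10 * ((l1 + 1) * q) + 9 / 10 * (τ * b) := by
        rw [mul_assoc, e1]
        ring
      rw [e6]
      linarith
    · rw [e1]
      linarith
  refine ⟨τ, hτ0, ?_, fun a => ?_⟩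
  · have h1 : 0 ≤ C5 := by
      rw [hC5]
      linarith
    have h2 : C9 + 1 ≤ 2 * C10 := by
      rw [hC10]
      have h3 : 0 ≤ C9 := le_trans (by linarith) hl9
      linarith
    linarith
  · have h1 : M.d y0 (e ^ a • y0) = M.d y0 (e ^ a.natAbs • y0) := by
      rcases Int.natAbs_eq a with h2 | h2
      · conv_lhs => rw [h2, zpow_natCast]
      · conv_lhs => rw [h2, zpow_neg, zpow_natCast, dsp_inv iso]
    have h2 : |(a : ℝ)| = (a.natAbs : ℝ) := by
      rw [Nat.cast_natAbs, Int.cast_abs]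
    rw [h1, h2]
    exact hnat _

end BAN
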