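import Pool.Agent.Lib.MP_8528c3_al.AN.StH

/-!
# Burnside project, H15: colouring of the low points of an annulus of the cone-off
-/

namespace BAN

open BSD

namespace H15Aux

theorem le_half {ρ s m : ℝ} (hs : 2 * min ρ m ≤ s) (h : s / 2 < ρ) : m ≤ s / 2 := by
  rcases le_total ρ m with h2 | h2
  · rw [min_eq_left h2] at hs
    linarith
  · rw [min_eq_right h2] at hs
    linarith

theorem le_of_sub {m p q d s : ℝ} (h : m - p - q ≤ d) (h' : d + p + q ≤ s) : m ≤ s := by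
  linarith

theorem le_exp_of_log {a b ρ s : ℝ} (hs : 2 * min ρ (max b (Real.log (a / 2))) ≤ s)
    (h : s / 2 < ρ) (ha : 0 ≤ a) : a ≤ 2 * Real.exp (s / 2) := by
  have h2 : Real.log (a / 2) ≤ s / 2 := (le_max_right _ _).trans (le_half hs h)
  rcases ha.eq_or_lt with h3 | h3
  · rw [← h3]
    positivity
  · have h4 : a / 2 ≤ Real.exp (s / 2) := by
      rw [← Real.log_le_iff_le_exp (by positivity)]
      exact h2
    linarith

end H15Aux

open H15Aux in
/-- H15: colouring of the low points of an annulus of the cone-off. -/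
theorem burn_H15 (hB1 : stB1) (hB7 : stB7) (hB8 : stB8) (hF4 : stF4) (hF0b : stF0b)
    (hH14 : stH14) : stH15 := by
  intro G X I _ _ _ c M E R Y hFS hY o P t w Dz H r rh h0 D0 q hq hD0 hH hw hr hDz hSph hP hPt
    hPD hDH hrH hrh hh0 hh0ρ hC8 hl1 hl2
  obtain ⟨π, y0, hPr⟩ := hB1 X I (c.N M) Y hY
  have hTH := (hF4 G X I c M E R Y hFS).1
  have hρ20 : 20 ≤ c.ρ := by
    obtain ⟨⟨-, h1, -, -, h2, -⟩, -⟩ := hF0b c
    have h3 := c.hρ1
    have h4 := c.hδ
    linarith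
  have htg : TG (c.N M) Y c.ρ hY c.ρ0 π y0 c.T :=
    ⟨hρ20, hTH, hPr, c.hT, (c.b20 X I (c.N M) Y c.ρ hY c.ρ0 hρ20 hTH).2 π y0 hPr⟩
  have hb8 : ∀ z : Co Y c.ρ, (c.Z M hY).d z (Co.base (bt y0 z)) ≤ ht z := fun z => by
    rcases isEmpty_or_nonempty I with hI | ⟨⟨i⟩⟩
    · cases z with
      | base x =>
        change (c.Z M hY).d (Co.base x) (Co.base x) ≤ 0
        rw [(c.Z M hY).self]
      | cone i => exact (hI.false i).elim
      | apex i => exact (hI.false i).elim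
    · exact (hB8 X I (c.N M) Y c.ρ y0 hY c.ρ0 i).2.2.2.2.2 z hPr.y0
  have hbb : ∀ x x' : X, (c.Z M hY).d (Co.base x) (Co.base x') ≤ (c.N M).d x x' := fun x x' => by
    exact coD_le (by
      have := Co.pth_one (Mv.base (M := c.N M) (Y := Y) (ρ := c.ρ) x x')
      exact this)
  have hZb : ∀ z ∈ P, (c.Z M hY).d z (Co.base (bt y0 z)) ≤ H := fun z hz =>
    (hb8 z).trans (hP z hz)
  -- distances between base points
  have hDT : ∀ z ∈ P, ∀ z' ∈ P, (c.N M).d (bt y0 z) (bt y0 z') ≤ 2 * Real.exp (Dz + H) := by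
    intro z hz z' hz'
    have h1 := hB7 X I (c.N M) Y c.ρ y0 hY c.ρ0 (Co.base (bt y0 z)) (Co.base (bt y0 z'))
    have h2 : (c.Z M hY).d (Co.base (bt y0 z)) (Co.base (bt y0 z')) ≤ 2 * (Dz + H) := by
      have h3 := (c.Z M hY).tri (Co.base (bt y0 z)) z (Co.base (bt y0 z'))
      have h4 := (c.Z M hY).tri z o (Co.base (bt y0 z'))
      have h5 := (c.Z M hY).tri o z' (Co.base (bt y0 z'))
      have h6 := (c.Z M hY).symm (Co.base (bt y0 z)) z
      have h7 := (c.Z M hY).symm z o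
      have h8 := hZb z hz
      have h9 := hZb z' hz'
      have h10 := hPD z hz
      have h11 := hPD z' hz'
      linarith
    have h3 : 2 * min c.ρ (max (max 0 0) (Real.log ((c.N M).d (bt y0 z) (bt y0 z') / 2))) ≤
        2 * (Dz + H) := le_of_sub (p := 0) (q := 0) h1 (by rw [add_zero, add_zero]; exact h2)
    have h4 := le_exp_of_log h3 (by linarith) ((c.N M).nonneg _ _)
    have h5 : 2 * (Dz + H) / 2 = Dz + H := by ring
    rwa [h5] at h4
  have hDr : ∀ z ∈ P, ∀ z' ∈ P, (c.Z M hY).d z z' ≤ r →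
      (c.N M).d (bt y0 z) (bt y0 z') ≤ rh := by
    intro z hz z' hz' hzz
    have h1 := hB7 X I (c.N M) Y c.ρ y0 hY c.ρ0 z z'
    have h2 := hP z hz
    have h3 := hP z' hz'
    rw [hrh]
    exact le_exp_of_log (le_of_sub h1 (by linarith)) hrH ((c.N M).nonneg _ _)
  -- the set of base points
  have hLS : LS (c.N M) Y c.ρ hY c.ρ0 π y0 c.T o {x | ∃ z ∈ P, bt y0 z = x} t (w + H) rh h0 := by
    refine ⟨htg, by linarith, ?_, hh0.ge, hh0ρ, ?_⟩
    · rw [hrh]
      have : (1 : ℝ) ≤ Real.exp ((r + 2 * H) / 2) := Real.one_le_exp (by linarith)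
      linarith
    · rintro x ⟨z, hz, rfl⟩
      have h1 := abs_le.1 (hPt z hz)
      have h2 := (c.Z M hY).tri o z (Co.base (bt y0 z))
      have h3 := (c.Z M hY).tri o (Co.base (bt y0 z)) z
      have h4 := (c.Z M hY).symm (Co.base (bt y0 z)) z
      have h5 := hZb z hz
      exact abs_le.2 ⟨by linarith, by linarith⟩
  have hDT1 : (1 : ℝ) ≤ 2 * Real.exp (Dz + H) := by
    have : (1 : ℝ) ≤ Real.exp (Dz + H) := Real.one_le_exp (by linarith)
    linarith
  obtain ⟨f, hf⟩ := hH14 G X I c M E R Y hFS hY π y0 o {x | ∃ z ∈ P, bt y0 z = x} t (w + H) rh h0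
    D0 (2 * Real.exp (Dz + H)) q hLS hq hD0 hDT1 hSph
    (by
      rintro x ⟨z, hz, rfl⟩ y ⟨z', hz', rfl⟩
      exact hDT z hz z' hz') hl1 hl2 hC8
  refine ⟨fun z => f (bt y0 z), fun x y hx hxy => ?_⟩
  have hy : y ∈ P := by
    rcases Relation.ReflTransGen.cases_tail hxy with h | ⟨b, -, h⟩
    · rw [h]
      exact hx
    · exact h.2.1
  have h1 : Relation.ReflTransGen (Stp (c.N M) {x | ∃ z ∈ P, bt y0 z = x} f rh)
      (bt y0 x) (bt y0 y) :=
    Relation.ReflTransGen.lift (bt y0) (fun a b hab =>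
      ⟨⟨a, hab.1, rfl⟩, ⟨b, hab.2.1, rfl⟩, hDr a hab.1 b hab.2.1 hab.2.2.1, hab.2.2.2⟩) x y hxy
  have h2 := hf (bt y0 x) (bt y0 y) ⟨x, hx, rfl⟩ h1
  have h3 := (c.Z M hY).tri x (Co.base (bt y0 x)) y
  have h4 := (c.Z M hY).tri (Co.base (bt y0 x)) (Co.base (bt y0 y)) y
  have h5 := (c.Z M hY).symm (Co.base (bt y0 y)) y
  have h6 := hZb x hx
  have h7 := hZb y hy
  have h8 := hbb (bt y0 x) (bt y0 y)
  linarith

end BAN
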