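import Pool.Agent.Lib.MP_8528c3_al.AN.StG
import Pool.Agent.Lib.MP_8528c3_al.AN.StH
import Pool.Agent.Lib.MP_8528c3_al.B19

/-!
# Burnside project, part H: colouring of the local pieces of the annuli of the quotient
-/

namespace BAN

open BSD

namespace H16

theorem nDH_nonneg {r : ℝ} (hr : 0 ≤ r) : 0 ≤ nDH r := by
  unfold nDH
  positivity

theorem nrB_nonneg {r : ℝ} (hr : 0 ≤ r) : 0 ≤ nrB r := by
  have h := nDH_nonneg hr
  unfold nrB
  linarith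

theorem nDL_nonneg {δ T r : ℝ} (hr : 0 ≤ r) : 0 ≤ nDL δ T r := by
  have h : 0 ≤ nrh r := by
    unfold nrh
    positivity
  unfold nDL
  positivity

/-- Transport of a colouring by lifts which preserve the distances. -/
theorem col_lift {Z : Type} {M N : PM Z} {S : Set Z} {q : ℕ} {r D : ℝ} (φ : Z → Z)
    (hφ : ∀ x ∈ S, ∀ y ∈ S, M.d (φ x) (φ y) = N.d x y)
    (h : Col M {z | ∃ x ∈ S, z = φ x} q r D) : Col N S q r D := by
  obtain ⟨f, hf⟩ := h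
  refine ⟨fun x => f (φ x), fun x y hx hxy => ?_⟩
  have hy : y ∈ S := by
    rcases Relation.ReflTransGen.cases_tail hxy with h | ⟨z, -, h⟩
    · rw [h]
      exact hx
    · exact h.2.1
  rw [← hφ x hx y hy]
  refine hf _ _ ⟨x, hx, rfl⟩ ?_
  refine Relation.ReflTransGen.lift φ ?_ _ _ hxy
  rintro a b ⟨ha, hb, hd, hc⟩
  refine ⟨⟨a, ha, rfl⟩, ⟨b, hb, rfl⟩, ?_, hc⟩
  rw [hφ a ha b hb]
  exact hd

theorem col_mono {Z : Type} {M : PM Z} {S S' : Set Z} {q : ℕ} {r D : ℝ} (hS : S' ⊆ S)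
    (h : Col M S q r D) : Col M S' q r D := by
  obtain ⟨f, hf⟩ := h
  refine ⟨f, fun x y hx hxy => hf x y (hS hx) ?_⟩
  refine Relation.ReflTransGen.mono ?_ _ _ hxy
  rintro a b ⟨h1, h2, h3, h4⟩
  exact ⟨hS h1, hS h2, h3, h4⟩

end H16

theorem burn_H16 (g1 : stG1) (g6 : stG6) (g9 : stG9) (c0 : stC0) (b9 : stB9) (f5w : stF5w)
    (h15 : stH15) : stH16 := by
  intro G X I _ _ _ c M E R Y hFS hY hg iso r Dp D0 hr hDp hD0 hSph hDρ hrB hh0 hC8 hl1 hl2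
    o t P hP hPD
  letI := coAct c.ρ hg
  have hδ := c.hδ
  have hws := f5w G X I c M E R Y hFS hY hg
  have hiso : ∀ (g : G) (x y : X), (c.N M).d (g • x) (g • y) = (c.N M).d x y := by
    intro g x y
    show c.lam * M.d (g • x) (g • y) = c.lam * M.d x y
    rw [hFS.st.iso]
  obtain ⟨-, -, -, -, -, hht, -⟩ := c0 G X I (c.N M) Y c.ρ hY c.ρ0 hg hiso
  -- the high part
  have hhigh : Col (dqPM (c.Z M hY) (KK R) iso) {z | z ∈ P ∧ r + 1 < ht z} 4 r (nDH r) :=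
    H16.col_mono (fun z hz => hz.2) (g6 G X I c M E R Y hFS hY hg iso hl1 r (r + 1) hr le_rfl)
  -- the low part
  have hlow : Col (dqPM (c.Z M hY) (KK R) iso) {z | z ∈ P ∧ ht z ≤ r + 1} 4 (nrB r)
      (nDL c.δ c.T r) := by
    obtain ⟨k, o', t', -, hd, ho, ht'⟩ := g9 G (Co Y c.ρ) I (c.Z M hY)
      (fun i => (Co.apex i : Co Y c.ρ)) R (thC (c.N M) hY c.ρ0 c.δ) c.ρ (2 * c.δ + 1) c.δ hws
      {z | z ∈ P ∧ ht z ≤ r + 1} (c.ρ - (r + 1)) Dp o t hDp (by linarith)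
      (fun x hx y hy => hPD x hx.1 y hy.1)
      (fun x hx i => by
        have k1 := (b9 X I (c.N M) Y c.ρ hY c.ρ0 i x x).2.1
        have k2 := B19.hti_le_ht c.ρ0 i x
        have k3 : ht x ≤ r + 1 := hx.2
        linarith)
      (fun x hx => hP hx.1)
    refine H16.col_lift (M := c.Z M hY) (fun z => (coAct c.ρ hg).smul (k z) z) ?_ ?_
    · exact fun x hx y hy => hd x hx y hy
    · refine h15 G X I c M E R Y hFS hY o' _ t' (2 * c.δ + 4) (2 * Dp + c.δ + 10) (r + 1) (nrB r)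
        (nrh r) (nh0 c.δ c.T r) D0 4 (by norm_num) hD0 (by linarith) (by linarith)
        (H16.nrB_nonneg hr) (by linarith) hSph ?_ ?_ ?_ (by linarith) hrB rfl rfl hh0 hC8 hl1 hl2
      · rintro z ⟨x, hx, rfl⟩
        exact (hht (k x) x).le.trans hx.2
      · rintro z ⟨x, hx, rfl⟩
        exact ht' x hx
      · rintro z ⟨x, hx, rfl⟩
        exact ho x hx
  have hU : P ⊆ {z | z ∈ P ∧ ht z ≤ r + 1} ∪ {z | z ∈ P ∧ r + 1 < ht z} := by
    intro z hz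
    rcases le_or_gt (ht z) (r + 1) with h | h
    · exact Or.inl ⟨hz, h⟩
    · exact Or.inr ⟨hz, h⟩
  exact H16.col_mono hU (g1 (Co Y c.ρ) (dqPM (c.Z M hY) (KK R) iso) _ _ 4 r (nrB r)
    (nDL c.δ c.T r) (nDH r) hr (H16.nDL_nonneg hr) (H16.nDH_nonneg hr) le_rfl hlow hhigh)

end BAN
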