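import Pool.Agent.Lib.MP_8528c3_al.AN.StG
import Pool.Agent.Lib.MP_8528c3_al.AN.StH

/-!
# Burnside project, part H: the step for the colourings of the annuli (choice of the constants)
-/

set_option autoImplicit false

namespace BAN

open BSD

namespace H19Aux

/-- The scales and the sizes. -/
noncomputable def rE (δ T : ℝ) : ℕ → ℝ × ℝ
  | 0 => (4 * δ + 9, nDl δ T (4 * δ + 9))
  | (j + 1) => ((rE δ T j).2 + 2 * (4 * δ + 9),
      nDl δ T ((rE δ T j).2 + 2 * (4 * δ + 9)) + 2 * (rE δ T j).2 + 2 * (4 * δ + 9))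

theorem nDH_nonneg {r : ℝ} (hr : 0 ≤ r) : 0 ≤ nDH r := by
  unfold nDH
  have := Real.exp_pos ((r + 1) / 2)
  linarith

theorem nDl_ge {δ T r : ℝ} (hr : 0 ≤ r) : 46 ≤ nDl δ T r := by
  unfold nDl nDL
  have h1 := nDH_nonneg hr
  have h2 : 0 ≤ nrh r := by
    unfold nrh
    have := Real.exp_pos ((nrB r + 2 * (r + 1)) / 2)
    linarith
  have h3 := Real.exp_pos (nC8 δ T r / 2)
  linarith

theorem rE_nonneg {δ T : ℝ} (hδ : 1 ≤ δ) (j : ℕ) : 0 ≤ (rE δ T j).1 ∧ 0 ≤ (rE δ T j).2 := by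
  induction j with
  | zero =>
    have h0 : (0 : ℝ) ≤ 4 * δ + 9 := by linarith
    refine ⟨h0, ?_⟩
    have := nDl_ge (δ := δ) (T := T) h0
    change 0 ≤ nDl δ T (4 * δ + 9)
    linarith
  | succ j ih =>
    have h0 : (0 : ℝ) ≤ (rE δ T j).2 + 2 * (4 * δ + 9) := by linarith [ih.2]
    refine ⟨h0, ?_⟩
    have := nDl_ge (δ := δ) (T := T) h0
    change 0 ≤ nDl δ T ((rE δ T j).2 + 2 * (4 * δ + 9)) + 2 * (rE δ T j).2 + 2 * (4 * δ + 9)
    linarith [ih.2]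

/-- the sum of the bounds for the height -/
noncomputable def bd (δ T Dp r : ℝ) : ℝ :=
  |3 * Dp + 2 * δ + 20 + (r + 1)| + |(nrB r + 2 * (r + 1)) / 2| + |nh0 δ T r + 1| + |nC8 δ T r|

theorem bd_nonneg (δ T Dp r : ℝ) : 0 ≤ bd δ T Dp r := by
  unfold bd
  positivity

/-- the bound for the scaling factor -/
noncomputable def lb (δ Dp D0 r : ℝ) : ℝ :=
  |8 * (2 * Real.exp (2 * Dp + δ + 10 + (r + 1)) + 1) * (D0 + 18 * δ + 46)|

theorem lb_nonneg (δ Dp D0 r : ℝ) : 0 ≤ lb δ Dp D0 r := abs_nonneg _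

end H19Aux

open H19Aux in
/-- H19: THE STEP for the colourings of the annuli. -/
theorem burn_H19 (hG3 : stG3) (hD8 : stD8) (hD10 : stD10) (hF5w : stF5w)
    (hH16 : stH16) : stH19 := by
  intro δ T hδ hT
  obtain ⟨r, hr⟩ : ∃ r : ℕ → ℝ, r = fun j => (rE δ T j).1 := ⟨_, rfl⟩
  obtain ⟨E, hE⟩ : ∃ E : ℕ → ℝ, E = fun j => (rE δ T j).2 := ⟨_, rfl⟩
  have r0 : r 0 = 4 * δ + 9 := by rw [hr]; rfl
  have E0 : E 0 = nDl δ T (r 0) := by rw [hE, hr]; rfl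
  have rS : ∀ j, r (j + 1) = E j + 2 * (4 * δ + 9) := fun j => by rw [hE, hr]; rfl
  have ES : ∀ j, E (j + 1) = nDl δ T (r (j + 1)) + 2 * E j + 2 * (4 * δ + 9) := fun j => by
    rw [hE, hr]; rfl
  have rn : ∀ j, 0 ≤ r j := fun j => by rw [hr]; exact (rE_nonneg hδ j).1
  have En : ∀ j, 0 ≤ E j := fun j => by rw [hE]; exact (rE_nonneg hδ j).2
  clear hr hE
  obtain ⟨R, hR⟩ : ∃ R : ℝ, R = r 0 + r 1 + r 2 + r 3 := ⟨_, rfl⟩
  obtain ⟨Dp, hDp⟩ : ∃ Dp : ℝ, Dp = E 3 + R + 17 := ⟨_, rfl⟩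
  have hRn : 0 ≤ R := by
    rw [hR]
    linarith [rn 0, rn 1, rn 2, rn 3]
  have hDpn : 0 ≤ Dp := by
    rw [hDp]
    linarith [En 3]
  refine ⟨E 3, bd δ T Dp (r 0) + bd δ T Dp (r 1) + bd δ T Dp (r 2) + bd δ T Dp (r 3) + 1, ?_, ?_⟩
  · have h1 := ES 2
    have h2 := nDl_ge (δ := δ) (T := T) (rn 3)
    have h3 := En 2
    linarith
  intro k hkδ hkT hkρ D0 hD0n
  obtain ⟨s, hs⟩ : ∃ s : ℝ, s = 100 * (1 + |1000 * k.A3| + lb δ Dp D0 (r 0) + lb δ Dp D0 (r 1) +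
    lb δ Dp D0 (r 2) + lb δ Dp D0 (r 3)) := ⟨_, rfl⟩
  have l0 := lb_nonneg δ Dp D0 (r 0)
  have l1 := lb_nonneg δ Dp D0 (r 1)
  have l2 := lb_nonneg δ Dp D0 (r 2)
  have l3 := lb_nonneg δ Dp D0 (r 3)
  have b0 := bd_nonneg δ T Dp (r 0)
  have b1 := bd_nonneg δ T Dp (r 1)
  have b2 := bd_nonneg δ T Dp (r 2)
  have b3 := bd_nonneg δ T Dp (r 3)
  have hA := abs_nonneg (1000 * k.A3)
  have hspos : 0 < s := by
    rw [hs]
    linarith
  refine ⟨1 / s, by positivity, ?_⟩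
  intro c hc hlam G X I _ _ _ M Es Rs Y hFS hY hg iso hSph
  have cδ : c.δ = δ := by
    rw [← hkδ, ← hc]
  have cT : c.T = T := by
    rw [← hkT, ← hc]
  have cρ : c.ρ = k.ρ := by rw [← hc]
  have cA : c.A3 = k.A3 := by rw [← hc]
  have hlp := c.hlam
  have hls : c.lam * s ≤ 1 := by
    have := mul_le_mul_of_nonneg_right hlam hspos.le
    rwa [one_div, inv_mul_cancel₀ hspos.ne'] at this
  have hlx : ∀ x : ℝ, x ≤ s / 100 → c.lam * x ≤ 1 / 100 := by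
    intro x hx
    have h1 := mul_le_mul_of_nonneg_left hx hlp.le
    linarith
  letI := coAct c.ρ hg
  have hWS := hF5w G X I c M Es Rs Y hFS hY hg
  obtain ⟨-, hD8'⟩ := hD8 G (Co Y c.ρ) I _ _ _ _ _ _ _ hWS
  obtain ⟨-, -, -, hSG, -⟩ := hD8' iso
  have hHyp := hD10 G (Co Y c.ρ) I _ _ _ _ _ _ _ hWS iso
  rw [cδ] at hHyp
  have hst := hFS.st
  have hM := hst.hyp
  rw [cδ] at hM
  have hδ0 : (0 : ℝ) ≤ δ := by linarith
  have hS2 : Sph M 4 (12 * c.δ + 27) 3 D0 := by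
    rw [cδ]
    exact hSph
  have key : ∀ j ≤ 3, bd δ T Dp (r j) + 1 ≤ c.ρ ∧ lb δ Dp D0 (r j) ≤ s / 100 ∧ r j ≤ R := by
    intro j hj
    rw [cρ, hs, hR]
    have hr0 := rn 0
    have hr1 := rn 1
    have hr2 := rn 2
    have hr3 := rn 3
    interval_cases j
    · exact ⟨by linarith, by linarith, by linarith⟩
    · exact ⟨by linarith, by linarith, by linarith⟩
    · exact ⟨by linarith, by linarith, by linarith⟩
    · exact ⟨by linarith, by linarith, by linarith⟩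
  have hD : ∀ j ≤ 3, (0 : ℝ) ≤ nDl δ T (r j) := by
    intro j _
    have := nDl_ge (δ := δ) (T := T) (rn j)
    linarith
  refine hG3 (Co Y c.ρ) _ δ R Dp 3 r (fun j => nDl δ T (r j)) E hHyp hδ0 hSG r0
    (fun j hj => (key j hj).2.2) hD E0 ES (fun j => (rS j).symm.le) hDp.symm.le ?_
  intro o t P hP hPD j hj
  obtain ⟨k1, k2, -⟩ := key j hj
  unfold bd at k1
  have a1 := le_abs_self (3 * Dp + 2 * δ + 20 + (r j + 1))
  have a2 := le_abs_self ((nrB (r j) + 2 * (r j + 1)) / 2)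
  have a3 := le_abs_self (nh0 δ T (r j) + 1)
  have a4 := le_abs_self (nC8 δ T (r j))
  have c1 := abs_nonneg (3 * Dp + 2 * δ + 20 + (r j + 1))
  have c2 := abs_nonneg ((nrB (r j) + 2 * (r j + 1)) / 2)
  have c3 := abs_nonneg (nh0 δ T (r j) + 1)
  have c4 := abs_nonneg (nC8 δ T (r j))
  have h16 := hH16 G X I c M Es Rs Y hFS hY hg iso (r j) Dp D0 (rn j) hDpn hD0n hS2
  rw [cδ, cT] at h16
  refine h16 (by linarith) (by linarith) (by linarith) (by linarith) ?_ ?_ o t P hP hPD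
  · rw [cA]
    have h1 := le_abs_self (1000 * k.A3)
    have h2 := hlx (1000 * k.A3) (by
      rw [hs]
      linarith)
    linarith
  · refine hlx _ ((le_abs_self _).trans ?_)
    exact k2

end BAN
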