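import Pool.Agent.Lib.MP_8528c3_al.AN.StK

/-!
# Burnside project, linear control, K1: upper bounds for the mixed metric, invariance
-/

namespace BAN

open BSD

theorem CP.smul {G X : Type} [Group G] [MulAction G X] {E : PM X} {W : G → ℝ} {x0 : X}
    (iso : Iso G E) (k : G) {x y : X} {a b : ℝ} (h : CP E W x0 x y a b) :
    CP E W x0 (k • x) (k • y) a b := by
  induction h with
  | nil => exact CP.nil _
  | e y z a b _ ih =>
    have := CP.e (k • x) (k • y) (k • z) a b ih
    rwa [iso k y z] at this
  | w g h a b _ ih =>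
    rw [smul_smul] at ih
    have := CP.w (k • x) (k * g) (k * h) a b ih
    have e1 : (k * g)⁻¹ * (k * h) = g⁻¹ * h := by group
    rw [e1] at this
    rwa [smul_smul]

theorem burn_K1 : stK1 := by
  intro G X _ _ E W hW x0 p q hp hq
  refine ⟨fun x y => ?_, fun g h => ?_, fun iso g x y => ?_⟩
  · have := mxD_le (p := p) (q := q) hW hp hq (CP.one (E := E) (W := W) (x0 := x0) x y)
    change mxD E W x0 p q x y ≤ _
    linarith
  · have := mxD_le (p := p) (q := q) hW hp hq (CP.onew (E := E) (W := W) (x0 := x0) g h)
    change mxD E W x0 p q _ _ ≤ _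
    linarith
  · change mxD E W x0 p q _ _ = mxD E W x0 p q _ _
    refine le_antisymm (le_mxD fun a b h => mxD_le hW hp hq (h.smul iso g))
      (le_mxD fun a b h => mxD_le hW hp hq ?_)
    have := h.smul iso g⁻¹
    rwa [inv_smul_smul, inv_smul_smul] at this

end BAN
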