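import Pool.Agent.Lib.MP_8528c3_al.AN.StK

/-!
# Burnside project, linear control: K3 and K3b
-/

namespace BAN

open BSD

/-- In a chain that starts in the orbit, the last orbit point controls `W`. -/
theorem K3_aux {G X : Type} [Group G] [MulAction G X] {E : PM X} {W : G → ℝ} (hW : WNm W)
    {x0 : X} {C : ℝ} (iso : Iso G E) (hC : 0 ≤ C) (hWE : ∀ g : G, W g ≤ C * E.d x0 (g • x0))
    (g : G) {x y : X} {a b : ℝ} (hx : x = g • x0) (h : CP E W x0 x y a b) :
    ∃ (g' : G) (a1 a2 : ℝ), a1 + a2 ≤ a ∧ W (g⁻¹ * g') ≤ C * a1 + b ∧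
      E.d (g' • x0) y ≤ a2 := by
  induction h with
  | nil =>
    refine ⟨g, 0, 0, by simp, ?_, ?_⟩
    · rw [inv_mul_cancel, hW.one]; simp
    · rw [hx, E.self]
  | e y z a b _ ih =>
    obtain ⟨g', a1, a2, h1, h2, h3⟩ := ih
    refine ⟨g', a1, a2 + E.d y z, by linarith, h2, ?_⟩
    have := E.tri (g' • x0) y z
    linarith
  | w g1 h1 a b _ ih =>
    obtain ⟨g', a1, a2, e1, e2, e3⟩ := ih
    refine ⟨h1, a1 + a2, 0, by linarith, ?_, by rw [E.self]⟩
    have f1 : W (g⁻¹ * h1) ≤ W (g⁻¹ * g') + (W (g'⁻¹ * g1) + W (g1⁻¹ * h1)) := by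
      have q1 := hW.mul (g⁻¹ * g') ((g'⁻¹ * g1) * (g1⁻¹ * h1))
      have q2 := hW.mul (g'⁻¹ * g1) (g1⁻¹ * h1)
      have q3 : g⁻¹ * g' * ((g'⁻¹ * g1) * (g1⁻¹ * h1)) = g⁻¹ * h1 := by group
      rw [q3] at q1
      linarith
    have f2 : W (g'⁻¹ * g1) ≤ C * a2 := by
      refine (hWE _).trans (mul_le_mul_of_nonneg_left ?_ hC)
      have := iso g' x0 ((g'⁻¹ * g1) • x0)
      rw [smul_smul, mul_inv_cancel_left] at this
      rw [← this]
      exact e3
    nlinarith

theorem burn_K3 : stK3 := by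
  intro G X _ _ E W hW x0 C iso hC hWE g h a b hp
  obtain ⟨g', a1, a2, h1, h2, h3⟩ := K3_aux hW iso hC hWE g rfl hp
  have f1 := hW.mul (g⁻¹ * g') (g'⁻¹ * h)
  have f0 : g⁻¹ * g' * (g'⁻¹ * h) = g⁻¹ * h := by group
  rw [f0] at f1
  have f2 : W (g'⁻¹ * h) ≤ C * a2 := by
    refine (hWE _).trans (mul_le_mul_of_nonneg_left ?_ hC)
    have := iso g' x0 ((g'⁻¹ * h) • x0)
    rw [smul_smul, mul_inv_cancel_left] at this
    rw [← this]
    exact h3
  have f3 : C * (a1 + a2) ≤ C * a := mul_le_mul_of_nonneg_left h1 hC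
  linarith

/-- The `E`-distance of the ends of a chain. -/
theorem CP.dist_le {G X : Type} [Group G] [MulAction G X] {E : PM X} {W : G → ℝ}
    {x0 : X} (iso : Iso G E) (hEW : ∀ g : G, E.d x0 (g • x0) ≤ W g)
    {x y : X} {a b : ℝ} (h : CP E W x0 x y a b) : E.d x y ≤ a + b := by
  induction h with
  | nil => rw [E.self]; simp
  | e y z a b _ ih =>
    have := E.tri x y z
    linarith
  | w g1 h1 a b _ ih =>
    have h2 := E.tri x (g1 • x0) (h1 • x0)
    have h3 := iso g1 x0 ((g1⁻¹ * h1) • x0)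
    rw [smul_smul, mul_inv_cancel_left] at h3
    have h4 := hEW (g1⁻¹ * h1)
    linarith

theorem burn_K3b : stK3b := by
  intro G X _ _ E W hW x0 C hC iso hC1 hEW
  have hb : ∀ {x y : X} {a b : ℝ}, CP E W x0 x y a b → 0 ≤ a ∧ 0 ≤ b := fun h => h.nonneg hW
  refine ⟨fun x y => ?_, fun x y => ?_, fun x y => ?_, fun x y => ?_, fun x y => ?_,
    fun g h => ?_⟩
  · have := mxD_le (p := 1) (q := 1 / 2) hW zero_le_one (by norm_num)
      (CP.one (E := E) (W := W) (x0 := x0) x y)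
    calc (fl E W hW x0).d x y = mxD E W x0 1 (1 / 2) x y := rfl
      _ ≤ 1 * E.d x y + 1 / 2 * 0 := this
      _ = E.d x y := by ring
  · have : E.d x y / 2 ≤ mxD E W x0 1 (1 / 2) x y := by
      refine le_mxD fun a b h => ?_
      have h1 := h.dist_le iso hEW
      have h2 := hb h
      linarith
    change E.d x y ≤ 2 * mxD E W x0 1 (1 / 2) x y
    linarith
  · change E.d x y ≤ mxD E W x0 C 1 x y
    refine le_mxD fun a b h => ?_
    have h1 := h.dist_le iso hEW
    have h2 := hb h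
    nlinarith
  · have := mxD_le (p := C) (q := 1) hW hC zero_le_one
      (CP.one (E := E) (W := W) (x0 := x0) x y)
    calc (wm E W hW x0 C hC).d x y = mxD E W x0 C 1 x y := rfl
      _ ≤ C * E.d x y + 1 * 0 := this
      _ = C * E.d x y := by ring
  · have hC0 : 0 < 2 * C := by linarith
    have : mxD E W x0 C 1 x y / (2 * C) ≤ mxD E W x0 1 (1 / 2) x y := by
      refine le_mxD fun a b h => ?_
      have h1 := mxD_le (p := C) (q := 1) hW hC zero_le_one h
      have h2 := hb h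
      rw [div_le_iff₀ hC0]
      nlinarith
    rw [div_le_iff₀ hC0] at this
    change mxD E W x0 C 1 x y ≤ 2 * C * mxD E W x0 1 (1 / 2) x y
    linarith
  · have := mxD_le (p := C) (q := 1) hW hC zero_le_one
      (CP.onew (E := E) (W := W) (x0 := x0) g h)
    calc (wm E W hW x0 C hC).d (g • x0) (h • x0) = mxD E W x0 C 1 (g • x0) (h • x0) := rfl
      _ ≤ C * 0 + 1 * W (g⁻¹ * h) := this
      _ = W (g⁻¹ * h) := by ring

end BAN
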