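import Pool.Agent.Lib.MP_8528c3_al.AN.StK
import Pool.Agent.Lib.MP_8528c3_al.AN.K3_12

/-!
# Burnside project, linear control: K11 (growth of the stable lengths of the un-coned metric)
-/

namespace BAN

open BSD

/-- K11 for the powers of `g`, at the base point. -/
theorem K11_aux (k3 : stK3) {G X : Type} [Group G] [MulAction G X] {E : PM X} {W : G → ℝ}
    (hW : WNm W) {x0 : X} {C : ℝ} (iso : Iso G E) (hC : 2 ≤ C)
    (hEW : ∀ g : G, E.d x0 (g • x0) ≤ W g)
    (hWE : ∀ g : G, W g ≤ C * E.d x0 (g • x0)) (g : G) :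
    E.d x0 (g • x0) + (W g - E.d x0 (g • x0)) / (C - 1) ≤ 2 * (fl E W hW x0).d x0 (g • x0) := by
  have hC1 : 0 < C - 1 := by linarith
  have key : (E.d x0 (g • x0) + (W g - E.d x0 (g • x0)) / (C - 1)) / 2 ≤
      mxD E W x0 1 (1 / 2) x0 (g • x0) := by
    refine le_mxD fun a b h => ?_
    have h1 := h.dist_le iso hEW
    have h2 := h.nonneg hW
    have h3 : W g ≤ C * a + b := by
      have h' : CP E W x0 ((1 : G) • x0) (g • x0) a b := by rwa [one_smul]
      have := k3 G X E W hW x0 C iso (by linarith) hWE 1 g a b h'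
      rwa [inv_one, one_mul] at this
    have h4 : (W g - E.d x0 (g • x0)) / (C - 1) + E.d x0 (g • x0) ≤ (a + b) + a := by
      have e : (W g - E.d x0 (g • x0)) / (C - 1) + E.d x0 (g • x0) =
          (W g + (C - 2) * E.d x0 (g • x0)) / (C - 1) := by
        field_simp
        ring
      rw [e, div_le_iff₀ hC1]
      have h5 : (C - 2) * E.d x0 (g • x0) ≤ (C - 2) * (a + b) :=
        mul_le_mul_of_nonneg_left h1 (by linarith)
      nlinarith
    linarith
  change _ ≤ 2 * mxD E W x0 1 (1 / 2) x0 (g • x0)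
  linarith

theorem burn_K11 (k1 : stK1) (k3 : stK3) (k10 : stK10) (k10w : stK10w) : stK11 := by
  intro G X _ _ E W hW x0 C iso hC hEW hWE g
  have hC1 : 0 < C - 1 := by linarith
  have isoM : Iso G (fl E W hW x0) :=
    (k1 G X E W hW x0 1 (1 / 2) zero_le_one (by norm_num)).2.2 iso
  obtain ⟨_, e2, _⟩ := k10 G X E iso g
  obtain ⟨_, _, _, m4, _⟩ := k10 G X (fl E W hW x0) isoM g
  obtain ⟨_, w2, _⟩ := k10w G W hW g
  refine le_of_forall_pos_le_add fun ε hε => ?_
  obtain ⟨m, _, hm1, hm⟩ := m4 x0 (ε / 2) (by linarith) 1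
  have hm0 : (0 : ℝ) < m := by exact_mod_cast hm1
  have a1 := K11_aux k3 hW iso hC hEW hWE (g ^ m) (x0 := x0)
  have a2 := e2 x0 m
  have a3 := w2 m
  have a4 : (sl E g + (slW W g - sl E g) / (C - 1)) * m ≤
      E.d x0 (g ^ m • x0) + (W (g ^ m) - E.d x0 (g ^ m • x0)) / (C - 1) := by
    have e1 : (sl E g + (slW W g - sl E g) / (C - 1)) * m =
        ((C - 2) * (sl E g * m) + slW W g * m) / (C - 1) := by
      field_simp
      ring
    have e1' : E.d x0 (g ^ m • x0) + (W (g ^ m) - E.d x0 (g ^ m • x0)) / (C - 1) =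
        ((C - 2) * E.d x0 (g ^ m • x0) + W (g ^ m)) / (C - 1) := by
      field_simp
      ring
    rw [e1, e1']
    refine div_le_div_of_nonneg_right ?_ hC1.le
    have := mul_le_mul_of_nonneg_left a2 (by linarith : 0 ≤ C - 2)
    linarith
  have a5 : (sl E g + (slW W g - sl E g) / (C - 1)) * m ≤
      (2 * sl (fl E W hW x0) g + ε) * m := by
    have : (2 * sl (fl E W hW x0) g + ε) * m = 2 * ((sl (fl E W hW x0) g + ε / 2) * m) := by ring
    rw [this]
    linarith
  exact le_of_mul_le_mul_right a5 hm0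

end BAN
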