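import Pool.Agent.Lib.MP_8528c3_al.AN.StK

/-!
# Burnside project, linear control: K12
-/

namespace BAN

open BSD

theorem burn_K12 : stK12 := by
  intro G X _ _ V W x0 iso hW hVW g
  refine le_csInf ⟨_, 1, le_rfl, rfl⟩ ?_
  rintro t ⟨m, hm, rfl⟩
  have hm0 : (0 : ℝ) < m := by exact_mod_cast hm
  have h1 : sl V g ≤ V.d x0 (g ^ m • x0) / m := by
    refine csInf_le ⟨0, ?_⟩ ⟨x0, m, hm, rfl⟩
    rintro t ⟨x, k, hk, rfl⟩
    exact div_nonneg (V.nonneg _ _) (Nat.cast_nonneg k)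
  refine h1.trans (div_le_div_of_nonneg_right ?_ hm0.le)
  have h2 := hVW 1 (g ^ m)
  rwa [one_smul, inv_one, one_mul] at h2

end BAN
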