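import Pool.Agent.Lib.MP_8528c3_al.AN.StK

/-!
# Burnside project, linear control: K2, maximality of the mixed metric
-/

namespace BAN

open BSD

theorem cp_le_K2 {G X : Type} [Group G] [MulAction G X] {E : PM X} {W : G → ℝ} {x0 : X}
    {p q : ℝ} {N : PM X} (h1 : ∀ x y, N.d x y ≤ p * E.d x y)
    (h2 : ∀ g h : G, N.d (g • x0) (h • x0) ≤ q * W (g⁻¹ * h)) {x y : X} {a b : ℝ}
    (h : CP E W x0 x y a b) : N.d x y ≤ p * a + q * b := by
  induction h with
  | nil => rw [N.self]; simp
  | e y z a b _ ih =>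
    have h3 := N.tri x y z
    have h4 := h1 y z
    nlinarith
  | w g k a b _ ih =>
    have h3 := N.tri x (g • x0) (k • x0)
    have h4 := h2 g k
    nlinarith

/-- K2: maximality of the mixed metric. -/
theorem burn_K2 : stK2 := by
  intro G X _ _ E W hW x0 p q hp hq N h1 h2 x y
  exact le_mxD fun a b h => cp_le_K2 h1 h2 h

end BAN
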