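import Pool.Agent.Lib.MP_8528c3_al.AN.K1

/-!
# Burnside project, linear control, K4: almost geodesics of the mixed metrics
-/

namespace BAN

open BSD

/-- Concatenation of finite sequences. -/
theorem k4_cat {X : Type} (n n' : ℕ) (z z' : ℕ → X) (h : z n = z' 0) : ∃ w : ℕ → X,
    w 0 = z 0 ∧ w (n + n') = z' n' ∧
    (∀ P : X → X → Prop, (∀ i < n, P (z i) (z (i + 1))) → (∀ i < n', P (z' i) (z' (i + 1))) →
      ∀ i < n + n', P (w i) (w (i + 1))) ∧
    (∀ f : X → X → ℝ, ∑ i ∈ Finset.range (n + n'), f (w i) (w (i + 1)) =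
      ∑ i ∈ Finset.range n, f (z i) (z (i + 1)) +
      ∑ i ∈ Finset.range n', f (z' i) (z' (i + 1))) := by
  have key1 : ∀ i ≤ n, (if i < n then z i else z' (i - n)) = z i := by
    intro i hi
    by_cases h1 : i < n
    · rw [if_pos h1]
    · have h2 : i = n := by omega
      subst h2
      rw [if_neg h1, Nat.sub_self, h]
  have key2 : ∀ j, (if n + j < n then z (n + j) else z' (n + j - n)) = z' j := by
    intro j
    rw [if_neg (by omega)]
    congr 1
    omega
  refine ⟨fun i => if i < n then z i else z' (i - n), key1 0 (Nat.zero_le _), key2 n', ?_, ?_⟩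
  · intro P h1 h2 i hi
    by_cases hin : i < n
    · show P (if i < n then z i else z' (i - n)) (if i + 1 < n then z (i + 1) else z' (i + 1 - n))
      rw [key1 i hin.le, key1 (i + 1) hin]
      exact h1 i hin
    · obtain ⟨j, rfl⟩ := Nat.exists_eq_add_of_le (not_lt.1 hin)
      show P (if n + j < n then z (n + j) else z' (n + j - n))
        (if n + (j + 1) < n then z (n + (j + 1)) else z' (n + (j + 1) - n))
      rw [key2 j, key2 (j + 1)]
      exact h2 j (by omega)
  · intro f
    rw [Finset.sum_range_add]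
    congr 1
    · refine Finset.sum_congr rfl fun i hi => ?_
      rw [Finset.mem_range] at hi
      show f (if i < n then z i else z' (i - n)) (if i + 1 < n then z (i + 1) else z' (i + 1 - n))
        = _
      rw [key1 i hi.le, key1 (i + 1) hi]
    · refine Finset.sum_congr rfl fun j _ => ?_
      show f (if n + j < n then z (n + j) else z' (n + j - n))
        (if n + (j + 1) < n then z (n + (j + 1)) else z' (n + (j + 1) - n)) = _
      rw [key2 j, key2 (j + 1)]

/-- Refinement of a chain. -/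
theorem k4_ref {G X : Type} [Group G] [MulAction G X] {E : PM X} {W : G → ℝ} (hW : WNm W)
    {x0 : X} {C : ℝ} (hC : 0 ≤ C) (hE : E.SG 2) (hS : WSt W) {x y : X} {a b : ℝ}
    (h : CP E W x0 x y a b) : ∀ ε : ℝ, 0 < ε → ∃ (n : ℕ) (z : ℕ → X), z 0 = x ∧ z n = y ∧
      (∀ i < n, (fl E W hW x0).d (z i) (z (i + 1)) ≤ 2) ∧
      ∑ i ∈ Finset.range n, (fl E W hW x0).d (z i) (z (i + 1)) ≤ a + b / 2 + ε ∧
      ∑ i ∈ Finset.range n, (wm E W hW x0 C hC).d (z i) (z (i + 1)) ≤ C * a + b + C * ε := by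
  obtain ⟨f1, f2, _⟩ := burn_K1 G X E W hW x0 1 (1 / 2) zero_le_one (by norm_num)
  obtain ⟨w1, w2, _⟩ := burn_K1 G X E W hW x0 C 1 hC zero_le_one
  change ∀ x y, (fl E W hW x0).d x y ≤ _ at f1
  change ∀ g h : G, (fl E W hW x0).d _ _ ≤ _ at f2
  change ∀ x y, (wm E W hW x0 C hC).d x y ≤ _ at w1
  change ∀ g h : G, (wm E W hW x0 C hC).d _ _ ≤ _ at w2
  induction h with
  | nil =>
    intro ε hε
    refine ⟨0, fun _ => x, rfl, rfl, fun i hi => absurd hi (Nat.not_lt_zero i), ?_, ?_⟩
    · rw [Finset.range_zero, Finset.sum_empty]; linarith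
    · rw [Finset.range_zero, Finset.sum_empty]
      have := mul_nonneg hC hε.le
      linarith
  | e y z a b _ ih =>
    intro ε hε
    obtain ⟨n, u, hu0, hun, hu1, hu2, hu3⟩ := ih (ε / 2) (half_pos hε)
    obtain ⟨n', v, hv0, hvn, hv1, hv2⟩ := hE y z (ε / 2) (half_pos hε)
    obtain ⟨w, hw0, hwn, hwP, hwf⟩ := k4_cat n n' u v (by rw [hun, hv0])
    refine ⟨n + n', w, by rw [hw0, hu0], by rw [hwn, hvn], ?_, ?_, ?_⟩
    · refine hwP (fun x y => (fl E W hW x0).d x y ≤ 2) hu1 fun i hi => ?_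
      have h1 := f1 (v i) (v (i + 1))
      have h2 := hv1 i hi
      linarith
    · rw [hwf fun x y => (fl E W hW x0).d x y]
      have h1 : ∑ i ∈ Finset.range n', (fl E W hW x0).d (v i) (v (i + 1)) ≤
          ∑ i ∈ Finset.range n', E.d (v i) (v (i + 1)) :=
        Finset.sum_le_sum fun i _ => by have := f1 (v i) (v (i + 1)); linarith
      linarith
    · rw [hwf fun x y => (wm E W hW x0 C hC).d x y]
      have h1 : ∑ i ∈ Finset.range n', (wm E W hW x0 C hC).d (v i) (v (i + 1)) ≤
          C * ∑ i ∈ Finset.range n', E.d (v i) (v (i + 1)) := by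
        rw [Finset.mul_sum]
        exact Finset.sum_le_sum fun i _ => w1 (v i) (v (i + 1))
      have h2 := mul_le_mul_of_nonneg_left hv2 hC
      nlinarith
  | w g h a b _ ih =>
    intro ε hε
    obtain ⟨n, u, hu0, hun, hu1, hu2, hu3⟩ := ih ε hε
    obtain ⟨n', v, hv0, hvn, hv1, hv2⟩ := hS (g⁻¹ * h)
    have hgv : ∀ i, (g * v i)⁻¹ * (g * v (i + 1)) = (v i)⁻¹ * v (i + 1) := fun i => by group
    obtain ⟨w, hw0, hwn, hwP, hwf⟩ := k4_cat n n' u (fun i => (g * v i) • x0)
      (by rw [hun, hv0, mul_one])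
    refine ⟨n + n', w, by rw [hw0, hu0], ?_, ?_, ?_, ?_⟩
    · rw [hwn, hvn, mul_inv_cancel_left]
    · refine hwP (fun x y => (fl E W hW x0).d x y ≤ 2) hu1 fun i hi => ?_
      have h1 := f2 (g * v i) (g * v (i + 1))
      rw [hgv] at h1
      have h2 := hv1 i hi
      show (fl E W hW x0).d ((g * v i) • x0) ((g * v (i + 1)) • x0) ≤ 2
      linarith
    · rw [hwf fun x y => (fl E W hW x0).d x y]
      have h1 : ∑ i ∈ Finset.range n', (fl E W hW x0).d ((g * v i) • x0) ((g * v (i + 1)) • x0) ≤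
          (1 / 2) * ∑ i ∈ Finset.range n', W ((v i)⁻¹ * v (i + 1)) := by
        rw [Finset.mul_sum]
        refine Finset.sum_le_sum fun i _ => ?_
        have := f2 (g * v i) (g * v (i + 1))
        rwa [hgv] at this
      linarith
    · rw [hwf fun x y => (wm E W hW x0 C hC).d x y]
      have h1 : ∑ i ∈ Finset.range n',
          (wm E W hW x0 C hC).d ((g * v i) • x0) ((g * v (i + 1)) • x0) ≤
          ∑ i ∈ Finset.range n', W ((v i)⁻¹ * v (i + 1)) := by
        refine Finset.sum_le_sum fun i _ => ?_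
        have := w2 (g * v i) (g * v (i + 1))
        rwa [hgv, one_mul] at this
      linarith

theorem burn_K4 : stK4 := by
  intro G X _ _ E W hW x0 C hC hE hS
  constructor
  · intro x y η hη
    obtain ⟨a, b, h, h1⟩ := mxD_approx (E := E) (W := W) (x0 := x0) (p := 1) (q := 1 / 2) x y
      (half_pos hη)
    obtain ⟨n, z, hz0, hzn, hz1, hz2, _⟩ := k4_ref hW hC hE hS h (η / 2) (half_pos hη)
    refine ⟨n, z, hz0, hzn, hz1, ?_⟩
    change _ < (fl E W hW x0).d x y + η / 2 at h1
    linarith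
  · intro x y η hη
    obtain ⟨a, b, h, h1⟩ := mxD_approx (E := E) (W := W) (x0 := x0) (p := C) (q := 1) x y
      (half_pos hη)
    have hC1 : 0 < C + 1 := by linarith
    obtain ⟨n, z, hz0, hzn, hz1, _, hz3⟩ := k4_ref hW hC hE hS h (η / 2 / (C + 1)) (by positivity)
    refine ⟨n, z, hz0, hzn, hz1, ?_⟩
    change _ < (wm E W hW x0 C hC).d x y + η / 2 at h1
    have h2 : C * (η / 2 / (C + 1)) ≤ η / 2 := by
      rw [← mul_div_assoc, div_le_iff₀ hC1]
      nlinarith
    linarith

end BAN
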