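import Pool.Agent.Lib.MP_8528c3_al.A2
import Pool.Agent.Lib.MP_8528c3_al.AN.StK

/-!
# Burnside project, linear control, K5: guessing geodesics with two metrics
-/

namespace BAN

open BSD

namespace K5

variable {X : Type} (N M : PM X)

/-- The main step. -/
theorem step (hA1 : stA1) (L : X → X → Set X) (h C : ℝ) (hh : 1 ≤ h) (hC : 1 ≤ C)
    (hNM : ∀ x y, N.d x y ≤ M.d x y) (hMN : ∀ x y, M.d x y ≤ C * N.d x y)
    (hSG : SGS N M) (hG : GGH N L h 2) (k : ℕ)
    (hk : 2 * (2 * (C * h) + 2 + 2 * C) + 2 ≤ 2 ^ k * 2)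
    (D t : ℝ) (ht : ∀ x y w, M.d x y ≤ D → w ∈ L x y → M.gp x y w ≤ t)
    (x y w : X) (hD : M.d x y ≤ D) (hw : w ∈ L x y) (hbig : t - 1 ≤ M.gp x y w) :
    M.gp x y w ≤ C * ((2 * k + 3) * h) + 1 := by
  obtain ⟨n, z, hz0, hzn, hst, htot⟩ := hSG x y 1 one_pos
  have hCh : 1 ≤ C * h := by nlinarith
  have hM : ∀ a b, ∀ r, N.d a b ≤ r → M.d a b ≤ C * r := fun a b r hr =>
    (hMN a b).trans (mul_le_mul_of_nonneg_left hr (by linarith))
  have hstM : ∀ i < n, M.d (z i) (z (i + 1)) ≤ 2 * C := fun i hi => by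
    have := hM _ _ _ (hst i hi)
    linarith
  set H : ℝ := 2 * (C * h) + 2 with hH
  have htot' : A2.ps M z n ≤ M.d x y + 1 := htot
  -- the points of the sequence are almost on a geodesic
  have hx : ∀ i ≤ n, M.d x (z i) ≤ A2.ps M z i := by
    intro i _
    have := A2.d_le_ps M z 0 i (Nat.zero_le i)
    rw [A2.ps_zero, hz0, sub_zero] at this
    exact this
  have hy : ∀ i ≤ n, M.d (z i) y ≤ A2.ps M z n - A2.ps M z i := by
    intro i hi
    have := A2.d_le_ps M z i n hi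
    rw [hzn] at this
    exact this
  have hxy : ∀ i ≤ n, M.d x (z i) + M.d (z i) y ≤ M.d x y + 1 := by
    intro i hi
    have h1 := hx i hi
    have h2 := hy i hi
    linarith
  have hlow : ∀ i j, i ≤ j → j ≤ n → A2.ps M z j - A2.ps M z i ≤ M.d (z i) (z j) + 1 := by
    intro i j hij hj
    have h1 := hx i (hij.trans hj)
    have h2 := hy j hj
    have h3 := M.tri x (z i) y
    have h4 := M.tri (z i) (z j) y
    linarith
  -- FACT 1
  have fact1 : ∀ i ≤ n, H < M.gp w y (z i) → ∀ w' ∈ L x (z i), ¬ M.d w w' ≤ 2 * (C * h) := by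
    intro i hi h1 w' hw' h2
    have h3 := A2.gp_le_right M w y (z i)
    have h4 := hxy i hi
    have h5 := M.symm y (z i)
    have h6 : M.d x (z i) ≤ D := by linarith
    have h7 := ht x (z i) w' h6 hw'
    have h8 := A2.gp_base M x (z i) w w'
    unfold PM.gp at h1 h7 h8 hbig
    have h9 := M.symm w (z i)
    have h10 := M.symm w y
    linarith
  have fact1' : ∀ i ≤ n, H < M.gp w x (z i) → ∀ w' ∈ L (z i) y,
      ¬ M.d w w' ≤ 2 * (C * h) := by
    intro i hi h1 w' hw' h2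
    have h3 := A2.gp_le_right M w x (z i)
    have h4 := hxy i hi
    have h6 : M.d (z i) y ≤ D := by linarith
    have h7 := ht (z i) y w' h6 hw'
    have h8 := A2.gp_base M (z i) y w w'
    unfold PM.gp at h1 h7 h8 hbig
    have h9 := M.symm w (z i)
    have h10 := M.symm w x
    linarith
  -- the index `i₀`
  obtain ⟨i₀, hi₀, hP, hPle⟩ := A2.last_large (fun i => M.gp w y (z i)) n H (2 * C)
    (by linarith) (by
    intro i hi
    have h1 := A2.gp_base M w y (z i) (z (i + 1))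
    have h2 := hstM i hi
    linarith) (by
    show M.gp w y (z n) ≤ H
    rw [hzn]
    have := A2.gp_le_right M w y y
    rw [M.self] at this
    linarith)
  have hPle' : M.gp w y (z i₀) ≤ H + 2 * C := hPle
  obtain ⟨w', hw', hww'⟩ : ∃ w' ∈ L (z i₀) y, M.d w w' ≤ C * h := by
    rcases hP with hP | hP
    · obtain ⟨w', h1, h2⟩ := hG.thin x y (z i₀) w hw
      rcases h1 with h1 | h1
      · exact absurd ((hM _ _ _ h2).trans (by linarith)) (fact1 i₀ hi₀ hP w' h1)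
      · exact ⟨w', h1, hM _ _ _ h2⟩
    · rw [hP, hz0]
      exact ⟨w, hw, by rw [M.self]; linarith⟩
  have hQ0 : M.gp w x (z i₀) ≤ H := by
    by_contra hcon
    push Not at hcon
    exact fact1' i₀ hi₀ hcon w' hw' (hww'.trans (by linarith))
  -- the index `j₀`
  obtain ⟨j₀, hij, hj₀, hQ, hQle⟩ := A2.first_large (fun i => M.gp w x (z i)) i₀ n H (2 * C)
    (by linarith) hi₀ (by
    intro i hi
    have h1 := A2.gp_base M w x (z (i + 1)) (z i)
    have h2 := hstM i hi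
    have h3 := M.symm (z (i + 1)) (z i)
    linarith) hQ0
  have hQle' : M.gp w x (z j₀) ≤ H + 2 * C := hQle
  obtain ⟨w'', hw'', hww''⟩ : ∃ w'' ∈ L (z i₀) (z j₀), M.d w w'' ≤ 2 * (C * h) := by
    rcases hQ with hQ | hQ
    · obtain ⟨w'', h1, h2⟩ := hG.thin (z i₀) y (z j₀) w' hw'
      have h3 : M.d w w'' ≤ 2 * (C * h) := by
        have := M.tri w w' w''
        have := hM _ _ _ h2
        linarith
      rcases h1 with h1 | h1
      · exact ⟨w'', h1, h3⟩
      · exact absurd h3 (fact1' j₀ hj₀ hQ w'' h1)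
    · rw [hQ, hzn]
      exact ⟨w', hw', by linarith⟩
  -- FACT 2
  have hS : M.d (z i₀) (z j₀) ≤ 2 * (H + 2 * C) + 1 := by
    have h1 := hlow 0 j₀ (Nat.zero_le _) hj₀
    rw [A2.ps_zero, hz0] at h1
    have h2 := hx i₀ hi₀
    have h3 := A2.d_le_ps M z i₀ j₀ hij
    have h4 := hlow i₀ n hi₀ le_rfl
    rw [hzn] at h4
    have h5 := hy j₀ hj₀
    have h6 := A2.gp_nonneg M w y (z j₀)
    have h7 := A2.gp_nonneg M w x (z i₀)
    unfold PM.gp at hPle' hQle' h6 h7
    have h8 := M.symm x (z i₀)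
    have h9 := M.symm x (z j₀)
    have h10 := M.symm y (z i₀)
    have h11 := M.symm y (z j₀)
    linarith
  obtain ⟨m, hm⟩ : ∃ m, j₀ = i₀ + m := ⟨j₀ - i₀, by omega⟩
  have htot2 : A2.ps M z j₀ - A2.ps M z i₀ ≤ 2 ^ k * 2 := by
    have := hlow i₀ j₀ hij hj₀
    linarith
  obtain ⟨i, hi, hd⟩ := hA1 X N L h 2 (by linarith) two_pos hG k m (fun l => z (i₀ + l)) (by
    intro l hl
    exact hst (i₀ + l) (by omega)) (by
    show ∑ l ∈ Finset.range m, N.d (z (i₀ + l)) (z (i₀ + (l + 1))) ≤ 2 ^ k * 2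
    refine (Finset.sum_le_sum fun l _ => hNM _ _).trans ?_
    rw [A2.ps_shift, ← hm]
    exact htot2) w'' (by
    show w'' ∈ L (z (i₀ + 0)) (z (i₀ + m))
    rw [add_zero, ← hm]
    exact hw'')
  have hd' : M.d w'' (z (i₀ + i)) ≤ C * ((2 * k + 1) * h) := hM _ _ _ hd
  have h1 := A2.gp_base M x y w (z (i₀ + i))
  have h2 := M.tri w w'' (z (i₀ + i))
  have h3 := hxy (i₀ + i) (by omega)
  have h4 : M.gp x y (z (i₀ + i)) ≤ 1 := by
    unfold PM.gp
    have := M.symm y (z (i₀ + i))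
    linarith
  linarith

/-- The Gromov products are bounded for bounded distances. -/
theorem bdd (hA1 : stA1) (L : X → X → Set X) (h C : ℝ) (hh : 0 ≤ h) (hC : 1 ≤ C)
    (hNM : ∀ x y, N.d x y ≤ M.d x y) (hMN : ∀ x y, M.d x y ≤ C * N.d x y)
    (hSG : SGS N M) (hG : GGH N L h 2) (D : ℝ) :
    ∃ B : ℝ, ∀ x y w, M.d x y ≤ D → w ∈ L x y → M.gp x y w ≤ B := by
  obtain ⟨k, hk⟩ := pow_unbounded_of_one_lt ((D + 1) / 2) (one_lt_two : (1 : ℝ) < 2)
  rw [div_lt_iff₀ two_pos] at hk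
  refine ⟨C * ((2 * k + 1) * h) + 1, ?_⟩
  intro x y w hD hw
  obtain ⟨n, z, hz0, hzn, hst, htot⟩ := hSG x y 1 one_pos
  obtain ⟨i, hi, hd⟩ := hA1 X N L h 2 hh two_pos hG k n z hst
    ((Finset.sum_le_sum fun l _ => hNM _ _).trans (by linarith)) w (by
    rw [hz0, hzn]
    exact hw)
  have hd' : M.d w (z i) ≤ C * ((2 * k + 1) * h) :=
    (hMN _ _).trans (mul_le_mul_of_nonneg_left hd (by linarith))
  have h1 := A2.gp_base M x y w (z i)
  have h2 := A2.d_le_ps M z 0 i (Nat.zero_le i)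
  have h3 := A2.d_le_ps M z i n hi
  rw [hz0, A2.ps_zero] at h2
  rw [hzn] at h3
  have h4 : A2.ps M z n ≤ M.d x y + 1 := htot
  have h5 : M.gp x y (z i) ≤ 1 := by
    unfold PM.gp
    have := M.symm y (z i)
    linarith
  linarith

end K5

/-- K5: guessing geodesics with two metrics. -/
theorem burn_K5 (hA1 : stA1) : stK5 := by
  intro X N M L h C k hh hC hNM hMN hSG hG hk x y w hw
  obtain ⟨B, hB⟩ := K5.bdd N M hA1 L h C (by linarith) hC hNM hMN hSG hG (M.d x y)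
  set S : Set ℝ := {g | ∃ x' y' w', M.d x' y' ≤ M.d x y ∧ w' ∈ L x' y' ∧ g = M.gp x' y' w'} with hSd
  have hSb : BddAbove S := by
    refine ⟨B, ?_⟩
    rintro g ⟨x', y', w', h1, h2, rfl⟩
    exact hB x' y' w' h1 h2
  have hmem : M.gp x y w ∈ S := ⟨x, y, w, le_rfl, hw, rfl⟩
  obtain ⟨g, ⟨x', y', w', h1, h2, rfl⟩, hlt⟩ := exists_lt_of_lt_csSup ⟨_, hmem⟩
    (show sSup S - 1 < sSup S by linarith)
  have h3 := K5.step N M hA1 L h C hh hC hNM hMN hSG hG k hk (M.d x y) (sSup S)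
    (fun a b c hab hc => le_csSup hSb ⟨a, b, c, hab, hc, rfl⟩) x' y' w' h1 h2 hlt.le
  have h4 := le_csSup hSb hmem
  linarith

end BAN
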