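import Pool.Agent.Lib.MP_8528c3_al.StA
import Pool.Agent.Lib.MP_8528c3_al.AN.StK

/-!
# Burnside project, linear control, K6: the almost geodesics of a hyperbolic space
-/

namespace BAN

open BSD

namespace K6

variable {X : Type} (N : PM X)

theorem near (hA4 : stA4) (hA5 : stA5) (hA10 : stA10) (δ r : ℝ) (hH : N.Hyp δ) (hS : N.SG 2)
    (a c w : X) (hw : N.gp a c w ≤ r) :
    ∃ z, N.gp a c z ≤ 1 / 3 ∧ N.d w z ≤ r + 2 * δ + 3 := by
  have h5 := hA5 X N w c a w a
  have ht0 : 0 ≤ N.gp w c a := h5.2.1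
  have ht1 : N.gp w c a ≤ N.d a c := by
    have := h5.2.2.2.1
    rwa [N.symm c a] at this
  obtain ⟨z, hz, hzt⟩ := hA4 X N 2 (by norm_num) hS a c (N.gp w c a) (1 / 3) ht0 ht1 (by norm_num)
  refine ⟨z, hz, ?_⟩
  have h10 := (hA10 X N δ hH a c w z).2
  have h6 : N.gp z c a + N.gp a c z = N.d a z := by
    unfold PM.gp
    have := N.symm z a
    have := N.symm c z
    have := N.symm c a
    linarith
  have h7 : 0 ≤ N.gp a c z := (hA5 X N a c z z z).2.1
  rw [abs_le] at hzt
  have h8 : |N.gp w c a - N.gp z c a| ≤ 8 / 3 := by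
    rw [abs_le]
    constructor <;> linarith
  linarith

end K6

/-- K6. -/
theorem burn_K6 (hA4 : stA4) (hA5 : stA5) (hA6 : stA6) (hA10 : stA10) : stK6 := by
  intro X N δ h0 hH hS hδ hh
  constructor
  · intro a b c w hw
    have hw' : N.gp a b w ≤ h0 := hw
    have h1 := hH a c b w
    rcases le_total (N.gp a c w) (N.gp c b w) with h2 | h2
    · rw [min_eq_left h2] at h1
      obtain ⟨z, hz, hd⟩ := K6.near N hA4 hA5 hA10 δ (h0 + δ) hH hS a c w (by linarith)
      exact ⟨z, Or.inl (by show N.gp a c z ≤ h0; linarith), by linarith⟩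
    · rw [min_eq_right h2] at h1
      obtain ⟨z, hz, hd⟩ := K6.near N hA4 hA5 hA10 δ (h0 + δ) hH hS c b w (by linarith)
      exact ⟨z, Or.inr (by show N.gp c b z ≤ h0; linarith), by linarith⟩
  · intro a b hab w hw
    have hw' : N.gp a b w ≤ h0 := hw
    unfold PM.gp at hw'
    have h1 := N.tri a b w
    have h2 := N.tri b a w
    have h3 := N.symm a b
    linarith
  · intro a b c
    obtain ⟨o, h1, h2, h3⟩ := hA6 X N δ 2 1 hδ (by norm_num) one_pos hS hH a b c
    have h0' : ∀ p, N.d p p ≤ h0 + 3 * δ + 3 := fun p => by rw [N.self]; linarith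
    exact ⟨o, ⟨o, by show N.gp a b o ≤ h0; linarith, h0' o⟩,
      ⟨o, by show N.gp b c o ≤ h0; linarith, h0' o⟩,
      ⟨o, by show N.gp a c o ≤ h0; linarith, h0' o⟩⟩

end BAN
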