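import Pool.Agent.Lib.MP_8528c3_al.StA
import Pool.Agent.Lib.MP_8528c3_al.AN.StK

/-!
# Burnside project, linear control, K7: hyperbolicity of a metric `M` with `M ≤ N ≤ 2 M`
-/

namespace BAN

open BSD

/-- K7. -/
theorem burn_K7 (hA2 : stA2) (hA3 : stA3) (hK6 : stK6) : stK7 := by
  intro δ hδ
  obtain ⟨T, hT0, hT⟩ := hA2 (4 * δ + 9) 2 (by linarith) (by norm_num)
  refine ⟨3 * T + 4 * (4 * δ + 9), T, by linarith, by linarith, hT0, ?_⟩
  intro X N M hH hN hM hle hge
  have h1 := hK6 X N δ (δ + 5) hH hN hδ le_rfl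
  have h2 : GGH M (fun x y => {w | N.gp x y w ≤ δ + 5}) (4 * δ + 9) 2 := by
    constructor
    · intro a b c w hw
      obtain ⟨w', hw', hd⟩ := h1.thin a b c w hw
      exact ⟨w', hw', by linarith [hle w w']⟩
    · intro a b hab w hw
      have hw' : N.gp a b w ≤ δ + 5 := hw
      have h3 := hge a b
      have h4 := hle a w
      unfold PM.gp at hw'
      have h5 := N.tri a b w
      have h6 := N.tri b a w
      have h7 := N.symm a b
      linarith
    · intro a b c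
      obtain ⟨p, ⟨w1, hw1, hd1⟩, ⟨w2, hw2, hd2⟩, ⟨w3, hw3, hd3⟩⟩ := h1.centre a b c
      exact ⟨p, ⟨w1, hw1, by linarith [hle p w1]⟩, ⟨w2, hw2, by linarith [hle p w2]⟩,
        ⟨w3, hw3, by linarith [hle p w3]⟩⟩
  have h3 := hT X M _ hM h2
  exact ⟨hA3 X M _ (4 * δ + 9) 2 T (by linarith) h2 h3, fun x y w hw => h3 x y w hw⟩

end BAN
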