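import Pool.Agent.Lib.MP_8528c3_al.AN.StK

/-!
# Burnside project, linear control, K8: transfer of a stage to the un-coned metric
-/

namespace BAN

open BSD

/-- K8. -/
theorem burn_K8 : stK8 := by
  intro G X _ _ E M n δ δ' Li A0 kl st hle hge iso hyp sg hkl
  have hlox : ∀ g : G, Lox E g → Lox M g := by
    rintro g ⟨c, hc, h⟩
    refine ⟨c / 2, by linarith, fun x m => ?_⟩
    have h1 := h x m
    have h2 := hge x (g ^ m • x)
    linarith
  have hlox' : ∀ g : G, Lox M g → Lox E g := by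
    rintro g ⟨c, hc, h⟩
    exact ⟨c, hc, fun x m => (h x m).trans (hle x (g ^ m • x))⟩
  have hDp : ∀ (g : G) (x y : X), Dp M g Li x y → Dp E g (2 * Li) x y := by
    rintro g x y ⟨h1, h2⟩
    exact ⟨by linarith [hge x (g • x)], by linarith [hge y (g • y)]⟩
  refine ⟨st.ne, iso, hyp, sg, ?_, ?_, ?_, ?_⟩
  · intro x y hxy
    obtain ⟨e, he, h⟩ := st.star x y (hxy.trans (hle x y))
    exact ⟨e, he.imp id (hlox e), fun g hg => h g (hDp g x y hg)⟩
  · intro g
    exact (st.h2 g).imp (hlox g) id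
  · intro g hg x m
    have h1 := st.h3 g (hlox' g hg) x m
    have h2 := hge x (g ^ m • x)
    linarith
  · intro g x y hg hd
    obtain ⟨m, hm⟩ := st.h5 g x y hg (hDp g x y hd)
    exact ⟨m, (hle y (g ^ m • x)).trans hm⟩

end BAN
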