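import Pool.Agent.Lib.MP_8528c3_al.AN.StK

/-!
# Burnside project, linear control, K9: transfer of the colourings of the annuli
-/

set_option autoImplicit false

namespace BAN

open BSD

theorem burn_K9 (hA6 : stA6) (hG4 : stG4) : stK9 := by
  intro X E M δ T D0 q hE hδ hSG hME hEM hT hgp hq hD0 hSph r hr o t
  have hV : (0 : ℝ) ≤ 4 * r + 5 * δ + 37 + 4 * T := by linarith
  obtain ⟨f, hf, -⟩ := hG4 X E δ D0 q hE hδ hSG hq hD0 hSph (Ann M o t 3) o (2 * r)
    (4 * r + 5 * δ + 37 + 4 * T) 2 (2 * (t + 3)) (by linarith) hV (by norm_num)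
    (fun x hx => by
      have h1 := hEM o x
      have h2 := (abs_le.1 (show |M.d o x - t| ≤ 3 from hx)).2
      linarith)
    (fun x hx z hz => by
      have hx' := abs_le.1 (show |M.d o x - t| ≤ 3 from hx)
      have hz' := abs_le.1 (show |M.d o z - t| ≤ 3 from hz)
      obtain ⟨p, p1, p2, p3⟩ := hA6 X E δ 2 1 (by linarith) (by norm_num) one_pos hSG hE x z o
      have e1 : E.gp x z p ≤ δ + 5 := by linarith
      have e2 : E.gp x o p ≤ δ + 5 := by linarith
      have e3 : E.gp z o p ≤ δ + 5 := by linarith
      have m2 := hgp _ _ _ e2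
      have m3 := hgp _ _ _ e3
      have t1 := M.tri z p o
      have t2 := hEM x p
      have t3 := hME z p
      have t4 := E.tri o p x
      have t5 := E.tri z p x
      have s1 := E.symm o x
      have s2 := E.symm o z
      have s3 := E.symm o p
      have s4 := E.symm x p
      have s5 := E.symm z p
      have s6 := E.symm x z
      have n1 := M.symm o x
      have n2 := M.symm o z
      have n3 := M.symm o p
      have n4 := M.symm x p
      have n5 := M.symm z p
      have key : E.gp o z x ≤ 2 * E.gp o x z + 5 * (δ + 5) + 12 + 4 * T := by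
        simp only [PM.gp] at e1 e2 e3 m2 m3 ⊢
        linarith
      have h1 : E.gp o x z ≤ 2 * r + max 0 (E.gp o x z - 2 * r) := by
        have := le_max_right 0 (E.gp o x z - 2 * r)
        linarith
      linarith)
  refine ⟨f, fun x y hx hxy => ?_⟩
  have h1 : Relation.ReflTransGen (Stp E (Ann M o t 3) f (2 * r)) x y := by
    refine Relation.ReflTransGen.mono ?_ _ _ hxy
    rintro a b ⟨ha, hb, hab, hf'⟩
    exact ⟨ha, hb, by have := hEM a b; linarith, hf'⟩
  have h2 := hf x y hx h1
  have h3 := hME x y
  linarith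

end BAN
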