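import Pool.Agent.Lib.MP_8528c3_al.AllH
import Pool.Agent.Lib.MP_8528c3_al.AN.K1
import Pool.Agent.Lib.MP_8528c3_al.AN.K2
import Pool.Agent.Lib.MP_8528c3_al.AN.K3_12
import Pool.Agent.Lib.MP_8528c3_al.AN.K4
import Pool.Agent.Lib.MP_8528c3_al.AN.K5
import Pool.Agent.Lib.MP_8528c3_al.AN.K6
import Pool.Agent.Lib.MP_8528c3_al.AN.K7
import Pool.Agent.Lib.MP_8528c3_al.AN.K8
import Pool.Agent.Lib.MP_8528c3_al.AN.K9
import Pool.Agent.Lib.MP_8528c3_al.AN.K10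
import Pool.Agent.Lib.MP_8528c3_al.AN.K11_12
import Pool.Agent.Lib.MP_8528c3_al.AN.K12_12
import Pool.Agent.Lib.MP_8528c3_al.AN.F0
import Pool.Agent.Lib.MP_8528c3_al.AN.F0b
import Pool.Agent.Lib.MP_8528c3_al.AN.F1
import Pool.Agent.Lib.MP_8528c3_al.AN.F2
import Pool.Agent.Lib.MP_8528c3_al.AN.F3
import Pool.Agent.Lib.MP_8528c3_al.AN.F4
import Pool.Agent.Lib.MP_8528c3_al.AN.F5
import Pool.Agent.Lib.MP_8528c3_al.AN.F5w
import Pool.Agent.Lib.MP_8528c3_al.AN.F6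
import Pool.Agent.Lib.MP_8528c3_al.AN.F7
import Pool.Agent.Lib.MP_8528c3_al.AN.F8
import Pool.Agent.Lib.MP_8528c3_al.AN.F8h
import Pool.Agent.Lib.MP_8528c3_al.AN.F9a
import Pool.Agent.Lib.MP_8528c3_al.AN.F9b
import Pool.Agent.Lib.MP_8528c3_al.AN.F9S
import Pool.Agent.Lib.MP_8528c3_al.AN.F9_12
import Pool.Agent.Lib.MP_8528c3_al.AN.F10
import Pool.Agent.Lib.MP_8528c3_al.AN.F11
import Pool.Agent.Lib.MP_8528c3_al.AN.F11a
import Pool.Agent.Lib.MP_8528c3_al.AN.F11b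
import Pool.Agent.Lib.MP_8528c3_al.AN.F12
import Pool.Agent.Lib.MP_8528c3_al.AN.F13
import Pool.Agent.Lib.MP_8528c3_al.AN.F14
import Pool.Agent.Lib.MP_8528c3_al.AN.F15
import Pool.Agent.Lib.MP_8528c3_al.AN.F15b
import Pool.Agent.Lib.MP_8528c3_al.AN.F15k
import Pool.Agent.Lib.MP_8528c3_al.AN.F18_12
import Pool.Agent.Lib.MP_8528c3_al.AN.G5
import Pool.Agent.Lib.MP_8528c3_al.AN.G5a
import Pool.Agent.Lib.MP_8528c3_al.AN.G6
import Pool.Agent.Lib.MP_8528c3_al.AN.H14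
import Pool.Agent.Lib.MP_8528c3_al.AN.H15
import Pool.Agent.Lib.MP_8528c3_al.AN.H16
import Pool.Agent.Lib.MP_8528c3_al.AN.H19

/-!
# Burnside project, linear control: parts K, F, G, H assembled
-/

namespace BAN

open BSD

theorem okK1 : stK1 := burn_K1
theorem okK2 : stK2 := burn_K2
theorem okK3 : stK3 := burn_K3
theorem okK3b : stK3b := burn_K3b
theorem okK4 : stK4 := burn_K4
theorem okK5 : stK5 := burn_K5 okA1
theorem okK6 : stK6 := burn_K6 okA4 okA5 okA6 okA10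
theorem okK7 : stK7 := burn_K7 okA2 okA3 okK6
theorem okK8 : stK8 := burn_K8
theorem okK9 : stK9 := burn_K9 okA6 okG4
theorem okK10 : stK10 := burn_K10
theorem okK10w : stK10w := burn_K10w
theorem okK11 : stK11 := burn_K11 okK1 okK3 okK10 okK10w
theorem okK12 : stK12 := burn_K12
theorem okF0 : stF0 := burn_F0
theorem okF0b : stF0b := burn_F0b
theorem okF0c : stF0c := burn_F0c
theorem okF6 : stF6 := burn_F6 okE10c okE10d okE10e okF0b
theorem okF1 : stF1 := burn_F1 okE0b okE1 okE7 okE10t okF6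
theorem okF2 : stF2 := burn_F2 okA4 okA5 okA10 okE1 okF6
theorem okF3 : stF3 := burn_F3 okA4 okE1 okF6
theorem okF4 : stF4 := burn_F4 okF0b okF1 okF2 okF3
theorem okF5 : stF5 := burn_F5 okF6 okF0b
theorem okF5w : stF5w := burn_F5w okC6 okB10 okF4 okF5 okF6 okF0b
theorem okF7 : stF7 := burn_F7 okA4 okA10 okE2 okF1 okF2 okF6 okF7a okF7b okF0b
theorem okF8 : stF8 := burn_F8 okA4 okE1 okE1b okE8 okF0b okF2 okF6 okF7a okF7b
theorem okF8h : stF8h := burn_F8h okB7 okB8 okB9 okF6 okF0b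
theorem okF9a : stF9a := burn_F9a okA5 okB12 okB14 okE8 okF4 okF8 okF0b
theorem okF9b : stF9b := burn_F9b okB1 okB7 okC7 okD11 okE0 okE8 okF4 okF5w okF9a okF0b
theorem okF15b : stF15b := burn_F15b okE10c okF0b okF0c
theorem okF15k : stF15k := burn_F15k okE10c okF0b okF0c
theorem okF9S : stF9S :=
  burn_F9S okB1 okB2 okB4 okC7 okD8 okD11 okE5b okK10 okF0b okF4 okF5w okF6 okF15b
theorem okF9L : stF9L := burn_F9L okD8 okE5b okF5w okF9b okF0b
theorem okF9 : stF9 := burn_F9 okF9S okF9L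
theorem okF10 : stF10 := burn_F10 okD8 okD10 okE8 okF5w okF6 okF8h okF9 okF0c
theorem okF11b : stF11b := burn_F11b okB8 okF6 okF7 okF8h okF0b
theorem okF11a : stF11a :=
  burn_F11a okD8 okD10 okD12b okD13 okE1 okF5w okF6 okF11b okF0b
theorem okF11 : stF11 := burn_F11 okC0 okD8 okD10 okE1 okF5w okF6 okF11a okF0b
theorem okF12 : stF12 := burn_F12 okF0b okF5w okD12
theorem okF13 : stF13 := burn_F13 okB8 okC0 okE11 okF6 okF8h okF9 okF11b okF0b okF0c
theorem okG5a : stG5a := burn_G5a okE8 okE9 okF7 okF0b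
theorem okG5 : stG5 := burn_G5 okG5a okF1 okF6 okF0b
theorem okG6 : stG6 := burn_G6 okG5 okG7 okF5w okB7 okB8 okB9 okC0
theorem okH14 : stH14 := burn_H14 okG1a okG4 okG5 okB3 okH10 okH11 okH12 okH13
theorem okH15 : stH15 := burn_H15 okB1 okB7 okB8 okF4 okF0b okH14
theorem okH16 : stH16 := burn_H16 okG1 okG6 okG9 okC0 okB9 okF5w okH15
theorem okH19 : stH19 := burn_H19 okG3 okD8 okD10 okF5w okH16
theorem okF18 : stF18 :=
  burn_F18 okD8 okD10 okE8 okF5w okF6 okF8h okF9L okF9S okF0b okF0c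

end BAN
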