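import Pool.Agent.Lib.MP_8528c3_al.AN.StF

set_option autoImplicit false

/-!
# Burnside project, F6: basic facts on the family `E i`
-/

namespace BAN

open BSD

namespace F6

variable {G X : Type} [Group G] [MulAction G X] {M : PM X}

theorem lox_ne_one (hne : Nonempty X) {h : G} (hh : Lox M h) : h ≠ 1 := by
  rintro rfl
  obtain ⟨c, hc, h1⟩ := hh
  obtain ⟨x⟩ := hne
  have h2 := h1 x 1
  rw [one_pow, one_smul, M.self] at h2
  push_cast at h2
  linarith

theorem lox_pow (hne : Nonempty X) {h : G} (hh : Lox M h) {m : ℕ} (hm : h ^ m = 1) : m = 0 := by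
  obtain ⟨c, hc, h1⟩ := hh
  obtain ⟨x⟩ := hne
  have h2 := h1 x m
  rw [hm, one_smul, M.self] at h2
  by_contra h0
  have h3 : (1 : ℝ) ≤ m := by exact_mod_cast Nat.one_le_iff_ne_zero.2 h0
  have : c * 1 ≤ c * m := mul_le_mul_of_nonneg_left h3 hc.le
  linarith

theorem lox_zpow (hne : Nonempty X) {h : G} (hh : Lox M h) {k : ℤ} (hk : h ^ k = 1) : k = 0 := by
  rcases Int.natAbs_eq k with hb | hb
  · rw [hb, zpow_natCast] at hk
    have := lox_pow hne hh hk
    omega
  · rw [hb, zpow_neg, zpow_natCast, inv_eq_one] at hk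
    have := lox_pow hne hh hk
    omega

theorem mem_Cen_self (h : G) : h ∈ Cen h := ⟨1, le_rfl, by rw [pow_one]⟩

theorem mem_Cen_of_commute {f h : G} (hc : Commute f h) : f ∈ Cen h :=
  ⟨1, le_rfl, by rw [pow_one]; exact hc⟩

/-- Two generators of an infinite cyclic group. -/
theorem gen_unique (hne : Nonempty X) {e e' : G} (he : Lox M e) {a b : ℤ} (h1 : e' = e ^ b)
    (h2 : e = e' ^ a) : e' = e ∨ e' = e⁻¹ := by
  have h3 : e ^ (b * a - 1) = 1 := by
    rw [zpow_sub, zpow_one, zpow_mul, ← h1, ← h2, mul_inv_cancel]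
  have h4 := lox_zpow hne he h3
  have h5 : b * a = 1 := by omega
  rcases Int.eq_one_or_neg_one_of_mul_eq_one h5 with hb | hb
  · left; rw [h1, hb, zpow_one]
  · right; rw [h1, hb, zpow_neg, zpow_one]

end F6

open F6 in
theorem burn_F6 (h10c : stE10c) (h10d : stE10d) (h10e : stE10e) (h0 : stF0b) : stF6 := by
  intro G X I _ _ _ c M E R Y hF
  have hst := hF.st
  have hne : Nonempty X := hst.ne
  have hiso : Iso G M := hst.iso
  have hδ := c.hδ
  have hL' : 1000 * c.δ + 1000 ≤ c.Li := by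
    have h1 := c.eLi
    have h2 := c.eL1
    have h3 := c.eL
    linarith
  obtain ⟨-, ⟨hA0, -⟩, -, -, -, -, -, -, -, hkl, -⟩ := h0 c
  have C10 := h10c G X M c.n c.δ c.Li c.A0 c.kl hst hδ hL' hA0.le hkl
  have D10 := h10d G X M c.n c.δ c.Li c.A0 c.kl hst hδ hL' hA0.le hkl c.hn
  have E10 := h10e G X M c.n c.δ c.Li c.A0 c.kl hst hδ hL' hA0.le hkl
  -- generators
  have P1 : ∀ i, ∃ e : G, e ≠ 1 ∧ Lox M e ∧ (∀ f : G, f ∈ E i ↔ ∃ k : ℤ, f = e ^ k) ∧
      ∀ x, x ∈ Y i ↔ M.d x (e • x) ≤ c.L1 := by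
    intro i
    obtain ⟨g, hg, -, hE⟩ := hF.cen i
    obtain ⟨e, he, hC⟩ := C10 g hg
    have hEe : ∀ f : G, f ∈ E i ↔ ∃ k : ℤ, f = e ^ k := fun f => (hE f).trans (hC f)
    refine ⟨e, lox_ne_one hne he, he, hEe, fun x => ?_⟩
    rw [hF.Yd]
    constructor
    · rintro ⟨e', hz, hd⟩
      have h1 : e' ∈ E i := by rw [← hz]; exact Subgroup.mem_zpowers e'
      obtain ⟨b, hb⟩ := (hEe e').1 h1
      have h2 : e ∈ E i := (hEe e).2 ⟨1, by rw [zpow_one]⟩
      rw [← hz, Subgroup.mem_zpowers_iff] at h2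
      obtain ⟨a, ha⟩ := h2
      rcases gen_unique hne he hb ha.symm with h | h
      · rw [h] at hd; exact hd
      · rw [h] at hd
        have h3 := hiso e x (e⁻¹ • x)
        rw [smul_inv_smul] at h3
        rw [M.symm, h3]
        exact hd
    · intro hd
      refine ⟨e, ?_, hd⟩
      ext f
      rw [Subgroup.mem_zpowers_iff, hEe]
      exact ⟨fun ⟨k, hk⟩ => ⟨k, hk.symm⟩, fun ⟨k, hk⟩ => ⟨k, hk.symm⟩⟩
  -- centralizers
  have P2 : ∀ i, ∀ f ∈ E i, f ≠ 1 → Lox M f ∧ ∀ h : G, h ∈ Cen f ↔ h ∈ E i := by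
    intro i f hf hf1
    obtain ⟨g, hg, -, hE⟩ := hF.cen i
    have hfC : f ∈ Cen g := (hE f).1 hf
    have hLf : Lox M f := (E10 g g hg hg).2.2 f hfC hf1
    refine ⟨hLf, fun h => ?_⟩
    rw [hE, (E10 g f hg hLf).2.1 hfC]
  have cj' : ∀ (g : G) (i : I) (f : G), f ∈ E i → g * f * g⁻¹ ∈ E (g • i) := by
    intro g i f hf
    rw [hF.cj]
    have : g⁻¹ * (g * f * g⁻¹) * g = f := by group
    rw [this]
    exact hf
  -- stabilizers
  have P3 : ∀ (g : G) (i : I), g • i = i ↔ g ∈ E i := by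
    intro g i
    constructor
    · intro hg
      obtain ⟨e, he1, he, hEe, -⟩ := P1 i
      have heE : e ∈ E i := (hEe e).2 ⟨1, by rw [zpow_one]⟩
      have h1 := cj' g i e heE
      rw [hg] at h1
      obtain ⟨b, hb⟩ := (hEe _).1 h1
      have hb0 : b ≠ 0 := by
        rintro rfl
        rw [zpow_zero] at hb
        apply he1
        have : e = g⁻¹ * (g * e * g⁻¹) * g := by group
        rw [this, hb]
        group
      have h2 := D10 g e 1 b he one_ne_zero hb0 (by rw [zpow_one]; exact hb)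
      exact ((P2 i e heE he1).2 g).1 h2
    · intro hg
      refine hF.inj _ _ ?_
      ext f
      rw [hF.cj]
      constructor
      · intro h
        have h1 := (E i).mul_mem ((E i).mul_mem hg h) ((E i).inv_mem hg)
        have : g * (g⁻¹ * f * g) * g⁻¹ = f := by group
        rwa [this] at h1
      · intro h
        exact (E i).mul_mem ((E i).mul_mem ((E i).inv_mem hg) h) hg
  -- intersections
  have P4 : ∀ i j : I, i ≠ j → ∀ f : G, f ∈ E i → f ∈ E j → f = 1 := by
    intro i j hij f hi hj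
    by_contra hf
    refine hij (hF.inj _ _ ?_)
    ext h
    rw [← (P2 i f hi hf).2 h, (P2 j f hj hf).2 h]
  have P5 : ∀ (i j : I) (a b e : G) (k l : ℤ), a ∈ E i → b ∈ E j → a ≠ 1 → b ≠ 1 →
      (e = 1 ∨ Lox M e) → a = e ^ k → b = e ^ l → i = j := by
    intro i j a b e k l ha hb ha1 hb1 he hak hbl
    by_contra hij
    have he1 : e ≠ 1 := by
      rintro rfl
      rw [one_zpow] at hak
      exact ha1 hak
    have h1 : e ∈ E i := by
      rw [← (P2 i a ha ha1).2]
      refine mem_Cen_of_commute ?_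
      rw [hak]
      exact (Commute.refl e).zpow_right k
    have h2 : e ∈ E j := by
      rw [← (P2 j b hb hb1).2]
      refine mem_Cen_of_commute ?_
      rw [hbl]
      exact (Commute.refl e).zpow_right l
    exact he1 (P4 i j hij e h1 h2)
  refine ⟨⟨P1, P2, P3, P4, P5⟩, ?_, ?_, ?_, ?_⟩
  · intro g i y hy
    rw [hF.Yd] at hy ⊢
    obtain ⟨e', hz, hd⟩ := hy
    refine ⟨g * e' * g⁻¹, ?_, ?_⟩
    · ext f
      rw [hF.cj, ← hz, Subgroup.mem_zpowers_iff, Subgroup.mem_zpowers_iff]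
      constructor
      · rintro ⟨k, hk⟩
        refine ⟨k, ?_⟩
        rw [← hk, conj_zpow]
        group
      · rintro ⟨k, hk⟩
        refine ⟨k, ?_⟩
        rw [conj_zpow, hk]
        group
    · have h1 : (g * e' * g⁻¹) • (g • y) = g • (e' • y) := by
        rw [smul_smul, smul_smul]
        congr 1
        group
      rw [h1, hiso]
      exact hd
  · intro g i h hh
    rw [hF.Rd] at hh ⊢
    obtain ⟨f, hf, rfl⟩ := hh
    exact ⟨g * f * g⁻¹, cj' g i f hf, by rw [conj_pow]⟩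
  · intro i h hh
    rw [hF.Rd] at hh
    obtain ⟨f, hf, rfl⟩ := hh
    have h1 : f ^ c.n ∈ E i := (E i).pow_mem hf _
    exact ⟨h1, (P3 _ i).2 h1⟩
  · intro i f hf
    rw [hF.Rd]
    exact ⟨f, hf, rfl⟩

end BAN
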