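import Pool.Agent.Lib.MP_8528c3_al.AN.KDefs

/-!
# Burnside project, linear control, part F: constants, families (definitions)
-/

namespace BAN

open BSD

/-- The constants which do not depend on the exponent nor on the scaling factor. -/
structure KC where
  (δB δ T L L1 Li L' M' M2 C3 Tt κ ρ r1 A0 A1 A2 A3 A4 : ℝ)
  b20B : CO20 δB T
  hδB : 1 ≤ δB
  hδδ : δB ≤ δ
  hT : 1 ≤ T
  eL : L = 1000 * δ + 1000
  eL1 : L1 = L + 8 * δ + 5
  eLi : Li = L1 + 1000 * δ + 1000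
  eL' : L' = 2 * Li
  eM' : M' = 2 * Real.exp ((3 * L' + 5) / 2)
  eM2 : M2 = M' + 2
  eC3 : C3 = T + Real.log M2 + 2 * M2 + 4
  hTt0 : 4 ≤ Tt
  hTt : 2 * C3 + 4 * δ + 1 ≤ 2 * Real.log (Tt / 4)
  eκ : κ = L / (2 * Tt)
  ρ0 : 0 ≤ ρ
  hρ1 : 20 * L' + 2 * C3 + 1200 * δ + 1100 ≤ ρ
  hρ2 : M2 + 4 * Real.exp (T + 1 + δ) ≤ Real.exp ρ
  er1 : r1 = M' + L' + ρ + 3
  eA0 : A0 = 2 * r1 + 200 * M' + 10 * L' + 1000 * (δ + 1) * L'
  eA1 : A1 = A0 + 10 * δ + 10
  eA2 : A2 = A0 + 20 * δ + 30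
  eA3 : A3 = 3 * A1 + 30 * δ + 100
  eA4 : A4 = A0 + 10 * A1 + 200 * δ + 200

theorem KC.hδ (k : KC) : 1 ≤ k.δ := k.hδB.trans k.hδδ

theorem KC.b20 (k : KC) : CO20 k.δ k.T := by
  intro X I M Y ρ hY hρ h20 hT
  obtain ⟨h1, h2⟩ := k.b20B X I M Y ρ hY hρ h20 hT
  refine ⟨fun x y z w => ?_, h2⟩
  have := h1 x y z w
  have := k.hδδ
  linarith

/-- All the constants: `n` is the exponent, `lam` the scaling factor, `kl` the lower bound for the
stable lengths of the stages (un-coned metric), `ko = 2 kl` the lower bound for the stable lengths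
of the quotients, `τ = ko / lam`: the elements of stable length less than `τ` are killed. -/
structure CC extends KC where
  n : ℕ
  hn : Odd n
  (lam kl ko τ : ℝ)
  hlam : 0 < lam
  elam : lam * (kl * n) = 101 * tt1 δ ρ
  eko : ko = 2 * kl
  eτ : lam * τ = ko
  hκ : ko ≤ κ * lam
  hl : lam * (100 * (A4 + A0 + δ + 10)) ≤ 1 / 100

/-- The rescaled space. -/
@[reducible] noncomputable def CC.N (c : CC) {X : Type} (M : PM X) : PM X := M.sc c.lam c.hlam.le

/-- The cone-off of the rescaled space. -/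
@[reducible] noncomputable def CC.Z (c : CC) {X I : Type} (M : PM X) {Y : I → Set X}
    (hY : ∀ i, (Y i).Nonempty) : PM (Co Y c.ρ) := coPM (c.N M) Y c.ρ hY c.ρ0

/-- The setting of the induction step: a stage, a family `E i` of maximal cyclic subgroups
containing short loxodromic elements (not necessarily all of them), the sets `Y i` and the groups
`R i` of `n`-th powers. -/
structure FS {G X I : Type} [Group G] [MulAction G X] [MulAction G I] (c : CC) (M : PM X)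
    (E R : I → Subgroup G) (Y : I → Set X) : Prop where
  st : STAGE G M c.n c.δ c.Li c.A0 c.kl
  inj : ∀ i j : I, E i = E j → i = j
  cj : ∀ (g : G) (i : I) (f : G), f ∈ E (g • i) ↔ g⁻¹ * f * g ∈ E i
  cen : ∀ i : I, ∃ g : G, Lox M g ∧ (∃ x, M.d x (g • x) ≤ c.L) ∧ ∀ f : G, f ∈ E i ↔ f ∈ Cen g
  Yd : ∀ (i : I) (x : X), x ∈ Y i ↔ ∃ e : G, Subgroup.zpowers e = E i ∧ M.d x (e • x) ≤ c.L1
  Rd : ∀ (i : I) (h : G), h ∈ R i ↔ ∃ f ∈ E i, h = f ^ c.n

/-- The short loxodromic elements which are in no `E i` have stable length at least `τ`. -/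
def COV {G X I : Type} [Group G] [MulAction G X] (c : CC) (M : PM X) (E : I → Subgroup G) :
    Prop := ∀ g : G, Lox M g → (∃ x, M.d x (g • x) ≤ c.L) → (∀ i, g ∉ E i) →
  ∀ (x : X) (m : ℕ), c.τ * m ≤ M.d x (g ^ m • x)

/-! ## The killed family -/

/-- `E` is the group of a short loxodromic element, and its generator has stable length less
than `s`. -/
def IsKI {G X : Type} [Group G] [MulAction G X] (M : PM X) (L s : ℝ) (E : Subgroup G) : Prop :=
  IsFI M L E ∧ ∃ (a e : G) (x : X) (m : ℕ), (∀ f : G, f ∈ E ↔ a * f * a⁻¹ ∈ Subgroup.zpowers e) ∧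
    M.d x (e ^ m • x) < s * m

/-- The index type. -/
def KI (G : Type) {X : Type} [Group G] [MulAction G X] (M : PM X) (L s : ℝ) : Type :=
  {E : Subgroup G // IsKI M L s E}

instance kiAct {G X : Type} [Group G] [MulAction G X] (M : PM X) (L s : ℝ) :
    MulAction G (KI G M L s) where
  smul b E := ⟨cjS b E.1, by
    obtain ⟨⟨a, g, h1, h2, h3⟩, a', e, x, m, h4, h5⟩ := E.2
    refine ⟨⟨a * b⁻¹, g, h1, h2, fun f => ?_⟩, a' * b⁻¹, e, x, m, fun f => ?_, h5⟩
    · rw [mem_cjS, h3]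
      have : a * (b⁻¹ * f * b) * a⁻¹ = a * b⁻¹ * f * (a * b⁻¹)⁻¹ := by group
      rw [this]
    · rw [mem_cjS, h4]
      have : a' * (b⁻¹ * f * b) * a'⁻¹ = a' * b⁻¹ * f * (a' * b⁻¹)⁻¹ := by group
      rw [this]⟩
  one_smul E := by
    apply Subtype.ext
    show cjS 1 E.1 = E.1
    ext f
    rw [mem_cjS]
    simp
  mul_smul b b' E := by
    apply Subtype.ext
    show cjS (b * b') E.1 = cjS b (cjS b' E.1)
    ext f
    rw [mem_cjS, mem_cjS, mem_cjS]
    have : (b * b')⁻¹ * f * (b * b') = b'⁻¹ * (b⁻¹ * f * b) * b' := by group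
    rw [this]

theorem ki_smul {G X : Type} [Group G] [MulAction G X] (M : PM X) (L s : ℝ) (b : G)
    (E : KI G M L s) : (b • E).1 = cjS b E.1 := rfl

end BAN
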