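import Pool.Agent.Lib.MP_8528c3_al.AN.StG
import Pool.Agent.Lib.MP_8528c3_al.AN.StH

/-!
# Burnside project: H14, colouring of the sets of base points in an annulus of the cone-off
-/

namespace BAN

open BSD

namespace H14

theorem rtg_mono {W : Type} {P Q : W → W → Prop} (h : ∀ a b, P a b → Q a b) {x y : W}
    (hxy : Relation.ReflTransGen P x y) : Relation.ReflTransGen Q x y := by
  induction hxy with
  | refl => exact Relation.ReflTransGen.refl
  | tail _ h2 ih => exact ih.tail (h _ _ h2)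

theorem FF_sc {X : Type} (M : PM X) (l : ℝ) (hl : 0 < l) (o : X) (r Λ : ℝ) (x z : X) :
    FF (M.sc l hl.le) o r Λ x z = l * FF M o (r / l) Λ x z := by
  unfold FF
  rw [PM.sc_gp, PM.sc_gp]
  have h1 : l * M.gp o x z - r = l * (M.gp o x z - r / l) := by
    field_simp
  have h2 : max 0 (l * (M.gp o x z - r / l)) = l * max 0 (M.gp o x z - r / l) := by
    rw [mul_max_of_nonneg _ _ hl.le, mul_zero]
  rw [h1, h2]
  ring

theorem gp_le {X : Type} (M : PM X) (o z x : X) : M.gp o z x ≤ M.d z x := by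
  unfold PM.gp
  have h1 := M.tri o z x
  linarith

end H14

theorem burn_H14 (hG1a : stG1a) (hG4 : stG4) (hG5 : stG5) (hB3 : stB3) (h10 : stH10)
    (h11 : stH11) (h12 : stH12) (h13 : stH13) : stH14 := by
  classical
  intro G X I _ _ _ c M E R Y hF hY π y0 o S t w rh h0 D0 DT q ls hq hD0 hDT hsph hdiam hl1 hl2
    hC8
  have hlam := c.hlam
  have hrh := ls.hr
  have hth := ls.tg.th
  have hpr := ls.tg.pr
  obtain ⟨W, hW⟩ : ∃ W, W = 2 * Real.exp (C8 c.T w rh h0 / 2) + 1 := ⟨_, rfl⟩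
  have hW0 : 0 ≤ W := by rw [hW]; positivity
  obtain ⟨κ, hκ⟩ : ∃ κ, κ = 8 * (DT + 1) * (D0 + 18 * c.δ + 46) := ⟨_, rfl⟩
  have hd : ∀ x y : X, (c.N M).d x y = c.lam * M.d x y := fun _ _ => rfl
  have hgp : ∀ x y z : X, (c.N M).gp x y z = c.lam * M.gp x y z := fun x y z =>
    PM.sc_gp M c.lam c.hlam.le x y z
  -- the two sets
  obtain ⟨B, hB⟩ : ∃ B : Set X, B = S2 (c.N M) π y0 o S rh h0 := ⟨_, rfl⟩
  obtain ⟨A, hA⟩ : ∃ A : Set X, A = {x | x ∈ S ∧ ∃ i, ActI (c.N M) π y0 o S rh h0 i ∧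
    (c.N M).d x (π i x) ≤ 2 * rh + 20} := ⟨_, rfl⟩
  have hSAB : ∀ x ∈ S, x ∈ A ∪ B := by
    intro x hx
    by_cases h : ∃ i, ActI (c.N M) π y0 o S rh h0 i ∧ (c.N M).d x (π i x) ≤ 2 * rh + 20
    · left
      rw [hA]
      exact ⟨hx, h⟩
    · right
      rw [hB]
      refine ⟨hx, fun i hi => ?_⟩
      by_contra h2
      exact h ⟨i, hi, not_lt.1 h2⟩
  have hBS : ∀ x ∈ B, x ∈ S := by
    intro x hx
    rw [hB] at hx
    exact hx.1
  -- uniqueness of the cone
  have huniq : ∀ x ∈ S, ∀ i j, ActI (c.N M) π y0 o S rh h0 i → ActI (c.N M) π y0 o S rh h0 j →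
      (c.N M).d x (π i x) ≤ 2 * rh + 20 → (c.N M).d x (π j x) ≤ 2 * rh + 20 → i = j := by
    intro x hx i j hi hj h1 h2
    refine h10 X I (c.N M) Y c.ρ hY c.ρ0 π y0 c.T o S t w rh h0 ls i j hi hj x hx x hx h1 h2 ?_
    rw [(c.N M).self]
    linarith
  -- colouring of `B`
  obtain ⟨Bd, hBd⟩ : ∃ Bd : ℝ, ∀ x ∈ B, M.d (bt y0 o) x ≤ Bd := by
    rcases B.eq_empty_or_nonempty with h | ⟨x0, hx0⟩
    · exact ⟨0, fun x hx => by rw [h] at hx; exact absurd hx (Set.notMem_empty x)⟩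
    · refine ⟨M.d (bt y0 o) x0 + DT / c.lam, fun x hx => ?_⟩
      have h1 := hdiam x0 (hBS x0 hx0) x (hBS x hx)
      rw [hd] at h1
      have h2 : M.d x0 x ≤ DT / c.lam := by
        rw [le_div_iff₀ hlam]
        linarith
      have h3 := M.tri (bt y0 o) x0 x
      linarith
  have hthin : ∀ x ∈ B, ∀ z ∈ B, M.gp (bt y0 o) z x ≤
      W / c.lam + DT * max 0 (M.gp (bt y0 o) x z - rh / c.lam) := by
    intro x hx z hz
    by_cases h : (c.N M).gp (bt y0 o) x z ≤ rh + 1
    · have h1 := h11 X I (c.N M) Y c.ρ hY c.ρ0 π y0 c.T o S t w rh h0 ls hC8 x (hBS x hx) z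
        (by rw [← hB]; exact hz) h
      rw [← hW, hgp] at h1
      have h2 : M.gp (bt y0 o) z x ≤ W / c.lam := by
        rw [le_div_iff₀ hlam]
        linarith
      have h3 : 0 ≤ DT * max 0 (M.gp (bt y0 o) x z - rh / c.lam) :=
        mul_nonneg (by linarith) (le_max_left _ _)
      linarith
    · rw [hgp, not_le] at h
      have h1 : 1 / c.lam ≤ M.gp (bt y0 o) x z - rh / c.lam := by
        have : (rh + 1) / c.lam < M.gp (bt y0 o) x z := by
          rw [div_lt_iff₀ hlam]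
          linarith
        rw [add_div] at this
        linarith
      have h2 : 1 / c.lam ≤ max 0 (M.gp (bt y0 o) x z - rh / c.lam) :=
        h1.trans (le_max_right _ _)
      have h3 : DT * (1 / c.lam) ≤ DT * max 0 (M.gp (bt y0 o) x z - rh / c.lam) :=
        mul_le_mul_of_nonneg_left h2 (by linarith)
      have h4 := hdiam z (hBS z hz) x (hBS x hx)
      rw [hd] at h4
      have h5 : M.d z x ≤ DT * (1 / c.lam) := by
        rw [mul_one_div, le_div_iff₀ hlam]
        linarith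
      have h6 := H14.gp_le M (bt y0 o) z x
      have h7 : 0 ≤ W / c.lam := div_nonneg hW0 hlam.le
      linarith
  obtain ⟨f2, hf2, hf3⟩ := hG4 X M c.δ D0 q hF.st.hyp c.hδ hF.st.sg (by omega) hD0 hsph B
    (bt y0 o) (rh / c.lam) (W / c.lam) DT Bd (div_nonneg (by linarith) hlam.le)
    (div_nonneg hW0 hlam.le) hDT hBd hthin
  rw [← hκ] at hf2 hf3 hl2
  -- colourings of the quasi-lines
  have hG5' : ∀ i, Col M (Y i) 2 ((2 * rh + 1) / c.lam) (4 * ((2 * rh + 1) / c.lam) +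
      1000 * c.A3) := fun i => (hG5 G X I c M E R Y hF hF.st.iso i ((2 * rh + 1) / c.lam)
    (div_nonneg (by linarith) hlam.le)).1
  choose ci hci using hG5'
  -- the colouring
  obtain ⟨f, hf⟩ : ∃ f : X → Fin q, f = fun x => if h : x ∈ {x | x ∈ S ∧
      ∃ i, ActI (c.N M) π y0 o S rh h0 i ∧ (c.N M).d x (π i x) ≤ 2 * rh + 20} then
      Fin.castLE hq (ci h.2.choose (π h.2.choose x)) else f2 x := ⟨_, rfl⟩
  have fA : ∀ x ∈ S, ∀ i, ActI (c.N M) π y0 o S rh h0 i →
      (c.N M).d x (π i x) ≤ 2 * rh + 20 → f x = Fin.castLE hq (ci i (π i x)) := by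
    intro x hx i hi hxi
    have h : x ∈ {x | x ∈ S ∧ ∃ i, ActI (c.N M) π y0 o S rh h0 i ∧
      (c.N M).d x (π i x) ≤ 2 * rh + 20} := ⟨hx, i, hi, hxi⟩
    have h1 : h.2.choose = i :=
      huniq x hx _ i h.2.choose_spec.1 hi h.2.choose_spec.2 hxi
    rw [hf]
    show (if h : x ∈ {x | x ∈ S ∧ ∃ i, ActI (c.N M) π y0 o S rh h0 i ∧
      (c.N M).d x (π i x) ≤ 2 * rh + 20} then
      Fin.castLE hq (ci h.2.choose (π h.2.choose x)) else f2 x) = _
    rw [dif_pos h, h1]
  have fB : ∀ x ∈ B, f x = f2 x := by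
    intro x hx
    rw [hB] at hx
    have h : ¬ x ∈ {x | x ∈ S ∧ ∃ i, ActI (c.N M) π y0 o S rh h0 i ∧
      (c.N M).d x (π i x) ≤ 2 * rh + 20} := by
      rintro ⟨_, i, hi, h2⟩
      exact absurd (hx.2 i hi) (not_lt.2 h2)
    rw [hf]
    exact dif_neg h
  -- the relation on `A`
  obtain ⟨Q, hQ⟩ : ∃ Q : X → X → Prop, Q = fun a a' => ∃ i, ActI (c.N M) π y0 o S rh h0 i ∧
    a ∈ S ∧ a' ∈ S ∧ (c.N M).d a (π i a) ≤ 2 * rh + 20 ∧ (c.N M).d a' (π i a') ≤ 2 * rh + 20 ∧
    (c.N M).d (π i a) (π i a') ≤ 2 * rh + 1 ∧ ci i (π i a) = ci i (π i a') := ⟨_, rfl⟩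
  have hinj : Function.Injective (Fin.castLE hq : Fin 2 → Fin q) := Fin.castLE_injective hq
  have key := hG1a X (c.N M) A B (fun a b => (c.N M).d a b ≤ rh ∧ f a = f b) Q rh
    (12 * rh + 45) (2 * W + 2 * rh + 1 / 100) (by linarith) (by linarith) (by linarith)
    ?_ ?_ ?_ ?_ ?_
  · -- conclusion
    refine ⟨f, fun x y hx hxy => ?_⟩
    have h1 := key x y (hSAB x hx) (H14.rtg_mono (fun a b hab =>
      ⟨hSAB a hab.1, hSAB b hab.2.1, hab.2.2.1, hab.2.2.2⟩) hxy)
    rw [← hW]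
    linarith
  · -- runs in `B`
    intro x y hx hxy
    have h1 := hf2 x y hx (H14.rtg_mono (fun a b hab => by
      obtain ⟨ha, hb, h2, h3⟩ := hab
      refine ⟨ha, hb, ?_, ?_⟩
      · rw [hd] at h2
        rw [le_div_iff₀ hlam]
        linarith
      · rw [← fB a ha, ← fB b hb]
        exact h3) hxy)
    rw [hd]
    have h2 := mul_le_mul_of_nonneg_left h1 hlam.le
    have h3 : c.lam * (2 * (W / c.lam) + 2 * (rh / c.lam) + κ) = 2 * W + 2 * rh + c.lam * κ := by
      field_simp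
    rw [h3] at h2
    linarith
  · intro a b _ _ h
    exact h.1
  · -- adjacent points of `A`
    intro a a' ha ha' h
    rw [hA] at ha ha'
    obtain ⟨haS, i, hi, hai⟩ := ha
    obtain ⟨haS', j, hj, haj⟩ := ha'
    have hij := h10 X I (c.N M) Y c.ρ hY c.ρ0 π y0 c.T o S t w rh h0 ls i j hi hj a haS a' haS'
      hai haj h.1
    subst hij
    rw [hQ]
    have h1 := (hB3 X I (c.N M) Y π y0 hth hpr i a a').2
    have h2 := h.1
    refine ⟨i, hi, haS, haS', hai, haj, by linarith, ?_⟩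
    apply hinj
    rw [← fA a haS i hi hai, ← fA a' haS' i hi haj]
    exact h.2
  · -- return
    intro a b b' a' ha ha' hb hb' hab hba hbb
    rw [hA] at ha ha'
    obtain ⟨haS, i, hi, hai⟩ := ha
    obtain ⟨haS', j, hj, haj⟩ := ha'
    have hb2 : b ∈ S2 (c.N M) π y0 o S rh h0 := by rw [← hB]; exact hb
    have hb2' : b' ∈ S2 (c.N M) π y0 o S rh h0 := by rw [← hB]; exact hb'
    obtain ⟨g1, g2⟩ := h12 X I (c.N M) Y c.ρ hY c.ρ0 π y0 c.T o S t w rh h0 ls i hi a haS hai b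
      hb2 hab.1
    have hchain : Relation.ReflTransGen (Stp M B f2 (rh / c.lam)) b b' :=
      H14.rtg_mono (fun a b hab => by
        obtain ⟨ha, hb, h2, h3⟩ := hab
        refine ⟨ha, hb, ?_, ?_⟩
        · rw [hd] at h2
          rw [le_div_iff₀ hlam]
          linarith
        · rw [← fB a ha, ← fB b hb]
          exact h3) hbb
    obtain ⟨p, hp1, hp2, hp3⟩ := hf3 b b'
      (((c.N M).d (bt y0 o) (π i b) + rh + 18) / c.lam) hb hchain (by
        intro z hz
        have h1 := g2 z (by rw [← hB]; exact hz) DT hDT (hdiam b (hBS b hb) z (hBS z hz))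
        have h2 : FF (c.N M) (bt y0 o) rh DT b z = c.lam * FF M (bt y0 o) (rh / c.lam) DT b z :=
          H14.FF_sc M c.lam hlam (bt y0 o) rh DT b z
        rw [h2] at h1
        rw [div_le_iff₀ hlam]
        linarith)
    have hp1' : (c.N M).gp (bt y0 o) b p ≤ 1 / 100 := by
      rw [hgp]
      exact (mul_le_mul_of_nonneg_left hp1 hlam.le).trans hl2
    have hp2' : (c.N M).gp (bt y0 o) b' p ≤ 1 / 100 := by
      rw [hgp]
      exact (mul_le_mul_of_nonneg_left hp2 hlam.le).trans hl2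
    have hp3' : (c.N M).d (bt y0 o) (π i b) + 17 ≤ (c.N M).d (bt y0 o) p := by
      have h1 := mul_le_mul_of_nonneg_left hp3 hlam.le
      have h2 : c.lam * (((c.N M).d (bt y0 o) (π i b) + rh + 18) / c.lam - rh / c.lam - κ) =
          (c.N M).d (bt y0 o) (π i b) + rh + 18 - rh - c.lam * κ := by
        field_simp
      rw [h2] at h1
      rw [hd (bt y0 o) p]
      linarith
    obtain ⟨hij, hgates⟩ := h13 X I (c.N M) Y c.ρ hY c.ρ0 π y0 c.T o S t w rh h0 ls i j hi hj a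
      haS a' haS' hai haj b hb2 b' hb2' hab.1 hba.1 g1 p hp1' hp2' hp3'
    subst hij
    have hcol : f b = f b' := by
      clear hchain hb' hba hb2' hgates hp2' hp2
      induction hbb with
      | refl => rfl
      | tail _ h2 ih => exact ih.trans h2.2.2.2
    rw [hQ]
    refine ⟨i, hi, haS, haS', hai, haj, hgates, ?_⟩
    apply hinj
    rw [← fA a haS i hi hai, ← fA a' haS' i hi haj]
    exact (hab.2.trans hcol).trans hba.2
  · -- `Q`-chains
    intro a a' ha haa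
    rw [hA] at ha
    obtain ⟨haS, i, hi, hai⟩ := ha
    have inv : a' ∈ S ∧ (c.N M).d a' (π i a') ≤ 2 * rh + 20 ∧
        Relation.ReflTransGen (Stp M (Y i) (ci i) ((2 * rh + 1) / c.lam)) (π i a) (π i a') := by
      induction haa with
      | refl => exact ⟨haS, hai, Relation.ReflTransGen.refl⟩
      | tail _ h2 ih =>
        rw [hQ] at h2
        obtain ⟨j, hj, hbS, hcS, h3, h4, h5, h6⟩ := h2
        obtain ⟨_, ih2, ih3⟩ := ih
        have hij := huniq _ hbS i j hi hj ih2 h3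
        subst hij
        refine ⟨hcS, h4, ih3.tail ⟨hpr.mem i _, hpr.mem i _, ?_, h6⟩⟩
        rw [hd] at h5
        rw [le_div_iff₀ hlam]
        linarith
    obtain ⟨_, h2, h3⟩ := inv
    have h4 := hci i (π i a) (π i a') (hpr.mem i a) h3
    have h5 := mul_le_mul_of_nonneg_left h4 hlam.le
    have h6 : c.lam * (4 * ((2 * rh + 1) / c.lam) + 1000 * c.A3) =
        4 * (2 * rh + 1) + c.lam * (1000 * c.A3) := by
      field_simp
    rw [h6, ← hd] at h5
    have h7 := (c.N M).tri a (π i a) a'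
    have h8 := (c.N M).tri (π i a) (π i a') a'
    have h9 := (c.N M).symm (π i a') a'
    linarith

end BAN
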