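import Pool.Agent.Lib.MP_8528c3_al.StG

/-!
# Burnside project, linear control: mixed metrics, stable lengths (definitions)
-/

namespace BAN

open BSD

/-- Norms on a group. -/
structure WNm {G : Type} [Group G] (W : G → ℝ) : Prop where
  nn : ∀ g, 0 ≤ W g
  one : W 1 = 0
  inv : ∀ g, W g⁻¹ = W g
  mul : ∀ g h, W (g * h) ≤ W g + W h

/-- Every element is a product of elements of norm at most `2`, of the right total length. -/
def WSt {G : Type} [Group G] (W : G → ℝ) : Prop := ∀ g : G, ∃ (n : ℕ) (u : ℕ → G), u 0 = 1 ∧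
  u n = g ∧ (∀ i < n, W ((u i)⁻¹ * u (i + 1)) ≤ 2) ∧
  ∑ i ∈ Finset.range n, W ((u i)⁻¹ * u (i + 1)) ≤ W g

/-- Chains from `x` to `y`: steps in `E` (total length `a`), and steps between points of the orbit
of `x0`, measured by `W` (total length `b`). -/
inductive CP {G X : Type} [Group G] [MulAction G X] (E : PM X) (W : G → ℝ) (x0 : X) :
    X → X → ℝ → ℝ → Prop
  | nil (x : X) : CP E W x0 x x 0 0
  | e (x y z : X) (a b : ℝ) (h : CP E W x0 x y a b) : CP E W x0 x z (a + E.d y z) b
  | w (x : X) (g h : G) (a b : ℝ) (hp : CP E W x0 x (g • x0) a b) :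
      CP E W x0 x (h • x0) a (b + W (g⁻¹ * h))

namespace CP

variable {G X : Type} [Group G] [MulAction G X] {E : PM X} {W : G → ℝ} {x0 : X}

theorem nonneg (hW : WNm W) {x y : X} {a b : ℝ} (h : CP E W x0 x y a b) : 0 ≤ a ∧ 0 ≤ b := by
  induction h with
  | nil => exact ⟨le_rfl, le_rfl⟩
  | e y z a b _ ih => exact ⟨by have := E.nonneg y z; linarith [ih.1], ih.2⟩
  | w g h a b _ ih => exact ⟨ih.1, by have := hW.nn (g⁻¹ * h); linarith [ih.2]⟩

theorem trans {x y z : X} {a b a' b' : ℝ} (h : CP E W x0 x y a b) (h' : CP E W x0 y z a' b') :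
    CP E W x0 x z (a + a') (b + b') := by
  induction h' with
  | nil => simpa using h
  | e y' z' a' b' _ ih =>
    have := CP.e x y' z' (a + a') (b + b') ih
    rwa [add_assoc] at this
  | w g k a' b' _ ih =>
    have := CP.w x g k (a + a') (b + b') ih
    rwa [add_assoc] at this

theorem one (x y : X) : CP E W x0 x y (E.d x y) 0 := by
  have := CP.e x x y 0 0 (CP.nil (E := E) (W := W) (x0 := x0) x)
  simpa using this

theorem onew (g h : G) : CP E W x0 (g • x0) (h • x0) 0 (W (g⁻¹ * h)) := by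
  have := CP.w (g • x0) g h 0 0 (CP.nil (E := E) (W := W) (x0 := x0) (g • x0))
  simpa using this

theorem symm (hW : WNm W) {x y : X} {a b : ℝ} (h : CP E W x0 x y a b) : CP E W x0 y x a b := by
  induction h with
  | nil => exact CP.nil _
  | e y z a b _ ih =>
    have := (one z y).trans ih
    rw [E.symm z y] at this
    simpa [add_comm] using this
  | w g k a b _ ih =>
    have := (onew k g).trans ih
    have h1 : W (k⁻¹ * g) = W (g⁻¹ * k) := by
      rw [← hW.inv (g⁻¹ * k)]
      congr 1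
      group
    rw [h1] at this
    simpa [add_comm] using this

end CP

/-- The mixed metric, as a bare function: steps in `E` cost `p` times their length, steps in the
orbit of `x0` cost `q` times their length. -/
noncomputable def mxD {G X : Type} [Group G] [MulAction G X] (E : PM X) (W : G → ℝ) (x0 : X)
    (p q : ℝ) (x y : X) : ℝ := sInf {t | ∃ a b : ℝ, CP E W x0 x y a b ∧ t = p * a + q * b}

section

variable {G X : Type} [Group G] [MulAction G X] {E : PM X} {W : G → ℝ} {x0 : X} {p q : ℝ}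

theorem mxD_le (hW : WNm W) (hp : 0 ≤ p) (hq : 0 ≤ q) {x y : X} {a b : ℝ}
    (h : CP E W x0 x y a b) : mxD E W x0 p q x y ≤ p * a + q * b := by
  refine csInf_le ⟨0, ?_⟩ ⟨a, b, h, rfl⟩
  rintro t ⟨a, b, h, rfl⟩
  have h1 := h.nonneg hW
  have h2 := mul_nonneg hp h1.1
  have h3 := mul_nonneg hq h1.2
  linarith

theorem le_mxD {x y : X} {c : ℝ} (h : ∀ a b, CP E W x0 x y a b → c ≤ p * a + q * b) :
    c ≤ mxD E W x0 p q x y := by
  refine le_csInf ⟨_, _, _, CP.one x y, rfl⟩ ?_
  rintro t ⟨a, b, h', rfl⟩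
  exact h a b h'

theorem mxD_approx (x y : X) {η : ℝ} (hη : 0 < η) :
    ∃ a b, CP E W x0 x y a b ∧ p * a + q * b < mxD E W x0 p q x y + η := by
  have hne : {t | ∃ a b : ℝ, CP E W x0 x y a b ∧ t = p * a + q * b}.Nonempty :=
    ⟨_, _, _, CP.one x y, rfl⟩
  obtain ⟨t, ⟨a, b, h, rfl⟩, h1⟩ := exists_lt_of_csInf_lt hne
    (lt_add_of_pos_right (mxD E W x0 p q x y) hη)
  exact ⟨a, b, h, h1⟩

end

/-- The mixed metric. -/
noncomputable def mx {G X : Type} [Group G] [MulAction G X] (E : PM X) (W : G → ℝ) (hW : WNm W)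
    (x0 : X) (p q : ℝ) (hp : 0 ≤ p) (hq : 0 ≤ q) : PM X where
  d := mxD E W x0 p q
  self x := by
    refine le_antisymm ?_ (le_mxD fun a b h => ?_)
    · have := mxD_le (p := p) (q := q) hW hp hq (CP.nil (E := E) (W := W) (x0 := x0) x)
      simpa using this
    · have h1 := h.nonneg hW
      have h2 := mul_nonneg hp h1.1
      have h3 := mul_nonneg hq h1.2
      linarith
  symm x y := le_antisymm (le_mxD fun a b h => mxD_le hW hp hq (h.symm hW))
    (le_mxD fun a b h => mxD_le hW hp hq (h.symm hW))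
  tri x y z := by
    refine le_of_forall_pos_le_add fun η hη => ?_
    obtain ⟨a, b, h, h1⟩ := mxD_approx (E := E) (W := W) (x0 := x0) (p := p) (q := q) x y
      (half_pos hη)
    obtain ⟨a', b', h', h1'⟩ := mxD_approx (E := E) (W := W) (x0 := x0) (p := p) (q := q) y z
      (half_pos hη)
    have := mxD_le hW hp hq (h.trans h')
    nlinarith

/-- The un-coned metric: the mixed metric with `p = 1`, `q = 1 / 2`. -/
noncomputable def fl {G X : Type} [Group G] [MulAction G X] (E : PM X) (W : G → ℝ) (hW : WNm W)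
    (x0 : X) : PM X := mx E W hW x0 1 (1 / 2) zero_le_one (by norm_num)

/-- The word metric, extended to the space: the mixed metric with `p = C`, `q = 1`. -/
noncomputable def wm {G X : Type} [Group G] [MulAction G X] (E : PM X) (W : G → ℝ) (hW : WNm W)
    (x0 : X) (C : ℝ) (hC : 0 ≤ C) : PM X := mx E W hW x0 C 1 hC zero_le_one

/-- Stable length. -/
noncomputable def sl {G X : Type} [Group G] [MulAction G X] (M : PM X) (g : G) : ℝ :=
  sInf {t | ∃ (x : X) (m : ℕ), 1 ≤ m ∧ t = M.d x (g ^ m • x) / m}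

/-- Stable length for a norm. -/
noncomputable def slW {G : Type} [Group G] (W : G → ℝ) (g : G) : ℝ :=
  sInf {t | ∃ m : ℕ, 1 ≤ m ∧ t = W (g ^ m) / m}

/-- Almost geodesics of `M` with steps at most `2` in `N`. -/
def SGS {X : Type} (N M : PM X) : Prop := ∀ x y, ∀ η : ℝ, 0 < η → ∃ (n : ℕ) (z : ℕ → X),
  z 0 = x ∧ z n = y ∧ (∀ i < n, N.d (z i) (z (i + 1)) ≤ 2) ∧
  ∑ i ∈ Finset.range n, M.d (z i) (z (i + 1)) ≤ M.d x y + η

end BAN
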