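import Pool.Agent.Lib.MP_8528c3_al.AN.StK
import Pool.Agent.Lib.MP_8528c3_al.AN.StL

/-!
# Burnside project, linear control, L7: control of the word metric in the quotient
-/

set_option autoImplicit false

namespace BAN

open BSD

theorem burn_L7 (hK1 : stK1) (hK3 : stK3) (hK3b : stK3b) (hK4 : stK4) (hK10 : stK10)
    (hK12 : stK12) (hF6 : stF6) (hL2 : stL2) (hL3 : stL3) : stL7 := by
  intro a G X I _ _ _ E W x0 ok Ei R Y fs hsl hY hg
  let _ := coAct a.ρ hg
  intro Wq hq1 hq2
  have hC1 : 0 ≤ a.C1 := by linarith [a.hC1]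
  set M : PM X := fl E W ok.wn x0 with hM
  set V : PM X := wm E W ok.wn x0 a.C1 hC1 with hV
  obtain ⟨m1, m2, m3, m4, m5, m6⟩ := hK3b G X E W ok.wn x0 a.C1 hC1 ok.st.iso
    (by linarith [a.hC1]) ok.ew
  obtain ⟨-, hSGS⟩ := hK4 G X E W ok.wn x0 a.C1 hC1 ok.st.sg ok.ws
  obtain ⟨-, hMo, -⟩ := hK1 G X E W ok.wn x0 1 (1 / 2) zero_le_one (by norm_num)
  obtain ⟨-, -, hisoV⟩ := hK1 G X E W ok.wn x0 a.C1 1 hC1 zero_le_one
  have isoE := ok.st.iso
  have isoV : Iso G V := hisoV isoE
  have isoM : Iso G M := (hK1 G X E W ok.wn x0 1 (1 / 2) zero_le_one (by norm_num)).2.2 isoE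
  have hMV : ∀ x y, M.d x y ≤ V.d x y := fun x y => (m1 x y).trans (m3 x y)
  -- stable lengths
  have hslV : ∀ (i : I) (e : G), Subgroup.zpowers e = Ei i → sl V e ≤ 4 * a.τ := by
    intro i e he
    have hse := hsl i e he
    -- the generator is loxodromic
    have hlox : Lox M e := by
      have hmem : e ∈ Ei i := by rw [← he]; exact Subgroup.mem_zpowers e
      obtain ⟨⟨h1, h2, -, -, -⟩, -⟩ := hF6 G X I a.toCC M Ei R Y fs
      have hne : e ≠ 1 := by
        rintro rfl
        obtain ⟨e', he1, -, he2, -⟩ := h1 i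
        have : e' ∈ Subgroup.zpowers (1 : G) := by
          rw [he]
          exact (he2 e').2 ⟨1, (zpow_one e').symm⟩
        rw [Subgroup.zpowers_one_eq_bot, Subgroup.mem_bot] at this
        exact he1 this
      exact (h2 i e hmem hne).1
    have hloxE : Lox E e := by
      obtain ⟨c, hc, h⟩ := hlox
      exact ⟨c, hc, fun x m => (h x m).trans (m1 _ _)⟩
    have h2 : sl E e ≤ 2 * sl M e := by
      have h3 := (hK10 G X M isoM e).2.2.1 ok.st.ne (sl E e / 2) (fun x m => by
        have h4 := (hK10 G X E isoE e).2.1 x m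
        have h5 := m2 x (e ^ m • x)
        linarith)
      linarith
    have h3 : slW W e ≤ 2 * sl E e := by
      have h4 := ok.rt a.t0 e hloxE (by
        have := a.hτ
        linarith)
      have h5 : 0 ≤ sl E e := (hK10 G X E isoE e).1
      have h6 := mul_le_mul_of_nonneg_right a.hY h5
      linarith
    have h4 : sl V e ≤ slW W e := hK12 G X V W x0 isoV ok.wn m6 e
    linarith
  -- diameter of the quotients of the sets Y i
  have hdiam : ∀ i, ∀ y ∈ Y i, ∀ y' ∈ Y i, ∃ r ∈ R i, a.lam * V.d y (r • y') ≤ 4 * a.C1 := by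
    intro i y hy y' hy'
    obtain ⟨⟨h1, -, -, -, -⟩, -⟩ := hF6 G X I a.toCC M Ei R Y fs
    obtain ⟨e, -, -, he2, -⟩ := h1 i
    have he : Subgroup.zpowers e = Ei i := by
      ext f
      rw [he2, Subgroup.mem_zpowers_iff]
      exact ⟨fun ⟨k, hk⟩ => ⟨k, hk.symm⟩, fun ⟨k, hk⟩ => ⟨k, hk.symm⟩⟩
    obtain ⟨r, hr, h⟩ := hL2 G X I a.toCC M Ei R Y fs V (2 * a.C1) a.kk isoV
      (by linarith [a.hC1]) hMV m5 hSGS a.hkk i e he y hy y' hy'
    refine ⟨r, hr, ?_⟩
    have h5 := hslV i e he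
    have hn : (0 : ℝ) ≤ a.n := Nat.cast_nonneg _
    have h6 := mul_le_mul_of_nonneg_left h5 hn
    have h7 := a.hC
    have h8 : V.d y (r • y') ≤ a.n * (4 * a.τ) +
        2 * (2 * a.C1 * ((2 * a.kk + 3) * (8 * a.δ + 8)) + 2) + 1001 * (2 * a.C1) * a.A3 := by
      linarith
    have h9 := mul_le_mul_of_nonneg_left h8 a.hlam.le
    linarith
  have hkey := hL3 G X I a.toCC M Ei R Y fs hY hg V a.C1 (by linarith [a.hC1]) isoV m5 hdiam
  refine ⟨fun g => ?_, fun g => ?_⟩
  · obtain ⟨k, hk, h1⟩ := hq2 g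
    have h2 := dqf_le (a.Z M hY) (KK R) (Co.base x0) (g • (Co.base x0 : Co Y a.ρ)) hk
    have h3 : (a.Z M hY).d (Co.base x0) (k • g • (Co.base x0 : Co Y a.ρ)) ≤
        a.lam * M.d x0 ((k * g) • x0) := by
      have h4 : k • g • (Co.base x0 : Co Y a.ρ) = Co.base ((k * g) • x0) := by
        rw [← mul_smul]
        rfl
      rw [h4]
      exact coD_le (Co.pth_one (Mv.base _ _))
    have h5 := hMo 1 (k * g)
    rw [one_smul, inv_one, one_mul] at h5
    have h6 := mul_le_mul_of_nonneg_left h5 a.hlam.le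
    have h7 : a.lam * (1 / 2 * W (k * g)) = a.lam / 2 * W (k * g) := by ring
    rw [h7] at h6
    exact (h2.trans h3).trans (h6.trans h1)
  · have h1 := hkey x0 (g • x0)
    have h2 : Wq g ≤ a.lam / 2 * dqf V (KK R) x0 (g • x0) := by
      have h3 : Wq g / (a.lam / 2) ≤ dqf V (KK R) x0 (g • x0) := by
        refine le_dqf V (KK R) x0 (g • x0) fun k hk => ?_
        rw [div_le_iff₀ (by have := a.hlam; linarith)]
        have h4 := hq1 g k hk
        have h5 : W (k * g) ≤ V.d x0 (k • g • x0) := by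
          rw [← mul_smul]
          refine le_mxD fun b c hc => ?_
          have h6 := hK3 G X E W ok.wn x0 a.C1 isoE hC1 ok.we 1 (k * g) b c
            (by rw [one_smul]; exact hc)
          rw [inv_one, one_mul] at h6
          linarith
        have h6 := mul_le_mul_of_nonneg_left h5 (show 0 ≤ a.lam / 2 by have := a.hlam; linarith)
        linarith
      rwa [div_le_iff₀' (by have := a.hlam; linarith)] at h3
    exact h2.trans h1

end BAN
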