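import Pool.Agent.Lib.MP_8528c3_al.AN.StL

/-!
# Burnside project, linear control: the sequence of stages
-/

namespace BAN

open BSD

/-- The statements needed for the construction of the next stage. -/
structure HA : Prop where
  d8 : stD8
  f1 : stF1
  f5w : stF5w
  f6 : stF6
  f15 : stF15
  f15k : stF15k
  l6 : stL6

/-- A stage. -/
structure MA (a : AC) (α : Type) [DecidableEq α] where
  G : Type
  X : Type
  [ig : Group G]
  [ia : MulAction G X]
  E : PM X
  φ : FreeGroup α →* G
  sur : Function.Surjective φ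
  x0 : X
  j : ℕ
  ok : StOK a E (nw (a.lam / 2) φ j) x0

attribute [instance] MA.ig MA.ia

namespace MA

variable {a : AC} {α : Type} [DecidableEq α]

/-- The normalised word norm. -/
noncomputable def W (s : MA a α) : s.G → ℝ := nw (a.lam / 2) s.φ s.j

/-- The un-coned metric. -/
noncomputable def M (s : MA a α) : PM s.X :=
  fl s.E (nw (a.lam / 2) s.φ s.j) s.ok.wn s.x0

theorem stM (h : HA) (s : MA a α) : STAGE s.G s.M a.n a.δ a.Li a.A0 a.kl :=
  (h.l6 a s.G s.X s.E _ s.x0 s.ok).1

/-- Index set of the killed family. -/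
def J (s : MA a α) : Type := KI s.G s.M a.L a.τ

noncomputable instance (s : MA a α) : MulAction s.G s.J := kiAct s.M a.L a.τ

/-- The groups `E i`. -/
def Ei (s : MA a α) (i : s.J) : Subgroup s.G := i.1

/-- The groups `R i`. -/
def R (s : MA a α) (i : s.J) : Subgroup s.G := Rn a.n i.1

/-- The sets `Y i`. -/
def Y (s : MA a α) (i : s.J) : Set s.X := YY s.M a.L1 i.1

theorem fs (h : HA) (s : MA a α) : FS a.toCC s.M s.Ei s.R s.Y :=
  (h.f15k s.G s.X a.toCC s.M (s.stM h)).1

theorem cov (h : HA) (s : MA a α) : COV a.toCC s.M s.Ei :=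
  (h.f15k s.G s.X a.toCC s.M (s.stM h)).2.1

theorem slt (h : HA) (s : MA a α) (i : s.J) (e : s.G) (he : Subgroup.zpowers e = s.Ei i) :
    sl s.M e < a.τ :=
  (h.f15k s.G s.X a.toCC s.M (s.stM h)).2.2 i e he

theorem hY (h : HA) (s : MA a α) : ∀ i, (s.Y i).Nonempty :=
  h.f1 s.G s.X s.J a.toCC s.M s.Ei s.R s.Y (s.fs h)

theorem hg (h : HA) (s : MA a α) :
    ∀ (g : s.G) (i : s.J), ∀ y ∈ s.Y i, g • y ∈ s.Y (g • i) :=
  (h.f6 s.G s.X s.J a.toCC s.M s.Ei s.R s.Y (s.fs h)).2.1

/-- The cone-off. -/
def C (s : MA a α) : Type := Co s.Y a.ρ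

/-- Base points of the cone-off. -/
def cb (s : MA a α) (x : s.X) : s.C := Co.base x

/-- The action on the cone-off. -/
@[reducible] noncomputable def act (h : HA) (s : MA a α) : MulAction s.G s.C := coAct a.ρ (s.hg h)

/-- The metric of the cone-off. -/
noncomputable def MC (h : HA) (s : MA a α) : PM s.C := a.Z s.M (s.hY h)

theorem ws (h : HA) (s : MA a α) : letI := s.act h
    WS (s.MC h) (fun i => (Co.apex i : s.C)) s.R (thC (a.N s.M) (s.hY h) a.ρ0 a.δ) a.ρ
      (2 * a.δ + 1) a.δ :=
  h.f5w s.G s.X s.J a.toCC s.M s.Ei s.R s.Y (s.fs h) (s.hY h) (s.hg h)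

theorem iso (h : HA) (s : MA a α) : letI := s.act h
    ∀ (g : s.G) (x y : s.C), (s.MC h).d (g • x) (g • y) = (s.MC h).d x y :=
  letI := s.act h
  (s.ws h).rf.iso

/-- The group generated by the `n`-th powers of the killed elements. -/
def K (s : MA a α) : Subgroup s.G := KK s.R

theorem nor (h : HA) (s : MA a α) : s.K.Normal :=
  letI := s.act h
  (h.d8 s.G s.C s.J (s.MC h) _ s.R _ _ _ _ (s.ws h)).1

end MA

/-- M1: the quotient of a stage is a stage. -/
def stM1 : Prop := ∀ (h : HA) (a : AC) (α : Type) [DecidableEq α] (s : MA a α),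
  letI := s.act h
  haveI := s.nor h
  letI := qAct s.C s.K
  StOK a (qM (s.MC h) s.K (s.iso h)) (nw (a.lam / 2) ((QuotientGroup.mk' s.K).comp s.φ) (s.j + 1))
    (qz s.K (s.cb s.x0))

/-- The statements needed for the definition of the sequence. -/
structure HB : Prop extends HA where
  m1 : stM1

namespace MA

variable {a : AC} {α : Type} [DecidableEq α]

/-- The next stage. -/
noncomputable def next (h : HB) (s : MA a α) : MA a α :=
  letI := s.act h.toHA
  haveI := s.nor h.toHA
  letI := qAct s.C s.K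
  { G := s.G ⧸ s.K
    X := QZ s.C s.K
    E := qM (s.MC h.toHA) s.K (s.iso h.toHA)
    φ := (QuotientGroup.mk' s.K).comp s.φ
    sur := (QuotientGroup.mk'_surjective s.K).comp s.sur
    x0 := qz s.K (s.cb s.x0)
    j := s.j + 1
    ok := h.m1 h.toHA a α s }

theorem next_ker (h : HB) (s : MA a α) (g : FreeGroup α) : (s.next h).φ g = 1 ↔ s.φ g ∈ s.K :=
  haveI := s.nor h.toHA
  QuotientGroup.eq_one_iff (s.φ g)

theorem next_j (h : HB) (s : MA a α) : (s.next h).j = s.j + 1 := rfl

theorem K_le (s : MA a α) : s.K ≤ Subgroup.normalClosure {h : s.G | ∃ f, h = f ^ a.n} := by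
  unfold K KK
  rw [Subgroup.closure_le]
  rintro h ⟨i, hi⟩
  have h2 : s.R i ≤ Subgroup.normalClosure {h : s.G | ∃ f, h = f ^ a.n} := by
    unfold R Rn
    rw [Subgroup.closure_le]
    rintro h ⟨f, _, rfl⟩
    exact Subgroup.subset_normalClosure ⟨f, rfl⟩
  exact h2 hi

theorem cb_d (h : HB) (s : MA a α) (x y : s.X) :
    (s.MC h.toHA).d (s.cb x) (s.cb y) ≤ a.lam * s.M.d x y := coD_le (Co.pth_one (Mv.base _ _))

/-- The sequence of stages. -/
noncomputable def sq (h : HB) (s : MA a α) : ℕ → MA a α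
  | 0 => s
  | i + 1 => (sq h s i).next h

/-- The map from a stage to the next one. -/
noncomputable def nx (h : HB) (s : MA a α) (x : s.X) : (s.next h).X :=
  letI := s.act h.toHA
  qz s.K (s.cb x)

/-- The quotient of the metric of a stage by the image of a subgroup of the free group. -/
noncomputable def qk (s : MA a α) (K : Subgroup (FreeGroup α)) : PM s.X :=
  dqPM s.E (K.map s.φ) s.ok.st.iso

/-- The quotient of the un-coned metric. -/
noncomputable def qm (h : HB) (s : MA a α) (K : Subgroup (FreeGroup α)) : PM s.X :=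
  dqPM s.M (K.map s.φ) (s.stM h.toHA).iso

end MA

/-- M2: the free group is a stage. -/
def stM2 : Prop := ∀ (a : AC) (α : Type) [DecidableEq α],
  StOK a (fgPM α) (nw (a.lam / 2) (MonoidHom.id (FreeGroup α)) 0) (1 : FreeGroup α)

/-- The statements used for the whole sequence. -/
structure HC : Prop extends HB where
  m2 : stM2

/-- The first stage. -/
noncomputable def MA.base (h : HC) (a : AC) (α : Type) [DecidableEq α] : MA a α where
  G := FreeGroup α
  X := FreeGroup α
  E := fgPM α
  φ := MonoidHom.id _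
  sur := Function.surjective_id
  x0 := 1
  j := 0
  ok := h.m2 a α

/-- The sequence of stages of the free Burnside group. -/
noncomputable def stgA (h : HC) (a : AC) (α : Type) [DecidableEq α] (i : ℕ) : MA a α :=
  (MA.base h a α).sq h.toHB i

end BAN
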