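import Pool.Agent.Lib.MP_8528c3_al.AN.FDefs

/-!
# Burnside project, linear control, part F: the induction step.  Statements only.
-/

namespace BAN

open BSD

/-- F0: the constants exist. -/
def stF0 : Prop := ∀ δB δ T : ℝ, 1 ≤ δB → δB ≤ δ → 1 ≤ T → CO20 δB T → ∃ ρ1 : ℝ, ∀ ρ : ℝ,
  ρ1 ≤ ρ → ∃ k : KC, k.δB = δB ∧ k.δ = δ ∧ k.T = T ∧ k.ρ = ρ ∧ ∀ lam θ : ℝ, 0 < lam →
  lam * (100 * (k.A4 + k.A0 + k.δ + 10)) ≤ 1 / 100 → 0 < θ → ∃ N0 : ℕ, ∀ n : ℕ, N0 ≤ n →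
  Odd n → ∃ c : CC, c.toKC = k ∧ c.n = n ∧ c.lam = lam ∧ c.τ ≤ θ

/-- F0b: elementary inequalities between the constants. -/
def stF0b : Prop := ∀ c : CC,
  (2000 ≤ c.L ∧ 4000 ≤ c.L' ∧ c.L' ≤ c.M' ∧ 1 ≤ Real.log c.M2 ∧ 10 ≤ c.C3 ∧ c.C3 ≤ c.ρ ∧
    c.M' ≤ c.Tt ∧ c.L ≤ c.Tt ∧ 0 < c.κ ∧ c.κ ≤ 1 / 2 ∧ c.κ * (2 * c.Tt) = c.L) ∧
  (0 < c.A0 ∧ 0 < c.A1 ∧ 0 < c.A2 ∧ 0 < c.A3 ∧ 0 < c.A4 ∧ 2 * c.r1 < c.A0 ∧
    c.r1 + c.ρ < c.A0 ∧ c.A3 ≤ c.A4 ∧ c.M2 + 4 * Real.exp (c.T + 1 + c.δ) ≤ tt1 c.δ c.ρ) ∧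
  (c.lam ≤ 1 / 100 ∧ c.lam * c.δ ≤ 1 / 10000 ∧ c.lam * c.A0 ≤ 1 / 10000 ∧
    c.lam * c.A1 ≤ 1 / 10000 ∧ c.lam * c.A2 ≤ 1 / 10000 ∧ c.lam * c.A3 ≤ 1 / 10000 ∧
    c.lam * c.A4 ≤ 1 / 10000 ∧ 0 < c.kl ∧ c.kl ≤ 1 ∧ c.ko * (2 * c.Tt) ≤ c.lam * c.L ∧
    c.lam * (c.kl * c.n) = 101 * tt1 c.δ c.ρ)

/-- F0c: more inequalities. -/
def stF0c : Prop := ∀ c : CC, 0 < c.ko ∧ c.ko ≤ 1 ∧ c.kl ≤ c.ko ∧ 0 < c.τ ∧
  1000 * c.δ + 1000 ≤ c.Li ∧ c.L1 ≤ c.Li ∧ c.Li ≤ c.L' ∧ 0 < c.n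

/-- F6: basic facts on the family `E i`. -/
def stF6 : Prop := ∀ (G X I : Type) [Group G] [MulAction G X] [MulAction G I] (c : CC)
  (M : PM X) (E R : I → Subgroup G) (Y : I → Set X), FS c M E R Y →
  ((∀ i, ∃ e : G, e ≠ 1 ∧ Lox M e ∧ (∀ f : G, f ∈ E i ↔ ∃ k : ℤ, f = e ^ k) ∧
      ∀ x, x ∈ Y i ↔ M.d x (e • x) ≤ c.L1) ∧
    (∀ i, ∀ f ∈ E i, f ≠ 1 → Lox M f ∧ ∀ h : G, h ∈ Cen f ↔ h ∈ E i) ∧
    (∀ (g : G) (i : I), g • i = i ↔ g ∈ E i) ∧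
    (∀ i j : I, i ≠ j → ∀ f : G, f ∈ E i → f ∈ E j → f = 1) ∧
    (∀ (i j : I) (a b e : G) (k l : ℤ), a ∈ E i → b ∈ E j → a ≠ 1 → b ≠ 1 → (e = 1 ∨ Lox M e) →
      a = e ^ k → b = e ^ l → i = j)) ∧
  ((∀ (g : G) (i : I), ∀ y ∈ Y i, g • y ∈ Y (g • i)) ∧
    (∀ (g : G) (i : I), ∀ h ∈ R i, g * h * g⁻¹ ∈ R (g • i)) ∧
    (∀ i, ∀ h ∈ R i, h ∈ E i ∧ h • i = i) ∧
    (∀ i, ∀ f ∈ E i, f ^ c.n ∈ R i))

/-- F1: the sets `Y i` are not empty. -/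
def stF1 : Prop := ∀ (G X I : Type) [Group G] [MulAction G X] [MulAction G I] (c : CC)
  (M : PM X) (E R : I → Subgroup G) (Y : I → Set X), FS c M E R Y → ∀ i, (Y i).Nonempty

/-- F2: the sets `Y i` are quasi-convex. -/
def stF2 : Prop := ∀ (G X I : Type) [Group G] [MulAction G X] [MulAction G I] (c : CC)
  (M : PM X) (E R : I → Subgroup G) (Y : I → Set X), FS c M E R Y → ∀ i, M.QC (Y i) c.A1

/-- F3: the sets `Y i` have small overlap. -/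
def stF3 : Prop := ∀ (G X I : Type) [Group G] [MulAction G X] [MulAction G I] (c : CC)
  (M : PM X) (E R : I → Subgroup G) (Y : I → Set X), FS c M E R Y → ∀ i j, i ≠ j →
  ∀ (r : ℝ) (x x' : X), 0 ≤ r → PM.Near M (Y i) r x → PM.Near M (Y j) r x →
    PM.Near M (Y i) r x' → PM.Near M (Y j) r x' → M.d x x' ≤ 2 * r + c.A2

/-- F4: the rescaled space is tiny hyperbolic. -/
def stF4 : Prop := ∀ (G X I : Type) [Group G] [MulAction G X] [MulAction G I] (c : CC)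
  (M : PM X) (E R : I → Subgroup G) (Y : I → Set X), FS c M E R Y →
  TH (c.N M) Y ∧ (c.N M).SG 2

/-- F5: the groups `R i` move the points of the rescaled space a lot. -/
def stF5 : Prop := ∀ (G X I : Type) [Group G] [MulAction G X] [MulAction G I] (c : CC)
  (M : PM X) (E R : I → Subgroup G) (Y : I → Set X), FS c M E R Y →
  ∀ i, ∀ h ∈ R i, h ≠ 1 → ∀ y : X, 101 * tt1 c.δ c.ρ ≤ (c.N M).d y (h • y)

/-- F5w: windmill setting for the cone-off. -/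
def stF5w : Prop := ∀ (G X I : Type) [Group G] [MulAction G X] [MulAction G I] (c : CC)
  (M : PM X) (E R : I → Subgroup G) (Y : I → Set X), FS c M E R Y →
  ∀ (hY : ∀ i, (Y i).Nonempty) (hg : ∀ (g : G) (i : I), ∀ y ∈ Y i, g • y ∈ Y (g • i)),
  letI := coAct c.ρ hg
  WS (c.Z M hY) (fun i => (Co.apex i : Co Y c.ρ)) R (thC (c.N M) hY c.ρ0 c.δ) c.ρ
    (2 * c.δ + 1) c.δ

/-- F7: elements of `E i` move points far from `Y i` a lot. -/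
def stF7 : Prop := ∀ (G X I : Type) [Group G] [MulAction G X] [MulAction G I] (c : CC)
  (M : PM X) (E R : I → Subgroup G) (Y : I → Set X), FS c M E R Y →
  ∀ i, ∀ g ∈ E i, g ≠ 1 → ∀ (x : X) (B : ℝ), M.d x (g • x) ≤ B →
  ∃ y ∈ Y i, M.d x y ≤ B + c.A3

/-- F8: overlap of axes. -/
def stF8 : Prop := ∀ (G X I : Type) [Group G] [MulAction G X] [MulAction G I] (c : CC)
  (M : PM X) (E R : I → Subgroup G) (Y : I → Set X), FS c M E R Y →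
  ∀ (g : G) (l : ℝ) (z : X), Lox M g → (∀ i, g ∉ E i) → (∀ x : X, l ≤ M.d x (g • x)) →
  M.d z (g • z) ≤ l + 1 → c.L ≤ l → ∀ (i : I) (m : ℕ) (p p' : X), p ∈ Y i → p' ∈ Y i →
  (∀ y ∈ Y i, M.d z p ≤ M.d z y + 1) → (∀ y ∈ Y i, M.d (g ^ m • z) p' ≤ M.d (g ^ m • z) y + 1) →
  M.d p p' ≤ l + c.A4

/-- F8h: a point of the cone-off is in a cone (then elements with small displacement are in the
corresponding group), or it is close to a point of the base. -/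
def stF8h : Prop := ∀ (G X I : Type) [Group G] [MulAction G X] [MulAction G I] (c : CC)
  (M : PM X) (E R : I → Subgroup G) (Y : I → Set X), FS c M E R Y →
  ∀ (hY : ∀ i, (Y i).Nonempty) (hg : ∀ (g : G) (i : I), ∀ y ∈ Y i, g • y ∈ Y (g • i)),
  letI := coAct c.ρ hg
  ∀ x : Co Y c.ρ,
  (∃ j, (c.Z M hY).d x (Co.apex j) ≤ c.ρ ∧
    ∀ f : G, (c.Z M hY).d x (f • x) ≤ c.L' + 1 → f ∈ E j) ∨
  (∃ x0 : X, (c.Z M hY).d x (Co.base x0) ≤ c.L' + 2 ∧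
    ∀ f : G, (c.Z M hY).d x (f • x) ≤ c.L' + 1 → c.lam * M.d x0 (f • x0) ≤ c.M')

/-- F9a: the points of an axis in the cone-off. -/
def stF9a : Prop := ∀ (G X I : Type) [Group G] [MulAction G X] [MulAction G I] (c : CC)
  (M : PM X) (E R : I → Subgroup G) (Y : I → Set X), FS c M E R Y →
  ∀ (hY : ∀ i, (Y i).Nonempty) (g : G) (l : ℝ) (z : X), Lox M g → (∀ i, g ∉ E i) →
  (∀ x : X, l ≤ M.d x (g • x)) → M.d z (g • z) ≤ l + 1 → c.L ≤ l → c.lam * l ≤ c.M' →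
  ∀ π y0, Pr M Y π y0 →
  (∀ (i : I) (k m : ℕ), k ≤ m →
    (c.N M).d (π i (g ^ k • z)) (π i (g ^ m • z)) ≤ c.M2) ∧
  ∀ p a : ℕ, 1 ≤ p → (c.Z M hY).gp (Co.base (g ^ a • z)) (Co.base (g ^ (a + 2 * p) • z))
    (Co.base (g ^ (a + p) • z)) ≤ c.C3

/-- F9b: growth in the quotient along the axis. -/
def stF9b : Prop := ∀ (G X I : Type) [Group G] [MulAction G X] [MulAction G I] (c : CC)
  (M : PM X) (E R : I → Subgroup G) (Y : I → Set X), FS c M E R Y →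
  ∀ (hY : ∀ i, (Y i).Nonempty) (hg : ∀ (g : G) (i : I), ∀ y ∈ Y i, g • y ∈ Y (g • i)),
  letI := coAct c.ρ hg
  ∀ (g : G) (l : ℝ) (z : X), Lox M g → (∀ i, g ∉ E i) →
  (∀ x : X, l ≤ M.d x (g • x)) → M.d z (g • z) ≤ l + 1 → c.L ≤ l → c.lam * l ≤ c.M' →
  ∀ p : ℕ, c.Tt ≤ c.lam * l * p → ∀ m : ℕ,
  (m : ℝ) ≤ dqf (c.Z M hY) (KK R) (Co.base z) (Co.base (g ^ (p * m) • z))

/-- F10: the alternative for the elements of the quotient. -/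
def stF10 : Prop := ∀ (G X I : Type) [Group G] [MulAction G X] [MulAction G I] (c : CC)
  (M : PM X) (E R : I → Subgroup G) (Y : I → Set X), FS c M E R Y → COV c M E →
  ∀ (hY : ∀ i, (Y i).Nonempty) (hg : ∀ (g : G) (i : I), ∀ y ∈ Y i, g • y ∈ Y (g • i)),
  letI := coAct c.ρ hg
  ∀ g : G, g ^ c.n ∈ KK R ∨
    ∀ (x : Co Y c.ρ) (m : ℕ), c.ko * m ≤ dqf (c.Z M hY) (KK R) x (g ^ m • x)

/-- F11b: points of the cone-off with small displacement by an element of `E i`. -/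
def stF11b : Prop := ∀ (G X I : Type) [Group G] [MulAction G X] [MulAction G I] (c : CC)
  (M : PM X) (E R : I → Subgroup G) (Y : I → Set X), FS c M E R Y →
  ∀ (hY : ∀ i, (Y i).Nonempty) (hg : ∀ (g : G) (i : I), ∀ y ∈ Y i, g • y ∈ Y (g • i)),
  letI := coAct c.ρ hg
  ∀ i, ∀ f ∈ E i, f ≠ 1 → ∀ x : Co Y c.ρ, (c.Z M hY).d x (f • x) ≤ c.L' + 1 →
  (c.Z M hY).d x (Co.apex i) ≤ c.r1

/-- F11a: the same in the quotient. -/
def stF11a : Prop := ∀ (G X I : Type) [Group G] [MulAction G X] [MulAction G I] (c : CC)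
  (M : PM X) (E R : I → Subgroup G) (Y : I → Set X), FS c M E R Y →
  ∀ (hY : ∀ i, (Y i).Nonempty) (hg : ∀ (g : G) (i : I), ∀ y ∈ Y i, g • y ∈ Y (g • i)),
  letI := coAct c.ρ hg
  ∀ i, ∀ g ∈ E i, g ∉ KK R → ∀ x : Co Y c.ρ, dqf (c.Z M hY) (KK R) x (g • x) ≤ c.L' →
  (c.Z M hY).d x (Co.apex i) ≤ dqf (c.Z M hY) (KK R) x (Co.apex i) + 1 +
    2 * (2 * c.L' + 2 + c.δ) →
  (c.Z M hY).d x (Co.apex i) ≤ c.r1

/-- F11: two points with an apex near the segment (case A). -/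
def stF11 : Prop := ∀ (G X I : Type) [Group G] [MulAction G X] [MulAction G I] (c : CC)
  (M : PM X) (E R : I → Subgroup G) (Y : I → Set X), FS c M E R Y →
  ∀ (hY : ∀ i, (Y i).Nonempty) (hg : ∀ (g : G) (i : I), ∀ y ∈ Y i, g • y ∈ Y (g • i)),
  letI := coAct c.ρ hg
  ∀ x y : Co Y c.ρ, (c.Z M hY).d x y ≤ dqf (c.Z M hY) (KK R) x y + 1 →
  (∃ i, (c.Z M hY).gp x y (Co.apex i) ≤ 2 * c.L' + 2 + c.δ) →
  ∀ g : G, g ∉ KK R → dqf (c.Z M hY) (KK R) x (g • x) ≤ c.L' →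
  dqf (c.Z M hY) (KK R) y (g • y) ≤ c.L' → dqf (c.Z M hY) (KK R) x y ≤ 2 * c.r1

/-- F12: two points without an apex near the segment (case B). -/
def stF12 : Prop := ∀ (G X I : Type) [Group G] [MulAction G X] [MulAction G I] (c : CC)
  (M : PM X) (E R : I → Subgroup G) (Y : I → Set X), FS c M E R Y →
  ∀ (hY : ∀ i, (Y i).Nonempty) (hg : ∀ (g : G) (i : I), ∀ y ∈ Y i, g • y ∈ Y (g • i)),
  letI := coAct c.ρ hg
  ∀ x y : Co Y c.ρ, (c.Z M hY).d x y ≤ dqf (c.Z M hY) (KK R) x y + 1 →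
  (∀ i, 2 * c.L' + 2 + c.δ < (c.Z M hY).gp x y (Co.apex i)) →
  ∀ g : G, dqf (c.Z M hY) (KK R) x (g • x) ≤ c.L' →
  dqf (c.Z M hY) (KK R) y (g • y) ≤ c.L' → ∃ k ∈ KK R,
    (c.Z M hY).d x ((k * g) • x) ≤ c.L' + 1 ∧ (c.Z M hY).d y ((k * g) • y) ≤ c.L' + 1

/-- F13: elements with small displacement at two points of the cone-off at distance `≥ A0`. -/
def stF13 : Prop := ∀ (G X I : Type) [Group G] [MulAction G X] [MulAction G I] (c : CC)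
  (M : PM X) (E R : I → Subgroup G) (Y : I → Set X), FS c M E R Y → COV c M E →
  ∀ (hY : ∀ i, (Y i).Nonempty) (hg : ∀ (g : G) (i : I), ∀ y ∈ Y i, g • y ∈ Y (g • i)),
  letI := coAct c.ρ hg
  ∀ x y : Co Y c.ρ, c.A0 ≤ (c.Z M hY).d x y →
  ∃ e : G, (e = 1 ∨ ∃ a : ℝ, 0 < a ∧ ∀ (u : Co Y c.ρ) (m : ℕ),
      a * m ≤ dqf (c.Z M hY) (KK R) u (e ^ m • u)) ∧
    ∀ g : G, (c.Z M hY).d x (g • x) ≤ c.L' + 1 → (c.Z M hY).d y (g • y) ≤ c.L' + 1 →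
    (∃ a : ℤ, g = e ^ a) ∧ (g ≠ 1 → Lox M g ∧ (∀ j, g ∉ E j) ∧ ∃ x0 y0 : X,
      (c.Z M hY).d x (Co.base x0) ≤ c.L' + 2 ∧ (c.Z M hY).d y (Co.base y0) ≤ c.L' + 2 ∧
      c.lam * M.d x0 (g • x0) ≤ c.M' ∧ c.lam * M.d y0 (g • y0) ≤ c.M')

/-- F14: (h5) for the quotient. -/
def stF14 : Prop := ∀ (G X I : Type) [Group G] [MulAction G X] [MulAction G I] (c : CC)
  (M : PM X) (E R : I → Subgroup G) (Y : I → Set X), FS c M E R Y → COV c M E →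
  ∀ (hY : ∀ i, (Y i).Nonempty) (hg : ∀ (g : G) (i : I), ∀ y ∈ Y i, g • y ∈ Y (g • i)),
  letI := coAct c.ρ hg
  ∀ (g : G) (x y : Co Y c.ρ), g ∉ KK R → dqf (c.Z M hY) (KK R) x (g • x) ≤ c.L' →
  dqf (c.Z M hY) (KK R) y (g • y) ≤ c.L' →
  ∃ m : ℤ, dqf (c.Z M hY) (KK R) y (g ^ m • x) ≤ c.A0

/-- F9L: loxodromic elements with large displacement which do not belong to any `E i` are
loxodromic in the quotient. -/
def stF9L : Prop := ∀ (G X I : Type) [Group G] [MulAction G X] [MulAction G I] (c : CC)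
  (M : PM X) (E R : I → Subgroup G) (Y : I → Set X), FS c M E R Y →
  ∀ (hY : ∀ i, (Y i).Nonempty) (hg : ∀ (g : G) (i : I), ∀ y ∈ Y i, g • y ∈ Y (g • i)),
  letI := coAct c.ρ hg
  ∀ (g : G) (x0 : X), Lox M g → (∀ i, g ∉ E i) → c.lam * M.d x0 (g • x0) ≤ c.M' →
  (∀ x : X, c.L < M.d x (g • x)) →
  ∀ (x : Co Y c.ρ) (m : ℕ), c.lam * c.κ * m ≤ dqf (c.Z M hY) (KK R) x (g ^ m • x)

/-- F15b: the concrete family of all the short loxodromic elements. -/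
def stF15b : Prop := ∀ (G X : Type) [Group G] [MulAction G X] (c : CC) (M : PM X),
  STAGE G M c.n c.δ c.Li c.A0 c.kl →
  FS c M (fun i : FI G M c.L => i.1) (fun i => Rn c.n i.1) (fun i => YY M c.L1 i.1) ∧
  (∀ (g : G) (x : X), Lox M g → M.d x (g • x) ≤ c.L → ∃ i : FI G M c.L, g ∈ i.1) ∧
  (∀ (I : Type) [MulAction G I] (E R : I → Subgroup G) (Y : I → Set X), FS c M E R Y →
    ∃ ι : I → FI G M c.L, ∀ i, (ι i).1 = E i ∧ YY M c.L1 (ι i).1 = Y i)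

/-- F15k: the killed family. -/
def stF15k : Prop := ∀ (G X : Type) [Group G] [MulAction G X] (c : CC) (M : PM X),
  STAGE G M c.n c.δ c.Li c.A0 c.kl →
  FS c M (fun i : KI G M c.L c.τ => i.1) (fun i => Rn c.n i.1) (fun i => YY M c.L1 i.1) ∧
  COV c M (fun i : KI G M c.L c.τ => i.1) ∧
  (∀ (i : KI G M c.L c.τ) (e : G), Subgroup.zpowers e = i.1 → sl M e < c.τ)

/-- F9S: EXACTNESS.  The stable length of a short loxodromic element which does not belong to any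
`E i` is multiplied by `lam`. -/
def stF9S : Prop := ∀ (G X I : Type) [Group G] [MulAction G X] [MulAction G I] (c : CC)
  (M : PM X) (E R : I → Subgroup G) (Y : I → Set X), FS c M E R Y →
  ∀ (hY : ∀ i, (Y i).Nonempty) (hg : ∀ (g : G) (i : I), ∀ y ∈ Y i, g • y ∈ Y (g • i)),
  letI := coAct c.ρ hg
  ∀ g : G, Lox M g → (∀ i, g ∉ E i) → (∃ x, M.d x (g • x) ≤ c.L) →
  ∀ (x : Co Y c.ρ) (m : ℕ), c.lam * sl M g * m ≤ dqf (c.Z M hY) (KK R) x (g ^ m • x)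

/-- F9: loxodromic elements which do not belong to any `E i` are loxodromic in the quotient. -/
def stF9 : Prop := ∀ (G X I : Type) [Group G] [MulAction G X] [MulAction G I] (c : CC)
  (M : PM X) (E R : I → Subgroup G) (Y : I → Set X), FS c M E R Y → COV c M E →
  ∀ (hY : ∀ i, (Y i).Nonempty) (hg : ∀ (g : G) (i : I), ∀ y ∈ Y i, g • y ∈ Y (g • i)),
  letI := coAct c.ρ hg
  ∀ (g : G) (x0 : X), Lox M g → (∀ i, g ∉ E i) → c.lam * M.d x0 (g • x0) ≤ c.M' →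
  ∀ (x : Co Y c.ρ) (m : ℕ), c.ko * m ≤ dqf (c.Z M hY) (KK R) x (g ^ m • x)

/-- F14s: points with bounded displacement by a short loxodromic element are close to each other
modulo the element. -/
def stF14s : Prop := ∀ (G X : Type) [Group G] [MulAction G X] (c : CC) (M : PM X),
  STAGE G M c.n c.δ c.Li c.A0 c.kl → ∀ g : G, Lox M g → (∃ x, M.d x (g • x) ≤ c.L) →
  ∀ (x y : X) (B : ℝ), Dp M g B x y → ∃ m : ℤ, M.d y (g ^ m • x) ≤ 2 * B + 100 * c.A3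

/-- F15: THE STEP: the cone-off is a stage modulo the subgroup generated by the `n`-th powers. -/
def stF15 : Prop := ∀ (G X I : Type) [Group G] [MulAction G X] [MulAction G I] (c : CC)
  (M : PM X) (E R : I → Subgroup G) (Y : I → Set X), FS c M E R Y → COV c M E →
  ∀ (hY : ∀ i, (Y i).Nonempty) (hg : ∀ (g : G) (i : I), ∀ y ∈ Y i, g • y ∈ Y (g • i)),
  letI := coAct c.ρ hg
  ∀ iso : ∀ (g : G) (x y : Co Y c.ρ), (c.Z M hY).d (g • x) (g • y) = (c.Z M hY).d x y,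
  STAGEK G (KK R) (dqPM (c.Z M hY) (KK R) iso) c.n c.δ c.L' c.A0 c.ko ∧
  (dqPM (c.Z M hY) (KK R) iso).Hyp c.δB

/-- F18: LIFTS of the elements of small stable length of the quotient. -/
def stF18 : Prop := ∀ (G X I : Type) [Group G] [MulAction G X] [MulAction G I] (c : CC)
  (M : PM X) (E R : I → Subgroup G) (Y : I → Set X), FS c M E R Y →
  ∀ (hY : ∀ i, (Y i).Nonempty) (hg : ∀ (g : G) (i : I), ∀ y ∈ Y i, g • y ∈ Y (g • i)),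
  letI := coAct c.ρ hg
  ∀ g : G, g ^ c.n ∈ KK R ∨
    (∀ (x : Co Y c.ρ) (m : ℕ), c.lam * c.κ * m ≤ dqf (c.Z M hY) (KK R) x (g ^ m • x)) ∨
    ∃ k ∈ KK R, Lox M (k * g) ∧ (∀ i, k * g ∉ E i) ∧ (∃ x, M.d x ((k * g) • x) ≤ c.L) ∧
      ∀ (x : Co Y c.ρ) (m : ℕ),
        c.lam * sl M (k * g) * m ≤ dqf (c.Z M hY) (KK R) x (g ^ m • x)

end BAN
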